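import Pool.Agent.NH7.GU.Stms

/-! # The cocycle `(ζ^χ ψ - 1) / (ζ - 1)` (A2) -/

set_option autoImplicit false
set_option linter.unusedSectionVars false

namespace Pool.Agent.NH7.GU

open Filter Topology

section bb

variable {p : ℕ} [hp : Fact p.Prime]

/-- the units congruent to one modulo `a` -/
def bbU (a : ℤ_[p]) : Subgroup ℤ_[p]ˣ where
  carrier := {u | a ∣ (u : ℤ_[p]) - 1}
  mul_mem' := by
    rintro x y ⟨s, hs⟩ ⟨t, ht⟩
    refine ⟨s * y + t, ?_⟩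
    push_cast
    linear_combination (y : ℤ_[p]) * hs + ht
  one_mem' := by
    change a ∣ ((1 : ℤ_[p]ˣ) : ℤ_[p]) - 1
    simp
  inv_mem' := by
    rintro x ⟨s, hs⟩
    refine ⟨-(s * ((x⁻¹ : ℤ_[p]ˣ) : ℤ_[p])), ?_⟩
    have h : (x : ℤ_[p]) * ((x⁻¹ : ℤ_[p]ˣ) : ℤ_[p]) = 1 := Units.mul_inv x
    linear_combination -((x⁻¹ : ℤ_[p]ˣ) : ℤ_[p]) * hs + h

variable {G : Type} [Group G] [TopologicalSpace G] [IsTopologicalGroup G]

theorem bb_psi_dvd (d : Dat p G) (r : ℤ) (g : G) : (p : ℤ_[p]) ∣ d.psi r g - 1 :=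
  Subgroup.zpow_mem (bbU (p : ℤ_[p])) (d.ε1 g) r

theorem bb_psi_dvd4 (d : Dat p G) (r : ℤ) (g : G) (h2 : p = 2) : (4 : ℤ_[p]) ∣ d.psi r g - 1 :=
  Subgroup.zpow_mem (bbU (4 : ℤ_[p])) (d.ε2 h2 g) r

theorem bb_psi_mul (d : Dat p G) (r : ℤ) (g h : G) : d.psi r (g * h) = d.psi r g * d.psi r h := by
  unfold Dat.psi
  rw [map_mul, mul_zpow, Units.val_mul]

theorem bb_psi_one (d : Dat p G) (r : ℤ) (g : G) (h : d.ε g = 1) : d.psi r g = 1 := by
  unfold Dat.psi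
  rw [h, one_zpow, Units.val_one]

theorem bb_psi_cont (d : Dat p G) (r : ℤ) : Continuous (d.psi r) := by
  unfold Dat.psi
  exact Units.continuous_val.comp (d.εc.zpow r)

theorem bb_nhds (a : ℤ_[p]) (n : ℕ) : ∀ᶠ x in 𝓝 a, (p : ℤ_[p]) ^ n ∣ x - a := by
  have hp0 : (0 : ℝ) < (p : ℝ) := by exact_mod_cast hp.out.pos
  have h : Metric.closedBall a ((p : ℝ) ^ (-n : ℤ)) ∈ 𝓝 a :=
    Metric.closedBall_mem_nhds a (zpow_pos hp0 _)
  filter_upwards [h] with x hx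
  rw [Metric.mem_closedBall, dist_eq_norm] at hx
  have h2 := (PadicInt.norm_le_pow_iff_mem_span_pow (x - a) n).1 hx
  exact Ideal.mem_span_singleton.1 h2

variable {O : Type} [CommRing O] [Algebra ℤ_[p] O]

theorem bb_zpow_add (C : Cyc p O) (a b : ZMod p) :
    C.z ^ (a + b).val = C.z ^ a.val * C.z ^ b.val := by
  rw [ZMod.val_add, ← pow_add, ← pow_eq_pow_mod (a.val + b.val) C.z_pow]

theorem bb_dvd_p (C : Cyc p O) (n : ℕ) (x : ℤ_[p]) (h : (p : ℤ_[p]) ^ n ∣ x) :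
    (C.z - 1) ^ n ∣ algebraMap ℤ_[p] O x := by
  have h1 : (C.z - 1) ∣ algebraMap ℤ_[p] O (p : ℤ_[p]) := by
    apply C.ker
    rw [C.ev_int, map_natCast]
    exact ZMod.natCast_self p
  obtain ⟨y, rfl⟩ := h
  rw [map_mul, map_pow]
  exact Dvd.dvd.mul_right (pow_dvd_pow_of_dvd h1 n) _

end bb

/-- (A2) -/
theorem s_bb : S_bb := by
  intro p _ O _ _ C G _ _ _ d c r
  have hdvd : ∀ g : G, (C.z - 1) ^ 2 ∣ algebraMap ℤ_[p] O (d.psi r g - 1) := fun g =>
    C.sq _ (bb_psi_dvd d r g) (fun h2 => bb_psi_dvd4 d r g h2)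
  choose t ht using hdvd
  let b : G → O := fun g => (∑ i ∈ Finset.range (c.χ g).val, C.z ^ i) *
    algebraMap ℤ_[p] O (d.psi r g) + (C.z - 1) * t g
  have hb : ∀ g, (C.z - 1) * b g = C.z ^ (c.χ g).val * algebraMap ℤ_[p] O (d.psi r g) - 1 := by
    intro g
    have h1 : (C.z - 1) * ∑ i ∈ Finset.range (c.χ g).val, C.z ^ i = C.z ^ (c.χ g).val - 1 :=
      mul_geom_sum C.z _
    have h2 := ht g
    rw [map_sub, map_one] at h2
    change (C.z - 1) * ((∑ i ∈ Finset.range (c.χ g).val, C.z ^ i) *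
      algebraMap ℤ_[p] O (d.psi r g) + (C.z - 1) * t g) = _
    linear_combination algebraMap ℤ_[p] O (d.psi r g) * h1 - h2
  have hev : ∀ g, C.ev (b g) = c.χ g := by
    intro g
    change C.ev ((∑ i ∈ Finset.range (c.χ g).val, C.z ^ i) *
      algebraMap ℤ_[p] O (d.psi r g) + (C.z - 1) * t g) = _
    have h1 : (PadicInt.toZMod (d.psi r g) : ZMod p) = 1 := by
      obtain ⟨y, hy⟩ := bb_psi_dvd d r g
      have : d.psi r g = 1 + (p : ℤ_[p]) * y := by rw [← hy]; ring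
      rw [this, map_add, map_mul, map_natCast, map_one, ZMod.natCast_self, zero_mul, add_zero]
    rw [map_add, map_mul, map_mul, map_sub, map_one, C.ev_z, sub_self, zero_mul, add_zero,
      C.ev_int, h1, mul_one, map_sum]
    simp only [map_pow, C.ev_z, one_pow, Finset.sum_const, Finset.card_range, nsmul_eq_mul, mul_one]
    exact ZMod.natCast_zmod_val _
  have hcan : ∀ x y : O, (C.z - 1) * x = (C.z - 1) * y → x = y := by
    intro x y h
    have := C.inj (x - y) (by rw [mul_sub, h, sub_self])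
    exact sub_eq_zero.1 this
  refine ⟨b, hb, hev, ?_, ?_, ?_, ?_⟩
  · intro n g
    have h1 : ∀ᶠ h in 𝓝 g, c.χ h = c.χ g :=
      c.c.continuousAt.eventually ((isOpen_discrete {c.χ g}).mem_nhds rfl)
    have h2 : ∀ᶠ h in 𝓝 g, (p : ℤ_[p]) ^ (n + 1) ∣ d.psi r h - d.psi r g :=
      (bb_psi_cont d r).continuousAt.eventually (bb_nhds (d.psi r g) (n + 1))
    filter_upwards [h1, h2] with h hh1 hh2
    obtain ⟨y, hy⟩ := bb_dvd_p C (n + 1) _ hh2
    refine ⟨C.z ^ (c.χ g).val * y, hcan _ _ ?_⟩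
    rw [mul_sub, hb, hb, hh1]
    rw [map_sub] at hy
    linear_combination C.z ^ (c.χ g).val * hy
  · intro g h
    apply hcan
    rw [hb, c.m, bb_zpow_add, bb_psi_mul, map_mul]
    linear_combination -(hb g) -
      C.z ^ (c.χ g).val * algebraMap ℤ_[p] O (d.psi r g) * hb h
  · intro i g hg hχ
    apply hcan
    rw [hb, hχ, ZMod.val_zero, pow_zero, one_mul, bb_psi_one d r g (d.εI i g hg), map_one,
      sub_self, mul_zero]
  · intro k
    refine ⟨1, 1, fun g hg hχ => ?_⟩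
    rw [pow_one, hb, hχ, ZMod.val_zero, pow_zero, one_mul, mul_one]

end Pool.Agent.NH7.GU
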