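import Pool.Agent.NH7.GU.Stms

/-!
# Project GU, D10: finite sets of primes which generate the class group (helper48)
-/

set_option autoImplicit false
set_option linter.unusedSectionVars false

namespace Pool.Agent.NH7.GU

open NumberField IsDedekindDomain Pool.Agent.W401.Cheb Pool.Agent.NH7.Sch Filter Topology
open scoped nonZeroDivisors

namespace ClsP

variable {K : Type} [Field K] [NumberField K]

theorem pow_dvd_iff (u : HS K) (x : 𝓞 K) (hx : x ≠ 0) (n : ℕ) :
    u.asIdeal ^ n ∣ Ideal.span {x} ↔ od u (ui x hx) ≤ -n := by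
  rw [od_ui_mem, Ideal.dvd_span_singleton]

theorem cop {u w : HS K} (h : u ≠ w) (n : ℕ) : IsCoprime (u.asIdeal ^ n) w.asIdeal := by
  apply IsCoprime.pow_left
  rw [Ideal.isCoprime_iff_sup_eq]
  have hu : u.asIdeal.IsMaximal := u.isPrime.isMaximal u.ne_bot
  have hw : w.asIdeal.IsMaximal := w.isPrime.isMaximal w.ne_bot
  refine hu.coprime_of_ne hw fun h' => h ?_
  exact HeightOneSpectrum.ext h'

/-- the relation between the orders -/
theorem od_rel {v w : HS K} {x y : 𝓞 K} (hx : x ≠ 0) (hy : y ≠ 0)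
    (h : Ideal.span {x} * v.asIdeal = Ideal.span {y} * w.asIdeal) (u : HS K) (hu : u ≠ w) :
    (Finsupp.single v 1 : HS K →₀ ℤ) u = od u (ui x hx * (ui y hy)⁻¹) := by
  rw [od_mul, od_inv]
  have hx0 := od_ui_le u x hx
  have hy0 := od_ui_le u y hy
  have h1 : ∀ n : ℕ, od u (ui y hy) ≤ -n ↔ u.asIdeal ^ n ∣ Ideal.span {x} * v.asIdeal := by
    intro n
    rw [h, ← pow_dvd_iff]
    constructor
    · exact fun h2 => h2.mul_right _
    · exact fun h2 => (cop hu n).dvd_of_dvd_mul_right h2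
  by_cases huv : v = u
  · subst huv
    rw [Finsupp.single_eq_same]
    have h2 : ∀ n : ℕ, od v (ui y hy) ≤ -((n + 1 : ℕ) : ℤ) ↔ od v (ui x hx) ≤ -n := by
      intro n
      rw [h1, ← pow_dvd_iff, pow_succ]
      exact mul_dvd_mul_iff_right v.ne_bot
    obtain ⟨a, ha⟩ := Int.eq_ofNat_of_zero_le (show 0 ≤ -od v (ui x hx) by omega)
    have h3 := h2 a
    have h4 := h2 (a + 1)
    push_cast at h3 h4
    omega
  · rw [Finsupp.single_eq_of_ne (by exact fun h => huv h.symm)]
    have h2 : ∀ n : ℕ, od u (ui y hy) ≤ -n ↔ od u (ui x hx) ≤ -n := by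
      intro n
      rw [h1, ← pow_dvd_iff]
      constructor
      · exact fun h2 => (cop (fun h => huv h.symm) n).dvd_of_dvd_mul_right h2
      · exact fun h2 => h2.mul_right _
    obtain ⟨a, ha⟩ := Int.eq_ofNat_of_zero_le (show 0 ≤ -od u (ui x hx) by omega)
    obtain ⟨b, hb⟩ := Int.eq_ofNat_of_zero_le (show 0 ≤ -od u (ui y hy) by omega)
    have h3 := h2 a
    have h4 := h2 b
    omega

end ClsP

open ClsP in
/-- D10. -/
theorem s_cls : S_cls := by
  intro K _ _ S
  classical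
  have hv0 : ∀ v : HS K, v.asIdeal ∈ (Ideal (𝓞 K))⁰ := fun v =>
    mem_nonZeroDivisors_of_ne_zero v.ne_bot
  let f : HS K → ClassGroup (𝓞 K) := fun v => ClassGroup.mk0 ⟨v.asIdeal, hv0 v⟩
  let S' : Finset (HS K) := S ∪ (Finset.univ : Finset (ClassGroup (𝓞 K))).biUnion
    fun c => if h : ∃ v, f v = c then {Classical.choose h} else ∅
  have hS' : ∀ v : HS K, ∃ w ∈ S', f w = f v := by
    intro v
    have h : ∃ w, f w = f v := ⟨v, rfl⟩
    refine ⟨Classical.choose h, ?_, Classical.choose_spec h⟩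
    apply Finset.mem_union_right
    rw [Finset.mem_biUnion]
    refine ⟨f v, Finset.mem_univ _, ?_⟩
    rw [dif_pos h, Finset.mem_singleton]
  have key : ∀ v : HS K, ∃ κ : Kˣ, ∀ u ∉ S', (Finsupp.single v 1 : HS K →₀ ℤ) u = od u κ := by
    intro v
    obtain ⟨w, hw, hfw⟩ := hS' v
    obtain ⟨x, y, hx, hy, hxy⟩ := ClassGroup.mk0_eq_mk0_iff.1 hfw.symm
    refine ⟨ui x hx * (ui y hy)⁻¹, fun u hu => od_rel hx hy hxy u ?_⟩
    rintro rfl
    exact hu hw
  refine ⟨S', Finset.subset_union_left, fun n => ?_⟩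
  induction n using Finsupp.induction_linear with
  | zero =>
    refine ⟨1, fun v _ => ?_⟩
    have h : od v (1 : Kˣ) = 0 := by
      have := od_mul v (1 : Kˣ) 1
      rw [one_mul] at this
      omega
    rw [h, Finsupp.zero_apply]
  | add a b ha hb =>
    obtain ⟨x, hx⟩ := ha
    obtain ⟨y, hy⟩ := hb
    exact ⟨x * y, fun v hv => by rw [Finsupp.add_apply, od_mul, hx v hv, hy v hv]⟩
  | single v m =>
    obtain ⟨κ, hκ⟩ := key v
    refine ⟨κ ^ m, fun u hu => ?_⟩
    rw [od_zpow, ← hκ u hu]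
    rw [Finsupp.single_apply, Finsupp.single_apply]
    split_ifs
    · rw [mul_one]
    · rw [mul_zero]

end Pool.Agent.NH7.GU
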