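import Pool.Agent.NH7.GU.Stms

/-!
# GU-A9: the corestriction of an element of `Ш¹` is in `Ш¹`
-/

set_option autoImplicit false
set_option linter.unusedSectionVars false

namespace Pool.Agent.NH7.GU

open Filter Topology

variable {p : ℕ} [hp : Fact p.Prime] {G : Type} [Group G] [TopologicalSpace G]

namespace CorZ

/-! ### powers of `1 + p^n u` -/

theorem unit_add {u B : ℤ_[p]} (hu : IsUnit u) : IsUnit (u + p * B) := by
  by_contra h
  have h1 : u + p * B ∈ IsLocalRing.maximalIdeal ℤ_[p] := by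
    rw [IsLocalRing.mem_maximalIdeal]; exact h
  have h2 : (p : ℤ_[p]) * B ∈ IsLocalRing.maximalIdeal ℤ_[p] := by
    rw [PadicInt.maximalIdeal_eq_span_p]
    exact Ideal.mul_mem_right _ _ (Ideal.mem_span_singleton_self _)
  have h3 : u ∈ IsLocalRing.maximalIdeal ℤ_[p] := by
    have := Ideal.sub_mem _ h1 h2
    rwa [add_sub_cancel_right] at this
  rw [IsLocalRing.mem_maximalIdeal] at h3
  exact h3 hu

theorem pow_p {n : ℕ} (hn : 2 ≤ n * (p - 1)) {u : ℤ_[p]} (hu : IsUnit u) :
    ∃ v : ℤ_[p], IsUnit v ∧ (1 + (p : ℤ_[p]) ^ n * u) ^ p = 1 + (p : ℤ_[p]) ^ (n + 1) * v := by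
  have hp2 := hp.out.two_le
  have hn1 : 1 ≤ n := by
    rcases Nat.eq_zero_or_pos n with h | h
    · rw [h] at hn; omega
    · exact h
  obtain ⟨A, hA⟩ : ∃ A : ℤ_[p], ∀ y : ℤ_[p], ∃ A, (1 + y) ^ p = 1 + y ^ p + p * y * (1 + y * A) := by
    refine ⟨0, fun y => ?_⟩
    rw [add_comm 1 y]
    refine ⟨∑ k ∈ Finset.Ioo 1 p, y ^ (k - 2) * ((p.choose k / p : ℕ) : ℤ_[p]), ?_⟩
    rw [Commute.add_pow_prime_eq hp.out (Commute.all y 1)]
    have h1 : ∑ k ∈ Finset.Ioo 0 p, y ^ (k - 1) * 1 ^ (p - k - 1) * ((p.choose k / p : ℕ) : ℤ_[p]) =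
        1 + y * ∑ k ∈ Finset.Ioo 1 p, y ^ (k - 2) * ((p.choose k / p : ℕ) : ℤ_[p]) := by
      have h2 : Finset.Ioo 0 p = insert 1 (Finset.Ioo 1 p) := by
        ext k
        simp only [Finset.mem_Ioo, Finset.mem_insert]
        omega
      rw [h2, Finset.sum_insert (by simp), Finset.mul_sum]
      congr 1
      · rw [Nat.choose_one_right, Nat.div_self hp.out.pos]; simp
      · refine Finset.sum_congr rfl fun k hk => ?_
        rw [Finset.mem_Ioo] at hk
        rw [one_pow, mul_one, show k - 1 = (k - 2) + 1 by omega, pow_succ]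
        ring
    rw [h1]
    ring
  obtain ⟨A, hA⟩ := hA ((p : ℤ_[p]) ^ n * u)
  obtain ⟨m, hm⟩ : ∃ m, n * (p - 1) = m + 2 := ⟨n * (p - 1) - 2, by omega⟩
  have hnp : n * p = n + (m + 2) := by
    rw [← hm]
    calc n * p = n * (1 + (p - 1)) := by congr 1; omega
      _ = n + n * (p - 1) := by ring
  obtain ⟨n', rfl⟩ : ∃ n', n = n' + 1 := ⟨n - 1, by omega⟩
  refine ⟨u + p * ((p : ℤ_[p]) ^ n' * u * u * A + (p : ℤ_[p]) ^ m * u ^ p), unit_add hu, ?_⟩
  rw [hA, mul_pow, ← pow_mul, hnp]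
  ring

theorem pow_ne : ∀ (m : ℕ), 1 ≤ m → ∀ (n : ℕ), 2 ≤ n * (p - 1) → ∀ u : ℤ_[p], IsUnit u →
    (1 + (p : ℤ_[p]) ^ n * u) ^ m ≠ 1 := by
  intro m
  induction m using Nat.strong_induction_on with
  | _ m ih =>
    intro hm n hn u hu h
    have hp2 := hp.out.two_le
    have hn1 : 1 ≤ n := by
      rcases Nat.eq_zero_or_pos n with h | h
      · rw [h] at hn; omega
      · exact h
    by_cases hd : p ∣ m
    · obtain ⟨m', rfl⟩ := hd
      obtain ⟨v, hv, hv1⟩ := pow_p hn hu
      rw [pow_mul, hv1] at h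
      have hm' : 1 ≤ m' := by
        rcases Nat.eq_zero_or_pos m' with h0 | h0
        · rw [h0] at hm; omega
        · exact h0
      refine ih m' ?_ hm' (n + 1) ?_ v hv h
      · nlinarith
      · calc 2 ≤ n * (p - 1) := hn
          _ ≤ (n + 1) * (p - 1) := Nat.mul_le_mul_right _ (by omega)
    · -- the geometric sum is a unit
      set x : ℤ_[p] := 1 + (p : ℤ_[p]) ^ n * u with hx
      have h1 : (∑ i ∈ Finset.range m, x ^ i) * (x - 1) = 0 := by
        rw [geom_sum_mul, h, sub_self]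
      have hx1 : x - 1 ≠ 0 := by
        rw [hx, add_sub_cancel_left]
        refine mul_ne_zero (pow_ne_zero _ ?_) hu.ne_zero
        exact_mod_cast hp.out.ne_zero
      have h2 := (mul_eq_zero.1 h1).resolve_right hx1
      have h3 := congrArg (PadicInt.toZMod (p := p)) h2
      have hxz : PadicInt.toZMod x = 1 := by
        rw [hx, map_add, map_one, map_mul, map_pow, map_natCast, ZMod.natCast_self,
          zero_pow (by omega), zero_mul, add_zero]
      rw [map_sum, map_zero] at h3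
      simp only [map_pow, hxz, one_pow, Finset.sum_const, Finset.card_range, nsmul_eq_mul,
        mul_one] at h3
      exact hd ((ZMod.natCast_eq_zero_iff m p).1 h3)

/-! ### the cocycle -/

variable (d : Dat p G) (c : Chr p G) (r : ℤ)

theorem psi_mul (g h : G) : d.psi r (g * h) = d.psi r g * d.psi r h := by
  unfold Dat.psi
  rw [map_mul, mul_zpow, Units.val_mul]

theorem psi_conj (g s : G) : d.psi r (s⁻¹ * g * s) = d.psi r g := by
  unfold Dat.psi
  rw [map_mul, map_mul, map_inv]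
  congr 2
  rw [mul_comm, ← mul_assoc, mul_inv_cancel, one_mul]

theorem psi_one_of {g : G} (h : d.ε g = 1) : d.psi r g = 1 := by
  unfold Dat.psi
  rw [h, one_zpow, Units.val_one]

theorem chi_pow (g : G) (m : ℕ) : c.χ (g ^ m) = m * c.χ g := by
  induction m with
  | zero =>
    have h := c.m 1 1
    rw [mul_one] at h
    rw [pow_zero, Nat.cast_zero, zero_mul]
    exact left_eq_add.1 h
  | succ m ih => rw [pow_succ, c.m, ih]; push_cast; ring

theorem pow_mem (g : G) : g ^ p ∈ c.ker := by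
  rw [Chr.mem_ker, chi_pow, ZMod.natCast_self, zero_mul]

theorem conj_mem {g : G} (hg : g ∈ c.ker) (s : G) : s⁻¹ * g * s ∈ c.ker := by
  rw [Chr.mem_ker] at hg ⊢
  rw [c.m, c.m, hg, add_zero, ← c.m, inv_mul_cancel]
  have h := c.m 1 1
  rw [mul_one] at h
  exact left_eq_add.1 h

theorem add_pow {d : Dat p G} {r : ℤ} {F : G → ℤ_[p]}
    (hF : ∀ g h, F (g * h) = F g + d.psi r g * F h) {g : G} (hg : d.psi r g = 1) (m : ℕ) :
    F (g ^ m) = m * F g := by
  have h1 : F 1 = 0 := by
    have h := hF 1 1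
    rw [mul_one, psi_one_of d r (map_one d.ε), one_mul] at h
    exact left_eq_add.1 h
  induction m with
  | zero => rw [pow_zero, h1, Nat.cast_zero, zero_mul]
  | succ m ih => rw [pow_succ', hF, hg, ih]; push_cast; ring

end CorZ

open CorZ

theorem s_corZ (hc : S_cor) : S_corZ := by
  intro p hp G _ _ _ d c r f hf
  obtain ⟨F, h1, h2, h3⟩ := hc p ℤ_[p] 1 (one_pow p) G d c r f hf.coc
  have hF : ∀ g h, F (g * h) = F g + d.psi r g * F h := by
    intro g h
    have := h1 g h
    rwa [one_pow, one_mul, Algebra.algebraMap_self, RingHom.id_apply] at this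
  have hK : ∀ g ∈ c.ker, F g = ∑ i : ZMod p,
      d.psi r (c.σ ^ i.val) * f ((c.σ ^ i.val)⁻¹ * g * c.σ ^ i.val) := by
    intro g hg
    rw [h2 g hg]
    refine Finset.sum_congr rfl fun i _ => ?_
    rw [one_pow, one_mul, Algebra.algebraMap_self, RingHom.id_apply]
  have hpp : (p : ℤ_[p]) ≠ 0 := by exact_mod_cast hp.out.ne_zero
  refine ⟨F, ⟨⟨?_, fun g _ h _ => hF g h⟩, ?_, ?_⟩, hK⟩
  · have hcF : Continuous F := by
      rw [continuous_iff_continuousAt]
      intro g
      rw [ContinuousAt, Metric.tendsto_nhds]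
      intro ε hε
      have hp1 : (1 : ℝ) < p := by exact_mod_cast hp.out.one_lt
      obtain ⟨n, hn⟩ := exists_pow_lt_of_lt_one hε
        (inv_lt_one_of_one_lt₀ hp1 : ((p : ℝ))⁻¹ < 1)
      filter_upwards [h3 n g] with h hh
      rw [Algebra.algebraMap_self, RingHom.id_apply] at hh
      rw [dist_eq_norm]
      obtain ⟨t, ht⟩ := hh
      rw [ht, norm_mul, norm_pow, PadicInt.norm_p]
      have ht1 := PadicInt.norm_le_one t
      have : (0 : ℝ) ≤ ((p : ℝ)⁻¹) ^ n := by positivity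
      nlinarith
    exact hcF.comp continuous_subtype_val
  · intro i g hg _
    have e1 : d.psi r g = 1 := psi_one_of d r (d.εI i g hg)
    have e2 := add_pow hF e1 p
    have e3 : F (g ^ p) = 0 := by
      rw [hK _ (pow_mem c g)]
      refine Finset.sum_eq_zero fun j _ => ?_
      obtain ⟨k, hk⟩ := d.I_conj i (c.σ ^ j.val)⁻¹
      have h5 := (hk (g ^ p)).1 ((d.I i).pow_mem hg p)
      rw [inv_inv] at h5
      rw [hf.away k _ h5 (conj_mem c (pow_mem c g) _), mul_zero]
    rw [e3] at e2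
    exact (mul_eq_zero.1 e2.symm).resolve_left hpp
  · intro k
    have hz : ∀ i : ZMod p, ∃ z : ℤ_[p], ∀ g ∈ d.D k, g ∈ c.ker →
        f ((c.σ ^ i.val)⁻¹ * g * c.σ ^ i.val) = (d.psi r g - 1) * z := by
      intro i
      obtain ⟨j, hj⟩ := d.D_conj k (c.σ ^ i.val)⁻¹
      obtain ⟨z, hz⟩ := hf.above j
      refine ⟨z, fun g hg hgk => ?_⟩
      have h5 := (hj g).1 hg
      rw [inv_inv] at h5
      rw [hz _ h5 (conj_mem c hgk _), psi_conj]
    choose z hz using hz
    obtain ⟨t, ht⟩ : ∃ t, t = ∑ i : ZMod p, d.psi r (c.σ ^ i.val) * z i := ⟨_, rfl⟩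
    have hFk : ∀ g ∈ d.D k, g ∈ c.ker → F g = (d.psi r g - 1) * t := by
      intro g hg hgk
      rw [hK g hgk, ht, Finset.mul_sum]
      refine Finset.sum_congr rfl fun i _ => ?_
      rw [hz i g hg hgk]
      ring
    obtain ⟨F', hF'⟩ : ∃ F' : G → ℤ_[p], ∀ g, F' g = F g - (d.psi r g - 1) * t := ⟨_, fun _ => rfl⟩
    have hm : ∀ g h, F' (g * h) = F' g + d.psi r g * F' h := by
      intro g h
      rw [hF', hF', hF', hF, psi_mul]
      ring
    have h0 : ∀ g ∈ d.D k, g ∈ c.ker → F' g = 0 := by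
      intro g hg hgk
      rw [hF', hFk g hg hgk, sub_self]
    refine ⟨t, fun g hg _ => ?_⟩
    suffices hs : F' g = 0 by
      rw [hF'] at hs
      exact sub_eq_zero.1 hs
    by_cases hr : r = 0
    · subst hr
      have e1 : d.psi 0 g = 1 := by unfold Dat.psi; rw [zpow_zero, Units.val_one]
      have e2 := add_pow hm e1 p
      rw [h0 _ ((d.D k).pow_mem hg p) (pow_mem c g)] at e2
      exact (mul_eq_zero.1 e2.symm).resolve_left hpp
    · obtain ⟨g0, hg0, hu⟩ := d.hu k
      have hh1 : g0 ^ p ∈ d.D k := (d.D k).pow_mem hg0 p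
      have hh2 : g0 ^ p ∈ c.ker := pow_mem c g0
      have hne : d.psi r (g0 ^ p) ≠ 1 := by
        intro h
        have h6 : (d.ε (g0 ^ p)) ^ r = 1 := Units.ext (by rw [Units.val_one]; exact h)
        have h7 : (d.ε (g0 ^ p)) ^ r.natAbs = 1 := by
          rcases Int.natAbs_eq r with h8 | h8
          · rw [h8, zpow_natCast] at h6; exact h6
          · rw [h8, zpow_neg, zpow_natCast, inv_eq_one] at h6; exact h6
        rw [map_pow, ← pow_mul] at h7
        have h9 := congrArg Units.val h7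
        rw [Units.val_pow_eq_pow_val, Units.val_one, d.hl k g0 hg0] at h9
        refine pow_ne (p * r.natAbs) ?_ (d.n k) ?_ (d.l k g0) hu h9
        · exact Nat.mul_pos hp.out.pos (Int.natAbs_pos.2 hr)
        · have hp2 := hp.out.two_le
          rcases Nat.lt_or_ge 2 p with h10 | h10
          · calc 2 = 1 * 2 := rfl
              _ ≤ d.n k * (p - 1) := Nat.mul_le_mul (d.n1 k) (by omega)
          · have h11 : p = 2 := by omega
            calc 2 = 2 * 1 := rfl
              _ ≤ d.n k * (p - 1) := Nat.mul_le_mul (d.n2 h11 k) (by omega)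
      have e1 : F' (g0 ^ p * g) = d.psi r (g0 ^ p) * F' g := by
        rw [hm, h0 _ hh1 hh2, zero_add]
      have e2 : F' (g0 ^ p * g) = F' g := by
        rw [show g0 ^ p * g = g * (g⁻¹ * g0 ^ p * g) by group, hm,
          h0 _ ((d.D k).mul_mem ((d.D k).mul_mem ((d.D k).inv_mem hg) hh1) hg)
            (conj_mem c hh2 g), mul_zero, add_zero]
      have e3 : (d.psi r (g0 ^ p) - 1) * F' g = 0 := by
        rw [sub_mul, one_mul, ← e1, e2, sub_self]
      exact (mul_eq_zero.1 e3).resolve_left (sub_ne_zero.2 hne)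

end Pool.Agent.NH7.GU
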