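import Pool.Agent.NH7.GU.Stms

/-!
# Going up for Schneider's conjecture, D5: counting (helper17)
-/

set_option autoImplicit false
set_option linter.unusedSectionVars false

namespace Pool.Agent.NH7.GU

open NumberField IsDedekindDomain Pool.Agent.W401.Cheb Pool.Agent.NH7.Sch Filter Topology

namespace CtP

section group

variable {A : Type} [Group A]

theorem relIndex_le (H T : Subgroup A) {β : Type} [Finite β] (f : A → β)
    (h : ∀ x ∈ T, ∀ y ∈ T, f x = f y → x⁻¹ * y ∈ H) :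
    H.relIndex T ≤ Nat.card β ∧ Finite (T ⧸ H.subgroupOf T) := by
  have hinj : Function.Injective (fun q : T ⧸ H.subgroupOf T => f ((Quotient.out q : T) : A)) := by
    intro q q' hq
    have h1 := h _ (Quotient.out q).2 _ (Quotient.out q').2 hq
    have h2 : (QuotientGroup.mk (Quotient.out q) : T ⧸ H.subgroupOf T) =
        QuotientGroup.mk (Quotient.out q') := by
      rw [QuotientGroup.eq, Subgroup.mem_subgroupOf]
      exact h1
    rwa [QuotientGroup.out_eq', QuotientGroup.out_eq'] at h2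
  exact ⟨Nat.card_le_card_of_injective _ hinj, Finite.of_injective _ hinj⟩

theorem index_le (N : Subgroup A) {β : Type} [Finite β] (f : A → β)
    (h : ∀ x y, f x = f y → x⁻¹ * y ∈ N) : N.index ≤ Nat.card β := by
  have hinj : Function.Injective (fun q : A ⧸ N => f (Quotient.out q)) := by
    intro q q' hq
    have h1 := h _ _ hq
    have h2 : (QuotientGroup.mk (Quotient.out q) : A ⧸ N) = QuotientGroup.mk (Quotient.out q') := by
      rw [QuotientGroup.eq]
      exact h1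
    rwa [QuotientGroup.out_eq', QuotientGroup.out_eq'] at h2
  exact Nat.card_le_card_of_injective _ hinj

end group

section

variable {K : Type} [Field K] [NumberField K]

theorem od_fin (κ : Kˣ) : {v : HS K | od v κ ≠ 0}.Finite := by
  refine ((HeightOneSpectrum.Support.finite (𝓞 K) (κ : K)).union
    (HeightOneSpectrum.Support.finite (𝓞 K) ((κ⁻¹ : Kˣ) : K))).subset ?_
  intro v hv
  have hv' : od v κ ≠ 0 := hv
  rcases lt_or_gt_of_ne hv' with h | h
  · right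
    change 1 < v.valuation K ((κ⁻¹ : Kˣ) : K)
    rw [val_od, od_inv, ← WithZero.exp_zero, WithZero.exp_lt_exp]
    omega
  · left
    change 1 < v.valuation K (κ : K)
    rw [val_od, ← WithZero.exp_zero, WithZero.exp_lt_exp]
    omega

/-- the divisor (with the sign of `od`) -/
noncomputable def dv (κ : Kˣ) : HS K →₀ ℤ :=
  Finsupp.ofSupportFinite (fun v => -od v κ) ((od_fin κ).subset fun v hv => by
    intro h
    apply hv
    change -od v κ = 0
    rw [h, neg_zero])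

theorem dv_apply (κ : Kˣ) (v : HS K) : dv κ v = -od v κ := rfl

theorem od_one (v : HS K) : od v (1 : Kˣ) = 0 := by
  have := od_mul v (1 : Kˣ) 1
  rw [one_mul] at this
  omega

/-- the elements whose divisor is divisible by `p` outside `S` -/
def WW (p : ℕ) (S : Finset (HS K)) : Subgroup Kˣ where
  carrier := {κ | ∀ v ∉ S, (p : ℤ) ∣ od v κ}
  mul_mem' := fun {a b} ha hb v hv => by
    rw [od_mul]
    exact dvd_add (ha v hv) (hb v hv)
  one_mem' := fun v _ => by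
    rw [od_one]
    exact dvd_zero _
  inv_mem' := fun {a} ha v hv => by
    rw [od_inv]
    exact (ha v hv).neg_right

theorem mem_WW {p : ℕ} {S : Finset (HS K)} {κ : Kˣ} : κ ∈ WW p S ↔ ∀ v ∉ S, (p : ℤ) ∣ od v κ :=
  Iff.rfl

variable {p : ℕ} [hp : Fact p.Prime] {ζ : K} (hζ : IsPrimitiveRoot ζ p)

/-- the `p`-th powers -/
abbrev PP (K : Type) [Field K] (p : ℕ) : Subgroup Kˣ := (powMonoidHom p : Kˣ →* Kˣ).range

theorem mem_PP {κ : Kˣ} : κ ∈ PP K p ↔ ∃ s : Kˣ, s ^ p = κ := Iff.rfl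

theorem H0_le (S : Finset (HS K)) (lam : HS K → GK K → ZMod p) : H0 hζ S ≤ HL hζ S lam := by
  intro κ hκ v hv
  exact ⟨0, fun g hg => by rw [hκ v hv g hg, zero_mul]⟩

theorem PP_le (S : Finset (HS K)) (lam : HS K → GK K → ZMod p) :
    PP K p ≤ WW p S ⊓ HL hζ S lam := by
  rintro _ ⟨s, rfl⟩
  refine ⟨fun v _ => ?_, fun v _ => ⟨0, fun g _ => ?_⟩⟩
  · change (p : ℤ) ∣ od v (s ^ p)
    rw [od_pow]
    exact dvd_mul_right _ _
  · change kp hζ (s ^ p) g = _
    rw [kp_ppow, zero_mul]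

/-- (ii) -/
theorem relIndex_H0 (S : Finset (HS K)) (lam : HS K → GK K → ZMod p) :
    (H0 hζ S).relIndex (HL hζ S lam) ≤ p ^ S.card := by
  classical
  have hex : ∀ κ : Kˣ, ∃ a : S → ZMod p, κ ∈ HL hζ S lam →
      ∀ v : S, ∀ g ∈ Dec (Qv (v : HS K)), kp hζ κ g = a v * lam v g := by
    intro κ
    by_cases hκ : κ ∈ HL hζ S lam
    · choose a ha using fun v : S => hκ v v.2
      exact ⟨a, fun _ => ha⟩
    · exact ⟨0, fun h => absurd h hκ⟩
  choose a ha using hex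
  have : NeZero p := ⟨hp.out.ne_zero⟩
  have h1 := (relIndex_le (H0 hζ S) (HL hζ S lam) a fun x hx y hy hxy => by
    intro v hv g hg
    rw [kp_mul_left, kp_inv_left, ha x hx ⟨v, hv⟩ g hg, ha y hy ⟨v, hv⟩ g hg, hxy]
    ring).1
  refine h1.trans (le_of_eq ?_)
  rw [Nat.card_fun, Nat.card_zmod, Nat.card_eq_fintype_card, Fintype.card_coe]

/-- (iii) -/
theorem relIndex_PP (S : Finset (HS K)) {N : ℕ} {B : Finset Kˣ} (hB : B.card ≤ N)
    (h : ∀ κ : Kˣ, (∀ v ∉ S, (p : ℤ) ∣ od v κ) → ∃ b ∈ B, ∃ s : Kˣ, κ = b * s ^ p) :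
    (PP K p).relIndex (WW p S) ≤ N ∧ Finite (WW p S ⧸ (PP K p).subgroupOf (WW p S)) := by
  classical
  obtain ⟨b₀, hb₀, -⟩ := h 1 (fun v _ => by rw [od_one]; exact dvd_zero _)
  have hex : ∀ κ : Kˣ, ∃ b : B, κ ∈ WW p S → ∃ s : Kˣ, κ = b * s ^ p := by
    intro κ
    by_cases hκ : κ ∈ WW p S
    · obtain ⟨b, hb, s, hs⟩ := h κ hκ
      exact ⟨⟨b, hb⟩, fun _ => ⟨s, hs⟩⟩
    · exact ⟨⟨b₀, hb₀⟩, fun h => absurd h hκ⟩
  choose f hf using hex
  obtain ⟨h1, h2⟩ := relIndex_le (PP K p) (WW p S) f fun x hx y hy hxy => by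
    obtain ⟨s, hs⟩ := hf x hx
    obtain ⟨t, ht⟩ := hf y hy
    refine ⟨s⁻¹ * t, ?_⟩
    change (s⁻¹ * t) ^ p = x⁻¹ * y
    have e1 : x⁻¹ * y = (((f y : Kˣ)) * s ^ p)⁻¹ * ((f y : Kˣ) * t ^ p) := by
      rw [← ht]
      congr 2
      rw [← hxy]
      exact hs
    rw [e1, mul_pow, inv_pow, mul_inv_rev]
    group
  refine ⟨h1.trans ?_, h2⟩
  rw [Nat.card_eq_fintype_card, Fintype.card_coe]
  exact hB

/-- (i) -/
theorem card_Sel (S : Finset (HS K)) (hS : ∀ v : HS K, (p : 𝓞 K) ∈ v.asIdeal → v ∈ S)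
    (lam : HS K → GK K → ZMod p)
    (hfin : Finite ((WW p S ⊓ HL hζ S lam : Subgroup Kˣ) ⧸
      (PP K p).subgroupOf (WW p S ⊓ HL hζ S lam))) :
    Nat.card (Sel p S lam) ≤ (PP K p).relIndex (WW p S ⊓ HL hζ S lam) := by
  classical
  have hnotp : ∀ v ∉ S, (p : OO K) ∉ Qv v := by
    intro v hv h
    apply hv
    apply hS
    rw [← Qv_comap v, Ideal.mem_comap, map_natCast]
    exact h
  have hmem : ∀ κ ∈ WW p S ⊓ HL hζ S lam, kp hζ κ ∈ Sel p S lam := by
    rintro κ ⟨h1, h2⟩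
    refine ⟨⟨kp_cont hζ κ, kp_mul_right hζ κ⟩, h2, fun v hv g hg => ?_⟩
    exact kp_inr_zero hζ (Qv_max v) (Qv_comap v) (hnotp v hv) (h1 v hv) hg
  let φ : ((WW p S ⊓ HL hζ S lam : Subgroup Kˣ) ⧸
      (PP K p).subgroupOf (WW p S ⊓ HL hζ S lam)) → Sel p S lam :=
    fun q => ⟨kp hζ ((Quotient.out q : (WW p S ⊓ HL hζ S lam : Subgroup Kˣ)) : Kˣ),
      hmem _ (Quotient.out q).2⟩
  have hsurj : Function.Surjective φ := by
    rintro ⟨x, hx⟩
    obtain ⟨κ, hκ⟩ := kp_surj hζ hx.1.c hx.1.m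
    have hκx : kp hζ κ = x := funext hκ
    have hκT : κ ∈ WW p S ⊓ HL hζ S lam := by
      refine ⟨fun v hv => ?_, fun v hv => ?_⟩
      · exact od_dvd_of_inr hζ (Qv_max v) (Qv_comap v) fun σ hσ => by
          rw [hκx]
          exact hx.2.2 v hv σ hσ
      · obtain ⟨a, ha⟩ := hx.2.1 v hv
        exact ⟨a, fun g hg => by rw [hκx]; exact ha g hg⟩
    refine ⟨QuotientGroup.mk ⟨κ, hκT⟩, ?_⟩
    apply Subtype.ext
    change kp hζ _ = x
    obtain ⟨q, hq⟩ : ∃ q : (WW p S ⊓ HL hζ S lam : Subgroup Kˣ), q = Quotient.out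
      (QuotientGroup.mk ⟨κ, hκT⟩ : ((WW p S ⊓ HL hζ S lam : Subgroup Kˣ) ⧸
        (PP K p).subgroupOf (WW p S ⊓ HL hζ S lam))) := ⟨_, rfl⟩
    rw [← hq]
    have h1 : (QuotientGroup.mk (⟨κ, hκT⟩ : (WW p S ⊓ HL hζ S lam : Subgroup Kˣ)) :
        ((WW p S ⊓ HL hζ S lam : Subgroup Kˣ) ⧸
        (PP K p).subgroupOf (WW p S ⊓ HL hζ S lam))) = QuotientGroup.mk q := by
      rw [hq, QuotientGroup.out_eq']
    rw [QuotientGroup.eq, Subgroup.mem_subgroupOf] at h1
    obtain ⟨s, hs⟩ := h1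
    have h2 : (q : Kˣ) = κ * s ^ p := by
      have h3 : s ^ p = κ⁻¹ * (q : Kˣ) := hs
      rw [h3, mul_inv_cancel_left]
    funext g
    rw [h2, kp_mul_left, kp_ppow, add_zero]
    exact hκ g
  exact Nat.card_le_card_of_surjective φ hsurj

/-- (iv) -/
theorem index_sup (S : Finset (HS K)) (lam : HS K → GK K → ZMod p)
    [Finite (Cq p S (HL hζ S lam))] :
    (WW p S ⊔ HL hζ S lam).index ≤ Nat.card (Cq p S (HL hζ S lam)) := by
  refine index_le _ (fun κ => (QuotientAddGroup.mk (dv κ) : Cq p S (HL hζ S lam))) ?_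
  intro x y hxy
  have hxy' : (QuotientAddGroup.mk (dv x) : Cq p S (HL hζ S lam)) = QuotientAddGroup.mk (dv y) := hxy
  rw [QuotientAddGroup.eq] at hxy'
  obtain ⟨κ, hκ, h⟩ := hxy'
  have h1 : x⁻¹ * y = (x⁻¹ * y * κ⁻¹) * κ := by group
  rw [h1]
  refine Subgroup.mul_mem_sup (fun v hv => ?_) hκ
  have h2 := h v hv
  rw [Finsupp.add_apply, Finsupp.neg_apply, dv_apply, dv_apply] at h2
  rw [od_mul, od_mul, od_inv, od_inv]
  have e : -od v x + od v y + -od v κ = -(- -od v x + -od v y + od v κ) := by ring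
  rw [e]
  exact h2.neg_right

end

end CtP

open CtP in
theorem s_ct (h0 : S_mod) (h1 : S_cfin) (h2 : S_sun) (h3 : S_loc) (_h4 : S_sfin) : S_ct := by
  classical
  intro K _ _ _ p hp ζ hζ S hS hcl lam
  obtain ⟨𝔪, hm0, hmS, hm1⟩ := h0 K p ζ hζ S hS
  have hfin : Finite (Cq p S (HL hζ S lam)) :=
    h1 K p S (HL hζ S lam) 𝔪 hm0 hmS fun x hx hx1 => H0_le hζ S lam (hm1 x hx hx1)
  obtain ⟨B, hB1, hB2⟩ := h2 K p ζ hζ S hcl
  obtain ⟨hf0, hc0⟩ := h3 K p ζ hζ S hS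
  obtain ⟨hP1, hP2⟩ := relIndex_PP (p := p) S hB1 hB2
  have hp0 : 0 < p := hp.out.pos
  set n := Module.finrank ℚ K with hn
  set s := S.card with hs
  -- the indices
  have e1 := Subgroup.relIndex_mul_index (H0_le hζ S lam)
  have e2 := Subgroup.relIndex_mul_relIndex (PP K p) (WW p S ⊓ HL hζ S lam) (WW p S)
    (PP_le hζ S lam) inf_le_left
  rw [Subgroup.inf_relIndex_left] at e2
  have e3 : (HL hζ S lam).relIndex (WW p S ⊔ HL hζ S lam) = (HL hζ S lam).relIndex (WW p S) :=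
    Subgroup.relIndex_sup_right _ _
  have e4 := Subgroup.relIndex_mul_index (show HL hζ S lam ≤ WW p S ⊔ HL hζ S lam from le_sup_right)
  rw [e3] at e4
  have hPne : (PP K p).relIndex (WW p S) ≠ 0 := by
    have : Nat.card (WW p S ⧸ (PP K p).subgroupOf (WW p S)) ≠ 0 := Nat.card_pos.ne'
    exact this
  have hfinT : Finite ((WW p S ⊓ HL hζ S lam : Subgroup Kˣ) ⧸
      (PP K p).subgroupOf (WW p S ⊓ HL hζ S lam)) := by
    apply Nat.finite_of_card_ne_zero
    intro h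
    apply hPne
    have h' : (PP K p).relIndex (WW p S ⊓ HL hζ S lam) = 0 := h
    rw [← e2, h', zero_mul]
  have hSel := card_Sel hζ S hS lam hfinT
  have hidx := index_sup hζ S lam
  have hH0 := relIndex_H0 hζ S lam
  have hc0' : p ^ (2 * s + n) ≤ (H0 hζ S).index := hc0
  -- the arithmetic
  generalize (H0 hζ S).relIndex (HL hζ S lam) = x1 at e1 hH0
  generalize (HL hζ S lam).index = x2 at e1 e4
  generalize (H0 hζ S).index = x3 at e1 hc0'
  generalize (PP K p).relIndex (WW p S ⊓ HL hζ S lam) = x4 at e2 hSel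
  generalize (HL hζ S lam).relIndex (WW p S) = r at e2 e4
  generalize (PP K p).relIndex (WW p S) = x5 at e2 hP1
  generalize (WW p S ⊔ HL hζ S lam).index = x6 at e4 hidx
  have a1 : p ^ (s + n) ≤ x2 := by
    have b1 : p ^ s * p ^ (s + n) ≤ p ^ s * x2 := by
      calc p ^ s * p ^ (s + n) = p ^ (2 * s + n) := by rw [← pow_add]; congr 1; omega
        _ ≤ x3 := hc0'
        _ = x1 * x2 := e1.symm
        _ ≤ p ^ s * x2 := Nat.mul_le_mul_right _ hH0
    exact Nat.le_of_mul_le_mul_left b1 (pow_pos hp0 s)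
  have hr : 0 < r := by
    rcases Nat.eq_zero_or_pos r with h | h
    · rw [h, zero_mul] at e4
      have := pow_pos hp0 (s + n)
      omega
    · exact h
  refine le_trans ?_ hidx
  refine Nat.le_of_mul_le_mul_left ?_ hr
  calc r * (Nat.card (Sel p S lam) * p ^ (n / 2)) ≤ r * (x4 * p ^ (n / 2)) :=
        Nat.mul_le_mul_left _ (Nat.mul_le_mul_right _ hSel)
    _ = x5 * p ^ (n / 2) := by rw [← e2]; ring
    _ ≤ p ^ (s + n / 2) * p ^ (n / 2) := Nat.mul_le_mul_right _ hP1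
    _ = p ^ (s + n / 2 + n / 2) := (pow_add _ _ _).symm
    _ ≤ p ^ (s + n) := Nat.pow_le_pow_right hp0 (by omega)
    _ ≤ x2 := a1
    _ = r * x6 := e4.symm

end Pool.Agent.NH7.GU
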