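import Pool.Agent.NH7.GU.Stms

/-!
# Project GU (helper7), C5: natural densities bound the prime sums.  Written by helper81.
-/

set_option autoImplicit false

namespace Pool.Agent.NH7.GU.AblP

open NumberField IsDedekindDomain Filter Topology Finset
open Pool.Agent.W401.Cheb (dens)
open ArithmeticFunction ArithmeticFunction.vonMangoldt Complex

/-- the sum of the von Mangoldt function -/
theorem vM : ∃ C : ℝ, ∀ x : ℝ, 1 < x → x < 2 →
    Summable (fun n : ℕ => vonMangoldt n / (n : ℝ) ^ x) ∧ ∑' n : ℕ, vonMangoldt n / (n : ℝ) ^ x ≤ 1 / (x - 1) + C := by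
  have ha : IsUnit (1 : ZMod 1) := isUnit_one
  have hres : ∀ n : ℕ, residueClass (1 : ZMod 1) n = vonMangoldt n := by
    intro n
    unfold residueClass
    rw [Set.indicator_of_mem]
    show ((n : ℕ) : ZMod 1) = 1
    exact Subsingleton.elim _ _
  have H {x : ℝ} (hx : 1 < x) :
      ∑' n, residueClass (1 : ZMod 1) n / (n : ℝ) ^ x =
        (LFunctionResidueClassAux (1 : ZMod 1) x).re + ((1 : ℕ).totient : ℝ)⁻¹ / (x - 1) := by
    refine ofReal_injective ?_
    simp only [ofReal_tsum, ofReal_div, ofReal_cpow (Nat.cast_nonneg _), ofReal_natCast,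
      ofReal_add, ofReal_inv, ofReal_sub, ofReal_one]
    simp_rw [← LFunctionResidueClassAux_real ha hx,
      eqOn_LFunctionResidueClassAux ha <| Set.mem_ofPred.mpr (ofReal_re x ▸ hx), sub_add_cancel,
      LSeries, LSeries.term]
    refine tsum_congr fun n ↦ ?_
    split_ifs with hn
    · simp only [hn, residueClass_apply_zero, ofReal_zero, zero_div]
    · rfl
  have hcont : ContinuousOn (fun x : ℝ ↦ (LFunctionResidueClassAux (1 : ZMod 1) x).re)
      (Set.Icc 1 2) :=
    continuous_re.continuousOn.comp (t := Set.univ) (continuousOn_LFunctionResidueClassAux _)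
      (fun ⦃x⦄ a ↦ trivial) |>.comp continuous_ofReal.continuousOn fun x hx ↦ by
        simpa only [Set.mem_ofPred_eq, ofReal_re] using hx.1
  obtain ⟨C, hC⟩ := bddAbove_def.mp <| IsCompact.bddAbove_image isCompact_Icc hcont
  refine ⟨C, fun x hx1 hx2 => ⟨?_, ?_⟩⟩
  · have h1 : LSeriesSummable (fun n => ((residueClass (1 : ZMod 1) n : ℝ) : ℂ)) x :=
      LSeriesSummable_of_abscissaOfAbsConv_lt_re <|
        (abscissaOfAbsConv_residueClass_le_one (1 : ZMod 1)).trans_lt <| by norm_cast
    have h2 := h1.norm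
    refine h2.congr fun n => ?_
    rw [LSeries.norm_term_eq]
    split_ifs with hn
    · rw [hn]
      simp
    · rw [Complex.norm_real, hres, Real.norm_of_nonneg vonMangoldt_nonneg, ofReal_re]
  · have h1 := H hx1
    simp_rw [hres] at h1
    rw [h1, Nat.totient_one, Nat.cast_one, inv_one]
    have h2 : (LFunctionResidueClassAux (1 : ZMod 1) x).re ≤ C :=
      hC _ (Set.mem_image_of_mem (fun x : ℝ ↦ (LFunctionResidueClassAux (1 : ZMod 1) x).re)
        ⟨hx1.le, hx2.le⟩)
    linarith

/-- the weight -/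
noncomputable def g (s : ℝ) (n : ℕ) : ℝ := Real.log n * (n : ℝ) ^ (-s)

theorem g_nonneg (s : ℝ) (n : ℕ) : 0 ≤ g s n :=
  mul_nonneg (Real.log_natCast_nonneg n) (Real.rpow_nonneg (Nat.cast_nonneg n) _)

theorem g_anti {s : ℝ} (hs : 1 < s) {m n : ℕ} (hm : 3 ≤ m) (hmn : m ≤ n) : g s n ≤ g s m := by
  have h1 := Real.log_div_self_rpow_antitoneOn (a := s) (by linarith)
  have hm' : (3 : ℝ) ≤ m := by exact_mod_cast hm
  have hmn' : (m : ℝ) ≤ n := by exact_mod_cast hmn
  have he : Real.exp s⁻¹ ≤ 3 := by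
    have h2 : Real.exp s⁻¹ ≤ Real.exp 1 := by
      apply Real.exp_le_exp.2
      exact inv_le_one_of_one_le₀ hs.le
    have h3 := Real.exp_one_lt_d9
    linarith
  have h2 := h1 (show (m : ℝ) ∈ Set.Ici (Real.exp s⁻¹) from he.trans hm')
    (show (n : ℝ) ∈ Set.Ici (Real.exp s⁻¹) from he.trans (hm'.trans hmn')) hmn'
  simp only at h2
  unfold g
  rw [Real.rpow_neg (Nat.cast_nonneg n), Real.rpow_neg (Nat.cast_nonneg m), ← div_eq_mul_inv,
    ← div_eq_mul_inv]
  exact h2

theorem tele (f : ℕ → ℝ) {m M : ℕ} (h : m ≤ M) :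
    ∑ n ∈ Ico m M, (f n - f (n + 1)) = f m - f M := by
  induction M, h using Nat.le_induction with
  | base => simp
  | succ M h ih => rw [Finset.sum_Ico_succ_top h, ih]; ring

/-- summation by parts for a finite family -/
theorem parts {ι : Type*} (F : Finset ι) (N : ι → ℕ) (f : ℕ → ℝ) (n0 M : ℕ) (h0 : n0 ≤ M)
    (hN : ∀ v ∈ F, N v ≤ M) :
    ∑ v ∈ F, f (max (N v) n0) = (F.card : ℝ) * f M +
      ∑ n ∈ Ico n0 M, (f n - f (n + 1)) * ((F.filter fun v => N v ≤ n).card : ℝ) := by
  have h1 : ∀ v ∈ F, f (max (N v) n0) = f M +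
      ∑ n ∈ Ico n0 M, (if N v ≤ n then f n - f (n + 1) else 0) := by
    intro v hv
    have h2 : ∑ n ∈ Ico n0 M, (if N v ≤ n then f n - f (n + 1) else 0) =
        ∑ n ∈ Ico (max (N v) n0) M, (f n - f (n + 1)) := by
      rw [← sum_filter]
      refine sum_congr ?_ fun _ _ => rfl
      ext n
      rw [mem_filter, mem_Ico, mem_Ico, max_le_iff]
      tauto
    rw [h2, tele f (max_le (hN v hv) h0)]
    ring
  rw [sum_congr rfl h1, sum_add_distrib, sum_const, nsmul_eq_mul, sum_comm]
  congr 1
  refine sum_congr rfl fun n _ => ?_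
  rw [← sum_filter, sum_const, nsmul_eq_mul, mul_comm]

/-- comparison of two families -/
theorem compare {ι κ : Type*} (F : Finset ι) (G : Finset κ) (N : ι → ℕ) (N' : κ → ℕ) (f : ℕ → ℝ)
    (n0 M : ℕ) (h0 : n0 ≤ M) (hN : ∀ v ∈ F, N v < M) (hN' : ∀ v ∈ G, N' v < M) (c : ℝ)
    (hf : ∀ n, n0 ≤ n → f (n + 1) ≤ f n) (hf0 : 0 ≤ f M)
    (hc : ∀ n, n0 ≤ n → n < M → ((F.filter fun v => N v ≤ n).card : ℝ) ≤
      c * ((G.filter fun v => N' v ≤ n).card : ℝ)) (h0M : n0 < M) :
    ∑ v ∈ F, f (max (N v) n0) ≤ c * ∑ v ∈ G, f (max (N' v) n0) := by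
  rw [parts F N f n0 M h0 fun v hv => (hN v hv).le, parts G N' f n0 M h0 fun v hv => (hN' v hv).le,
    mul_add, mul_sum]
  have hF : (F.filter fun v => N v ≤ M - 1) = F := by
    rw [filter_eq_self]
    intro v hv
    have := hN v hv
    omega
  have hG : (G.filter fun v => N' v ≤ M - 1) = G := by
    rw [filter_eq_self]
    intro v hv
    have := hN' v hv
    omega
  have h1 := hc (M - 1) (by omega) (by omega)
  rw [hF, hG] at h1
  apply add_le_add
  · rw [← mul_assoc]
    exact mul_le_mul_of_nonneg_right h1 hf0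
  · apply sum_le_sum
    intro n hn
    rw [mem_Ico] at hn
    have h2 := hc n hn.1 hn.2
    have h3 : 0 ≤ f n - f (n + 1) := sub_nonneg.2 (hf n hn.1)
    calc (f n - f (n + 1)) * ((F.filter fun v => N v ≤ n).card : ℝ) ≤
        (f n - f (n + 1)) * (c * ((G.filter fun v => N' v ≤ n).card : ℝ)) :=
          mul_le_mul_of_nonneg_left h2 h3
      _ = _ := by ring

/-- the sum over the rational primes -/
theorem primes {s C : ℝ} (hs : 1 < s) (h1 : Summable (fun n : ℕ => vonMangoldt n / (n : ℝ) ^ s))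
    (h2 : ∑' n : ℕ, vonMangoldt n / (n : ℝ) ^ s ≤ C) (M : ℕ) :
    ∑ q ∈ (range M).filter Nat.Prime, g s q ≤ C := by
  refine le_trans ?_ h2
  refine le_trans ?_ (h1.sum_le_tsum ((range M).filter Nat.Prime) fun n _ =>
    div_nonneg vonMangoldt_nonneg (Real.rpow_nonneg (Nat.cast_nonneg n) _))
  refine sum_le_sum fun q hq => ?_
  rw [mem_filter] at hq
  rw [vonMangoldt_apply_prime hq.2]
  unfold g
  rw [Real.rpow_neg (Nat.cast_nonneg q), div_eq_mul_inv]

end Pool.Agent.NH7.GU.AblP

namespace Pool.Agent.NH7.GU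

open NumberField IsDedekindDomain Filter Topology Finset AblP
open Pool.Agent.W401.Cheb (dens)

/-- C5. Natural densities bound the prime sums. -/
theorem s_abl : S_abl := by
  classical
  intro K _ _ P δ hd ε hε
  have hδ : 0 ≤ δ := ge_of_tendsto' hd fun n => div_nonneg (Nat.cast_nonneg _) (Nat.cast_nonneg _)
  have hfin : ∀ n : ℕ, {v : HS K | Ideal.absNorm v.asIdeal ≤ n ∧ P v}.Finite := by
    intro n
    have h1 : {I : Ideal (𝓞 K) | Ideal.absNorm I ≤ n}.Finite := Ideal.finite_setOfPred_absNorm_le n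
    have h2 := h1.preimage (f := fun v : HS K => v.asIdeal)
      (fun v _ w _ h => HeightOneSpectrum.ext h)
    exact h2.subset fun v hv => hv.1
  obtain ⟨n1, hn1⟩ := eventually_atTop.1 (hd.eventually (gt_mem_nhds (by linarith : δ < δ + ε)))
  set n0 : ℕ := max n1 3 with hn0
  have hcount : ∀ n, n0 ≤ n → (Nat.card {v : HS K // Ideal.absNorm v.asIdeal ≤ n ∧ P v} : ℝ) ≤
      (δ + ε) * (Nat.primeCounting n : ℝ) := by
    intro n hn
    have h1 := hn1 n (by omega)
    have h2 : 0 < Nat.primeCounting n := by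
      rw [Nat.primeCounting, Nat.primeCounting', Nat.count_eq_card_filter_range]
      apply card_pos.2
      refine ⟨2, ?_⟩
      rw [mem_filter, mem_range]
      exact ⟨by omega, Nat.prime_two⟩
    have h3 : (0 : ℝ) < (Nat.primeCounting n : ℝ) := by exact_mod_cast h2
    unfold Pool.Agent.W401.Cheb.dens at h1
    rw [div_lt_iff₀ h3] at h1
    exact h1.le
  obtain ⟨C, hC⟩ := vM
  set A0 : ℝ := (Nat.card {v : HS K // Ideal.absNorm v.asIdeal ≤ n0 ∧ P v} : ℝ) with hA0
  have hA00 : 0 ≤ A0 := Nat.cast_nonneg _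
  have hlog0 : 0 ≤ Real.log n0 := Real.log_natCast_nonneg n0
  refine ⟨(δ + ε) * |C| + A0 * Real.log n0 + (δ + ε) * (n0 * Real.log n0), fun s hs1 hs2 => ?_⟩
  have hs1' : 0 < s - 1 := by linarith
  have hgle : ∀ n : ℕ, 1 ≤ n → g s n ≤ Real.log n := by
    intro n hn
    have hn' : (1 : ℝ) ≤ n := by exact_mod_cast hn
    have h1 : (n : ℝ) ^ (-s) ≤ 1 := Real.rpow_le_one_of_one_le_of_nonpos hn' (by linarith)
    have h2 := Real.log_natCast_nonneg n
    calc g s n ≤ Real.log n * 1 := mul_le_mul_of_nonneg_left h1 h2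
      _ = _ := mul_one _
  apply tsum_le_of_sum_le' (by positivity)
  intro F
  have e0 : ∑ v ∈ F, Real.log (Ideal.absNorm (v : HS K).asIdeal) *
      (Ideal.absNorm (v : HS K).asIdeal : ℝ) ^ (-s) =
      ∑ v ∈ F, g s (Ideal.absNorm (v : HS K).asIdeal) := rfl
  rw [e0]
  set N : {v : HS K // P v} → ℕ := fun v => Ideal.absNorm (v : HS K).asIdeal with hN
  have hN1 : ∀ v, 1 ≤ N v := by
    intro v
    apply Nat.pos_of_ne_zero
    intro h
    exact (v : HS K).ne_bot (Ideal.absNorm_eq_zero_iff.1 h)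
  -- cardinalities
  have hcard : ∀ n, ((F.filter fun v => N v ≤ n).card : ℝ) ≤
      (Nat.card {v : HS K // Ideal.absNorm v.asIdeal ≤ n ∧ P v} : ℝ) := by
    intro n
    have h1 : ((F.filter fun v => N v ≤ n).map (Function.Embedding.subtype _) : Finset (HS K)) ⊆
        (hfin n).toFinset := by
      intro v hv
      rw [Finset.mem_map] at hv
      obtain ⟨w, hw, rfl⟩ := hv
      rw [mem_filter] at hw
      rw [Set.Finite.mem_toFinset]
      exact ⟨hw.2, w.2⟩
    have h2 := card_le_card h1
    rw [card_map] at h2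
    have h3 : Nat.card {v : HS K // Ideal.absNorm v.asIdeal ≤ n ∧ P v} =
        (hfin n).toFinset.card := by
      rw [← Set.ncard_eq_toFinset_card _ (hfin n)]
      rfl
    rw [h3]
    exact_mod_cast h2
  -- small norms
  have hsmall : ∑ v ∈ F.filter (fun v => N v ≤ n0), g s (N v) ≤ A0 * Real.log n0 := by
    calc ∑ v ∈ F.filter (fun v => N v ≤ n0), g s (N v) ≤
        ∑ v ∈ F.filter (fun v => N v ≤ n0), Real.log n0 := by
          apply sum_le_sum
          intro v hv
          rw [mem_filter] at hv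
          refine (hgle _ (hN1 v)).trans ?_
          apply Real.log_le_log
          · exact_mod_cast hN1 v
          · exact_mod_cast hv.2
      _ = ((F.filter fun v => N v ≤ n0).card : ℝ) * Real.log n0 := by
          rw [sum_const, nsmul_eq_mul]
      _ ≤ _ := mul_le_mul_of_nonneg_right (hcard n0) hlog0
  -- large norms
  obtain ⟨M, hM1, hM2⟩ : ∃ M : ℕ, n0 < M ∧ ∀ v ∈ F, N v < M := by
    refine ⟨max (n0 + 1) (F.sup N + 1), ?_, fun v hv => ?_⟩
    · have := le_max_left (n0 + 1) (F.sup N + 1)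
      omega
    · have h1 := Finset.le_sup (f := N) hv
      have := le_max_right (n0 + 1) (F.sup N + 1)
      omega
  have hlarge := compare (F.filter fun v => ¬ N v ≤ n0) ((range M).filter Nat.Prime) N
    (fun q => q) (g s) n0 M hM1.le (fun v hv => hM2 v (mem_filter.1 hv).1)
    (fun q hq => mem_range.1 (mem_filter.1 hq).1) (δ + ε)
    (fun n hn => g_anti hs1 (by omega) (by omega)) (g_nonneg s M) (by
      intro n hn hnM
      have h1 : (((F.filter fun v => ¬ N v ≤ n0).filter fun v => N v ≤ n).card : ℝ) ≤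
          ((F.filter fun v => N v ≤ n).card : ℝ) := by
        have : ((F.filter fun v => ¬ N v ≤ n0).filter fun v => N v ≤ n).card ≤
            (F.filter fun v => N v ≤ n).card := by
          apply card_le_card
          intro v hv
          rw [mem_filter, mem_filter] at hv
          rw [mem_filter]
          exact ⟨hv.1.1, hv.2⟩
        exact_mod_cast this
      have h2 : (((range M).filter Nat.Prime).filter fun q => q ≤ n).card =
          Nat.primeCounting n := by
        rw [Nat.primeCounting, Nat.primeCounting', Nat.count_eq_card_filter_range]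
        congr 1
        ext q
        rw [mem_filter, mem_filter, mem_filter, mem_range, mem_range]
        constructor
        · rintro ⟨⟨-, h3⟩, h4⟩
          exact ⟨by omega, h3⟩
        · rintro ⟨h3, h4⟩
          exact ⟨⟨by omega, h4⟩, by omega⟩
      rw [h2]
      exact h1.trans ((hcard n).trans (hcount n hn))) hM1
  have e1 : ∑ v ∈ F.filter (fun v => ¬ N v ≤ n0), g s (max (N v) n0) =
      ∑ v ∈ F.filter (fun v => ¬ N v ≤ n0), g s (N v) := by
    refine sum_congr rfl fun v hv => ?_
    rw [mem_filter] at hv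
    rw [max_eq_left (by omega)]
  rw [e1] at hlarge
  have e2 : ∑ q ∈ (range M).filter Nat.Prime, g s (max q n0) ≤
      ∑ q ∈ (range M).filter Nat.Prime, g s q + n0 * Real.log n0 := by
    have h1 : ∀ q ∈ (range M).filter Nat.Prime, g s (max q n0) ≤ g s q +
        if q < n0 then Real.log n0 else 0 := by
      intro q hq
      split_ifs with h
      · rw [max_eq_right h.le]
        have h2 := hgle n0 (by omega)
        have h3 := g_nonneg s q
        linarith
      · rw [max_eq_left (by omega), add_zero]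
    refine (sum_le_sum h1).trans ?_
    rw [sum_add_distrib]
    apply add_le_add le_rfl
    rw [← sum_filter, sum_const, nsmul_eq_mul]
    apply mul_le_mul_of_nonneg_right _ hlog0
    have h2 : (((range M).filter Nat.Prime).filter fun q => q < n0).card ≤ (range n0).card := by
      apply card_le_card
      intro q hq
      rw [mem_filter] at hq
      exact mem_range.2 hq.2
    rw [card_range] at h2
    exact_mod_cast h2
  have hp := primes hs1 (hC s hs1 hs2).1 (hC s hs1 hs2).2 M
  have hδε : 0 ≤ δ + ε := by linarith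
  have hfinal : ∑ v ∈ F, g s (N v) = ∑ v ∈ F.filter (fun v => N v ≤ n0), g s (N v) +
      ∑ v ∈ F.filter (fun v => ¬ N v ≤ n0), g s (N v) :=
    (sum_filter_add_sum_filter_not F (fun v => N v ≤ n0) _).symm
  rw [hfinal]
  have h5 : (δ + ε) * ∑ q ∈ (range M).filter Nat.Prime, g s (max q n0) ≤
      (δ + ε) * (1 / (s - 1) + |C| + n0 * Real.log n0) := by
    apply mul_le_mul_of_nonneg_left _ hδε
    have := le_abs_self C
    linarith
  have h6 : (δ + ε) * (1 / (s - 1) + |C| + n0 * Real.log n0) =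
      (δ + ε) / (s - 1) + (δ + ε) * |C| + (δ + ε) * (n0 * Real.log n0) := by ring
  linarith

end Pool.Agent.NH7.GU
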