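import Pool.Agent.NH7.GU.Stms

/-!
# Going up for Schneider's conjecture: job GU-C6, primes in classes
-/

set_option autoImplicit false
set_option linter.unusedSectionVars false
set_option linter.unusedVariables false

open scoped Classical

namespace Pool.Agent.NH7.GU

open NumberField IsDedekindDomain Pool.Agent.W401.Cheb Pool.Agent.NH7.Sch Filter Topology

namespace AnP

variable {K : Type} [Field K] [NumberField K]

/-- the weight of a prime -/
noncomputable def w (s : ℝ) (v : HS K) : ℝ :=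
  Real.log (Ideal.absNorm v.asIdeal) * (Ideal.absNorm v.asIdeal : ℝ) ^ (-s)

theorem N_ge (v : HS K) : (1 : ℝ) ≤ (Ideal.absNorm v.asIdeal : ℝ) := by
  have h : Ideal.absNorm v.asIdeal ≠ 0 := by
    rw [Ne, Ideal.absNorm_eq_zero_iff]
    exact v.ne_bot
  exact_mod_cast Nat.one_le_iff_ne_zero.2 h

theorem w_nonneg (s : ℝ) (v : HS K) : 0 ≤ w s v :=
  mul_nonneg (Real.log_nonneg (N_ge v)) (Real.rpow_nonneg (zero_le_one.trans (N_ge v)) _)

theorem w_le {s : ℝ} (hs : 1 < s) (v : HS K) : w s v ≤ w 1 v :=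
  mul_le_mul_of_nonneg_left (Real.rpow_le_rpow_of_exponent_le (N_ge v) (by linarith))
    (Real.log_nonneg (N_ge v))

variable {p : ℕ} [hp : Fact p.Prime] {S : Finset (HS K)} {H : Subgroup Kˣ}

theorem od_one' (v : HS K) : od v (1 : Kˣ) = 0 := by
  have := od_mul v (1 : Kˣ) 1
  rw [one_mul] at this
  omega

theorem cl_mem {v : HS K} (hv : v ∈ S) : cl p S H v = 0 := by
  unfold cl
  rw [QuotientAddGroup.eq_zero_iff, mem_Rel]
  refine ⟨1, H.one_mem, fun u hu => ?_⟩
  rw [od_one', Finsupp.single_apply, if_neg]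
  · simp
  · rintro rfl
    exact hu hv

theorem rho_triv (ρ : AddChar (Cq p S H) ℂ) (h : ∀ v ∉ S, ρ (cl p S H v) = 1) : ρ = 1 := by
  have h1 : ∀ v : HS K, ρ (cl p S H v) = 1 := by
    intro v
    by_cases hv : v ∈ S
    · rw [cl_mem hv, AddChar.map_zero_eq_one]
    · exact h v hv
  have h2 : ∀ f : HS K →₀ ℤ, ρ (QuotientAddGroup.mk f) = 1 := by
    intro f
    induction f using Finsupp.induction_linear with
    | zero =>
      rw [QuotientAddGroup.mk_zero, AddChar.map_zero_eq_one]
    | add f g hf hg =>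
      rw [QuotientAddGroup.mk_add, AddChar.map_add_eq_mul, hf, hg, one_mul]
    | single v n =>
      have h3 : (QuotientAddGroup.mk (Finsupp.single v n) : Cq p S H) = n • cl p S H v := by
        unfold cl
        rw [← QuotientAddGroup.mk_zsmul, Finsupp.smul_single, smul_eq_mul, mul_one]
      rw [h3, AddChar.map_zsmul_eq_zpow, h1 v, one_zpow]
  ext x
  obtain ⟨f, rfl⟩ := QuotientAddGroup.mk_surjective x
  rw [h2 f, AddChar.one_apply]

end AnP

open AnP

theorem s_an (h1 : S_cfin) (h2 : S_chr) (h3 : S_lnt) (h4 : S_ltr) (h5 : S_abl) : S_an := by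
  intro K _ _ _ p _ S H 𝔪 hm hmS hmH P δ hP T hT hfin
  obtain ⟨hsum, C0, hC0⟩ := h4 K
  have hfinG : Finite (Cq p S H) := h1 K p S H 𝔪 hm hmS hmH
  have : Fintype (Cq p S H) := Fintype.ofFinite _
  -- the modulus
  obtain ⟨𝔫, hn, hnS, hnH⟩ : ∃ 𝔫 : Ideal (𝓞 K), 𝔫 ≠ ⊥ ∧ (∀ v : HS K, 𝔫 ≤ v.asIdeal ↔ v ∈ S) ∧
      ∀ (x : 𝓞 K) (hx : x ≠ 0), x - 1 ∈ 𝔫 → ui x hx ∈ H := by
    refine ⟨𝔪 * ∏ v ∈ S, v.asIdeal, ?_, fun v => ⟨fun h => ?_, fun h => ?_⟩, fun x hx h => ?_⟩
    · refine mul_ne_zero hm ?_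
      rw [Finset.prod_ne_zero_iff]
      exact fun v _ => v.ne_bot
    · rcases (v.isPrime.mul_le).1 h with h | h
      · exact hmS v h
      · obtain ⟨u, hu, huv⟩ := (v.isPrime.prod_le).1 h
        have h6 : u.asIdeal = v.asIdeal := (u.isPrime.isMaximal u.ne_bot).eq_of_le
          v.isPrime.ne_top huv
        rw [← HeightOneSpectrum.ext h6]
        exact hu
    · have h6 : 𝔪 * ∏ v ∈ S, v.asIdeal ≤ ∏ v ∈ S, v.asIdeal := Ideal.mul_le_right
      have h7 : ∏ v ∈ S, v.asIdeal ≤ v.asIdeal :=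
        Ideal.prod_le_inf.trans (Finset.inf_le h)
      exact h6.trans h7
    · have h6 : 𝔪 * ∏ v ∈ S, v.asIdeal ≤ 𝔪 := Ideal.mul_le_left
      exact hmH x hx (h6 h)
  -- the bounds of the sums with characters
  have hA : ∀ ρ : AddChar (Cq p S H) ℂ, ∃ C : ℝ, ∀ s : ℝ, 1 < s → s < 2 →
      ‖∑' v : HS K, (if v ∈ S then 0 else ρ (cl p S H v)) * (w s v : ℂ)‖ ≤
        (if ρ = 1 then 1 / (s - 1) else 0) + C := by
    intro ρ
    by_cases hρ : ρ = 1
    · refine ⟨C0, fun s hs hs2 => ?_⟩
      rw [if_pos hρ, hρ]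
      have h6 : ∀ v : HS K, ‖(if v ∈ S then 0 else (1 : AddChar (Cq p S H) ℂ) (cl p S H v)) *
          (w s v : ℂ)‖ ≤ w s v := by
        intro v
        split_ifs with hv
        · rw [zero_mul, norm_zero]
          exact w_nonneg s v
        · rw [AddChar.one_apply, one_mul, Complex.norm_real, Real.norm_of_nonneg (w_nonneg s v)]
      have h7 := tsum_of_norm_bounded (hsum s hs).hasSum h6
      have h8 := abs_le.1 (hC0 s hs hs2)
      refine h7.trans ?_
      linarith [h8.2]
    · obtain ⟨v₀, hv₀, hv₁⟩ : ∃ v : HS K, v ∉ S ∧ ρ (cl p S H v) ≠ 1 := by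
        by_contra hcon
        push Not at hcon
        exact hρ (rho_triv ρ hcon)
      obtain ⟨η, he1, he2, he3, he4⟩ := h2 K p S H 𝔫 hn hnS hnH ρ
      have he5 : ∃ 𝔞 : Ideal (𝓞 K), 𝔞 ≠ ⊥ ∧ IsCoprime 𝔞 𝔫 ∧ η 𝔞 ≠ 1 := by
        refine ⟨v₀.asIdeal, v₀.ne_bot, (he2 _ v₀.ne_bot).1 ?_, ?_⟩
        · rw [he4 v₀ hv₀]
          intro h0
          have h6 := AddChar.map_add_eq_mul ρ (cl p S H v₀) (-cl p S H v₀)
          rw [add_neg_cancel, AddChar.map_zero_eq_one, h0, zero_mul] at h6
          exact one_ne_zero h6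
        · rw [he4 v₀ hv₀]
          exact hv₁
      obtain ⟨C, hC⟩ := h3 K 𝔫 hn η he1 he2 he3 he5
      refine ⟨C, fun s hs hs2 => ?_⟩
      rw [if_neg hρ, zero_add]
      refine le_trans (le_of_eq ?_) (hC s hs hs2)
      congr 1
      refine tsum_congr fun v => ?_
      unfold w
      rw [Complex.ofReal_mul, ← mul_assoc]
      congr 2
      split_ifs with hv
      · by_contra h0
        have h6 := (he2 _ v.ne_bot).1 (Ne.symm h0)
        have h7 := (hnS v).2 hv
        rw [Ideal.isCoprime_iff_sup_eq, sup_eq_left.2 h7] at h6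
        exact v.isPrime.ne_top h6
      · exact (he4 v hv).symm
  choose CC hCC using hA
  obtain ⟨n, hn0⟩ : ∃ n : ℝ, n = (Fintype.card (Cq p S H) : ℝ) := ⟨_, rfl⟩
  have hnpos : 0 < n := by
    rw [hn0]
    exact_mod_cast Fintype.card_pos
  -- the sums over the classes
  have hB : ∀ (c : Cq p S H) (s : ℝ), 1 < s → s < 2 →
      ∑' v : HS K, (if v ∉ S ∧ cl p S H v = c then w s v else 0) ≤
        (1 / (s - 1) + ∑ ρ : AddChar (Cq p S H) ℂ, CC ρ) / n := by
    intro c s hs hs2
    rw [le_div_iff₀ hnpos]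
    have h6 : ((∑' v : HS K, (if v ∉ S ∧ cl p S H v = c then w s v else 0) : ℝ) : ℂ) * (n : ℂ) =
        ∑ ρ : AddChar (Cq p S H) ℂ, ρ (-c) *
          ∑' v : HS K, (if v ∈ S then 0 else ρ (cl p S H v)) * (w s v : ℂ) := by
      have h7 : ∀ ρ ∈ (Finset.univ : Finset (AddChar (Cq p S H) ℂ)),
          Summable fun v : HS K => ρ (-c) * ((if v ∈ S then 0 else ρ (cl p S H v)) * (w s v : ℂ)) := by
        intro ρ _
        refine Summable.of_norm_bounded (hsum s hs) fun v => ?_
        rw [norm_mul, norm_mul, AddChar.norm_apply, one_mul]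
        split_ifs with hv
        · rw [norm_zero, zero_mul]
          exact w_nonneg s v
        · rw [AddChar.norm_apply, one_mul, Complex.norm_real, Real.norm_of_nonneg (w_nonneg s v)]
          exact le_refl _
      simp_rw [← tsum_mul_left]
      rw [← Summable.tsum_finsetSum h7, Complex.ofReal_tsum, ← tsum_mul_right]
      refine tsum_congr fun v => ?_
      by_cases hv : v ∈ S
      · simp [hv]
      · have h8 : ∑ ρ : AddChar (Cq p S H) ℂ, ρ (-c) * ((if v ∈ S then 0 else ρ (cl p S H v)) *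
            (w s v : ℂ)) = (∑ ρ : AddChar (Cq p S H) ℂ, ρ (cl p S H v - c)) * (w s v : ℂ) := by
          rw [Finset.sum_mul]
          refine Finset.sum_congr rfl fun ρ _ => ?_
          rw [if_neg hv, sub_eq_add_neg, AddChar.map_add_eq_mul]
          ring
        rw [h8, AddChar.sum_apply_eq_ite]
        by_cases hc : cl p S H v = c
        · rw [if_pos ⟨hv, hc⟩, if_pos (sub_eq_zero.2 hc), hn0]
          push_cast
          ring
        · rw [if_neg (fun h => hc h.2), if_neg (fun h => hc (sub_eq_zero.1 h))]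
          simp
    have h9 : ∑' v : HS K, (if v ∉ S ∧ cl p S H v = c then w s v else 0) * n ≤
        ‖((∑' v : HS K, (if v ∉ S ∧ cl p S H v = c then w s v else 0) : ℝ) : ℂ) * (n : ℂ)‖ := by
      rw [tsum_mul_right, norm_mul, Complex.norm_real, Complex.norm_real,
        Real.norm_of_nonneg hnpos.le]
      exact mul_le_mul_of_nonneg_right (le_abs_self _) hnpos.le
    rw [tsum_mul_right] at h9
    refine h9.trans ?_
    rw [h6]
    refine (norm_sum_le _ _).trans ?_
    have h10 : ∀ ρ ∈ (Finset.univ : Finset (AddChar (Cq p S H) ℂ)), ‖ρ (-c) *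
          ∑' v : HS K, (if v ∈ S then 0 else ρ (cl p S H v)) * (w s v : ℂ)‖ ≤
        (if ρ = 1 then 1 / (s - 1) else 0) + CC ρ := by
      intro ρ _
      rw [norm_mul, AddChar.norm_apply, one_mul]
      exact hCC ρ s hs hs2
    refine (Finset.sum_le_sum h10).trans ?_
    rw [Finset.sum_add_distrib, Finset.sum_ite_eq' Finset.univ (1 : AddChar (Cq p S H) ℂ),
      if_pos (Finset.mem_univ _)]
  -- the comparison
  obtain ⟨E, hE⟩ : ∃ E : Finset (HS K), ∀ v, v ∈ E ↔ (v ∉ S ∧ ¬ P v ∧ cl p S H v ∉ T) :=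
    ⟨hfin.toFinset, fun v => by rw [Set.Finite.mem_toFinset]; rfl⟩
  obtain ⟨T', hT'⟩ : ∃ T' : Finset (Cq p S H), ∀ c, c ∈ T' ↔ c ∈ T :=
    ⟨(Set.toFinite T).toFinset, fun c => Set.Finite.mem_toFinset _⟩
  have hTc : (T'.card : ℝ) = (T.ncard : ℝ) := by
    have h6 : T = (T' : Set (Cq p S H)) := by
      ext c
      rw [Finset.mem_coe, hT']
    rw [h6, Set.ncard_coe_finset]
  rw [← hTc, Nat.card_eq_fintype_card, ← hn0] at hT
  obtain ⟨ε, hε⟩ : ∃ ε : ℝ, ε = (1 - (δ + (T'.card : ℝ) / n)) / 2 := ⟨_, rfl⟩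
  have hε0 : 0 < ε := by
    rw [hε]
    linarith
  obtain ⟨C1, hC1⟩ := h5 K P δ hP ε hε0
  obtain ⟨R, hR⟩ : ∃ R : ℝ, R = ∑ v ∈ S, w 1 v + C1 + ∑ v ∈ E, w 1 v +
      (T'.card : ℝ) * ((∑ ρ : AddChar (Cq p S H) ℂ, CC ρ) / n) + C0 := ⟨_, rfl⟩
  have hmain : ∀ s : ℝ, 1 < s → s < 2 → ε / (s - 1) ≤ R := by
    intro s hs hs2
    have hws := hsum s hs
    have a1 : Summable fun v : HS K => if v ∈ S then w s v else 0 :=
      Summable.of_nonneg_of_le (fun v => by split_ifs <;> [exact w_nonneg s v; exact le_refl _])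
        (fun v => by split_ifs <;> [exact le_refl _; exact w_nonneg s v]) hws
    have a2 : Summable fun v : HS K => if P v then w s v else 0 :=
      Summable.of_nonneg_of_le (fun v => by split_ifs <;> [exact w_nonneg s v; exact le_refl _])
        (fun v => by split_ifs <;> [exact le_refl _; exact w_nonneg s v]) hws
    have a3 : Summable fun v : HS K => if v ∈ E then w s v else 0 :=
      Summable.of_nonneg_of_le (fun v => by split_ifs <;> [exact w_nonneg s v; exact le_refl _])
        (fun v => by split_ifs <;> [exact le_refl _; exact w_nonneg s v]) hws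
    have a4 : ∀ c ∈ T', Summable fun v : HS K => if v ∉ S ∧ cl p S H v = c then w s v else 0 :=
      fun c _ => Summable.of_nonneg_of_le
        (fun v => by split_ifs <;> [exact w_nonneg s v; exact le_refl _])
        (fun v => by split_ifs <;> [exact le_refl _; exact w_nonneg s v]) hws
    have a5 : ∀ v : HS K, w s v ≤ (if v ∈ S then w s v else 0) + (if P v then w s v else 0) +
        (if v ∈ E then w s v else 0) + ∑ c ∈ T', (if v ∉ S ∧ cl p S H v = c then w s v else 0) := by
      intro v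
      have b0 := w_nonneg s v
      have b1 : 0 ≤ if v ∈ S then w s v else 0 := by
        split_ifs <;> [exact b0; exact le_refl _]
      have b2 : 0 ≤ if P v then w s v else 0 := by
        split_ifs <;> [exact b0; exact le_refl _]
      have b3 : 0 ≤ if v ∈ E then w s v else 0 := by
        split_ifs <;> [exact b0; exact le_refl _]
      have b4 : 0 ≤ ∑ c ∈ T', (if v ∉ S ∧ cl p S H v = c then w s v else 0) :=
        Finset.sum_nonneg fun c _ => by split_ifs <;> [exact b0; exact le_refl _]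
      by_cases k1 : v ∈ S
      · rw [if_pos k1] at b1 ⊢
        linarith
      · by_cases k2 : P v
        · rw [if_pos k2] at b2 ⊢
          linarith
        · by_cases k3 : cl p S H v ∈ T
          · have b5 : w s v ≤ ∑ c ∈ T', (if v ∉ S ∧ cl p S H v = c then w s v else 0) := by
              have b6 := Finset.single_le_sum
                (f := fun c => (if v ∉ S ∧ cl p S H v = c then w s v else 0 : ℝ))
                (fun c _ => by
                  show 0 ≤ (if v ∉ S ∧ cl p S H v = c then w s v else 0 : ℝ)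
                  split_ifs <;> [exact b0; exact le_refl _]) ((hT' _).2 k3)
              have b7 : (if v ∉ S ∧ cl p S H v = cl p S H v then w s v else 0 : ℝ) = w s v :=
                if_pos ⟨k1, rfl⟩
              rw [b7] at b6
              exact b6
            linarith
          · rw [if_pos ((hE v).2 ⟨k1, k2, k3⟩)] at b3 ⊢
            linarith
    have a6 : ∑' v : HS K, w s v ≤ ∑' v : HS K, (if v ∈ S then w s v else 0) +
        ∑' v : HS K, (if P v then w s v else 0) + ∑' v : HS K, (if v ∈ E then w s v else 0) +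
        ∑ c ∈ T', ∑' v : HS K, (if v ∉ S ∧ cl p S H v = c then w s v else 0) := by
      rw [← Summable.tsum_finsetSum a4, ← a1.tsum_add a2, ← (a1.add a2).tsum_add a3,
        ← ((a1.add a2).add a3).tsum_add (summable_sum a4)]
      exact hws.tsum_le_tsum a5 (((a1.add a2).add a3).add (summable_sum a4))
    have a7 : ∀ F : Finset (HS K), ∑' v : HS K, (if v ∈ F then w s v else 0) ≤ ∑ v ∈ F, w 1 v := by
      intro F
      rw [tsum_eq_sum (s := F) (fun v hv => if_neg hv)]
      refine Finset.sum_le_sum fun v hv => ?_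
      rw [if_pos hv]
      exact w_le hs v
    have a8 : ∑' v : HS K, (if P v then w s v else 0) ≤ (δ + ε) / (s - 1) + C1 := by
      refine le_trans (le_of_eq ?_) (hC1 s hs hs2)
      have b1 := tsum_subtype {v : HS K | P v} (w s)
      have b2 : ∑' v : HS K, (if P v then w s v else 0) =
          ∑' v : HS K, Set.indicator {v : HS K | P v} (w s) v :=
        tsum_congr fun v => by
          rw [Set.indicator_apply]
          rfl
      rw [b2, ← b1]
      rfl
    have a9 : ∑ c ∈ T', ∑' v : HS K, (if v ∉ S ∧ cl p S H v = c then w s v else 0) ≤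
        (T'.card : ℝ) * ((1 / (s - 1) + ∑ ρ : AddChar (Cq p S H) ℂ, CC ρ) / n) := by
      refine (Finset.sum_le_card_nsmul T' _ _ fun c _ => hB c s hs hs2).trans ?_
      rw [nsmul_eq_mul]
    have a10 := (abs_le.1 (hC0 s hs hs2)).1
    have a11 : ∑' v : HS K, Real.log (Ideal.absNorm v.asIdeal) *
        (Ideal.absNorm v.asIdeal : ℝ) ^ (-s) = ∑' v : HS K, w s v := rfl
    rw [a11] at a10
    have hs0 : 0 < s - 1 := by linarith
    have a12 : ε / (s - 1) = 1 / (s - 1) - (δ + ε) / (s - 1) -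
        (T'.card : ℝ) * ((1 / (s - 1)) / n) := by
      have b1 : ε = 1 - (δ + ε) - (T'.card : ℝ) / n := by
        rw [hε]
        ring
      have b2 : ε / (s - 1) = (1 - (δ + ε) - (T'.card : ℝ) / n) / (s - 1) := by rw [← b1]
      rw [b2]
      field_simp
    rw [a12, hR]
    have a13 : (T'.card : ℝ) * ((1 / (s - 1) + ∑ ρ : AddChar (Cq p S H) ℂ, CC ρ) / n) =
        (T'.card : ℝ) * ((1 / (s - 1)) / n) +
          (T'.card : ℝ) * ((∑ ρ : AddChar (Cq p S H) ℂ, CC ρ) / n) := by
      rw [add_div, mul_add]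
    rw [a13] at a9
    linarith [a7 S, a7 E]
  -- the contradiction
  have hR1 : 0 < |R| + 1 + ε := by positivity
  have hx : 1 < 1 + ε / (|R| + 1 + ε) := by
    have := div_pos hε0 hR1
    linarith
  have hx2 : 1 + ε / (|R| + 1 + ε) < 2 := by
    have h6 : ε / (|R| + 1 + ε) < 1 := by
      rw [div_lt_one hR1]
      have := abs_nonneg R
      linarith
    linarith
  have h6 := hmain _ hx hx2
  have h7 : ε / (1 + ε / (|R| + 1 + ε) - 1) = |R| + 1 + ε := by
    rw [add_sub_cancel_left, div_div_eq_mul_div, mul_div_cancel_left₀ _ hε0.ne']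
  rw [h7] at h6
  have := le_abs_self R
  linarith

end Pool.Agent.NH7.GU
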