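import Pool.Agent.NH7.GU.Stms

/-! # A first auxiliary character (D9) -/

set_option autoImplicit false
set_option linter.unusedSectionVars false

namespace Pool.Agent.NH7.GU

open NumberField IsDedekindDomain Pool.Agent.W401.Cheb Pool.Agent.NH7.Sch Filter Topology

/-- (D9) -/
theorem s_aux (h0 : S_mod) (h1 : S_cfin) (h2 : S_an) : S_aux := by
  classical
  intro K _ _ _ p _ ζ hζ S hS
  obtain ⟨𝔪, hm, hmS, hmH⟩ := h0 K p ζ hζ S hS
  have hfin : Finite (Cq p S (H0 hζ S)) := h1 K p S (H0 hζ S) 𝔪 hm hmS hmH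
  have hd : Tendsto (dens fun _ : HS K => False) atTop (𝓝 0) := by
    have : (dens fun _ : HS K => False) = fun _ => (0 : ℝ) := by
      funext x
      unfold dens
      simp
    rw [this]
    exact tendsto_const_nhds
  have hinf := h2 K p S (H0 hζ S) 𝔪 hm hmS hmH (fun _ => False) 0 hd
  obtain ⟨v₁, hv1, -, -⟩ := (hinf ∅ (by simp)).nonempty
  have hT : (0 : ℝ) + ((({-cl p S (H0 hζ S) v₁} : Set (Cq p S (H0 hζ S)))ᶜ).ncard : ℝ) /
      (Nat.card (Cq p S (H0 hζ S)) : ℝ) < 1 := by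
    have hpos : 0 < Nat.card (Cq p S (H0 hζ S)) := Nat.card_pos
    have hlt : (({-cl p S (H0 hζ S) v₁} : Set (Cq p S (H0 hζ S)))ᶜ).ncard <
        Nat.card (Cq p S (H0 hζ S)) := by
      rw [← Set.ncard_univ]
      refine Set.ncard_lt_ncard ?_ (Set.toFinite _)
      refine (Set.ssubset_univ_iff).2 fun h => ?_
      have : -cl p S (H0 hζ S) v₁ ∈ (({-cl p S (H0 hζ S) v₁} : Set (Cq p S (H0 hζ S)))ᶜ) := by
        rw [h]; exact Set.mem_univ _
      exact this rfl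
    rw [zero_add, div_lt_one (by exact_mod_cast hpos)]
    exact_mod_cast hlt
  obtain ⟨v₂, ⟨hv2, -, hcl⟩, hne⟩ := (hinf _ hT).exists_notMem_finset {v₁}
  have hcl' : cl p S (H0 hζ S) v₂ = -cl p S (H0 hζ S) v₁ := by
    by_contra h
    exact hcl h
  have hsum : cl p S (H0 hζ S) v₁ + cl p S (H0 hζ S) v₂ = 0 := by
    rw [hcl', add_neg_cancel]
  have hmem : (Finsupp.single v₁ 1 + Finsupp.single v₂ 1 : HS K →₀ ℤ) ∈ Rel p S (H0 hζ S) := by
    unfold cl at hsum
    rw [← QuotientAddGroup.mk_add] at hsum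
    exact (QuotientAddGroup.eq_zero_iff _).1 hsum
  obtain ⟨κ, hκ, h3⟩ := hmem
  refine ⟨v₁, v₂, κ, hv1, hv2, ?_, hκ, h3⟩
  rintro rfl
  exact hne (Finset.mem_singleton_self _)

end Pool.Agent.NH7.GU
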