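import Pool.Agent.NH7.GU.Stms

/-!
# The class groups modulo p-th powers of ideals are finite (part C1 of the going-up project)
-/

set_option autoImplicit false
set_option linter.unusedSectionVars false


namespace Pool.Agent.NH7.GU

open NumberField IsDedekindDomain Pool.Agent.NH7.Sch

namespace Cfin

variable {K : Type} [Field K] [NumberField K]

/-- the multiplicity of `v` in an ideal -/
noncomputable def cnt (v : HS K) (I : Ideal (𝓞 K)) : ℕ :=
  (Associates.mk v.asIdeal).count (Associates.mk I).factors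

theorem cnt_mul (v : HS K) {I J : Ideal (𝓞 K)} (hI : I ≠ ⊥) (hJ : J ≠ ⊥) :
    cnt v (I * J) = cnt v I + cnt v J := by
  unfold cnt
  rw [← Associates.mk_mul_mk, Associates.count_mul (Associates.mk_ne_zero.2 hI)
    (Associates.mk_ne_zero.2 hJ) v.associates_irreducible]

theorem cnt_self (v : HS K) : cnt v v.asIdeal = 1 :=
  Associates.count_self v.associates_irreducible

theorem cnt_ne {v w : HS K} (h : v ≠ w) : cnt v w.asIdeal = 0 := by
  unfold cnt
  refine Associates.count_eq_zero_of_ne v.associates_irreducible w.associates_irreducible ?_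
  intro h'
  rw [Associates.mk_eq_mk_iff_associated, associated_iff_eq] at h'
  exact h (HeightOneSpectrum.ext h')

theorem od_ui (v : HS K) {x : 𝓞 K} (hx : x ≠ 0) :
    od v (ui x hx) = -(cnt v (Ideal.span {x}) : ℤ) := by
  have h1 := val_od v (ui x hx)
  rw [coe_ui, HeightOneSpectrum.valuation_of_algebraMap, HeightOneSpectrum.intValuation_if_neg v hx]
    at h1
  exact (WithZero.exp_injective h1).symm

theorem ne_bot (v : HS K) : v.asIdeal ≠ ⊥ := v.ne_bot

theorem span_ne {x : 𝓞 K} (hx : x ≠ 0) : Ideal.span {x} ≠ (⊥ : Ideal (𝓞 K)) := by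
  rwa [Ne, Ideal.span_singleton_eq_bot]

/-- the class of a prime -/
noncomputable def cls (v : HS K) : ClassGroup (𝓞 K) :=
  ClassGroup.mk0 ⟨v.asIdeal, mem_nonZeroDivisors_of_ne_zero v.ne_bot⟩

/-- the quotient of two primes in the same class -/
theorem exists_quot {v w : HS K} (h : cls v = cls w) : ∃ κ : Kˣ, ∀ u : HS K,
    od u κ = (Finsupp.single w 1 : HS K →₀ ℤ) u - (Finsupp.single v 1 : HS K →₀ ℤ) u := by
  classical
  unfold cls at h
  rw [ClassGroup.mk0_eq_mk0_iff] at h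
  obtain ⟨x, y, hx, hy, hxy⟩ := h
  simp only at hxy
  refine ⟨ui y hy * (ui x hx)⁻¹, fun u => ?_⟩
  have h1 := congrArg (cnt u) hxy
  rw [cnt_mul u (span_ne hx) v.ne_bot, cnt_mul u (span_ne hy) w.ne_bot] at h1
  rw [od_mul, od_inv, od_ui, od_ui]
  have h2 : ∀ v : HS K, (cnt u v.asIdeal : ℤ) = (Finsupp.single v 1 : HS K →₀ ℤ) u := by
    intro v
    by_cases huv : u = v
    · subst huv
      rw [cnt_self, Finsupp.single_eq_same]
      rfl
    · rw [cnt_ne huv, Finsupp.single_eq_of_ne huv]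
      rfl
  rw [← h2, ← h2]
  have h3 : (cnt u (Ideal.span {x}) : ℤ) + cnt u v.asIdeal =
      cnt u (Ideal.span {y}) + cnt u w.asIdeal := by exact_mod_cast h1
  linarith

/-- the denominator can be chosen congruent to one -/
theorem exists_denom {𝔪 : Ideal (𝓞 K)} (h𝔪 : 𝔪 ≠ ⊥) (κ : Kˣ)
    (h : ∀ v : HS K, 𝔪 ≤ v.asIdeal → od v κ = 0) :
    ∃ (x y : 𝓞 K) (hx : x ≠ 0) (hy : y ≠ 0), y - 1 ∈ 𝔪 ∧ κ * ui y hy = ui x hx := by
  have hinj := FaithfulSMul.algebraMap_injective (𝓞 K) K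
  -- it is enough to find `y`
  suffices hs : ∃ y : 𝓞 K, y ≠ 0 ∧ y - 1 ∈ 𝔪 ∧ ∃ x : 𝓞 K, (κ : K) * algebraMap (𝓞 K) K y =
      algebraMap (𝓞 K) K x by
    obtain ⟨y, hy, hym, x, hxy⟩ := hs
    have hx : x ≠ 0 := by
      rintro rfl
      rw [map_zero] at hxy
      exact (mul_ne_zero κ.ne_zero ((map_ne_zero_iff _ hinj).2 hy)) hxy
    exact ⟨x, y, hx, hy, hym, Units.ext hxy⟩
  by_cases htop : 𝔪 = ⊤
  · obtain ⟨a, b, hb, hab⟩ := IsFractionRing.div_surjective (A := 𝓞 K) (κ : K)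
    have hb0 : b ≠ 0 := nonZeroDivisors.ne_zero hb
    refine ⟨b, hb0, by rw [htop]; trivial, a, ?_⟩
    rw [← hab, div_mul_cancel₀ _ ((map_ne_zero_iff _ hinj).2 hb0)]
  · set 𝔡 : Ideal (𝓞 K) :=
      { carrier := {y | ∃ x : 𝓞 K, (κ : K) * algebraMap (𝓞 K) K y = algebraMap (𝓞 K) K x}
        add_mem' := by
          rintro a b ⟨x, hx⟩ ⟨y, hy⟩
          exact ⟨x + y, by rw [map_add, mul_add, hx, hy, map_add]⟩
        zero_mem' := ⟨0, by rw [map_zero, mul_zero]⟩
        smul_mem' := by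
          rintro c a ⟨x, hx⟩
          refine ⟨c * x, ?_⟩
          rw [smul_eq_mul, map_mul, map_mul, ← hx]
          ring } with h𝔡
    have hsup : 𝔡 ⊔ 𝔪 = ⊤ := by
      by_contra hne
      obtain ⟨M, hM, hle⟩ := Ideal.exists_le_maximal _ hne
      have hM0 : M ≠ ⊥ := by
        rintro rfl
        exact h𝔪 (le_bot_iff.1 (le_sup_right.trans hle))
      set w : HS K := ⟨M, hM.isPrime, hM0⟩ with hw
      have h1 := h w (le_sup_right.trans hle)
      have h2 : w.valuation K (κ : K) ≤ 1 := by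
        rw [val_od, h1, WithZero.exp_zero]
      obtain ⟨a, d, had⟩ := w.exists_primeCompl_mul_eq_of_integer (κ : K) h2
      have h3 : (d : 𝓞 K) ∈ 𝔡 := by
        exact ⟨a, had⟩
      exact d.2 (hle (le_sup_left (a := 𝔡) (b := 𝔪) h3))
    have h1 : (1 : 𝓞 K) ∈ 𝔡 ⊔ 𝔪 := by rw [hsup]; trivial
    obtain ⟨y, hy, z, hz, hyz⟩ := Submodule.mem_sup.1 h1
    have hym : y - 1 ∈ 𝔪 := by
      have : y - 1 = -z := by rw [← hyz]; ring
      rw [this]
      exact 𝔪.neg_mem hz
    refine ⟨y, ?_, hym, hy⟩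
    rintro rfl
    apply htop
    rw [Ideal.eq_top_iff_one]
    have := 𝔪.neg_mem hym
    simpa using this

theorem od_one (v : HS K) : od v (1 : Kˣ) = 0 := by
  have := od_mul v (1 : Kˣ) 1
  rw [one_mul] at this
  omega

/-- elements with the same residue differ by an element of `H` -/
theorem mem_H {𝔪 : Ideal (𝓞 K)} {H : Subgroup Kˣ} (h𝔪 : 𝔪 ≠ ⊥)
    (hH : ∀ (x : 𝓞 K) (hx : x ≠ 0), x - 1 ∈ 𝔪 → ui x hx ∈ H) {κ κ' : Kˣ} {x y x' y' : 𝓞 K}
    {hx : x ≠ 0} {hy : y ≠ 0} {hx' : x' ≠ 0} {hy' : y' ≠ 0} (hy1 : y - 1 ∈ 𝔪) (hy1' : y' - 1 ∈ 𝔪)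
    (h : κ * ui y hy = ui x hx) (h' : κ' * ui y' hy' = ui x' hx')
    (hκ' : ∀ v : HS K, 𝔪 ≤ v.asIdeal → od v κ' = 0) (hxx : x - x' ∈ 𝔪) : κ * κ'⁻¹ ∈ H := by
  -- the inverse of `x'` modulo `𝔪`
  obtain ⟨u, hu0, hu⟩ : ∃ u : 𝓞 K, u ≠ 0 ∧ u * x' - 1 ∈ 𝔪 := by
    obtain ⟨a, b, ha, hb, hb1, hab⟩ := exists_denom h𝔪 κ'⁻¹ (fun v hv => by
      rw [od_inv, hκ' v hv, neg_zero])
    refine ⟨a, ha, ?_⟩
    have h1 : ui a ha * ui x' hx' = ui b hb * ui y' hy' := by
      rw [← hab, ← h', mul_mul_mul_comm, inv_mul_cancel, one_mul]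
    have h2 : a * x' = b * y' := by
      have := congrArg (fun z : Kˣ => (z : K)) h1
      simp only [Units.val_mul, coe_ui, ← map_mul] at this
      exact FaithfulSMul.algebraMap_injective (𝓞 K) K this
    rw [h2]
    have : b * y' - 1 = b * (y' - 1) + (b - 1) := by ring
    rw [this]
    exact 𝔪.add_mem (𝔪.mul_mem_left _ hy1') hb1
  have hux : u * x - 1 ∈ 𝔪 := by
    have : u * x - 1 = u * (x - x') + (u * x' - 1) := by ring
    rw [this]
    exact 𝔪.add_mem (𝔪.mul_mem_left _ hxx) hu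
  have k1 := hH (u * x) (mul_ne_zero hu0 hx) hux
  have k2 := hH (u * x') (mul_ne_zero hu0 hx') hu
  have k3 := hH y hy hy1
  have k4 := hH y' hy' hy1'
  have e : κ * κ'⁻¹ = ui (u * x) (mul_ne_zero hu0 hx) * ui y' hy' *
      (ui (u * x') (mul_ne_zero hu0 hx'))⁻¹ * (ui y hy)⁻¹ := by
    have e1 : ui (u * x) (mul_ne_zero hu0 hx) = ui u hu0 * ui x hx :=
      Units.ext (by simp only [Units.val_mul, coe_ui, map_mul])
    have e2 : ui (u * x') (mul_ne_zero hu0 hx') = ui u hu0 * ui x' hx' :=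
      Units.ext (by simp only [Units.val_mul, coe_ui, map_mul])
    rw [e1, e2, ← h, ← h']
    generalize ui u hu0 = A
    generalize ui y hy = B
    generalize ui y' hy' = C
    apply Units.ext
    simp only [Units.val_mul, Units.val_inv_eq_inv_val]
    have hA := A.ne_zero
    have hB := B.ne_zero
    have hC := C.ne_zero
    have hk := κ'.ne_zero
    field_simp
  rw [e]
  exact H.mul_mem (H.mul_mem (H.mul_mem k1 k4) (H.inv_mem k2)) (H.inv_mem k3)

end Cfin

open Cfin in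
theorem s_cfin : S_cfin := by
  classical
  intro K _ _ p _ S H 𝔪 h𝔪 hS hH
  -- the classes of the primes outside `S`
  have hfin : (Set.range fun v : {v : HS K // v ∉ S} => cl p S H v.1).Finite := by
    by_cases hne : Nonempty {v : HS K // v ∉ S}
    swap
    · rw [not_nonempty_iff] at hne
      exact Set.finite_range _
    obtain ⟨⟨v₁, hv₁⟩⟩ := hne
    have hrep : ∀ C : ClassGroup (𝓞 K), ∃ v₀ : HS K, v₀ ∉ S ∧ ∀ v : HS K, v ∉ S → cls v = C →
        cls v₀ = C := by
      intro C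
      by_cases h : ∃ v : HS K, v ∉ S ∧ cls v = C
      · obtain ⟨v, hv, hvC⟩ := h
        exact ⟨v, hv, fun _ _ _ => hvC⟩
      · exact ⟨v₁, hv₁, fun v hv hvC => absurd ⟨v, hv, hvC⟩ h⟩
    choose rep hrepS hrep using hrep
    have hq : ∀ v : {v : HS K // v ∉ S}, ∃ κ : Kˣ, ∀ u : HS K, od u κ =
        (Finsupp.single (rep (cls v.1)) 1 : HS K →₀ ℤ) u - (Finsupp.single v.1 1 : HS K →₀ ℤ) u :=
      fun v => exists_quot (hrep _ v.1 v.2 rfl).symm
    choose k hk using hq
    have hk0 : ∀ (v : {v : HS K // v ∉ S}) (w : HS K), 𝔪 ≤ w.asIdeal → od w (k v) = 0 := by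
      intro v w hw
      have hwS := hS w hw
      rw [hk, Finsupp.single_eq_of_ne, Finsupp.single_eq_of_ne, sub_zero]
      · rintro rfl
        exact v.2 hwS
      · rintro rfl
        exact hrepS _ hwS
    choose x y hx hy hy1 hxy using fun v => exists_denom h𝔪 (k v) (hk0 v)
    have hfac : Function.FactorsThrough (fun v : {v : HS K // v ∉ S} => cl p S H v.1)
        (fun v => (cls v.1, Ideal.Quotient.mk 𝔪 (x v))) := by
      intro v w hvw
      have h1 : cls v.1 = cls w.1 := congrArg Prod.fst hvw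
      have h2 : Ideal.Quotient.mk 𝔪 (x v) = Ideal.Quotient.mk 𝔪 (x w) := congrArg Prod.snd hvw
      rw [Ideal.Quotient.eq] at h2
      have h3 := mem_H h𝔪 hH (hy1 v) (hy1 w) (hxy v) (hxy w) (hk0 w) h2
      change cl p S H v.1 = cl p S H w.1
      unfold cl
      rw [QuotientAddGroup.eq, mem_Rel]
      refine ⟨(k v * (k w)⁻¹)⁻¹, H.inv_mem h3, fun u _ => ?_⟩
      rw [od_inv, od_mul, od_inv, hk, hk, h1, Finsupp.add_apply, Finsupp.neg_apply]
      refine ⟨0, ?_⟩
      ring
    have hfinq : Finite (𝓞 K ⧸ 𝔪) := Ideal.finiteQuotientOfFreeOfNeBot 𝔪 h𝔪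
    obtain ⟨g, hg⟩ := (Function.factorsThrough_iff _).1 hfac
    rw [hg]
    exact (Set.finite_range g).subset (Set.range_comp_subset_range _ g)
  -- the group is generated by the classes of the primes
  have hgen : AddSubgroup.closure (Set.range fun v : {v : HS K // v ∉ S} => cl p S H v.1) = ⊤ := by
    rw [eq_top_iff]
    intro q _
    obtain ⟨n, rfl⟩ := QuotientAddGroup.mk_surjective q
    induction n using Finsupp.induction_linear with
    | zero => exact AddSubgroup.zero_mem _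
    | add a b ha hb => exact AddSubgroup.add_mem _ (ha trivial) (hb trivial)
    | single v m =>
      by_cases hv : v ∈ S
      · have : (QuotientAddGroup.mk (Finsupp.single v m) : Cq p S H) = 0 := by
          rw [QuotientAddGroup.eq_zero_iff, mem_Rel]
          refine ⟨1, H.one_mem, fun u hu => ?_⟩
          have hne : u ≠ v := by
            rintro rfl
            exact hu hv
          rw [od_one, Finsupp.single_eq_of_ne hne, add_zero]
          exact dvd_zero _
        rw [this]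
        exact AddSubgroup.zero_mem _
      · have : (QuotientAddGroup.mk (Finsupp.single v m) : Cq p S H) = m • cl p S H v := by
          unfold cl
          rw [← QuotientAddGroup.mk_zsmul, Finsupp.smul_single, smul_eq_mul, mul_one]
        rw [this]
        have hmem : cl p S H v ∈ Set.range fun v : {v : HS K // v ∉ S} => cl p S H v.1 :=
          ⟨⟨v, hv⟩, rfl⟩
        exact AddSubgroup.zsmul_mem _ (AddSubgroup.subset_closure hmem) m
  have hp0 : 0 < p := (Fact.out : p.Prime).pos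
  have hfg : AddGroup.FG (Cq p S H) := by
    rw [AddGroup.fg_iff]
    exact ⟨Set.range fun v : {v : HS K // v ∉ S} => cl p S H v.1, hgen, hfin⟩
  refine AddCommGroup.finite_of_fg_isAddTorsion (Cq p S H) fun q => ?_
  rw [isOfFinAddOrder_iff_nsmul_eq_zero]
  refine ⟨p, hp0, ?_⟩
  obtain ⟨n, rfl⟩ := QuotientAddGroup.mk_surjective q
  rw [← QuotientAddGroup.mk_nsmul, QuotientAddGroup.eq_zero_iff, mem_Rel]
  refine ⟨1, H.one_mem, fun u _ => ?_⟩
  rw [od_one, add_zero, Finsupp.smul_apply, nsmul_eq_mul]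
  exact dvd_mul_right _ _

end Pool.Agent.NH7.GU
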