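import Pool.Agent.NH7.GU.Stms
import Pool.Agent.NH7.Sch.Che

/-!
# D6: Chebotarev's theorem for a finite space of homomorphisms
-/

set_option autoImplicit false
set_option linter.unusedSectionVars false

namespace Pool.Agent.NH7.GU

open NumberField IsDedekindDomain Pool.Agent.W401.Cheb Pool.Agent.NH7.Sch Filter Topology

namespace ChA

section dens

variable {K : Type} [Field K] [NumberField K]

theorem fin_le (N : ℕ) : {v : HS K | Ideal.absNorm v.asIdeal ≤ N}.Finite :=
  Pool.Agent.W352.ChAbs.finite_le N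

theorem dens_le_add {P P' R : HS K → Prop} (h : ∀ v, P v → P' v ∨ R v) (N : ℕ) :
    dens P N ≤ dens P' N + dens R N := by
  unfold dens
  rw [← add_div]
  refine div_le_div_of_nonneg_right ?_ (Nat.cast_nonneg _)
  have e : ∀ Q : HS K → Prop, Nat.card {v : HS K // Ideal.absNorm v.asIdeal ≤ N ∧ Q v} =
      {v : HS K | Ideal.absNorm v.asIdeal ≤ N ∧ Q v}.ncard := fun Q => rfl
  rw [e, e, e]
  have h1 : {v : HS K | Ideal.absNorm v.asIdeal ≤ N ∧ P v} ⊆
      {v : HS K | Ideal.absNorm v.asIdeal ≤ N ∧ P' v} ∪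
        {v : HS K | Ideal.absNorm v.asIdeal ≤ N ∧ R v} := by
    rintro v ⟨h1, h2⟩
    rcases h v h2 with h3 | h3
    · exact Or.inl ⟨h1, h3⟩
    · exact Or.inr ⟨h1, h3⟩
  have h2 := Set.ncard_le_ncard h1
    (((fin_le N).subset fun v hv => hv.1).union ((fin_le N).subset fun v hv => hv.1))
  exact_mod_cast h2.trans (Set.ncard_union_le _ _)

/-- finitely many primes do not matter -/
theorem dens_congr (S : Finset (HS K)) {P P' : HS K → Prop} (h : ∀ v ∉ S, P v ↔ P' v) {a : ℝ}
    (hP : Tendsto (dens P) atTop (𝓝 a)) : Tendsto (dens P') atTop (𝓝 a) := by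
  have hR : Tendsto (dens fun v => v ∈ S) atTop (𝓝 0) := dens_finite (S.finite_toSet)
  have h1 : ∀ N, dens P N ≤ dens P' N + dens (fun v => v ∈ S) N := dens_le_add fun v hv => by
    by_cases hS : v ∈ S
    · exact Or.inr hS
    · exact Or.inl ((h v hS).1 hv)
  have h2 : ∀ N, dens P' N ≤ dens P N + dens (fun v => v ∈ S) N := dens_le_add fun v hv => by
    by_cases hS : v ∈ S
    · exact Or.inr hS
    · exact Or.inl ((h v hS).2 hv)
  refine tendsto_of_tendsto_of_tendsto_of_le_of_le (g := fun N => dens P N - dens (fun v => v ∈ S) N)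
    (h := fun N => dens P N + dens (fun v => v ∈ S) N) ?_ ?_ ?_ ?_
  · have := hP.sub hR
    rwa [sub_zero] at this
  · have := hP.add hR
    rwa [add_zero] at this
  · intro N
    have := h1 N
    show dens P N - dens (fun v => v ∈ S) N ≤ dens P' N
    linarith
  · intro N
    exact h2 N

end dens

section dual

variable {G : Type} [Group G] {p : ℕ} [hp : Fact p.Prime]

/-- the evaluation -/
def ev (A : Submodule (ZMod p) (G → ZMod p)) (g : G) : Module.Dual (ZMod p) A where
  toFun x := (x : G → ZMod p) g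
  map_add' _ _ := rfl
  map_smul' _ _ := rfl

theorem ev_apply (A : Submodule (ZMod p) (G → ZMod p)) (g : G) (x : A) :
    ev A g x = (x : G → ZMod p) g := rfl

/-- the evaluation as a homomorphism -/
def evH (A : Submodule (ZMod p) (G → ZMod p)) (hA : ∀ x ∈ A, ∀ g h, x (g * h) = x g + x h) :
    G →* Multiplicative (Module.Dual (ZMod p) A) :=
  MonoidHom.mk' (fun g => Multiplicative.ofAdd (ev A g)) fun g h => by
    rw [← ofAdd_add]
    congr 1
    ext x
    exact hA x x.2 g h

theorem evH_apply (A : Submodule (ZMod p) (G → ZMod p))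
    (hA : ∀ x ∈ A, ∀ g h, x (g * h) = x g + x h) (g : G) :
    evH A hA g = Multiplicative.ofAdd (ev A g) := rfl

theorem ev_surj (A : Submodule (ZMod p) (G → ZMod p)) [Finite A]
    (hA : ∀ x ∈ A, ∀ g h, x (g * h) = x g + x h) : Function.Surjective (evH A hA) := by
  have hfd : FiniteDimensional (ZMod p) A := Module.Finite.of_finite
  -- the range as a subspace
  let D : Submodule (ZMod p) (Module.Dual (ZMod p) A) :=
    { carrier := Set.range (ev A)
      add_mem' := by
        rintro _ _ ⟨g, rfl⟩ ⟨h, rfl⟩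
        refine ⟨g * h, ?_⟩
        ext x
        exact hA x x.2 g h
      zero_mem' := by
        refine ⟨1, ?_⟩
        ext x
        have h := hA x x.2 1 1
        rw [mul_one] at h
        exact left_eq_add.1 h
      smul_mem' := by
        rintro c _ ⟨g, rfl⟩
        refine ⟨g ^ c.val, ?_⟩
        have h1 : ∀ n : ℕ, ∀ x : A, (x : G → ZMod p) (g ^ n) = (n : ZMod p) * (x : G → ZMod p) g := by
          intro n x
          induction n with
          | zero =>
            have h := hA x x.2 1 1
            rw [mul_one] at h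
            rw [pow_zero, Nat.cast_zero, zero_mul]
            exact left_eq_add.1 h
          | succ n ih =>
            rw [pow_succ, hA x x.2, ih]
            push_cast
            ring
        ext x
        show (x : G → ZMod p) (g ^ c.val) = c * (x : G → ZMod p) g
        rw [h1, ZMod.natCast_val, ZMod.cast_id] }
  have h1 : D.dualCoannihilator = ⊥ := by
    rw [eq_bot_iff]
    intro x hx
    rw [Submodule.mem_dualCoannihilator] at hx
    rw [Submodule.mem_bot]
    apply Subtype.ext
    funext g
    exact hx (ev A g) ⟨g, rfl⟩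
  have h2 : D = ⊤ := by
    have h3 := Subspace.dualCoannihilator_dualAnnihilator_eq (W := D)
    rw [h1, Submodule.dualAnnihilator_bot] at h3
    exact h3.symm
  intro f
  have h4 : Multiplicative.toAdd f ∈ D := by rw [h2]; trivial
  obtain ⟨g, hg⟩ := h4
  exact ⟨g, congrArg Multiplicative.ofAdd hg⟩

end dual

end ChA

open ChA

theorem s_ch (h : S_frv) : S_ch := by
  classical
  intro K _ _ p hp S A hAf hA hU B
  have hAm : ∀ x ∈ A, ∀ g h, x (g * h) = x g + x h := fun x hx => (hA x hx).m
  have hfd : FiniteDimensional (ZMod p) A := Module.Finite.of_finite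
  have hsurj := ev_surj A hAm
  set E := evH A hAm with hE
  -- the kernel
  set U : Subgroup (GK K) := E.ker with hUdef
  have hUmem : ∀ g, g ∈ U ↔ ∀ x : A, (x : GK K → ZMod p) g = 0 := by
    intro g
    rw [hUdef, MonoidHom.mem_ker, hE, evH_apply]
    constructor
    · intro h1 x
      have h2 : ev A g = 0 := h1
      rw [← ev_apply, h2]
      rfl
    · intro h1
      have h2 : ev A g = 0 := by
        ext x
        exact h1 x
      rw [h2]
      rfl
  have hopen : IsOpen (U : Set (GK K)) := by
    have e : (U : Set (GK K)) = ⋂ x : A, {g | (x : GK K → ZMod p) g = 0} := by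
      ext g
      rw [SetLike.mem_coe, hUmem, Set.mem_iInter]
      rfl
    rw [e]
    exact isOpen_iInter_of_finite fun x => (isOpen_discrete {0}).preimage (hA x x.2).c
  -- the set
  set C : Set (GK K) := {g | ev A g ∈ B} with hC
  have hmul : ∀ g h : GK K, ev A (g * h) = ev A g + ev A h := by
    intro g h
    ext x
    exact hAm x x.2 g h
  have hone : ev A (1 : GK K) = 0 := by
    have h1 := hmul 1 1
    rw [mul_one] at h1
    exact left_eq_add.1 h1
  have hinv : ∀ g : GK K, ev A g⁻¹ = - ev A g := by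
    intro g
    have h1 := hmul g⁻¹ g
    rw [inv_mul_cancel, hone] at h1
    exact eq_neg_of_add_eq_zero_left h1.symm
  have hC1 : ∀ σ ∈ C, ∀ τ : GK K, τ * σ * τ⁻¹ ∈ C := by
    intro σ hσ τ
    rw [hC, Set.mem_ofPred_eq] at hσ ⊢
    rw [hmul, hmul, hinv]
    have e : ev A τ + ev A σ + - ev A τ = ev A σ := by abel
    rw [e]
    exact hσ
  have hC2 : ∀ σ ∈ C, ∀ u ∈ U, σ * u ∈ C := by
    intro σ hσ u hu
    rw [hC, Set.mem_ofPred_eq] at hσ ⊢
    have hu' : ev A u = 0 := by
      ext x
      exact (hUmem u).1 hu x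
    rw [hmul, hu', add_zero]
    exact hσ
  have hch := Pool.Agent.Y142.chebK K U hopen C hC1 hC2
  -- the density
  let φ : GK K ⧸ U ≃* Multiplicative (Module.Dual (ZMod p) A) :=
    QuotientGroup.quotientKerEquivOfSurjective E hsurj
  have hφ : ∀ g : GK K, φ (QuotientGroup.mk g) = Multiplicative.ofAdd (ev A g) := fun g => rfl
  have hcard : Nat.card (GK K ⧸ U) = Nat.card A := by
    have h1 : Nat.card (GK K ⧸ U) = Nat.card (Module.Dual (ZMod p) A) := Nat.card_congr φ.toEquiv
    rw [h1, Module.natCard_eq_pow_finrank (K := ZMod p) (V := A),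
      Module.natCard_eq_pow_finrank (K := ZMod p) (V := Module.Dual (ZMod p) A),
      Subspace.dual_finrank_eq]
  have hnum : ((QuotientGroup.mk : GK K → GK K ⧸ U) '' C).ncard = Nat.card B := by
    have h1 : φ '' ((QuotientGroup.mk : GK K → GK K ⧸ U) '' C) =
        Multiplicative.ofAdd '' (B : Set (Module.Dual (ZMod p) A)) := by
      ext f
      constructor
      · rintro ⟨_, ⟨g, hg, rfl⟩, rfl⟩
        exact ⟨ev A g, hg, rfl⟩
      · rintro ⟨f, hf, rfl⟩
        obtain ⟨g, hg⟩ := hsurj (Multiplicative.ofAdd f)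
        have hg' : ev A g = f := hg
        refine ⟨QuotientGroup.mk g, ⟨g, ?_, rfl⟩, ?_⟩
        · show ev A g ∈ B
          rw [hg']
          exact hf
        · rw [hφ, hg']
    rw [← Set.ncard_image_of_injective _ φ.injective, h1,
      Set.ncard_image_of_injective _ Multiplicative.ofAdd.injective]
    exact (Nat.card_coe_set_eq _).symm
  rw [hcard, hnum] at hch
  refine dens_congr S (fun v hv => ?_) hch
  have hfr : ∀ φ : GK K, IsFrob v φ → ev A φ = ev A (fr v) := by
    intro φ hφ
    ext x
    exact (h K p x (hA x x.2) v (hU x x.2 v hv)).1 φ hφ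
  constructor
  · rintro ⟨σ, hσ, hσv⟩
    refine ⟨ev A (fr v), ?_, fun x => rfl⟩
    rw [← hfr σ hσv]
    exact hσ
  · rintro ⟨f, hf, hfx⟩
    refine ⟨fr v, ?_, fr_spec v⟩
    show ev A (fr v) ∈ B
    have e : ev A (fr v) = f := by
      ext x
      exact hfx x
    rw [e]
    exact hf

end Pool.Agent.NH7.GU
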