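import Pool.Agent.NH7.GU.Stms

/-!
Project GU (helper7), part C2: the multiplicative function on ideals given by a character of the
class group.  Written by helper28.
-/

set_option autoImplicit false
set_option linter.unusedSectionVars false

namespace Pool.Agent.NH7.GU

open NumberField IsDedekindDomain Pool.Agent.W401.Cheb Pool.Agent.NH7.Sch UniqueFactorizationMonoid

namespace ChrAux

variable {K : Type} [Field K] [NumberField K]

/-- a function of the primes, as a function of ideals -/
noncomputable def gg0 (G : HS K → ℂ) (P : Ideal (𝓞 K)) : ℂ := by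
  classical
  exact if h : P.IsPrime ∧ P ≠ ⊥ then G ⟨P, h.1, h.2⟩ else 1

theorem gg0_as (G : HS K → ℂ) (v : HS K) : gg0 G v.asIdeal = G v := by
  unfold gg0
  rw [dif_pos ⟨v.isPrime, v.ne_bot⟩]

/-- the divisor of a prime -/
noncomputable def pd (P : Ideal (𝓞 K)) : HS K →₀ ℤ := by
  classical
  exact if h : P.IsPrime ∧ P ≠ ⊥ then Finsupp.single ⟨P, h.1, h.2⟩ 1 else 0

theorem pd_as (v : HS K) : pd v.asIdeal = Finsupp.single v (1 : ℤ) := by
  unfold pd
  rw [dif_pos ⟨v.isPrime, v.ne_bot⟩]

open Classical in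
theorem pd_apply (P : Ideal (𝓞 K)) (v : HS K) : pd P v = if P = v.asIdeal then 1 else 0 := by
  by_cases h : P.IsPrime ∧ P ≠ ⊥
  · unfold pd
    rw [dif_pos h, Finsupp.single_apply]
    by_cases h1 : P = v.asIdeal
    · rw [if_pos h1, if_pos (HeightOneSpectrum.ext h1)]
    · rw [if_neg h1, if_neg]
      intro h2
      exact h1 (congrArg HeightOneSpectrum.asIdeal h2)
  · unfold pd
    rw [dif_neg h, if_neg]
    · rfl
    · intro h1
      rw [h1] at h
      exact h ⟨v.isPrime, v.ne_bot⟩

open Classical in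
theorem sum_pd (s : Multiset (Ideal (𝓞 K))) (v : HS K) :
    (s.map pd).sum v = (s.count v.asIdeal : ℤ) := by
  induction s using Multiset.induction_on with
  | empty => simp
  | cons P s ih =>
    rw [Multiset.map_cons, Multiset.sum_cons, Finsupp.add_apply, ih, pd_apply,
      Multiset.count_cons]
    by_cases h : P = v.asIdeal
    · rw [if_pos h, if_pos h.symm]
      push_cast
      ring
    · rw [if_neg h, if_neg (fun h' => h h'.symm)]
      push_cast
      ring

open Classical in
/-- the multiplicative function -/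
noncomputable def eta (G : HS K → ℂ) : Ideal (𝓞 K) →*₀ ℂ where
  toFun 𝔞 := if 𝔞 = 0 then 0 else ((normalizedFactors 𝔞).map (gg0 G)).prod
  map_zero' := if_pos rfl
  map_one' := by
    rw [if_neg one_ne_zero, normalizedFactors_one]
    simp
  map_mul' a b := by
    by_cases ha : a = 0
    · rw [ha, zero_mul, if_pos rfl, zero_mul]
    by_cases hb : b = 0
    · rw [hb, mul_zero, if_pos rfl, mul_zero]
    rw [if_neg ha, if_neg hb, if_neg (mul_ne_zero ha hb), normalizedFactors_mul ha hb,
      Multiset.map_add, Multiset.prod_add]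

theorem eta_zero (G : HS K → ℂ) : eta G 0 = 0 := map_zero _

theorem eta_of (G : HS K → ℂ) {𝔞 : Ideal (𝓞 K)} (h : 𝔞 ≠ 0) :
    eta G 𝔞 = ((normalizedFactors 𝔞).map (gg0 G)).prod := if_neg h

theorem exists_prime {𝔞 P : Ideal (𝓞 K)} (hP : P ∈ normalizedFactors 𝔞) :
    ∃ v : HS K, v.asIdeal = P ∧ 𝔞 ≤ v.asIdeal := by
  have h1 := prime_of_normalized_factor P hP
  refine ⟨⟨P, Ideal.isPrime_of_prime h1, h1.ne_zero⟩, rfl, ?_⟩
  exact Ideal.le_of_dvd (dvd_of_mem_normalizedFactors hP)

theorem mem_factors {𝔞 : Ideal (𝓞 K)} (h : 𝔞 ≠ 0) {v : HS K} (hv : 𝔞 ≤ v.asIdeal) :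
    v.asIdeal ∈ normalizedFactors 𝔞 := by
  have h1 : v.asIdeal ∣ 𝔞 := Ideal.dvd_iff_le.2 hv
  obtain ⟨q, hq, hq2⟩ := exists_mem_normalizedFactors_of_dvd h v.irreducible h1
  rwa [← associated_iff_eq.1 hq2] at hq

open Classical in
theorem od_count (v : HS K) (x : 𝓞 K) (hx : x ≠ 0) :
    od v (ui x hx) = -((normalizedFactors (Ideal.span {x})).count v.asIdeal : ℤ) := by
  have hsp : Ideal.span {x} ≠ (0 : Ideal (𝓞 K)) := by
    rw [Ne, Ideal.zero_eq_bot, Ideal.span_singleton_eq_bot]
    exact hx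
  have h1 := od_ui_le v x hx
  obtain ⟨N, hN⟩ : ∃ N : ℕ, od v (ui x hx) = -(N : ℤ) := ⟨(od v (ui x hx)).natAbs, by omega⟩
  have h2 : ∀ n : ℕ, n ≤ N ↔ n ≤ (normalizedFactors (Ideal.span {x})).count v.asIdeal := by
    intro n
    have h3 := od_ui_mem v x hx n
    rw [hN] at h3
    have h4 : x ∈ v.asIdeal ^ n ↔ v.asIdeal ^ n ∣ Ideal.span {x} := by
      rw [Ideal.dvd_span_singleton]
    have h5 := emultiplicity_eq_count_normalizedFactors v.irreducible hsp
    rw [normalize_eq] at h5
    rw [h4, pow_dvd_iff_le_emultiplicity, h5] at h3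
    constructor
    · intro h
      have := h3.1 (by omega)
      exact_mod_cast this
    · intro h
      have := h3.2 (by exact_mod_cast h)
      omega
  have h3 := (h2 N).1 le_rfl
  have h4 := (h2 _).2 le_rfl
  rw [hN]
  have : N = (normalizedFactors (Ideal.span {x})).count v.asIdeal := le_antisymm h3 h4
  rw [← this]

variable {p : ℕ} [hp : Fact p.Prime] {S : Finset (HS K)} {H : Subgroup Kˣ}

theorem prod_rho (ρ : AddChar (Cq p S H) ℂ) (s : Multiset (Ideal (𝓞 K))) :
    (s.map fun P => ρ (QuotientAddGroup.mk (pd P))).prod =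
      ρ (QuotientAddGroup.mk (s.map pd).sum) := by
  induction s using Multiset.induction_on with
  | empty =>
    rw [Multiset.map_zero, Multiset.prod_zero, Multiset.map_zero, Multiset.sum_zero,
      QuotientAddGroup.mk_zero, AddChar.map_zero_eq_one]
  | cons P s ih =>
    rw [Multiset.map_cons, Multiset.prod_cons, ih, Multiset.map_cons, Multiset.sum_cons,
      QuotientAddGroup.mk_add, AddChar.map_add_eq_mul]

theorem norm_rho (ρ : AddChar (Cq p S H) ℂ) (c : Cq p S H) : ‖ρ c‖ = 1 := by
  induction c using QuotientAddGroup.induction_on with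
  | H n =>
    have h1 : p • (QuotientAddGroup.mk n : Cq p S H) = 0 := by
      rw [← QuotientAddGroup.mk_nsmul, QuotientAddGroup.eq_zero_iff, mem_Rel]
      refine ⟨1, H.one_mem, fun v _ => ?_⟩
      have h : od v (1 : Kˣ) = 0 := by
        have := od_mul v (1 : Kˣ) 1
        rw [one_mul] at this
        omega
      rw [h, add_zero, Finsupp.smul_apply, nsmul_eq_mul]
      exact dvd_mul_right _ _
    have h2 : ρ (QuotientAddGroup.mk n : Cq p S H) ^ p = 1 := by
      rw [← AddChar.map_nsmul_eq_pow, h1, AddChar.map_zero_eq_one]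
    have h3 := congrArg norm h2
    rw [norm_pow, norm_one] at h3
    exact (pow_eq_one_iff_of_nonneg (norm_nonneg _) hp.out.ne_zero).1 h3

end ChrAux

open ChrAux in
theorem s_chr : S_chr := by
  classical
  intro K _ _ p hp S H 𝔪 h𝔪 hS hH ρ
  set G : HS K → ℂ := fun v => if v ∈ S then 0 else ρ (cl p S H v) with hG
  have hcop : ∀ 𝔞 : Ideal (𝓞 K), 𝔞 ≠ 0 →
      (IsCoprime 𝔞 𝔪 ↔ ∀ v : HS K, 𝔞 ≤ v.asIdeal → v ∉ S) := by
    intro 𝔞 h𝔞
    rw [Ideal.isCoprime_iff_sup_eq]
    constructor
    · intro h v hv hvS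
      have h1 : 𝔞 ⊔ 𝔪 ≤ v.asIdeal := sup_le hv ((hS v).2 hvS)
      rw [h, top_le_iff] at h1
      exact v.isPrime.ne_top h1
    · intro h
      by_contra hne
      obtain ⟨M, hM, hle⟩ := Ideal.exists_le_maximal _ hne
      have hMb : M ≠ ⊥ := by
        intro hMb
        rw [hMb, le_bot_iff] at hle
        apply h𝔞
        rw [Ideal.zero_eq_bot, ← le_bot_iff]
        exact le_sup_left.trans hle.le
      have h1 := h ⟨M, hM.isPrime, hMb⟩ (le_sup_left.trans hle)
      exact h1 ((hS _).1 (le_sup_right.trans hle))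
  refine ⟨eta G, ?_, ?_, ?_, ?_⟩
  · intro 𝔞
    by_cases h𝔞 : 𝔞 = 0
    · left
      rw [h𝔞, eta_zero]
    by_cases h : ∀ v : HS K, 𝔞 ≤ v.asIdeal → v ∉ S
    · right
      rw [eta_of G h𝔞]
      have h1 : ∀ s : Multiset (Ideal (𝓞 K)), (∀ P ∈ s, ‖gg0 G P‖ = 1) →
          ‖(s.map (gg0 G)).prod‖ = 1 := by
        intro s
        induction s using Multiset.induction_on with
        | empty => intro _; simp
        | cons P s ih =>
          intro h2
          rw [Multiset.map_cons, Multiset.prod_cons, norm_mul, h2 P (Multiset.mem_cons_self P s),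
            ih fun P' hP' => h2 P' (Multiset.mem_cons_of_mem hP'), one_mul]
      apply h1
      intro P hP
      obtain ⟨v, hv, hle⟩ := exists_prime hP
      rw [← hv, gg0_as, hG]
      dsimp only
      rw [if_neg (h v hle)]
      exact norm_rho ρ _
    · left
      push Not at h
      obtain ⟨v, hv, hvS⟩ := h
      rw [eta_of G h𝔞]
      apply Multiset.prod_eq_zero
      rw [Multiset.mem_map]
      refine ⟨v.asIdeal, mem_factors h𝔞 hv, ?_⟩
      rw [gg0_as, hG]
      dsimp only
      rw [if_pos hvS]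
  · intro 𝔞 h𝔞
    rw [← Ideal.zero_eq_bot] at h𝔞
    rw [hcop 𝔞 h𝔞, eta_of G h𝔞, Ne, Multiset.prod_eq_zero_iff, Multiset.mem_map]
    constructor
    · intro h v hv hvS
      apply h
      refine ⟨v.asIdeal, mem_factors h𝔞 hv, ?_⟩
      rw [gg0_as, hG]
      dsimp only
      rw [if_pos hvS]
    · rintro h ⟨P, hP, h0⟩
      obtain ⟨v, hv, hle⟩ := exists_prime hP
      rw [← hv, gg0_as, hG] at h0
      dsimp only at h0
      rw [if_neg (h v hle)] at h0
      have h1 := norm_rho ρ (cl p S H v)
      rw [h0, norm_zero] at h1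
      exact zero_ne_one h1
  · intro x hx hxm
    have hsp : Ideal.span {x} ≠ (0 : Ideal (𝓞 K)) := by
      rw [Ne, Ideal.zero_eq_bot, Ideal.span_singleton_eq_bot]
      exact hx
    have h1 : IsCoprime (Ideal.span {x}) 𝔪 := by
      rw [Ideal.isCoprime_iff_add, Ideal.one_eq_top, Ideal.eq_top_iff_one]
      have h2 : (1 : 𝓞 K) = x + (-(x - 1)) := by ring
      rw [h2]
      exact Submodule.add_mem_sup (Ideal.mem_span_singleton_self x) (neg_mem hxm)
    rw [hcop _ hsp] at h1
    rw [eta_of G hsp]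
    have h2 : (normalizedFactors (Ideal.span {x})).map (gg0 G) =
        (normalizedFactors (Ideal.span {x})).map fun P => ρ (QuotientAddGroup.mk (pd P)) := by
      apply Multiset.map_congr rfl
      intro P hP
      obtain ⟨v, hv, hle⟩ := exists_prime hP
      rw [← hv, gg0_as, pd_as, hG]
      dsimp only
      rw [if_neg (h1 v hle)]
      rfl
    rw [h2, prod_rho]
    have h3 : (QuotientAddGroup.mk ((normalizedFactors (Ideal.span {x})).map pd).sum :
        Cq p S H) = 0 := by
      rw [QuotientAddGroup.eq_zero_iff, mem_Rel]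
      refine ⟨ui x hx, hH x hx hxm, fun v _ => ?_⟩
      rw [od_count, sum_pd, add_neg_cancel]
      exact dvd_zero _
    rw [h3, AddChar.map_zero_eq_one]
  · intro v hv
    rw [eta_of G v.ne_bot, normalizedFactors_irreducible v.irreducible, normalize_eq,
      Multiset.map_singleton, Multiset.prod_singleton, gg0_as, hG]
    dsimp only
    rw [if_neg hv]

end Pool.Agent.NH7.GU
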