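import Mathlib

/-!
# The units congruent to one have no torsion
-/

set_option autoImplicit false

namespace Pool.Agent.NH7.GU

namespace Tor

variable {p : ℕ} [hp : Fact p.Prime]

theorem expand {R : Type} [CommRing R] (y : R) (i : ℕ) :
    ∃ w : R, (1 + y) ^ i = 1 + i * y + y ^ 2 * w := by
  induction i with
  | zero => exact ⟨0, by push_cast; ring⟩
  | succ i ih =>
    obtain ⟨w, hw⟩ := ih
    refine ⟨i + w + y * w, ?_⟩
    rw [pow_succ, hw]
    push_cast
    ring

theorem geom {R : Type} [CommRing R] (y : R) (q : ℕ) :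
    ∃ w : R, ∑ i ∈ Finset.range q, (1 + y) ^ i =
      q + ((∑ i ∈ Finset.range q, i : ℕ) : R) * y + y ^ 2 * w := by
  induction q with
  | zero => exact ⟨0, by simp⟩
  | succ q ih =>
    obtain ⟨w, hw⟩ := ih
    obtain ⟨w', hw'⟩ := expand y q
    refine ⟨w + w', ?_⟩
    rw [Finset.sum_range_succ, Finset.sum_range_succ, hw, hw']
    push_cast
    ring

theorem toZMod_p : PadicInt.toZMod (p : ℤ_[p]) = 0 := by
  rw [map_natCast]
  exact ZMod.natCast_self p

theorem one_add_ne (x : ℤ_[p]) : 1 + (p : ℤ_[p]) * x ≠ 0 := by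
  intro h
  have h1 := congrArg (PadicInt.toZMod (p := p)) h
  rw [map_add, map_mul, toZMod_p, zero_mul, add_zero, map_one, map_zero] at h1
  exact one_ne_zero h1

theorem p_ne : (p : ℤ_[p]) ≠ 0 := by
  exact_mod_cast hp.out.ne_zero

/-- prime exponents -/
theorem tf_prime {x : ℤ_[p]} (h1 : (p : ℤ_[p]) ∣ x - 1) (h2 : p = 2 → (4 : ℤ_[p]) ∣ x - 1) {q : ℕ}
    (hq : q.Prime) (hx : x ^ q = 1) : x = 1 := by
  by_contra hne
  obtain ⟨y, hy⟩ : ∃ y, y = x - 1 := ⟨_, rfl⟩
  have hxy : x = 1 + y := by rw [hy]; ring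
  have hy0 : y ≠ 0 := by rw [hy]; exact sub_ne_zero.2 hne
  rw [← hy] at h1 h2
  have hs : ∑ i ∈ Finset.range q, x ^ i = 0 := by
    have h3 := mul_geom_sum x q
    rw [hx, sub_self, ← hy] at h3
    exact (mul_eq_zero.1 h3).resolve_left hy0
  obtain ⟨w, hw⟩ := geom y q
  rw [← hxy, hs] at hw
  obtain ⟨y1, hy1⟩ := h1
  have hpq : p ∣ q := by
    have h3 := congrArg (PadicInt.toZMod (p := p)) hw
    rw [hy1] at h3
    simp only [map_zero, map_add, map_mul, map_pow, map_natCast, ZMod.natCast_self] at h3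
    rw [← ZMod.natCast_eq_zero_iff]
    linear_combination -h3
  have hqp : q = p := ((Nat.prime_dvd_prime_iff_eq hp.out hq).1 hpq).symm
  subst hqp
  have hg := Finset.sum_range_id_mul_two q
  rcases hq.eq_two_or_odd with h4 | h4
  · subst h4
    obtain ⟨y2, hy2⟩ := h2 rfl
    have h5 : ∑ i ∈ Finset.range 2, x ^ i = 2 * (1 + (2 : ℕ) * y2) := by
      rw [Finset.sum_range_succ, Finset.sum_range_one, hxy, hy2]
      push_cast
      ring
    rw [hs] at h5
    have h6 : (2 : ℤ_[2]) ≠ 0 := by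
      have := p_ne (p := 2)
      exact_mod_cast this
    exact one_add_ne (p := 2) y2 ((mul_eq_zero.1 h5.symm).resolve_left h6)
  · obtain ⟨k, hk⟩ : ∃ k, q = 2 * k + 1 := ⟨q / 2, by omega⟩
    have h5 : ∑ i ∈ Finset.range q, i = q * k := by
      have h6 : q - 1 = 2 * k := by omega
      rw [h6] at hg
      have h7 : (∑ i ∈ Finset.range q, i) * 2 = (q * k) * 2 := by rw [hg]; ring
      exact Nat.eq_of_mul_eq_mul_right (by norm_num) h7
    rw [h5, hy1] at hw
    have h6 : (q : ℤ_[q]) * (1 + (q : ℤ_[q]) * (k * y1 + y1 ^ 2 * w)) = 0 := by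
      rw [hw]
      push_cast
      ring
    exact one_add_ne _ ((mul_eq_zero.1 h6).resolve_left p_ne)

theorem cong_pow {x : ℤ_[p]} {a : ℤ_[p]} (h : a ∣ x - 1) (m : ℕ) : a ∣ x ^ m - 1 := by
  have h1 := sub_one_dvd_pow_sub_one x m
  exact h.trans h1

/-- the units congruent to one have no torsion -/
theorem tf {x : ℤ_[p]} (h1 : (p : ℤ_[p]) ∣ x - 1) (h2 : p = 2 → (4 : ℤ_[p]) ∣ x - 1) :
    ∀ m : ℕ, m ≠ 0 → x ^ m = 1 → x = 1 := by
  intro m
  induction m using Nat.strong_induction_on with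
  | _ m ih =>
    intro hm hx
    by_cases hm1 : m = 1
    · rwa [hm1, pow_one] at hx
    · obtain ⟨q, hq, k, rfl⟩ := Nat.exists_prime_and_dvd hm1
      have hk : k ≠ 0 := by
        rintro rfl
        exact hm (mul_zero _)
      refine ih k ?_ hk ?_
      · have := hq.two_le
        nlinarith [Nat.pos_of_ne_zero hk]
      · refine tf_prime (cong_pow h1 k) (fun h => cong_pow (h2 h) k) hq ?_
        rw [← pow_mul, mul_comm]
        exact hx

end Tor

end Pool.Agent.NH7.GU
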