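import Pool.Agent.NH7.GU.Stms
import Pool.Agent.NH7.GU.TorP

/-!
# Going up for Schneider's conjecture, A10: the comparison
-/

set_option autoImplicit false
set_option linter.unusedSectionVars false

namespace Pool.Agent.NH7.GU

open NumberField IsDedekindDomain Pool.Agent.W401.Cheb Pool.Agent.NH7.Sch Filter Topology

namespace Cmp

variable {p : ℕ} [hp : Fact p.Prime] {G : Type} [Group G] [TopologicalSpace G]

theorem chi_one (c : Chr p G) : c.χ 1 = 0 := c.ker.one_mem

theorem chi_pow (c : Chr p G) (g : G) (n : ℕ) : c.χ (g ^ n) = n * c.χ g := by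
  induction n with
  | zero => rw [pow_zero, chi_one, Nat.cast_zero, zero_mul]
  | succ n ih =>
    rw [pow_succ, c.m, ih]
    push_cast
    ring

theorem psi_one (d : Dat p G) (r : ℤ) : d.psi r 1 = 1 := by
  unfold Dat.psi
  rw [map_one, one_zpow, Units.val_one]

theorem psi_zero (d : Dat p G) (g : G) : d.psi 0 g = 1 := by
  unfold Dat.psi
  rw [zpow_zero, Units.val_one]

/-- the character is not trivial on the decomposition groups above `p` -/
theorem psi_ne (d : Dat p G) (c : Chr p G) {r : ℤ} (hr : r ≠ 0) (k : d.κ) :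
    ∃ g ∈ d.D k, c.χ g = 0 ∧ d.psi r g ≠ 1 := by
  obtain ⟨g0, hg0, hu⟩ := d.hu k
  refine ⟨g0 ^ p, Subgroup.pow_mem _ hg0 p, ?_, fun h => ?_⟩
  · rw [chi_pow, ZMod.natCast_self, zero_mul]
  · unfold Dat.psi at h
    rw [map_pow] at h
    have h1 : (d.ε g0 ^ p) ^ r = 1 := Units.ext (by rw [h, Units.val_one])
    have h2 : (d.ε g0 ^ p) ^ r.natAbs = 1 := by
      rcases Int.natAbs_eq r with h3 | h3
      · rw [h3, zpow_natCast] at h1
        exact h1
      · rw [h3, zpow_neg, zpow_natCast, inv_eq_one] at h1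
        exact h1
    have h3 : ((d.ε g0 : ℤ_[p]ˣ) : ℤ_[p]) ^ (p * r.natAbs) = 1 := by
      rw [pow_mul, ← Units.val_pow_eq_pow_val, ← Units.val_pow_eq_pow_val, h2, Units.val_one]
    have h4 := Tor.tf (d.ε1 g0) (fun h => d.ε2 h g0) (p * r.natAbs)
      (mul_ne_zero hp.out.ne_zero (Int.natAbs_ne_zero.2 hr)) h3
    have h5 := d.hl k g0 hg0
    rw [h4] at h5
    have h6 : (p : ℤ_[p]) ^ d.n k * d.l k g0 = 0 := by linear_combination -h5
    rcases mul_eq_zero.1 h6 with h7 | h7
    · exact pow_ne_zero _ Tor.p_ne h7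
    · rw [h7] at hu
      exact not_isUnit_zero hu

end Cmp

open Cmp

/-- A10. -/
theorem s_cmp (h1 : S_cyc) (h2 : S_crit) (h3 : S_corO) (h4 : S_corZ) : S_cmp := by
  intro p _ G _ _ _ d c hS r f hf
  obtain ⟨O, _, _, ⟨C⟩⟩ := h1 p
  obtain ⟨FO, hFO, hFk⟩ := h3 p O C G d c r f hf
  obtain ⟨t, ht⟩ := h2 p O C G d c hS r FO hFO
  obtain ⟨a, ha⟩ := C.span t
  obtain ⟨FZ, hFZ, hFZk⟩ := h4 p G d c r f hf
  obtain ⟨cc, hcc⟩ : ∃ cc : ZMod p → G → ℤ_[p], ∀ i g, cc i g =
    d.psi r (c.σ ^ i.val) * f ((c.σ ^ i.val)⁻¹ * g * c.σ ^ i.val) := ⟨_, fun i g => rfl⟩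
  obtain ⟨A, hA⟩ : ∃ A : ℤ_[p], A = ∑ i, a i := ⟨_, rfl⟩
  have hcc0 : ∀ g, cc 0 g = f g := by
    intro g
    rw [hcc, ZMod.val_zero, pow_zero, psi_one]
    simp
  -- the shift
  have hz : ∀ i : ZMod p, C.z * C.z ^ i.val = C.z ^ (i + 1).val := by
    intro i
    have e : ((i.val + 1 : ℕ) : ZMod p) = i + 1 := by
      push_cast
      rw [ZMod.natCast_zmod_val]
    rw [← e, ZMod.val_natCast, ← pow_succ', pow_eq_pow_mod _ C.z_pow]
  have key : ∀ g ∈ c.ker, ∀ i j, cc (i - 1) g - cc i g - (d.psi r g - 1) * a i =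
      cc (j - 1) g - cc j g - (d.psi r g - 1) * a j := by
    intro g hg
    refine C.rel (fun i => cc (i - 1) g - cc i g - (d.psi r g - 1) * a i) ?_
    have e1 : FO g = ∑ i : ZMod p, algebraMap ℤ_[p] O (cc i g) * C.z ^ i.val := by
      rw [hFk g hg]
      refine Finset.sum_congr rfl fun i _ => ?_
      rw [hcc, mul_comm]
    have e2 : C.z * FO g = ∑ i : ZMod p, algebraMap ℤ_[p] O (cc (i - 1) g) * C.z ^ i.val := by
      rw [e1, Finset.mul_sum]
      refine Fintype.sum_equiv (Equiv.addRight (1 : ZMod p)) _ _ fun i => ?_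
      show C.z * (algebraMap ℤ_[p] O (cc i g) * C.z ^ i.val) =
        algebraMap ℤ_[p] O (cc (i + 1 - 1) g) * C.z ^ (i + 1).val
      rw [← hz, add_sub_cancel_right]
      ring
    have e3 := ht g
    have hg0 : c.χ g = 0 := hg
    rw [hg0, ZMod.val_zero, pow_zero, one_mul] at e3
    have e4 : ∑ i : ZMod p, algebraMap ℤ_[p] O (cc (i - 1) g - cc i g - (d.psi r g - 1) * a i) *
        C.z ^ i.val = C.z * FO g - FO g - (algebraMap ℤ_[p] O (d.psi r g) - 1) * t := by
      rw [e2, ha, Finset.mul_sum, e1, ← Finset.sum_sub_distrib, ← Finset.sum_sub_distrib]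
      refine Finset.sum_congr rfl fun i _ => ?_
      rw [map_sub, map_sub, map_mul, map_sub, map_one]
      ring
    rw [e4]
    linear_combination e3
  have hsum : ∀ g, ∑ i : ZMod p, (cc (i - 1) g - cc i g) = 0 := by
    intro g
    rw [Finset.sum_sub_distrib, sub_eq_zero]
    exact Fintype.sum_equiv (Equiv.subRight (1 : ZMod p)) _ _ fun i => rfl
  have key2 : ∀ g ∈ c.ker, ∀ j, (p : ℤ_[p]) * (cc (j - 1) g - cc j g) =
      (d.psi r g - 1) * (p * a j - A) := by
    intro g hg j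
    have e1 : ∑ i : ZMod p, (cc (i - 1) g - cc i g - (d.psi r g - 1) * a i) =
        (p : ℤ_[p]) * (cc (j - 1) g - cc j g - (d.psi r g - 1) * a j) := by
      rw [Finset.sum_congr rfl fun i _ => key g hg i j, Finset.sum_const, Finset.card_univ,
        ZMod.card, nsmul_eq_mul]
    have e2 : ∑ i : ZMod p, (cc (i - 1) g - cc i g - (d.psi r g - 1) * a i) =
        -((d.psi r g - 1) * A) := by
      rw [Finset.sum_sub_distrib, hsum, ← Finset.mul_sum, ← hA]
      ring
    rw [e2] at e1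
    linear_combination -e1
  have hB : ∀ n : ℕ, ∃ B : ℤ_[p], ∀ g ∈ c.ker, (p : ℤ_[p]) * (cc (n : ZMod p) g - cc 0 g) =
      (d.psi r g - 1) * B := by
    intro n
    induction n with
    | zero => exact ⟨0, fun g _ => by rw [Nat.cast_zero]; ring⟩
    | succ n ih =>
      obtain ⟨B, hB⟩ := ih
      refine ⟨B - (p * a ((n : ZMod p) + 1) - A), fun g hg => ?_⟩
      have e1 := key2 g hg ((n : ZMod p) + 1)
      rw [add_sub_cancel_right] at e1
      have e2 := hB g hg
      push_cast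
      linear_combination e2 - e1
  choose B hB using hB
  have main : ∀ g ∈ c.ker, (p : ℤ_[p]) * (FZ g - p * f g) =
      (d.psi r g - 1) * ∑ j : ZMod p, B j.val := by
    intro g hg
    have e1 : FZ g = ∑ j : ZMod p, cc j g := by
      rw [hFZk g hg]
      exact Finset.sum_congr rfl fun j _ => (hcc j g).symm
    have e2 : FZ g - p * f g = ∑ j : ZMod p, (cc j g - cc 0 g) := by
      rw [Finset.sum_sub_distrib, ← e1, Finset.sum_const, Finset.card_univ, ZMod.card,
        nsmul_eq_mul, hcc0]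
    rw [e2, Finset.mul_sum, Finset.mul_sum]
    refine Finset.sum_congr rfl fun j _ => ?_
    have e3 := hB j.val g hg
    rw [ZMod.natCast_zmod_val] at e3
    exact e3
  by_cases hr : r = 0
  · refine ⟨FZ, hFZ, 0, fun g hg => ?_⟩
    have e1 := main g hg
    rw [hr, psi_zero, sub_self, zero_mul] at e1
    have e2 := (mul_eq_zero.1 e1).resolve_left Tor.p_ne
    linear_combination -e2
  · obtain ⟨k⟩ := d.ne
    obtain ⟨z1, hz1⟩ := hf.above k
    obtain ⟨z2, hz2⟩ := hFZ.above k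
    obtain ⟨g, hg, hg0, hg1⟩ := psi_ne d c hr k
    have e1 := main g hg0
    rw [hz1 g hg hg0, hz2 g hg (Subgroup.mem_top _)] at e1
    have e2 : (d.psi r g - 1) * (p * (z2 - p * z1) - ∑ j : ZMod p, B j.val) = 0 := by
      linear_combination e1
    have e3 := (mul_eq_zero.1 e2).resolve_left (sub_ne_zero.2 hg1)
    refine ⟨FZ, hFZ, -(z2 - p * z1), fun x hx => ?_⟩
    have e4 := main x hx
    have e5 : (p : ℤ_[p]) * (FZ x - p * f x - (d.psi r x - 1) * (z2 - p * z1)) = 0 := by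
      linear_combination e4 - (d.psi r x - 1) * e3
    have e6 := (mul_eq_zero.1 e5).resolve_left Tor.p_ne
    linear_combination -e6

end Pool.Agent.NH7.GU
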