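import Pool.Agent.NH7.GU.Stms

/-! The primes of the algebraic closure above `v` are conjugate (`S_cnj`). -/

set_option autoImplicit false

namespace Pool.Agent.NH7.GU

open NumberField IsDedekindDomain Pool.Agent.W401.Cheb Pool.Agent.NH7.Sch

theorem s_cnj : S_cnj := by
  intro K _ _ v Q Q' hQ hQ' hQv hQ'v
  obtain ⟨τ, hτ⟩ := Pool.Agent.W352.ChAbs.exists_smul Q Q' (hQv.trans hQ'v.symm)
  refine ⟨τ, ?_⟩
  ext x
  rw [mem_mv, hτ, smul_inv_smul]

end Pool.Agent.NH7.GU
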