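import Pool.Agent.NH7.GU.Stms

/-!
# Project GU, A8: the twisted corestriction satisfies the local conditions (helper48)
-/

set_option autoImplicit false
set_option linter.unusedSectionVars false

namespace Pool.Agent.NH7.GU

open NumberField IsDedekindDomain Pool.Agent.W401.Cheb Pool.Agent.NH7.Sch Filter Topology

namespace CorOP

variable {p : ℕ} [hp : Fact p.Prime] {G : Type} [Group G] [TopologicalSpace G]

theorem psi_conj (d : Dat p G) (r : ℤ) (s g : G) : d.psi r (s⁻¹ * g * s) = d.psi r g := by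
  unfold Dat.psi
  rw [map_mul, map_mul, map_inv]
  congr 2
  rw [mul_comm, mul_inv_cancel_left]

theorem chi_conj (c : Chr p G) {g : G} (s : G) (hg : c.χ g = 0) : c.χ (s⁻¹ * g * s) = 0 := by
  have h1 : c.χ 1 = 0 := by
    have h := c.m 1 1
    rw [mul_one] at h
    exact left_eq_add.1 h
  have h2 := c.m s⁻¹ s
  rw [inv_mul_cancel, h1] at h2
  rw [c.m, c.m, hg, add_zero, ← h2]

theorem I_conj' (d : Dat p G) (i : d.ι) (s g : G) (hg : g ∈ d.I i) :
    ∃ j, s⁻¹ * g * s ∈ d.I j := by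
  obtain ⟨j, hj⟩ := d.I_conj i s⁻¹
  refine ⟨j, ?_⟩
  have h := (hj g).1 hg
  rwa [inv_inv] at h

end CorOP

open CorOP in
/-- A8. -/
theorem s_corO (hc : S_cor) : S_corO := by
  intro p _ O _ _ C G _ _ _ d c r f hf
  obtain ⟨F, h1, h2, h3⟩ := hc p O C.z C.z_pow G d c r f hf.coc
  have hz : (C.z - 1) ∣ algebraMap ℤ_[p] O (p : ℤ_[p]) := by
    apply C.ker
    rw [C.ev_int, map_natCast, CharP.cast_eq_zero]
  refine ⟨F, ⟨fun n g => ?_, h1, fun i g hg hχ => ?_, fun k => ?_⟩, h2⟩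
  · filter_upwards [h3 n g] with h hh
    refine dvd_trans ?_ hh
    rw [map_pow]
    exact pow_dvd_pow_of_dvd hz n
  · rw [h2 g hχ]
    refine Finset.sum_eq_zero fun i' _ => ?_
    obtain ⟨j, hj⟩ := I_conj' d i (c.σ ^ i'.val) g hg
    have h4 := hf.away j _ hj (chi_conj c (c.σ ^ i'.val) hχ)
    rw [h4, mul_zero, map_zero, mul_zero]
  · have h4 : ∀ i : ZMod p, ∃ z : ℤ_[p], ∀ g ∈ d.D k, c.χ g = 0 →
        f ((c.σ ^ i.val)⁻¹ * g * c.σ ^ i.val) = (d.psi r g - 1) * z := by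
      intro i
      obtain ⟨j, hj⟩ := d.D_conj k (c.σ ^ i.val)⁻¹
      obtain ⟨z, hz⟩ := hf.above j
      refine ⟨z, fun g hg hχ => ?_⟩
      have h5 := (hj g).1 hg
      rw [inv_inv] at h5
      rw [hz _ h5 (chi_conj c _ hχ), psi_conj]
    choose y hy using h4
    refine ⟨0, ∑ i : ZMod p, C.z ^ i.val * algebraMap ℤ_[p] O (d.psi r (c.σ ^ i.val) * y i),
      fun g hg hχ => ?_⟩
    rw [pow_zero, one_mul, h2 g hχ, Finset.mul_sum]
    refine Finset.sum_congr rfl fun i _ => ?_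
    rw [hy i g hg hχ]
    simp only [map_mul, map_sub, map_one]
    ring

end Pool.Agent.NH7.GU
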