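import Pool.Agent.NH7.GU.Stms

/-!
# GU-A7: the corestriction formula (helper45)
-/

set_option autoImplicit false
set_option linter.unusedSectionVars false

namespace Pool.Agent.NH7.GU

open Filter Topology

namespace CorP

variable {p : ℕ} [hp : Fact p.Prime] {G : Type} [Group G] [TopologicalSpace G]

theorem psi_mul (d : Dat p G) (r : ℤ) (g h : G) : d.psi r (g * h) = d.psi r g * d.psi r h := by
  unfold Dat.psi
  rw [map_mul, mul_zpow, Units.val_mul]

theorem chi_one (c : Chr p G) : c.χ 1 = 0 := by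
  have h := c.m 1 1
  rw [mul_one] at h
  exact left_eq_add.1 h

theorem chi_inv (c : Chr p G) (g : G) : c.χ g⁻¹ = -c.χ g := by
  have h := c.m g⁻¹ g
  rw [inv_mul_cancel, chi_one] at h
  exact eq_neg_of_add_eq_zero_left h.symm

theorem chi_pow (c : Chr p G) (k : ℕ) : c.χ (c.σ ^ k) = k := by
  induction k with
  | zero => rw [pow_zero, chi_one, Nat.cast_zero]
  | succ k ih => rw [pow_succ, c.m, ih, c.hσ, Nat.cast_succ]

theorem pow_val_add {O : Type} [CommRing O] (w : O) (hw : w ^ p = 1) (a b : ZMod p) :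
    w ^ (a + b).val = w ^ a.val * w ^ b.val := by
  rw [ZMod.val_add, ← pow_add]
  exact (pow_eq_pow_mod _ hw).symm

/-- the argument of the cocycle -/
def N (c : Chr p G) (i : ZMod p) (g : G) : G :=
  (c.σ ^ i.val)⁻¹ * g * c.σ ^ (i - c.χ g).val

theorem N_ker (c : Chr p G) (i : ZMod p) (g : G) : N c i g ∈ c.ker := by
  rw [Chr.mem_ker, N, c.m, c.m, chi_inv, chi_pow, chi_pow, ZMod.natCast_zmod_val,
    ZMod.natCast_zmod_val]
  ring

theorem N_mul (c : Chr p G) (i : ZMod p) (g h : G) :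
    N c i (g * h) = N c i g * N c (i - c.χ g) h := by
  unfold N
  rw [c.m, sub_sub]
  group

theorem psi_N (d : Dat p G) (c : Chr p G) (r : ℤ) (i : ZMod p) (g : G) :
    d.psi r (c.σ ^ i.val) * d.psi r (N c i g) =
      d.psi r g * d.psi r (c.σ ^ (i - c.χ g).val) := by
  rw [← psi_mul, ← psi_mul, N]
  congr 1
  group

theorem dvd_of_norm (n : ℕ) (x : ℤ_[p]) (hx : ‖x‖ ≤ (p : ℝ) ^ (-n : ℤ)) :
    (p : ℤ_[p]) ^ n ∣ x := by
  rw [PadicInt.norm_le_pow_iff_mem_span_pow, Ideal.mem_span_singleton] at hx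
  exact hx

theorem cont_at [IsTopologicalGroup G] (d : Dat p G) (c : Chr p G) (r : ℤ) (f : G → ℤ_[p])
    (hf : Coc d r c.ker f) (i : ZMod p) (n : ℕ) (g : G) :
    ∀ᶠ h in 𝓝 g, (p : ℤ_[p]) ^ n ∣ f (N c i h) - f (N c i g) := by
  have hopen : IsOpen (c.ker : Set G) := by
    have : (c.ker : Set G) = c.χ ⁻¹' {0} := rfl
    rw [this]
    exact (isOpen_discrete _).preimage c.c
  have h1 : ContinuousOn f (c.ker : Set G) := by
    rw [continuousOn_iff_continuous_domRestrict]
    exact hf.cont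
  have h2 : ContinuousAt f (N c i g) :=
    h1.continuousAt (hopen.mem_nhds (N_ker c i g))
  have h3 : ContinuousAt (fun h : G => (c.σ ^ i.val)⁻¹ * h * c.σ ^ (i - c.χ g).val) g := by
    fun_prop
  have h4 : ContinuousAt (fun h : G => f ((c.σ ^ i.val)⁻¹ * h * c.σ ^ (i - c.χ g).val)) g :=
    ContinuousAt.comp (f := fun h : G => (c.σ ^ i.val)⁻¹ * h * c.σ ^ (i - c.χ g).val) h2 h3
  have h5 : ∀ᶠ h in 𝓝 g, c.χ h = c.χ g := by
    have h51 : ∀ᶠ y in 𝓝 (c.χ g), y = c.χ g := by
      rw [nhds_discrete]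
      exact Filter.eventually_pure.2 rfl
    exact c.c.continuousAt.eventually h51
  have hpos : (0 : ℝ) < (p : ℝ) ^ (-n : ℤ) := by
    have : (0 : ℝ) < p := by exact_mod_cast hp.out.pos
    positivity
  have h6 := Metric.tendsto_nhds.1 h4 _ hpos
  filter_upwards [h5, h6] with h hh hd
  apply dvd_of_norm
  rw [N, hh]
  rw [dist_eq_norm] at hd
  exact hd.le

end CorP

open CorP in
theorem s_cor : S_cor := by
  intro p hp O _ _ w hw G _ _ _ d c r f hf
  refine ⟨fun g => ∑ i : ZMod p, w ^ i.val *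
    algebraMap ℤ_[p] O (d.psi r (c.σ ^ i.val) * f (N c i g)), ?_, ?_, ?_⟩
  · intro g h
    have h1 : ∀ i : ZMod p, w ^ i.val *
        algebraMap ℤ_[p] O (d.psi r (c.σ ^ i.val) * f (N c i (g * h))) =
        w ^ i.val * algebraMap ℤ_[p] O (d.psi r (c.σ ^ i.val) * f (N c i g)) +
        w ^ (c.χ g).val * algebraMap ℤ_[p] O (d.psi r g) * (w ^ (i - c.χ g).val *
          algebraMap ℤ_[p] O (d.psi r (c.σ ^ (i - c.χ g).val) * f (N c (i - c.χ g) h))) := by
      intro i
      have e1 : d.psi r (c.σ ^ i.val) * f (N c i (g * h)) =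
          d.psi r (c.σ ^ i.val) * f (N c i g) +
          d.psi r g * (d.psi r (c.σ ^ (i - c.χ g).val) * f (N c (i - c.χ g) h)) := by
        rw [N_mul, hf.mul _ (N_ker c i g) _ (N_ker c _ h), mul_add, ← mul_assoc, psi_N,
          ← mul_assoc]
      have e2 : w ^ i.val = w ^ (c.χ g).val * w ^ (i - c.χ g).val := by
        rw [← pow_val_add w hw]
        congr 2
        ring
      rw [e1, map_add, map_mul (algebraMap ℤ_[p] O) (d.psi r g), mul_add]
      congr 1
      rw [e2]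
      ring
    show ∑ i : ZMod p, w ^ i.val *
        algebraMap ℤ_[p] O (d.psi r (c.σ ^ i.val) * f (N c i (g * h))) = _
    rw [Finset.sum_congr rfl fun i _ => h1 i, Finset.sum_add_distrib, ← Finset.mul_sum]
    congr 2
    exact (Equiv.subRight (c.χ g)).sum_comp fun j => w ^ j.val *
      algebraMap ℤ_[p] O (d.psi r (c.σ ^ j.val) * f (N c j h))
  · intro g hg
    have hg' : c.χ g = 0 := hg
    refine Finset.sum_congr rfl fun i _ => ?_
    rw [N, hg', sub_zero]
  · intro n g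
    have h1 : ∀ᶠ h in 𝓝 g, ∀ i : ZMod p, (p : ℤ_[p]) ^ n ∣ f (N c i h) - f (N c i g) :=
      Filter.eventually_all.2 fun i => cont_at d c r f hf i n g
    filter_upwards [h1] with h hh
    show _ ∣ ∑ i : ZMod p, w ^ i.val *
        algebraMap ℤ_[p] O (d.psi r (c.σ ^ i.val) * f (N c i h)) - ∑ i : ZMod p, w ^ i.val *
        algebraMap ℤ_[p] O (d.psi r (c.σ ^ i.val) * f (N c i g))
    rw [← Finset.sum_sub_distrib]
    refine Finset.dvd_sum fun i _ => ?_
    rw [← mul_sub, ← map_sub, ← mul_sub]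
    exact Dvd.dvd.mul_left (map_dvd _ (Dvd.dvd.mul_left (hh i) _)) _

end Pool.Agent.NH7.GU
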