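import Pool.Agent.NH7.GU.Stms

/-!
# Going up for Schneider's conjecture, A6: the criterion (helper17)
-/

set_option autoImplicit false
set_option linter.unusedSectionVars false

namespace Pool.Agent.NH7.GU

open Filter Topology

namespace CritP

section

variable {p : ℕ} [hp : Fact p.Prime] {O : Type} [CommRing O] [Algebra ℤ_[p] O] (C : Cyc p O)
  {G : Type} [Group G] [TopologicalSpace G] [IsTopologicalGroup G] {d : Dat p G} {c : Chr p G}
  {r : ℤ}

theorem ev_psi (d : Dat p G) (r : ℤ) (g : G) :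
    C.ev (algebraMap ℤ_[p] O (d.psi r g)) = 1 := by
  rw [C.ev_int]
  have h1 : Units.map (PadicInt.toZMod (p := p) : ℤ_[p] →+* ZMod p).toMonoidHom (d.ε g) = 1 := by
    apply Units.ext
    obtain ⟨t, ht⟩ := d.ε1 g
    have h2 : (d.ε g : ℤ_[p]) = 1 + (p : ℤ_[p]) * t := by linear_combination ht
    change PadicInt.toZMod (d.ε g : ℤ_[p]) = 1
    rw [h2, map_add, map_one, map_mul, map_natCast, ZMod.natCast_self, zero_mul, add_zero]
  have h3 : Units.map (PadicInt.toZMod (p := p) : ℤ_[p] →+* ZMod p).toMonoidHom ((d.ε g) ^ r) = 1 := by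
    rw [map_zpow, h1, one_zpow]
  have h4 := congrArg Units.val h3
  exact h4

theorem ev_z1 : C.ev (C.z - 1) = 0 := by rw [map_sub, C.ev_z, map_one, sub_self]

theorem cancel {x y : O} (h : (C.z - 1) * x = (C.z - 1) * y) : x = y := by
  have h1 : (C.z - 1) * (x - y) = 0 := by rw [mul_sub, h, sub_self]
  exact sub_eq_zero.1 (C.inj _ h1)

variable {C}

/-- the subtraction of a multiple -/
theorem isO_sub {F b : G → O} (hF : IsO C d c r F) (hb : IsO C d c r b) (t : O) :
    IsO C d c r (fun g => F g - b g * t) where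
  cont := by
    intro n g
    filter_upwards [hF.cont n g, hb.cont n g] with h h1 h2
    have e : (F h - b h * t) - (F g - b g * t) = (F h - F g) - (b h - b g) * t := by ring
    rw [e]
    exact dvd_sub h1 (h2.mul_right t)
  mul := by
    intro g h
    rw [hF.mul, hb.mul]
    ring
  away := by
    intro i g hg h0
    rw [hF.away i g hg h0, hb.away i g hg h0]
    ring
  above := by
    intro k
    obtain ⟨n₁, t₁, h1⟩ := hF.above k
    obtain ⟨n₂, t₂, h2⟩ := hb.above k
    refine ⟨n₁ + n₂, (C.z - 1) ^ n₂ * t₁ - (C.z - 1) ^ n₁ * t₂ * t, ?_⟩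
    intro g hg h0
    have e1 := h1 g hg h0
    have e2 := h2 g hg h0
    rw [pow_add]
    linear_combination (C.z - 1) ^ n₂ * e1 - (C.z - 1) ^ n₁ * t * e2

/-- one step -/
theorem step (hT : SelTriv d c) (ht : S_tame) (hn : S_nspl) (hs : S_spl) {F : G → O}
    (hF : IsO C d c r F) (h0 : F c.σ = 0) :
    ∃ F1 : G → O, (∀ g, F g = (C.z - 1) * F1 g) ∧ IsO C d c r F1 ∧ F1 c.σ = 0 := by
  have hc : Continuous fun g => C.ev (F g) := by
    have hloc : IsLocallyConstant fun g => C.ev (F g) := by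
      rw [IsLocallyConstant.iff_eventually_eq]
      intro g
      filter_upwards [hF.cont 1 g] with h h1
      obtain ⟨t, ht⟩ := h1
      have h2 := congrArg C.ev ht
      rw [pow_one, map_sub, map_mul, ev_z1, zero_mul, sub_eq_zero] at h2
      exact h2
    exact hloc.continuous
  have hm : ∀ g h, C.ev (F (g * h)) = C.ev (F g) + C.ev (F h) := by
    intro g h
    rw [hF.mul, map_add, map_mul, map_mul, map_pow, C.ev_z, one_pow, ev_psi C, one_mul, one_mul]
  obtain ⟨a, ha⟩ := hT (fun g => C.ev (F g)) hc hm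
    (fun i hi g hg => by

      rw [hF.away i g hg (hi g hg), map_zero])
    (fun i hi => ht p O C G d c r F hF i hi) (fun k hk => hn p O C G d c r F hF k hk)
    (fun k hk => hs p O C G d c r F hF k hk)
  have ha0 : a = 0 := by
    have h1 := ha c.σ
    simp only [h0, map_zero, c.hσ, mul_one] at h1
    exact h1.symm
  have hdiv : ∀ g, (C.z - 1) ∣ F g := by
    intro g
    apply C.ker
    have h1 := ha g
    rw [ha0, zero_mul] at h1
    exact h1
  choose F1 hF1 using hdiv
  refine ⟨F1, hF1, ⟨?_, ?_, ?_, ?_⟩, ?_⟩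
  · intro n g
    filter_upwards [hF.cont (n + 1) g] with h h1
    obtain ⟨t, ht⟩ := h1
    refine ⟨t, cancel C ?_⟩
    have e1 := hF1 h
    have e2 := hF1 g
    rw [pow_succ] at ht
    linear_combination ht - e1 + e2
  · intro g h
    apply cancel C
    have e1 := hF1 (g * h)
    have e2 := hF1 g
    have e3 := hF1 h
    have e4 := hF.mul g h
    linear_combination e4 - e1 + e2 +
      C.z ^ (c.χ g).val * algebraMap ℤ_[p] O (d.psi r g) * e3
  · intro i g hg h1
    apply C.inj
    rw [← hF1, hF.away i g hg h1]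
  · intro k
    obtain ⟨n, t, h1⟩ := hF.above k
    refine ⟨n + 1, t, fun g hg h2 => ?_⟩
    rw [← h1 g hg h2, hF1 g, pow_succ]
    ring
  · apply C.inj
    rw [← hF1, h0]

theorem zero_of (hT : SelTriv d c) (ht : S_tame) (hn : S_nspl) (hs : S_spl) (n : ℕ) :
    ∀ F : G → O, IsO C d c r F → F c.σ = 0 → ∀ g, (C.z - 1) ^ n ∣ F g := by
  induction n with
  | zero =>
    intro F _ _ g
    rw [pow_zero]
    exact one_dvd _
  | succ n ih =>
    intro F hF h0 g
    obtain ⟨F1, h1, h2, h3⟩ := step hT ht hn hs hF h0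
    rw [h1 g, pow_succ, mul_comm]
    exact mul_dvd_mul_left _ (ih F1 h2 h3 g)

end

end CritP

open CritP in
theorem s_crit (hb : S_bb) (ht : S_tame) (hn : S_nspl) (hs : S_spl) : S_crit := by
  intro p _ O _ _ C G _ _ _ d c hT r F hF
  obtain ⟨b, hb1, hb2, hb3⟩ := hb p O C G d c r
  have hu : IsUnit (b c.σ) := by
    apply C.unit
    rw [hb2, c.hσ]
    exact one_ne_zero
  obtain ⟨u, hu⟩ := hu
  have hF' := isO_sub hF hb3 (F c.σ * ((u⁻¹ : Oˣ) : O))
  have h0 : F c.σ - b c.σ * (F c.σ * ((u⁻¹ : Oˣ) : O)) = 0 := by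
    rw [← hu]
    have : (u : O) * (F c.σ * ((u⁻¹ : Oˣ) : O)) = F c.σ * ((u : O) * ((u⁻¹ : Oˣ) : O)) := by ring
    rw [this, Units.mul_inv, mul_one, sub_self]
  have h1 : ∀ g, F g - b g * (F c.σ * ((u⁻¹ : Oˣ) : O)) = 0 := fun g =>
    C.sep _ fun n => zero_of hT ht hn hs n _ hF' h0 g
  refine ⟨F c.σ * ((u⁻¹ : Oˣ) : O), fun g => ?_⟩
  have h2 := h1 g
  have h3 := hb1 g
  linear_combination (C.z - 1) * h2 + (F c.σ * ((u⁻¹ : Oˣ) : O)) * h3

end Pool.Agent.NH7.GU
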