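import Pool.Agent.NH7.GU.Stms

/-!
# GU-A1 (helper92): the ring `ℤ_p[ζ_p]`
-/

set_option autoImplicit false

namespace Pool.Agent.NH7.GU

namespace Cyc92

open Polynomial

variable (p : ℕ) [hp : Fact p.Prime]

/-- the ring `ℤ_p[ζ_p]` -/
abbrev OP : Type := AdjoinRoot (cyclotomic p ℤ_[p])

/-- the root of unity -/
noncomputable def zz : OP p := AdjoinRoot.root (cyclotomic p ℤ_[p])

theorem monic : (cyclotomic p ℤ_[p]).Monic := cyclotomic.monic p _

theorem mk_eq (g : ℤ_[p][X]) : AdjoinRoot.mk (cyclotomic p ℤ_[p]) g = aeval (zz p) g :=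
  (AdjoinRoot.aeval_eq g).symm

theorem root_zero : aeval (zz p) (cyclotomic p ℤ_[p]) = 0 := by
  rw [← mk_eq, AdjoinRoot.mk_self]

theorem geom : ∑ i ∈ Finset.range p, (zz p) ^ i = 0 := by
  have h := root_zero p
  have e : (aeval (zz p)) (cyclotomic p ℤ_[p]) =
      (aeval (zz p)) (∑ i ∈ Finset.range p, X ^ i : ℤ_[p][X]) :=
    congrArg _ (cyclotomic_prime _ p)
  rw [e, map_sum] at h
  simpa using h

theorem z_pow : (zz p) ^ p = 1 := by
  have h := mul_geom_sum (zz p) p
  rw [geom, mul_zero] at h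
  exact (sub_eq_zero.1 h.symm)

/-- the reduction -/
noncomputable def evp : OP p →+* ZMod p :=
  AdjoinRoot.lift PadicInt.toZMod 1 (by
    rw [eval₂_eq_eval_map, map_cyclotomic, eval_one_cyclotomic_prime]
    exact CharP.cast_eq_zero _ _)

theorem evp_z : evp p (zz p) = 1 := AdjoinRoot.lift_root _

theorem evp_int (a : ℤ_[p]) : evp p (algebraMap ℤ_[p] (OP p) a) = PadicInt.toZMod a :=
  AdjoinRoot.lift_of _

/-- `p` is a multiple of `z - 1` -/
theorem dvd_p : (zz p - 1) ∣ (p : OP p) := by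
  have h1 : (zz p - 1) ∣ ∑ i ∈ Finset.range p, ((zz p) ^ i - 1) :=
    Finset.dvd_sum fun i _ => by simpa using sub_dvd_pow_sub_pow (zz p) 1 i
  rw [Finset.sum_sub_distrib, geom] at h1
  simpa using h1

theorem p_dvd_int {a : ℤ_[p]} (h : PadicInt.toZMod a = 0) : (p : ℤ_[p]) ∣ a := by
  have h1 : a ∈ RingHom.ker (PadicInt.toZMod (p := p)) := h
  rw [PadicInt.ker_toZMod, PadicInt.maximalIdeal_eq_span_p, Ideal.mem_span_singleton] at h1
  exact h1

theorem ker (x : OP p) (hx : evp p x = 0) : (zz p - 1) ∣ x := by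
  obtain ⟨g, rfl⟩ := AdjoinRoot.mk_surjective x
  rw [mk_eq] at hx ⊢
  have h1 : evp p (aeval (zz p) g) = PadicInt.toZMod (eval 1 g) := by
    have h2 : ∀ g : ℤ_[p][X], evp p (aeval (zz p) g) = PadicInt.toZMod (eval 1 g) := by
      intro g
      induction g using Polynomial.induction_on' with
      | add f g hf hg => rw [map_add, map_add, hf, hg, eval_add, map_add]
      | monomial n a =>
        rw [aeval_monomial, map_mul, map_pow, evp_z, evp_int, one_pow, mul_one, eval_monomial,
          one_pow, mul_one]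
    exact h2 g
  rw [h1] at hx
  obtain ⟨b, hb⟩ := p_dvd_int p hx
  have h3 : (X - C 1) ∣ g - C (eval 1 g) := by
    rw [dvd_iff_isRoot]
    simp
  obtain ⟨q, hq⟩ := h3
  have h4 : g = C (eval 1 g) + (X - C 1) * q := by rw [← hq]; ring
  rw [h4, map_add, map_mul, hb]
  refine dvd_add ?_ ?_
  · rw [aeval_C, map_mul, map_natCast]
    exact (dvd_p p).mul_right _
  · refine Dvd.dvd.mul_right ?_ _
    simp

theorem free : Module.Free ℤ_[p] (OP p) := (AdjoinRoot.powerBasis' (monic p)).basis |> Module.Free.of_basis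

theorem finite : Module.Finite ℤ_[p] (OP p) := (AdjoinRoot.powerBasis' (monic p)).finite

theorem p_inj (x : OP p) (h : (p : OP p) * x = 0) : x = 0 := by
  have b := (AdjoinRoot.powerBasis' (monic p)).basis
  have h1 : (p : ℤ_[p]) • x = 0 := by
    rw [Algebra.smul_def, map_natCast]
    exact h
  apply b.ext_elem
  intro i
  have h2 := congrArg (fun y => b.repr y i) h1
  simp only [map_smul, Finsupp.smul_apply, smul_eq_mul, map_zero, Finsupp.zero_apply] at h2 ⊢
  rcases mul_eq_zero.1 h2 with h3 | h3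
  · exact absurd h3 (by exact_mod_cast hp.out.ne_zero)
  · exact h3

theorem inj (x : OP p) (h : (zz p - 1) * x = 0) : x = 0 := by
  obtain ⟨w, hw⟩ := dvd_p p
  apply p_inj
  rw [hw]
  calc (zz p - 1) * w * x = w * ((zz p - 1) * x) := by ring
    _ = 0 := by rw [h, mul_zero]

/-- `(z - 1)^p` is a multiple of `p` -/
theorem p_dvd : (p : OP p) ∣ (zz p - 1) ^ p := by
  obtain ⟨r, hr⟩ := exists_add_pow_prime_eq hp.out (zz p - 1) 1
  rw [sub_add_cancel, z_pow, one_pow] at hr
  exact ⟨-((zz p - 1) * r), by linear_combination -hr⟩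

theorem sep (x : OP p) (h : ∀ n : ℕ, (zz p - 1) ^ n ∣ x) : x = 0 := by
  have h1 : ∀ n : ℕ, (p : OP p) ^ n ∣ x := by
    intro n
    refine dvd_trans ?_ (h (p * n))
    rw [pow_mul]
    exact pow_dvd_pow_of_dvd (p_dvd p) n
  have b := (AdjoinRoot.powerBasis' (monic p)).basis
  apply b.ext_elem
  intro i
  rw [map_zero, Finsupp.zero_apply]
  have h2 : ∀ n : ℕ, (p : ℤ_[p]) ^ n ∣ b.repr x i := by
    intro n
    obtain ⟨y, hy⟩ := h1 n
    have h3 : x = ((p : ℤ_[p]) ^ n) • y := by
      rw [hy, Algebra.smul_def, map_pow, map_natCast]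
    rw [h3, map_smul, Finsupp.smul_apply, smul_eq_mul]
    exact Dvd.intro _ rfl
  by_contra h3
  have hnu : ¬ IsUnit (p : ℤ_[p]) := PadicInt.prime_p.not_isUnit
  obtain ⟨n, hn⟩ := FiniteMultiplicity.of_not_isUnit hnu h3
  exact hn (h2 _)

theorem unit_one (v : OP p) : IsUnit (1 - (p : OP p) * v) := by
  have := finite p
  have h := Submodule.le_of_le_smul_of_le_jacobson_bot (R := ℤ_[p]) (M := OP p)
    (I := IsLocalRing.maximalIdeal ℤ_[p])
    (N := (Ideal.span {1 - (p : OP p) * v}).restrictScalars ℤ_[p]) (N' := ⊤)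
    Module.Finite.fg_top
    (by rw [IsLocalRing.jacobson_eq_maximalIdeal _ bot_ne_top])
    (by
      intro x _
      have e : x = (1 - (p : OP p) * v) * x + (p : ℤ_[p]) • (v * x) := by
        rw [Algebra.smul_def, map_natCast]
        ring
      rw [e]
      refine Submodule.add_mem_sup ?_ ?_
      · rw [Submodule.restrictScalars_mem]
        exact Ideal.mul_mem_right _ _ (Ideal.mem_span_singleton_self _)
      · refine Submodule.smul_mem_smul ?_ Submodule.mem_top
        rw [PadicInt.maximalIdeal_eq_span_p]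
        exact Ideal.mem_span_singleton_self _)
  have h1 : (1 : OP p) ∈ (Ideal.span {1 - (p : OP p) * v}).restrictScalars ℤ_[p] :=
    h Submodule.mem_top
  rw [Submodule.restrictScalars_mem, Ideal.mem_span_singleton] at h1
  exact isUnit_of_dvd_one h1

theorem unit (x : OP p) (hx : evp p x ≠ 0) : IsUnit x := by
  obtain ⟨y, hy⟩ : ∃ y : OP p, evp p y = (evp p x)⁻¹ :=
    ⟨((evp p x)⁻¹.val : ℕ), by rw [map_natCast, ZMod.natCast_zmod_val]⟩
  have h1 : evp p (1 - x * y) = 0 := by
    rw [map_sub, map_mul, hy, map_one, mul_inv_cancel₀ hx, sub_self]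
  obtain ⟨w, hw⟩ := ker p _ h1
  set t := (zz p - 1) * w with ht
  obtain ⟨v, hv⟩ := p_dvd p
  have h2 : t ^ p = (p : OP p) * (v * w ^ p) := by
    rw [ht, mul_pow, hv, mul_assoc]
  have h3 := unit_one p (v * w ^ p)
  rw [← h2] at h3
  have h4 : (1 - t) * ∑ i ∈ Finset.range p, t ^ i = 1 - t ^ p := by
    rw [mul_comm]
    exact geom_sum_mul_neg t p
  rw [← h4] at h3
  have h5 : IsUnit (1 - t) := isUnit_of_mul_isUnit_left h3
  have h6 : 1 - t = x * y := by rw [← hw]; ring
  rw [h6] at h5
  exact isUnit_of_mul_isUnit_left h5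

theorem sq (a : ℤ_[p]) (h : (p : ℤ_[p]) ∣ a) (h4 : p = 2 → (4 : ℤ_[p]) ∣ a) :
    (zz p - 1) ^ 2 ∣ algebraMap ℤ_[p] (OP p) a := by
  rcases hp.out.eq_two_or_odd' with h2 | h2
  · obtain ⟨b, hb⟩ := h4 h2
    have g : ∑ i ∈ Finset.range 2, (zz p) ^ i = 0 := by
      have h := geom p
      have e : Finset.range p = Finset.range 2 := by rw [h2]
      rw [e] at h
      exact h
    have g2 : 1 + zz p = 0 := by simpa [Finset.sum_range_succ] using g
    refine ⟨algebraMap ℤ_[p] (OP p) b, ?_⟩
    rw [hb, map_mul, map_ofNat]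
    congr 1
    linear_combination (3 - zz p) * g2
  · obtain ⟨b, hb⟩ := h
    obtain ⟨k, hk⟩ := h2
    have hexp : ∀ i : ℕ, ∃ r : OP p, (zz p) ^ i = 1 + i * (zz p - 1) + (zz p - 1) ^ 2 * r := by
      intro i
      induction i with
      | zero => exact ⟨0, by simp⟩
      | succ i ih =>
        obtain ⟨r, hr⟩ := ih
        refine ⟨i + r * zz p, ?_⟩
        rw [pow_succ, hr]
        push_cast
        ring
    choose r hr using hexp
    have h3 := geom p
    rw [Finset.sum_congr rfl fun i _ => hr i, Finset.sum_add_distrib, Finset.sum_add_distrib,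
      ← Finset.sum_mul, ← Finset.mul_sum] at h3
    have h5 : (∑ i ∈ Finset.range p, (i : OP p)) = (p : OP p) * k := by
      have h6 := Finset.sum_range_id_mul_two p
      have h7 : (∑ i ∈ Finset.range p, i) = p * k := by
        have e : p - 1 = 2 * k := by omega
        rw [e] at h6
        have : (∑ i ∈ Finset.range p, i) * 2 = p * k * 2 := by rw [h6]; ring
        omega
      rw [← Nat.cast_sum, h7]
      push_cast
      rfl
    rw [h5] at h3
    simp only [Finset.sum_const, Finset.card_range, nsmul_eq_mul, mul_one] at h3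
    have hu : IsUnit (1 + (k : OP p) * (zz p - 1)) := by
      apply unit
      rw [map_add, map_mul, map_sub, evp_z, map_one, sub_self, mul_zero, add_zero]
      exact one_ne_zero
    have h8 : (zz p - 1) ^ 2 ∣ (p : OP p) * (1 + (k : OP p) * (zz p - 1)) :=
      ⟨-∑ i ∈ Finset.range p, r i, by linear_combination h3⟩
    have h9 : (zz p - 1) ^ 2 ∣ (p : OP p) := (hu.dvd_mul_right).1 h8
    rw [hb, map_mul, map_natCast]
    exact h9.mul_right _

theorem sum_val {M : Type} [AddCommMonoid M] (F : ℕ → M) :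
    ∑ i : ZMod p, F i.val = ∑ i ∈ Finset.range p, F i := by
  refine Finset.sum_bij (fun (i : ZMod p) _ => i.val) ?_ ?_ ?_ ?_
  · intro i _
    exact Finset.mem_range.2 (ZMod.val_lt i)
  · intro i _ j _ h
    exact ZMod.val_injective _ h
  · intro i hi
    exact ⟨(i : ZMod p), Finset.mem_univ _, ZMod.val_cast_of_lt (Finset.mem_range.1 hi)⟩
  · intro i _
    rfl

theorem natDeg : (cyclotomic p ℤ_[p]).natDegree = p - 1 := by
  rw [natDegree_cyclotomic, Nat.totient_prime hp.out]

theorem span (x : OP p) :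
    ∃ a : ZMod p → ℤ_[p], x = ∑ i, algebraMap ℤ_[p] (OP p) (a i) * (zz p) ^ i.val := by
  obtain ⟨g, rfl⟩ := AdjoinRoot.mk_surjective x
  have h1 : AdjoinRoot.mk (cyclotomic p ℤ_[p]) g =
      AdjoinRoot.mk (cyclotomic p ℤ_[p]) (g %ₘ cyclotomic p ℤ_[p]) := by
    rw [AdjoinRoot.mk_eq_mk]
    exact ⟨g /ₘ cyclotomic p ℤ_[p], by
      have := modByMonic_add_div g (cyclotomic p ℤ_[p])
      linear_combination -this⟩
  have h2 : (g %ₘ cyclotomic p ℤ_[p]).natDegree < p := by
    have h3 : cyclotomic p ℤ_[p] ≠ 1 := by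
      intro h
      have h4 := natDeg p
      rw [h, natDegree_one] at h4
      have := hp.out.two_le
      omega
    have h4 := natDegree_modByMonic_lt g (monic p) h3
    rw [natDeg] at h4
    omega
  refine ⟨fun i => (g %ₘ cyclotomic p ℤ_[p]).coeff i.val, ?_⟩
  rw [h1, mk_eq, aeval_eq_sum_range' h2, ← sum_val p]
  simp only [Algebra.smul_def]

theorem rel (a : ZMod p → ℤ_[p])
    (h : ∑ i, algebraMap ℤ_[p] (OP p) (a i) * (zz p) ^ i.val = 0) : ∀ i j, a i = a j := by
  have hp0 := hp.out.pos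
  set g : ℤ_[p][X] := ∑ i : ZMod p, C (a i) * X ^ i.val with hg
  have hco : ∀ n, n < p → g.coeff n = a (n : ZMod p) := by
    intro n hn
    rw [hg, finsetSum_coeff]
    rw [Finset.sum_eq_single (n : ZMod p)]
    · rw [coeff_C_mul_X_pow, if_pos (ZMod.val_cast_of_lt hn).symm]
    · intro i _ hi
      rw [coeff_C_mul_X_pow, if_neg]
      intro h2
      apply hi
      rw [h2, ZMod.natCast_zmod_val]
    · intro h2
      exact absurd (Finset.mem_univ _) h2
  set c := a ((p - 1 : ℕ) : ZMod p) with hc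
  set G : ℤ_[p][X] := g - C c * cyclotomic p ℤ_[p] with hG
  have hcy : ∀ n, n < p → (cyclotomic p ℤ_[p]).coeff n = 1 := by
    intro n hn
    rw [cyclotomic_prime, finsetSum_coeff, Finset.sum_eq_single n]
    · rw [coeff_X_pow, if_pos rfl]
    · intro i _ hi
      rw [coeff_X_pow, if_neg (fun h2 => hi h2.symm)]
    · intro h2
      exact absurd (Finset.mem_range.2 hn) h2
  have hGc : ∀ n, n < p → G.coeff n = a (n : ZMod p) - c := by
    intro n hn
    rw [hG, coeff_sub, coeff_C_mul, hco n hn, hcy n hn, mul_one]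
  have hGz : G = 0 := by
    have h1 : cyclotomic p ℤ_[p] ∣ G := by
      rw [← AdjoinRoot.mk_eq_zero, mk_eq, hG, map_sub, map_mul, root_zero, mul_zero, sub_zero, hg,
        map_sum]
      rw [← h]
      refine Finset.sum_congr rfl fun i _ => ?_
      rw [map_mul, aeval_C, map_pow, aeval_X]
    by_contra hne
    refine (monic p).not_dvd_of_natDegree_lt hne ?_ h1
    rw [natDeg]
    have h2 : G.natDegree ≤ p - 1 := by
      refine (natDegree_sub_le _ _).trans (max_le ?_ ?_)
      · rw [hg]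
        refine natDegree_sum_le_of_forall_le _ _ fun i _ => ?_
        refine (natDegree_C_mul_X_pow_le _ _).trans ?_
        have := ZMod.val_lt i
        omega
      · refine (natDegree_C_mul_le _ _).trans ?_
        rw [natDeg]
    refine lt_of_le_of_ne h2 fun h3 => ?_
    have h4 : G.leadingCoeff = 0 := by
      rw [leadingCoeff, h3, hGc _ (by omega), hc, sub_self]
    exact hne (leadingCoeff_eq_zero.1 h4)
  have hall : ∀ i, a i = c := by
    intro i
    have h1 := hGc i.val (ZMod.val_lt i)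
    rw [hGz, coeff_zero, ZMod.natCast_zmod_val] at h1
    exact (sub_eq_zero.1 h1.symm)
  intro i j
  rw [hall i, hall j]

/-- the structure -/
noncomputable def cyc : Cyc p (OP p) where
  z := zz p
  ev := evp p
  z_pow := z_pow p
  ev_z := evp_z p
  ker := ker p
  inj := inj p
  sep := sep p
  ev_int := evp_int p
  unit := unit p
  sq := sq p
  span := span p
  rel := rel p

end Cyc92

/-- A1. -/
theorem s_cyc : S_cyc := by
  intro p _
  exact ⟨Cyc92.OP p, inferInstance, inferInstance, ⟨Cyc92.cyc p⟩⟩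

end Pool.Agent.NH7.GU
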