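import Pool.Agent.NH7.GU.Stms

/-!
# The cyclotomic character on the decomposition groups above `p`
-/

set_option autoImplicit false
set_option linter.unusedSectionVars false

namespace Pool.Agent.NH7.GU

open NumberField IsDedekindDomain Pool.Agent.W401.Cheb Pool.Agent.NH7.Sch Filter Topology

namespace Cyl

open Polynomial

section val

variable {M Γ : Type} [Field M] [LinearOrderedCommGroupWithZero Γ] (V : Valuation M Γ)

theorem val_one_of_pow {t : M} {n : ℕ} (hn : n ≠ 0) (ht : t ^ n = 1) : V t = 1 := by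
  have h1 : V t ^ n = 1 := by rw [← map_pow, ht, map_one]
  exact (pow_eq_one_iff_of_nonneg zero_le hn).1 h1

theorem val_le_of_pow {t : M} (ht : V t = 1) (i : ℕ) : V (1 - t ^ i) ≤ V (1 - t) := by
  have h1 : 1 - t ^ i = (1 - t) * ∑ j ∈ Finset.range i, t ^ j := by
    rw [mul_neg_geom_sum]
  rw [h1, map_mul]
  have h2 : V (∑ j ∈ Finset.range i, t ^ j) ≤ 1 := by
    refine V.map_sum_le fun j _ => ?_
    rw [map_pow, ht, one_pow]
  calc V (1 - t) * V (∑ j ∈ Finset.range i, t ^ j) ≤ V (1 - t) * 1 := mul_le_mul_right h2 _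
    _ = V (1 - t) := mul_one _

theorem val_eq {t s : M} {N : ℕ} (hN : N ≠ 0) (ht : IsPrimitiveRoot t N)
    (hs : IsPrimitiveRoot s N) : V (1 - s) = V (1 - t) := by
  have : NeZero N := ⟨hN⟩
  obtain ⟨i, -, hi⟩ := ht.eq_pow_of_pow_eq_one hs.pow_eq_one
  obtain ⟨j, -, hj⟩ := hs.eq_pow_of_pow_eq_one ht.pow_eq_one
  have h1 := val_one_of_pow V hN ht.pow_eq_one
  have h2 := val_one_of_pow V hN hs.pow_eq_one
  apply le_antisymm
  · rw [← hi]
    exact val_le_of_pow V h1 i
  · rw [← hj]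
    exact val_le_of_pow V h2 j

/-- the valuation of `p` in a field containing a primitive `p^(k+1)`-th root of unity is a
`φ(p^(k+1))`-th power -/
theorem val_p {p : ℕ} [hp : Fact p.Prime] {k : ℕ} {t : M} (ht : IsPrimitiveRoot t (p ^ (k + 1))) :
    V (p : M) = V (1 - t) ^ (Nat.totient (p ^ (k + 1))) := by
  have hN : p ^ (k + 1) ≠ 0 := pow_ne_zero _ hp.out.ne_zero
  have h1 : eval 1 (cyclotomic (p ^ (k + 1)) M) = (p : M) := eval_one_cyclotomic_prime_pow k
  rw [cyclotomic_eq_prod_X_sub_primitiveRoots ht, eval_prod] at h1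
  rw [← h1, map_prod, ← ht.card_primitiveRoots, ← Finset.prod_const]
  refine Finset.prod_congr rfl fun s hs => ?_
  rw [eval_sub, eval_X, eval_C]
  exact val_eq V hN ht ((mem_primitiveRoots (Nat.pos_of_ne_zero hN)).1 hs)

end val

section

variable {K : Type} [Field K] [NumberField K] {p : ℕ} [hp : Fact p.Prime]

theorem chi_ne_inr {Q : Ideal (OO K)} (hQ : Q.IsMaximal) (hpQ : (p : OO K) ∈ Q) :
    ∃ g ∈ Inr Q, Pool.Agent.Y802.chi K p g ≠ 1 := by
  by_contra hcon
  push Not at hcon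
  have hch : CharZero (AlgebraicClosure K) := charZero_of_injective_algebraMap
    (algebraMap K (AlgebraicClosure K)).injective
  obtain ⟨v, hv⟩ : ∃ v : HS K, Q.comap (algebraMap (𝓞 K) (OO K)) = v.asIdeal := by
    have hRm : (Q.comap (algebraMap (𝓞 K) (OO K))).IsMaximal :=
      Ideal.isMaximal_comap_of_isIntegral_of_isMaximal Q
    exact ⟨⟨Q.comap (algebraMap (𝓞 K) (OO K)), hRm.isPrime,
      Ideal.IsMaximal.ne_bot_of_isIntegral_int _⟩, rfl⟩
  have hpv : (p : 𝓞 K) ∈ v.asIdeal := by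
    rw [← hv, Ideal.mem_comap, map_natCast]
    exact hpQ
  have hp0 : (p : 𝓞 K) ≠ 0 := by exact_mod_cast hp.out.ne_zero
  have hneg : od v (ui (p : 𝓞 K) hp0) ≤ -1 := by
    have := (od_ui_mem v (p : 𝓞 K) hp0 1).2 (by rw [pow_one]; exact hpv)
    exact_mod_cast this
  have hdiv : ∀ k : ℕ, ((Nat.totient (p ^ (k + 1)) : ℕ) : ℤ) ∣ od v (ui (p : 𝓞 K) hp0) := by
    intro k
    have h0 : Nat.totient (p ^ (k + 1)) ≠ 0 :=
      (Nat.totient_pos.2 (pow_pos hp.out.pos _)).ne'
    rw [od_dvd_iff v h0]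
    have : NeZero (p ^ (k + 1)) := ⟨pow_ne_zero _ hp.out.ne_zero⟩
    have : NeZero ((p ^ (k + 1) : ℕ) : AlgebraicClosure K) := ⟨by
      exact_mod_cast pow_ne_zero _ hp.out.ne_zero⟩
    obtain ⟨t, ht⟩ := HasEnoughRootsOfUnity.exists_primitiveRoot (AlgebraicClosure K) (p ^ (k + 1))
    let M : IntermediateField K (AlgebraicClosure K) := IntermediateField.adjoin K {t}
    have hcyc : IsCyclotomicExtension {p ^ (k + 1)} K M :=
      ht.intermediateField_adjoin_isCyclotomicExtension K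
    have hgal : IsGalois K M := IsCyclotomicExtension.isGalois {p ^ (k + 1)} K M
    have hfin : FiniteDimensional K M := IsCyclotomicExtension.finiteDimensional {p ^ (k + 1)} K M
    have hnf : NumberField M := NumberField.of_module_finite K M
    have hfix : ∀ σ ∈ Inr Q, ∀ x : M, σ (x : AlgebraicClosure K) = x := by
      intro σ hσ
      have h1 : σ t = t := by
        rw [chi_spec (p := p) σ (k + 1) ht.pow_eq_one, hcon σ hσ, Units.val_one, map_one]
        have h2 : 1 < p ^ (k + 1) := Nat.one_lt_pow (Nat.succ_ne_zero _) hp.out.one_lt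
        have : Fact (1 < p ^ (k + 1)) := ⟨h2⟩
        rw [ZMod.val_one, pow_one]
      have h2 : M ≤ IntermediateField.fixedField (Subgroup.zpowers σ) := by
        rw [IntermediateField.adjoin_le_iff, Set.singleton_subset_iff]
        rintro ⟨g, hg⟩
        obtain ⟨n, rfl⟩ := Subgroup.mem_zpowers_iff.1 hg
        show (σ ^ n) t = t
        have h3 : σ ∈ MulAction.stabilizer (GK K) t := h1
        exact (MulAction.stabilizer (GK K) t).zpow_mem h3 n
      intro x
      exact h2 x.2 ⟨σ, Subgroup.mem_zpowers σ⟩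
    obtain ⟨w, -, hw⟩ := exists_place M hQ hv hfix
    have htM : t ∈ M := IntermediateField.mem_adjoin_simple_self K t
    have ht' : IsPrimitiveRoot (⟨t, htM⟩ : M) (p ^ (k + 1)) := by
      refine IsPrimitiveRoot.of_map_of_injective (f := algebraMap M (AlgebraicClosure K)) ?_
        (algebraMap M (AlgebraicClosure K)).injective
      exact ht
    refine ⟨w.valuation M (1 - ⟨t, htM⟩), ?_⟩
    rw [← val_p (w.valuation M) ht', ← hw, coe_ui]
    rfl
  obtain ⟨n, hn⟩ : ∃ n : ℕ, od v (ui (p : 𝓞 K) hp0) = -(n : ℤ) :=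
    ⟨(-od v (ui (p : 𝓞 K) hp0)).toNat, by omega⟩
  have h1 := hdiv n
  rw [hn, dvd_neg, Int.natCast_dvd_natCast] at h1
  have hn0 : 0 < n := by omega
  have h2 := Nat.le_of_dvd hn0 h1
  rw [Nat.totient_prime_pow_succ hp.out] at h2
  have h3 : n < p ^ n := Nat.lt_pow_self hp.out.one_lt
  have h4 : p ^ n * 1 ≤ p ^ n * (p - 1) := Nat.mul_le_mul_left _ (by have := hp.out.two_le; omega)
  omega

end

end Cyl

theorem s_cyl : S_cyl := by
  classical
  intro K _ _ p hp ζ hζ hi Q hQ hpQ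
  set c : GK K → ℤ_[p] := fun g => ((Pool.Agent.Y802.chi K p g : ℤ_[p]ˣ) : ℤ_[p]) with hc
  have h1 : ∀ g, (p : ℤ_[p]) ∣ c g - 1 := by
    intro g
    have := chi_one (p := p) (n := 1) (ζ := ζ) (by rwa [pow_one]) g
    rwa [pow_one] at this
  have h2 : p = 2 → ∀ g, (p : ℤ_[p]) ^ 2 ∣ c g - 1 := by
    intro hp2 g
    subst hp2
    obtain ⟨i, hi⟩ := hi rfl
    have hi4 : IsPrimitiveRoot i (2 ^ 2) := by
      have h5 : i ^ 2 ^ 1 ≠ 1 := by
        rw [pow_one, hi]
        norm_num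
      have h6 : i ^ 2 ^ (1 + 1) = 1 := by
        have : i ^ 2 ^ (1 + 1) = (i ^ 2) ^ 2 := by ring
        rw [this, hi]
        norm_num
      have h7 := orderOf_eq_prime_pow h5 h6
      rw [← h7]
      exact IsPrimitiveRoot.orderOf i
    exact chi_one (p := 2) hi4 g
  have hpp : Prime (p : ℤ_[p]) := PadicInt.prime_p
  have hex : ∃ n : ℕ, ∃ g ∈ Dec Q, ¬ (p : ℤ_[p]) ^ (n + 1) ∣ c g - 1 := by
    obtain ⟨g, hg, hg1⟩ := Cyl.chi_ne_inr (p := p) hQ hpQ
    by_contra hcon
    push Not at hcon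
    apply hg1
    apply Units.ext
    rw [Units.val_one]
    have h3 : ∀ n : ℕ, (p : ℤ_[p]) ^ (n + 1) ∣ c g - 1 := fun n => hcon n g (Inr_le Q hg)
    rw [← sub_eq_zero]
    by_contra hne
    obtain ⟨n, hn⟩ : ∃ n : ℕ, ¬ (p : ℤ_[p]) ^ n ∣ c g - 1 := by
      have hf : FiniteMultiplicity (p : ℤ_[p]) (c g - 1) :=
        FiniteMultiplicity.of_prime_left hpp hne
      obtain ⟨n, hn⟩ := hf
      exact ⟨n + 1, hn⟩
    exact hn ((pow_dvd_pow _ (Nat.le_succ n)).trans (h3 n))
  set n := Nat.find hex with hn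
  have hmin : ∀ g ∈ Dec Q, (p : ℤ_[p]) ^ n ∣ c g - 1 := by
    intro g hg
    rcases Nat.eq_zero_or_pos n with h0 | h0
    · rw [h0, pow_zero]
      exact one_dvd _
    · have h3 := Nat.find_min hex (m := n - 1) (by omega)
      push Not at h3
      have h4 := h3 g hg
      rwa [Nat.sub_add_cancel h0] at h4
  obtain ⟨g0, hg0, hg0'⟩ := Nat.find_spec hex
  rw [← hn] at hg0'
  have hn1 : 1 ≤ n := by
    by_contra hcon
    have h0 : n = 0 := by omega
    rw [h0, zero_add, pow_one] at hg0'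
    exact hg0' (h1 g0)
  have hn2 : p = 2 → 2 ≤ n := by
    intro hp2
    by_contra hcon
    have h0 : n = 1 := by omega
    rw [h0] at hg0'
    exact hg0' (h2 hp2 g0)
  have hl : ∀ g, ∃ l : ℤ_[p], g ∈ Dec Q → c g = 1 + (p : ℤ_[p]) ^ n * l := by
    intro g
    by_cases hg : g ∈ Dec Q
    · obtain ⟨l, hl⟩ := hmin g hg
      exact ⟨l, fun _ => by rw [← hl]; ring⟩
    · exact ⟨0, fun h => absurd h hg⟩
  choose l hl using hl
  refine ⟨n, l, hn1, hn2, hl, g0, hg0, ?_⟩
  by_contra hcon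
  have h3 : (p : ℤ_[p]) ∣ l g0 := by
    rw [← Ideal.mem_span_singleton, ← PadicInt.maximalIdeal_eq_span_p]
    exact (IsLocalRing.mem_maximalIdeal _).2 hcon
  apply hg0'
  rw [hl g0 hg0]
  obtain ⟨m, hm⟩ := h3
  exact ⟨m, by rw [hm]; ring⟩

end Pool.Agent.NH7.GU
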