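import Pool.Agent.NH7.GU.Stms

/-!
# Going up for Schneider's conjecture: the Selmer group drops (D8)
-/

set_option autoImplicit false
set_option linter.unusedSectionVars false
set_option linter.unusedVariables false

namespace Pool.Agent.NH7.GU

open NumberField IsDedekindDomain Pool.Agent.W401.Cheb Pool.Agent.NH7.Sch Filter Topology

section

variable {K : Type} [Field K] [NumberField K] {p : ℕ} [hp : Fact p.Prime] {ζ : K}
  (hζ : IsPrimitiveRoot ζ p)

theorem drop_pn {S : Finset (HS K)} (hS : ∀ v : HS K, (p : 𝓞 K) ∈ v.asIdeal → v ∈ S) {v : HS K}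
    (hv : v ∉ S) : (p : OO K) ∉ Qv v := by
  intro h
  apply hv
  apply hS
  rw [← Qv_comap v, Ideal.mem_comap, map_natCast]
  exact h

theorem drop_kpHm (κ : Kˣ) : Hm p (kp hζ κ) := ⟨kp_cont hζ κ, kp_mul_right hζ κ⟩

theorem drop_unr {S : Finset (HS K)} (hS : ∀ v : HS K, (p : 𝓞 K) ∈ v.asIdeal → v ∈ S) {v : HS K}
    (hv : v ∉ S) (κ : Kˣ) : Unr v (kp hζ κ) ↔ (p : ℤ) ∣ od v κ :=
  ⟨fun h => od_dvd_of_inr hζ (Qv_max v) (Qv_comap v) h, fun h _ hg =>
    kp_inr_zero hζ (Qv_max v) (Qv_comap v) (drop_pn hS hv) h hg⟩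

/-- the values at two Frobenius elements -/
noncomputable def drop_L (S : Finset (HS K)) (lam : HS K → GK K → ZMod p) (v₁ v₂ : HS K) :
    Sel p S lam →ₗ[ZMod p] (ZMod p × ZMod p) where
  toFun x := ((x : GK K → ZMod p) (fr v₁), (x : GK K → ZMod p) (fr v₂))
  map_add' x y := rfl
  map_smul' a x := rfl

theorem drop_surj {S : Finset (HS K)} {lam : HS K → GK K → ZMod p} {v₁ v₂ : HS K}
    (h : ∀ a b : ZMod p, (∀ x ∈ Sel p S lam, a * x (fr v₁) + b * x (fr v₂) = 0) → a = 0 ∧ b = 0) :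
    Function.Surjective (drop_L S lam v₁ v₂) := by
  rw [← LinearMap.range_eq_top]
  by_contra hne
  obtain ⟨f, hf0, hf⟩ := Submodule.exists_le_ker_of_lt_top _ (lt_top_iff_ne_top.2 hne)
  have h1 : ∀ a b : ZMod p, f (a, b) = f (1, 0) * a + f (0, 1) * b := by
    intro a b
    have e : ((a, b) : ZMod p × ZMod p) = a • ((1, 0) : ZMod p × ZMod p) + b • (0, 1) := by
      simp
    rw [e, map_add, map_smul, map_smul, smul_eq_mul, smul_eq_mul]
    ring
  obtain ⟨h2, h3⟩ := h (f (1, 0)) (f (0, 1)) (fun x hx => by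
    rw [← h1]
    exact hf ⟨⟨x, hx⟩, rfl⟩)
  apply hf0
  refine LinearMap.ext fun ⟨a, b⟩ => ?_
  rw [h1, h2, h3]
  simp

theorem drop_card {S : Finset (HS K)} {lam : HS K → GK K → ZMod p} {v₁ v₂ : HS K}
    (hfin : Finite (Sel p S lam))
    (h : ∀ a b : ZMod p, (∀ x ∈ Sel p S lam, a * x (fr v₁) + b * x (fr v₂) = 0) → a = 0 ∧ b = 0) :
    Nat.card (Sel p S lam) = Nat.card (LinearMap.ker (drop_L S lam v₁ v₂)) * (p * p) := by
  rw [Submodule.card_eq_card_quotient_mul_card (LinearMap.ker (drop_L S lam v₁ v₂))]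
  have e := Nat.card_congr ((drop_L S lam v₁ v₂).quotKerEquivOfSurjective (drop_surj h)).toEquiv
  rw [e, Nat.card_prod, Nat.card_zmod]

end

theorem s_drop (h : S_frv) : S_drop := by
  intro K _ _ p _ ζ hζ S hS lam hfin v₁ v₂ v₃ κ n1 n2 n3 n12 n13 n23 hκ hdiv hcl hind χ hχ S' lam'
    hS' hlam hlam'
  classical
  -- the orders of `κ`
  have od1 : (p : ℤ) ∣ 1 + od v₁ κ := by
    have h1 := hdiv v₁ n1
    simpa [Finsupp.single_apply, n12, n12.symm, n13, n13.symm] using h1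
  have od2 : (p : ℤ) ∣ 1 + od v₂ κ := by
    have h1 := hdiv v₂ n2
    simpa [Finsupp.single_apply, n12, n12.symm, n23, n23.symm] using h1
  have od3 : (p : ℤ) ∣ 1 + od v₃ κ := by
    have h1 := hdiv v₃ n3
    simpa [Finsupp.single_apply, n13, n13.symm, n23, n23.symm] using h1
  have od0 : ∀ v, v ∉ S' → (p : ℤ) ∣ od v κ := by
    intro v hv
    rw [hS'] at hv
    push Not at hv
    have h1 := hdiv v hv.1
    simpa [Finsupp.single_apply, hv.2.1, hv.2.1.symm, hv.2.2.1, hv.2.2.1.symm, hv.2.2.2,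
      hv.2.2.2.symm] using h1
  have hnS : ∀ v, v ∉ S' → v ∉ S := fun v hv h1 => hv ((hS' v).2 (Or.inl h1))
  have hnew : ∀ v ∈ S', v ∉ S → (p : ℤ) ∣ 1 + od v κ := by
    intro v hv hv'
    rcases (hS' v).1 hv with h1 | rfl | rfl | rfl
    · exact absurd h1 hv'
    · exact od1
    · exact od2
    · exact od3
  have htH : Hm p (χ + kp hζ κ) := hχ.1.add (drop_kpHm hζ κ)
  -- ramified at the new primes
  have hram : ∀ v ∈ S', v ∉ S → ∃ g ∈ Inr (Qv v), χ g + kp hζ κ g ≠ 0 := by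
    intro v hv hv'
    by_contra hcon
    push Not at hcon
    have h1 : Unr v (kp hζ κ) := by
      intro g hg
      have h2 := hcon g hg
      rw [hχ.2.2 v hv' g hg, zero_add] at h2
      exact h2
    rw [drop_unr hζ hS hv'] at h1
    have h2 := dvd_sub (hnew v hv hv') h1
    rw [add_sub_cancel_right] at h2
    have h3 : (p : ℤ) ∣ ((1 : ℕ) : ℤ) := by exact_mod_cast h2
    exact (Fact.out : p.Prime).one_lt.ne' (Nat.dvd_one.1 (Int.natCast_dvd_natCast.1 h3))
  have htS : (χ + kp hζ κ) ∈ Sel p S' lam' := by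
    refine ⟨htH, fun v hv => ?_, fun v hv g hg => ?_⟩
    · by_cases hvS : v ∈ S
      · obtain ⟨a, ha⟩ := hχ.2.1 v hvS
        refine ⟨a, fun g hg => ?_⟩
        rw [Pi.add_apply, ha g hg, hκ v hvS g hg, add_zero, hlam v hvS g hg]
      · refine ⟨1, fun g hg => ?_⟩
        rw [hlam' v hv hvS g hg, one_mul, Pi.add_apply]
    · rw [Pi.add_apply, hχ.2.2 v (hnS v hv) g hg,
        (drop_unr hζ hS (hnS v hv) κ).2 (od0 v hv) g hg, add_zero]
  refine ⟨?_, htS, hram⟩
  -- the relations in the class group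
  have hκL : κ ∈ HL hζ S lam := fun v hv => ⟨0, fun g hg => by
    rw [hκ v hv g hg, zero_mul]⟩
  have hmk : ∀ a b c : ℤ, a • cl p S (HL hζ S lam) v₁ + b • cl p S (HL hζ S lam) v₂ +
      c • cl p S (HL hζ S lam) v₃ = QuotientAddGroup.mk
        (a • Finsupp.single v₁ 1 + b • Finsupp.single v₂ 1 + c • Finsupp.single v₃ 1) := by
    intro a b c
    rfl
  have hzero : ∀ (a b c : ℤ) (k : Kˣ), k ∈ HL hζ S lam → (∀ v ∉ S', (p : ℤ) ∣ od v k) →
      (p : ℤ) ∣ a + od v₁ k → (p : ℤ) ∣ b + od v₂ k → (p : ℤ) ∣ c + od v₃ k →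
      a • cl p S (HL hζ S lam) v₁ + b • cl p S (HL hζ S lam) v₂ +
      c • cl p S (HL hζ S lam) v₃ = 0 := by
    intro a b c k hk h0 h1 h2 h3
    rw [hmk, QuotientAddGroup.eq_zero_iff]
    refine ⟨k, hk, fun v hv => ?_⟩
    by_cases e1 : v = v₁
    · subst e1
      simpa [Finsupp.single_apply, n12, n12.symm, n13, n13.symm] using h1
    by_cases e2 : v = v₂
    · subst e2
      simpa [Finsupp.single_apply, n12, n12.symm, n23, n23.symm] using h2
    by_cases e3 : v = v₃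
    · subst e3
      simpa [Finsupp.single_apply, n13, n13.symm, n23, n23.symm] using h3
    have h4 : v ∉ S' := by
      rw [hS']
      push Not
      exact ⟨hv, e1, e2, e3⟩
    have h5 := h0 v h4
    simpa [Finsupp.single_apply, e1, e2, e3, Ne.symm e1, Ne.symm e2, Ne.symm e3] using h5
  have hrel := hzero 1 1 1 κ hκL od0 od1 od2 od3
  rw [one_smul, one_smul, one_smul] at hrel
  -- the decomposition of the elements
  have hdec : ∀ x : Sel p S' lam', ∃ (ρ : ZMod p) (y : LinearMap.ker (drop_L S lam v₁ v₂)),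
      (x : GK K → ZMod p) = ((y : Sel p S lam) : GK K → ZMod p) + ρ • (χ + kp hζ κ) := by
    rintro ⟨x, hx⟩
    obtain ⟨k, hk⟩ := kp_surj hζ hx.1.c hx.1.m
    have hxk : x = kp hζ k := by
      funext g
      exact (hk g).symm
    have hkL : k ∈ HL hζ S lam := by
      intro v hv
      obtain ⟨a, ha⟩ := hx.2.1 v ((hS' v).2 (Or.inl hv))
      exact ⟨a, fun g hg => by rw [hk, ha g hg, hlam v hv g hg]⟩
    have hk0 : ∀ v ∉ S', (p : ℤ) ∣ od v k := by
      intro v hv
      rw [← drop_unr hζ hS (hnS v hv), ← hxk]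
      exact hx.2.2 v hv
    have h1 := hzero (-od v₁ k) (-od v₂ k) (-od v₃ k) k hkL hk0 (by rw [neg_add_cancel]; exact dvd_zero _)
      (by rw [neg_add_cancel]; exact dvd_zero _) (by rw [neg_add_cancel]; exact dvd_zero _)
    have h2 : (-od v₁ k + od v₃ k) • cl p S (HL hζ S lam) v₁ +
        (-od v₂ k + od v₃ k) • cl p S (HL hζ S lam) v₂ = 0 := by
      have e : (-od v₁ k + od v₃ k) • cl p S (HL hζ S lam) v₁ +
          (-od v₂ k + od v₃ k) • cl p S (HL hζ S lam) v₂ =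
          ((-od v₁ k) • cl p S (HL hζ S lam) v₁ + (-od v₂ k) • cl p S (HL hζ S lam) v₂ +
            (-od v₃ k) • cl p S (HL hζ S lam) v₃) + od v₃ k • (cl p S (HL hζ S lam) v₁ +
            cl p S (HL hζ S lam) v₂ + cl p S (HL hζ S lam) v₃) := by
        module
      rw [e, h1, hrel, smul_zero, add_zero]
    obtain ⟨r1, r2⟩ := hcl _ _ h2
    -- `ρ = - od v₃ k`
    set ρ : ℤ := -od v₃ k with hρ
    have hy : ∀ g, x g - (ρ : ZMod p) * (χ g + kp hζ κ g) =
        kp hζ (k * κ ^ (-ρ)) g - (ρ : ZMod p) * χ g := by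
      intro g
      rw [kp_mul_left, kp_zpow, ← hk g]
      push_cast
      ring
    have hod : ∀ v ∈ S', v ∉ S → (p : ℤ) ∣ od v (k * κ ^ (-ρ)) := by
      intro v hv hv'
      have h3 := hnew v hv hv'
      have h4 : (p : ℤ) ∣ od v k + ρ := by
        rcases (hS' v).1 hv with h1 | rfl | rfl | rfl
        · exact absurd h1 hv'
        · have := (dvd_neg (a := (p : ℤ))).2 r1
          have e : -(-od v k + od v₃ k) = od v k + ρ := by rw [hρ]; ring
          rwa [e] at this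
        · have := (dvd_neg (a := (p : ℤ))).2 r2
          have e : -(-od v k + od v₃ k) = od v k + ρ := by rw [hρ]; ring
          rwa [e] at this
        · rw [hρ, add_neg_cancel]
          exact dvd_zero _
      have e : od v (k * κ ^ (-ρ)) = (od v k + ρ) - ρ * (1 + od v κ) := by
        rw [od_mul, od_zpow]
        ring
      rw [e]
      exact dvd_sub h4 (h3.mul_left _)
    have hyHm : Hm p (x - (ρ : ZMod p) • (χ + kp hζ κ)) := by
      have h3 := hx.1.add ((htH.smul (ρ : ZMod p)).smul (-1))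
      have e : x - (ρ : ZMod p) • (χ + kp hζ κ) = x + (-1 : ZMod p) • ((ρ : ZMod p) • (χ + kp hζ κ)) := by
        rw [neg_one_smul, sub_eq_add_neg]
      rw [e]
      exact h3
    have hyval : ∀ g, (x - (ρ : ZMod p) • (χ + kp hζ κ)) g =
        x g - (ρ : ZMod p) * (χ g + kp hζ κ g) := fun g => rfl
    have hyUnr : ∀ v ∉ S, Unr v (x - (ρ : ZMod p) • (χ + kp hζ κ)) := by
      intro v hv g hg
      rw [hyval]
      by_cases hvS : v ∈ S'
      · rw [hy, hχ.2.2 v hv g hg, mul_zero, sub_zero]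
        exact (drop_unr hζ hS hv _).2 (hod v hvS hv) g hg
      · have h3 := htS.2.2 v hvS g hg
        rw [Pi.add_apply] at h3
        rw [hx.2.2 v hvS g hg, h3, mul_zero, sub_zero]
    have hySel : (x - (ρ : ZMod p) • (χ + kp hζ κ)) ∈ Sel p S lam := by
      refine ⟨hyHm, fun v hv => ?_, hyUnr⟩
      obtain ⟨a, ha⟩ := hx.2.1 v ((hS' v).2 (Or.inl hv))
      obtain ⟨b, hb⟩ := hχ.2.1 v hv
      refine ⟨a - ρ * b, fun g hg => ?_⟩
      rw [hyval, ha g hg, hb g hg, hκ v hv g hg, hlam v hv g hg]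
      ring
    have hyfr : ∀ v ∈ S', v ∉ S → (x - (ρ : ZMod p) • (χ + kp hζ κ)) (fr v) = 0 := by
      intro v hv hv'
      obtain ⟨a, ha⟩ := hx.2.1 v hv
      obtain ⟨g0, hg0, hg1⟩ := hram v hv hv'
      have h3 := hyUnr v hv' g0 hg0
      rw [hyval, ha g0 (Inr_le _ hg0), hlam' v hv hv' g0 (Inr_le _ hg0), ← sub_mul] at h3
      have h4 : a - (ρ : ZMod p) = 0 := (mul_eq_zero.1 h3).resolve_right hg1
      obtain ⟨g, hg, hg2⟩ := (h K p 0 Hm.zero v (fun _ _ => rfl)).2.2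
      rw [← hg2 _ hyHm (hyUnr v hv'), hyval, ha g hg, hlam' v hv hv' g hg, ← sub_mul, h4, zero_mul]
    have m1 : v₁ ∈ S' := (hS' v₁).2 (Or.inr (Or.inl rfl))
    have m2 : v₂ ∈ S' := (hS' v₂).2 (Or.inr (Or.inr (Or.inl rfl)))
    refine ⟨(ρ : ZMod p), ⟨⟨_, hySel⟩, ?_⟩, ?_⟩
    · rw [LinearMap.mem_ker]
      exact Prod.ext (hyfr v₁ m1 n1) (hyfr v₂ m2 n2)
    · exact (sub_add_cancel _ _).symm
  choose ρ y hρy using hdec
  have hinj : Function.Injective (fun x : Sel p S' lam' => (ρ x, y x)) := by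
    intro x x' hxx
    obtain ⟨e1, e2⟩ := Prod.ext_iff.1 hxx
    apply Subtype.ext
    rw [hρy x, hρy x']
    have e1' : ρ x = ρ x' := e1
    have e2' : y x = y x' := e2
    rw [e1', e2']
  have h1 := Nat.card_le_card_of_injective _ hinj
  rw [Nat.card_prod, Nat.card_zmod] at h1
  rw [drop_card hfin hind]
  calc Nat.card (Sel p S' lam') * p ≤
      (p * Nat.card (LinearMap.ker (drop_L S lam v₁ v₂))) * p := Nat.mul_le_mul_right _ h1
    _ = _ := by ring

end Pool.Agent.NH7.GU
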