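import Pool.Agent.NH7.GU.Stms

/-!
# A Frobenius element generates the decomposition group modulo the inertia group
-/

set_option autoImplicit false
set_option linter.unusedSectionVars false

namespace Pool.Agent.NH7.GU

open NumberField IsDedekindDomain Pool.Agent.W401.Cheb Pool.Agent.NH7.Sch

section

variable {K : Type} [Field K] [NumberField K]
variable (M : IntermediateField K (AlgebraicClosure K)) [IsGalois K M] [hM : NumberField M]

/-- restriction of an element of the Galois group to a Galois subfield -/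
theorem res_aux (g : GK K) : ∃ γ : M ≃ₐ[K] M, (∀ x : M, g (x : AlgebraicClosure K) = γ x) ∧
    ∀ a : 𝓞 M, g • (algebraMap (𝓞 M) (OO K) a) = algebraMap (𝓞 M) (OO K) (γ • a) := by
  refine ⟨AlgEquiv.restrictNormalHom M g, ?_, ?_⟩
  · intro x
    exact (AlgEquiv.restrictNormal_commutes g M x).symm
  · intro a
    apply RingOfIntegers.ext
    rw [Pool.Agent.W401.Frob.coe_smul]
    exact (AlgEquiv.restrictNormal_commutes g M (a : M)).symm

/-- an element of the decomposition group acts on the residue field of a finite Galois extension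
as a power of the Frobenius automorphism -/
theorem res_pow {v : HS K} {Q : Ideal (OO K)} (hQ : Q.IsMaximal)
    (hQv : Q.comap (algebraMap (𝓞 K) (OO K)) = v.asIdeal) {g : GK K} (hg : g ∈ Dec Q) :
    ∃ n : ℕ, ∀ a : 𝓞 M, g • (algebraMap (𝓞 M) (OO K) a) -
      (algebraMap (𝓞 M) (OO K) a) ^ ((Ideal.absNorm v.asIdeal) ^ n) ∈ Q := by
  classical
  obtain ⟨γ, hγ, hγ'⟩ := res_aux M g
  set P : Ideal (𝓞 M) := Q.comap (algebraMap (𝓞 M) (OO K)) with hP
  have hPm : P.IsMaximal := Ideal.isMaximal_comap_of_isIntegral_of_isMaximal Q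
  have hP0 : P ≠ ⊥ := Ideal.IsMaximal.ne_bot_of_isIntegral_int P
  have hover : P.LiesOver v.asIdeal := by
    refine ⟨?_⟩
    rw [← hQv, Ideal.under_def, hP, Ideal.comap_comap]
    rfl
  have hvm : v.asIdeal.IsMaximal := v.isMaximal
  let _ : Field (𝓞 K ⧸ v.asIdeal) := Ideal.Quotient.field v.asIdeal
  let _ : Field (𝓞 M ⧸ P) := Ideal.Quotient.field P
  have : Finite (𝓞 K ⧸ v.asIdeal) := Ideal.finiteQuotientOfFreeOfNeBot v.asIdeal v.ne_bot
  have : Finite (𝓞 M ⧸ P) := Ideal.finiteQuotientOfFreeOfNeBot P hP0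
  let _ : Fintype (𝓞 K ⧸ v.asIdeal) := Fintype.ofFinite _
  have hst : P ≤ P.comap (MulSemiringAction.toRingHom (M ≃ₐ[K] M) (𝓞 M) γ) := by
    intro a ha
    rw [Ideal.mem_comap]
    show algebraMap (𝓞 M) (OO K) (γ • a) ∈ Q
    rw [← hγ']
    exact (hg _).1 ha
  have hcomm : ∀ c : 𝓞 K, γ • (algebraMap (𝓞 K) (𝓞 M) c) = algebraMap (𝓞 K) (𝓞 M) c := by
    intro c
    apply RingOfIntegers.ext
    exact γ.commutes (c : K)
  let s : (𝓞 M ⧸ P) →ₐ[𝓞 K ⧸ v.asIdeal] (𝓞 M ⧸ P) :=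
    { Ideal.quotientMap P (MulSemiringAction.toRingHom (M ≃ₐ[K] M) (𝓞 M) γ) hst with
      commutes' := by
        intro c
        obtain ⟨c, rfl⟩ := Ideal.Quotient.mk_surjective c
        show Ideal.Quotient.mk P (γ • (algebraMap (𝓞 K) (𝓞 M) c)) =
          Ideal.Quotient.mk P (algebraMap (𝓞 K) (𝓞 M) c)
        rw [hcomm] }
  obtain ⟨n, hn⟩ := (FiniteField.bijective_frobeniusAlgHom_pow (𝓞 K ⧸ v.asIdeal) (𝓞 M ⧸ P)).2 s
  have h2 : Ideal.absNorm v.asIdeal = Fintype.card (𝓞 K ⧸ v.asIdeal) := by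
    rw [Ideal.absNorm_apply, Submodule.cardQuot_apply, Nat.card_eq_fintype_card]
  refine ⟨n.val, fun a => ?_⟩
  have h1 := DFunLike.congr_fun hn (Ideal.Quotient.mk P a)
  have h3 : ∀ (k : ℕ) (y : 𝓞 M ⧸ P), ((FiniteField.frobeniusAlgHom (𝓞 K ⧸ v.asIdeal) (𝓞 M ⧸ P)) ^ k) y
      = y ^ ((Fintype.card (𝓞 K ⧸ v.asIdeal)) ^ k) := by
    intro k
    induction k with
    | zero => intro y; rw [pow_zero, pow_zero, pow_one]; rfl
    | succ k ih =>
      intro y
      rw [pow_succ, AlgHom.mul_apply, ih, FiniteField.coe_frobeniusAlgHom, ← pow_mul, pow_succ,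
        mul_comm]
  have h4 : Ideal.Quotient.mk P (γ • a) = Ideal.Quotient.mk P (a ^ ((Ideal.absNorm v.asIdeal) ^ n.val)) := by
    rw [map_pow, h2, ← h3]
    exact h1.symm
  rw [Ideal.Quotient.mk_eq_mk_iff_sub_mem] at h4
  have h5 : algebraMap (𝓞 M) (OO K) (γ • a - a ^ ((Ideal.absNorm v.asIdeal) ^ n.val)) ∈ Q := h4
  rw [map_sub, map_pow] at h5
  rw [hγ']
  exact h5

end

theorem frob_pow {K : Type} [Field K] [NumberField K] {N : ℕ} {Q : Ideal (OO K)} {φ : GK K}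
    (hD : φ ∈ Dec Q) (hφ : ∀ y : OO K, φ • y - y ^ N ∈ Q) (n : ℕ) (y : OO K) :
    φ ^ n • y - y ^ (N ^ n) ∈ Q := by
  induction n with
  | zero => rw [pow_zero, one_smul, pow_zero, pow_one, sub_self]; exact Q.zero_mem
  | succ n ih =>
    have h1 := (hD _).1 ih
    have h2 := hφ (y ^ (N ^ n))
    have h3 := Q.add_mem h1 h2
    rw [smul_sub, smul_smul, ← pow_succ', sub_add_sub_cancel, ← pow_mul, ← pow_succ] at h3
    exact h3

theorem s_frd : S_frd := by
  intro K _ _ p _ x hx v Q hQ hQv hI φ hφ hxφ g hg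
  have := fld_gal hx.c hx.m
  have := fld_fin hx.c hx.m
  have := NumberField.of_module_finite K (fld hx.m)
  have hφD : φ ∈ Dec Q := frob_mem_Dec hQ hφ
  obtain ⟨n, hn⟩ := res_pow (fld hx.m) hQ hQv hg
  set h : GK K := (φ ^ n)⁻¹ * g with hh
  have hxn : ∀ k : ℕ, x (φ ^ k) = 0 := by
    intro k
    induction k with
    | zero => rw [pow_zero]; exact X_one hx.m
    | succ k ih => rw [pow_succ, hx.m, ih, hxφ, add_zero]
  have hxg : x g = x h := by
    rw [hh, hx.m, X_inv hx.m, hxn, neg_zero, zero_add]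
  obtain ⟨γ, hγ, hγ'⟩ := res_aux (fld hx.m) h
  obtain ⟨τ, hτ, hτγ⟩ := inr_lift (fld hx.m) hQ γ (fun a => by
    rw [map_sub, ← hγ']
    have h1 := Q.sub_mem (hn a) (frob_pow hφD hφ n (algebraMap (𝓞 (fld hx.m)) (OO K) a))
    rw [sub_sub_sub_cancel_right] at h1
    have h2 := ((Dec Q).inv_mem ((Dec Q).pow_mem hφD n) _).1 h1
    rw [smul_sub, smul_smul, smul_smul, inv_mul_cancel, one_smul] at h2
    exact h2)
  have hk : τ⁻¹ * h ∈ kerX hx.m := by
    rw [← fld_fix hx.c hx.m, IntermediateField.mem_fixingSubgroup_iff]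
    intro y hy
    have h1 := hγ ⟨y, hy⟩
    have h2 := hτγ ⟨y, hy⟩
    rw [AlgEquiv.mul_apply]
    have h3 : h y = τ y := h1.trans h2.symm
    rw [h3]
    exact τ.symm_apply_apply y
  have h5 : x (τ⁻¹ * h) = 0 := hk
  rw [hx.m, X_inv hx.m, hI τ hτ, neg_zero, zero_add] at h5
  rw [hxg, h5]

end Pool.Agent.NH7.GU
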