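import Pool.Agent.NH7.GU.Stms

/-!
# Going up for Schneider's conjecture: B3, values at Frobenius elements
-/

set_option autoImplicit false
set_option linter.unusedSectionVars false

namespace Pool.Agent.NH7.GU

open NumberField IsDedekindDomain Pool.Agent.W401.Cheb Pool.Agent.NH7.Sch Filter Topology

theorem s_frv (h1 : S_frd) (h2 : S_cnj) : S_frv := by
  intro K _ _ p _ x hx v hU
  have hconj : ∀ y : GK K → ZMod p, Hm p y → ∀ g h : GK K, y (g * h * g⁻¹) = y h := by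
    intro y hy g h
    have hy1 : y 1 = 0 := by
      have h := hy.m 1 1
      rw [mul_one] at h
      exact left_eq_add.1 h
    have hyinv : y g⁻¹ = - y g := by
      have h := hy.m g⁻¹ g
      rw [inv_mul_cancel, hy1] at h
      exact eq_neg_of_add_eq_zero_left h.symm
    rw [hy.m, hy.m, hyinv]
    ring
  -- a Frobenius element at `Qv v`
  obtain ⟨Q, hQm, hQv, hQ⟩ := fr_spec v
  obtain ⟨g, hg⟩ := h2 K v Q (Qv v) hQm (Qv_max v) hQv (Qv_comap v)
  have hF : ∀ y : OO K, (g * fr v * g⁻¹) • y - y ^ Ideal.absNorm v.asIdeal ∈ Qv v := by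
    intro y
    rw [hg]
    exact Pool.Agent.W401.Frob.frob_conj v (fr v) g Q hQ y
  have hD : g * fr v * g⁻¹ ∈ Dec (Qv v) := frob_mem_Dec (Qv_max v) hF
  refine ⟨fun φ hφ => ?_, fun h0 => ?_, g * fr v * g⁻¹, hD, fun y hy _ => hconj y hy g (fr v)⟩
  · obtain ⟨ρ, ι, ⟨Q', hQm', hQv', hι⟩, he⟩ :=
      Pool.Agent.W401.Frob.conj_frob v (fr v) φ (fr_spec v) hφ
    obtain ⟨k, hk⟩ := h2 K v Q' (Qv v) hQm' (Qv_max v) hQv' (Qv_comap v)
    have h3 : k * ι * k⁻¹ ∈ Inr (Qv v) := by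
      rw [hk]
      exact Inr_conj k hι
    have h4 := hU _ h3
    rw [hconj x hx] at h4
    rw [he, hx.m, hconj x hx, h4, add_zero]
  · exact h1 K p x hx v (Qv v) (Qv_max v) (Qv_comap v) hU (g * fr v * g⁻¹) hF
      ((hconj x hx g (fr v)).trans h0)

end Pool.Agent.NH7.GU
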