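import Pool.Agent.NH7.GU.Stms

/-!
# Elements congruent to `1` modulo a prime not above `p`
-/

set_option autoImplicit false
set_option linter.unusedSectionVars false

namespace Pool.Agent.NH7.GU

open NumberField IsDedekindDomain Pool.Agent.W401.Cheb Pool.Agent.NH7.Sch Filter Topology

namespace H0tP

variable {K : Type} [Field K] [NumberField K] {p : ℕ} [hp : Fact p.Prime] {ζ : K}
  (hζ : IsPrimitiveRoot ζ p)

theorem zi_prim : IsPrimitiveRoot (zi hζ) p :=
  IsPrimitiveRoot.of_map_of_injective (f := algebraMap (OO K) (AlgebraicClosure K)) (zz_prim hζ)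
    (FaithfulSMul.algebraMap_injective (OO K) (AlgebraicClosure K))

include hζ in
/-- the Galois group fixes the `p`-th roots of unity -/
theorem sm_root (g : GK K) {y : OO K} (hy : y ^ p = 1) : g • y = y := by
  haveI : NeZero p := ⟨hp.out.ne_zero⟩
  obtain ⟨i, -, rfl⟩ := (zi_prim hζ).eq_pow_of_pow_eq_one hy
  apply RingOfIntegers.ext
  rw [coe_smul]
  change g ((zz ζ) ^ i) = (zz ζ) ^ i
  rw [map_pow]
  congr 1
  exact g.commutes ζ

end H0tP

open H0tP in
/-- B4. -/
theorem s_h0t : S_h0t := by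
  intro K _ _ p hp ζ hζ v hpv x hx hx1 g hg
  have hQ := Qv_max v
  have hQv := Qv_comap v
  obtain ⟨Q, hQd⟩ : ∃ Q, Q = Qv v := ⟨_, rfl⟩
  rw [← hQd] at hQ hQv hg
  have hpQ : (p : OO K) ∉ Q := by
    intro h
    apply hpv
    rw [← hQv, Ideal.mem_comap, map_natCast]
    exact h
  have hb := rt_pow (p := p) (ui x hx)
  have hint : IsIntegral ℤ (rt p (ui x hx)) := by
    refine IsIntegral.of_pow hp.out.pos ?_
    rw [hb]
    exact ((RingOfIntegers.isIntegral_coe x).map
      (Algebra.ofId K (AlgebraicClosure K) |>.restrictScalars ℤ))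
  set B : OO K := ⟨rt p (ui x hx), hint⟩ with hB
  have hBp : B ^ p = algebraMap (𝓞 K) (OO K) x := by
    apply RingOfIntegers.ext
    have e1 : ((B ^ p : OO K) : AlgebraicClosure K) = rt p (ui x hx) ^ p := rfl
    rw [e1, hb]
    rfl
  have h1 : B ^ p - 1 ∈ Q := by
    rw [hBp, ← map_one (algebraMap (𝓞 K) (OO K)), ← map_sub, ← Ideal.mem_comap, hQv]
    exact hx1
  have h2 := (zi_prim hζ).pow_sub_pow_eq_prod_sub_mul B 1 hp.out.pos
  rw [one_pow] at h2
  rw [h2] at h1
  haveI := hQ.isPrime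
  obtain ⟨y, hy, hyQ⟩ := (Ideal.IsPrime.prod_mem_iff).1 h1
  rw [mul_one] at hyQ
  have hy1 : y ^ p = 1 := by
    rw [Polynomial.mem_nthRootsFinset hp.out.pos] at hy
    exact hy
  have h3 : g • (B - y) ∈ Q := (hg _).1 hyQ
  rw [smul_sub, sm_root hζ g hy1] at h3
  have hsm : g • B = zi hζ ^ (kp hζ (ui x hx) g).val * B := RingOfIntegers.ext (kp_rt hζ _ g)
  rw [hsm] at h3
  obtain ⟨u, hu⟩ : ∃ u, u = zi hζ ^ (kp hζ (ui x hx) g).val := ⟨_, rfl⟩
  rw [← hu] at h3
  have hup : u ^ p = 1 := by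
    rw [hu, ← pow_mul, mul_comm, pow_mul, zi_pow, one_pow]
  have h4 : (u - 1) * y ∈ Q := by
    have h5 := Q.sub_mem h3 (Q.mul_mem_left u hyQ)
    have h6 : u * B - y - u * (B - y) = (u - 1) * y := by ring
    rwa [h6] at h5
  have hyQ' : y ∉ Q := by
    intro h
    apply hQ.ne_top
    rw [Ideal.eq_top_iff_one, ← hy1]
    exact Q.pow_mem_of_mem h p hp.out.pos
  have h5 := (hQ.isPrime.mem_or_mem h4).resolve_right hyQ'
  have h6 := Pool.Agent.Y802.root_eq hpQ (x := u) (y := 1) hup (one_pow _) h5 hp.out.ne_zero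
  have h7 : zz ζ ^ (kp hζ (ui x hx) g).val = zz ζ ^ (0 : ZMod p).val := by
    rw [ZMod.val_zero, pow_zero]
    rw [hu] at h6
    exact congrArg (fun y : OO K => (y : AlgebraicClosure K)) h6
  exact pw_inj (zz_prim hζ) h7

end Pool.Agent.NH7.GU
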