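import Pool.Agent.NH7.GU.Stms
import Pool.Agent.Y773.HG.Rs
import Pool.Agent.Y772.HG.Pole
import Pool.Agent.Y772.NV.Main
import Pool.Agent.Y772.DK.Main

/-!
# C3: the prime sums of nontrivial characters are bounded
-/

set_option autoImplicit false
set_option linter.unusedSectionVars false

namespace Pool.Agent.NH7.GU

open NumberField IsDedekindDomain Filter Topology Complex

namespace Lnt87

open Pool.Agent.Y773 (LI VM rmv rmv_of_dvd rmv_of_not_dvd coprime_prime_iff)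
open Pool.Agent.Y773.G (IsModChar sg LI_entire exists_prime_not_dvd)
open Pool.Agent.Y772.G (LI_pole)
open Pool.Agent.Y772.NV (ab sq NVBase nv_one ab_one ab_zero sq_zero')
open Pool.Agent.Y772.DK (ee LA D_hasSum deriv_LI LI_eq_exp t_dirK NN NN_finite sum_VM_le VM_nonneg
  VM_pow VM_of_not)

variable {K : Type} [Field K] [NumberField K]

open Classical in
/-- the von Mangoldt function at the ideals which are not prime -/
noncomputable def NP (𝔞 : Ideal (𝓞 K)) : ℝ := if 𝔞.IsPrime then 0 else VM 𝔞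

lemma NP_nonneg (𝔞 : Ideal (𝓞 K)) : 0 ≤ NP 𝔞 := by
  unfold NP
  split_ifs
  · exact le_rfl
  · exact VM_nonneg 𝔞

lemma NP_le (𝔞 : Ideal (𝓞 K)) : NP 𝔞 ≤ VM 𝔞 := by
  unfold NP
  split_ifs
  · exact VM_nonneg 𝔞
  · exact le_rfl

open scoped ArithmeticFunction.vonMangoldt in
lemma summable_np : Summable fun 𝔞 : Ideal (𝓞 K) => NP 𝔞 * ((Ideal.absNorm 𝔞 : ℕ) : ℝ)⁻¹ := by
  classical
  have h0 : Summable fun n : ℕ => (Module.finrank ℚ K : ℝ) *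
      ((if n.Prime then 0 else Λ n) / n) := by
    have h1 := ArithmeticFunction.vonMangoldt.summable_residueClass_non_primes_div (a := (0 : ZMod 1))
    refine (h1.congr fun n => ?_).mul_left _
    have h2 : ArithmeticFunction.vonMangoldt.residueClass (0 : ZMod 1) n = Λ n := by
      unfold ArithmeticFunction.vonMangoldt.residueClass
      rw [Set.indicator_apply, if_pos]
      exact Subsingleton.elim _ _
    rw [h2]
  refine summable_of_sum_le (c := ∑' n : ℕ, (Module.finrank ℚ K : ℝ) *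
      ((if n.Prime then 0 else Λ n) / n)) (fun 𝔞 => mul_nonneg (NP_nonneg 𝔞) (by positivity)) ?_
  intro u
  rw [← Finset.sum_fiberwise_of_maps_to (t := u.image fun 𝔞 => Ideal.absNorm 𝔞)
    (g := fun 𝔞 => Ideal.absNorm 𝔞) (fun 𝔞 h => Finset.mem_image_of_mem _ h)]
  refine le_trans (Finset.sum_le_sum (g := fun n : ℕ => (Module.finrank ℚ K : ℝ) *
      ((if n.Prime then 0 else Λ n) / n)) fun n _ => ?_) (h0.sum_le_tsum _ fun n _ => ?_)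
  · by_cases hn : n.Prime
    · rw [if_pos hn, zero_div, mul_zero]
      refine le_of_eq (Finset.sum_eq_zero fun 𝔞 h𝔞 => ?_)
      have h1 : Ideal.absNorm 𝔞 = n := (Finset.mem_filter.1 h𝔞).2
      have h2 : 𝔞.IsPrime := Ideal.isPrime_of_irreducible_absNorm (by rw [h1]; exact hn)
      unfold NP
      rw [if_pos h2, zero_mul]
    · rw [if_neg hn]
      have h3 : ∑ 𝔞 ∈ u.filter (fun 𝔞 => Ideal.absNorm 𝔞 = n),
          NP 𝔞 * ((Ideal.absNorm 𝔞 : ℕ) : ℝ)⁻¹ ≤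
          (∑ 𝔞 ∈ u.filter (fun 𝔞 => Ideal.absNorm 𝔞 = n), VM 𝔞) * (n : ℝ)⁻¹ := by
        rw [Finset.sum_mul]
        refine Finset.sum_le_sum fun 𝔞 h𝔞 => ?_
        rw [(Finset.mem_filter.1 h𝔞).2]
        exact mul_le_mul_of_nonneg_right (NP_le 𝔞) (by positivity)
      have h4 : ∑ 𝔞 ∈ u.filter (fun 𝔞 => Ideal.absNorm 𝔞 = n), VM 𝔞 ≤
          ∑ᶠ 𝔞 ∈ NN K n, VM 𝔞 := by
        rw [finsum_mem_eq_finite_toFinset_sum _ (NN_finite n)]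
        refine Finset.sum_le_sum_of_subset_of_nonneg (fun 𝔞 h𝔞 => ?_) fun 𝔞 _ _ => VM_nonneg 𝔞
        rw [Set.Finite.mem_toFinset]
        exact (Finset.mem_filter.1 h𝔞).2
      refine h3.trans ?_
      rw [← mul_div_assoc, div_eq_mul_inv]
      exact mul_le_mul_of_nonneg_right (h4.trans (sum_VM_le n)) (by positivity)
  · refine mul_nonneg (Nat.cast_nonneg _) (div_nonneg ?_ (Nat.cast_nonneg _))
    split_ifs
    · exact le_rfl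
    · exact ArithmeticFunction.vonMangoldt_nonneg

/-- the prime sum -/
noncomputable def PS (ψ : Ideal (𝓞 K) →*₀ ℂ) (s : ℝ) : ℂ :=
  ∑' v : HS K, ψ v.asIdeal * (Real.log (Ideal.absNorm v.asIdeal) : ℂ) *
    ((Ideal.absNorm v.asIdeal : ℝ) ^ (-s) : ℝ)

/-- the term of the logarithmic derivative -/
noncomputable def tm (ψ : Ideal (𝓞 K) →*₀ ℂ) (s : ℝ) (𝔞 : Ideal (𝓞 K)) : ℂ :=
  (VM 𝔞 : ℂ) * ψ 𝔞 * ((Ideal.absNorm 𝔞 : ℕ) : ℂ) ^ (-(s : ℂ))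

lemma cast_pow (n : ℕ) (s : ℝ) : (n : ℂ) ^ (-(s : ℂ)) = (((n : ℝ) ^ (-s) : ℝ) : ℂ) := by
  rw [Complex.ofReal_cpow (Nat.cast_nonneg n), Complex.ofReal_neg, Complex.ofReal_natCast]

lemma tm_bot (ψ : Ideal (𝓞 K) →*₀ ℂ) (s : ℝ) : tm ψ s ⊥ = 0 := by
  have h : VM (⊥ : Ideal (𝓞 K)) = 0 := VM_of_not (fun h => h.ne_zero rfl)
  unfold tm
  rw [h]
  simp

lemma tm_prime (ψ : Ideal (𝓞 K) →*₀ ℂ) (s : ℝ) (v : HS K) : tm ψ s v.asIdeal =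
    ψ v.asIdeal * (Real.log (Ideal.absNorm v.asIdeal) : ℂ) *
      ((Ideal.absNorm v.asIdeal : ℝ) ^ (-s) : ℝ) := by
  have h : VM v.asIdeal = Real.log (Ideal.absNorm v.asIdeal) := by
    have h1 := VM_pow v.prime one_ne_zero
    rwa [pow_one] at h1
  unfold tm
  rw [h, cast_pow]
  ring

lemma D_sum (ψ : Ideal (𝓞 K) →*₀ ℂ) (hψ : ∀ 𝔞, ‖ψ 𝔞‖ ≤ 1) {s : ℝ} (hs : 1 < s) :
    HasSum (tm ψ s) (-(deriv (LA (ee ψ)) (s : ℂ))) :=
  D_hasSum ψ hψ (s := (s : ℂ)) (by simpa using hs)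

lemma norm_tm (ψ : Ideal (𝓞 K) →*₀ ℂ) (s : ℝ) (𝔞 : Ideal (𝓞 K)) :
    ‖tm ψ s 𝔞‖ = VM 𝔞 * ‖ψ 𝔞‖ * ((Ideal.absNorm 𝔞 : ℕ) : ℝ) ^ (-s) := by
  unfold tm
  rw [norm_mul, norm_mul, cast_pow, Complex.norm_real, Complex.norm_real,
    Real.norm_of_nonneg (VM_nonneg 𝔞), Real.norm_of_nonneg (by positivity)]

lemma tm_anti (ψ : Ideal (𝓞 K) →*₀ ℂ) {s t : ℝ} (h : t ≤ s) (𝔞 : Ideal (𝓞 K)) :
    ‖tm ψ s 𝔞‖ ≤ ‖tm ψ t 𝔞‖ := by
  by_cases h0 : 𝔞 = ⊥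
  · rw [h0, tm_bot, tm_bot]
  · rw [norm_tm, norm_tm]
    refine mul_le_mul_of_nonneg_left ?_ (mul_nonneg (VM_nonneg 𝔞) (norm_nonneg _))
    refine Real.rpow_le_rpow_of_exponent_le ?_ (by linarith)
    have h1 : Ideal.absNorm 𝔞 ≠ 0 := fun h2 => h0 (Ideal.absNorm_eq_zero_iff.mp h2)
    exact_mod_cast Nat.one_le_iff_ne_zero.2 h1

/-- the prime sum and the logarithmic derivative -/
lemma PS_near (ψ : Ideal (𝓞 K) →*₀ ℂ) (hψ : ∀ 𝔞, ‖ψ 𝔞‖ ≤ 1) {s : ℝ} (hs : 1 < s) :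
    ‖PS ψ s‖ ≤ ‖deriv (LA (ee ψ)) (s : ℂ)‖ +
      ∑' 𝔞 : Ideal (𝓞 K), NP 𝔞 * ((Ideal.absNorm 𝔞 : ℕ) : ℝ)⁻¹ := by
  classical
  have hD := D_sum ψ hψ hs
  have hsum := hD.summable
  have hinj : Function.Injective (fun v : HS K => v.asIdeal) := fun v w h =>
    HeightOneSpectrum.ext h
  set f1 : Ideal (𝓞 K) → ℂ := fun 𝔞 => if 𝔞.IsPrime then tm ψ s 𝔞 else 0 with hf1
  set f2 : Ideal (𝓞 K) → ℂ := fun 𝔞 => if 𝔞.IsPrime then 0 else tm ψ s 𝔞 with hf2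
  have e1 : PS ψ s = ∑' 𝔞, f1 𝔞 := by
    rw [← hinj.tsum_eq]
    · unfold PS
      refine tsum_congr fun v => ?_
      simp only [hf1]
      rw [if_pos v.isPrime, tm_prime]
    · intro 𝔞 h𝔞
      rw [Function.mem_support] at h𝔞
      have h1 : 𝔞.IsPrime := by
        by_contra h2
        exact h𝔞 (if_neg h2)
      have h3 : 𝔞 ≠ ⊥ := by
        rintro rfl
        apply h𝔞
        simp only [hf1]
        rw [if_pos h1, tm_bot]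
      exact ⟨⟨𝔞, h1, h3⟩, rfl⟩
  have s1 : Summable f1 := by
    refine Summable.of_norm_bounded hsum.norm fun 𝔞 => ?_
    simp only [hf1]
    split_ifs
    · exact le_rfl
    · rw [norm_zero]; exact norm_nonneg _
  have b2 : ∀ 𝔞, ‖f2 𝔞‖ ≤ NP 𝔞 * ((Ideal.absNorm 𝔞 : ℕ) : ℝ)⁻¹ := by
    intro 𝔞
    simp only [hf2]
    by_cases h1 : 𝔞.IsPrime
    · rw [if_pos h1, norm_zero]
      exact mul_nonneg (NP_nonneg 𝔞) (by positivity)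
    · rw [if_neg h1]
      refine (tm_anti ψ hs.le 𝔞).trans ?_
      rw [norm_tm, Real.rpow_neg_one]
      have h2 : NP 𝔞 = VM 𝔞 := if_neg h1
      rw [h2]
      refine mul_le_mul_of_nonneg_right ?_ (by positivity)
      calc VM 𝔞 * ‖ψ 𝔞‖ ≤ VM 𝔞 * 1 := mul_le_mul_of_nonneg_left (hψ 𝔞) (VM_nonneg 𝔞)
        _ = VM 𝔞 := mul_one _
  have s2 : Summable f2 := Summable.of_norm_bounded summable_np b2
  have e2 : ∑' 𝔞, f1 𝔞 + ∑' 𝔞, f2 𝔞 = -(deriv (LA (ee ψ)) (s : ℂ)) := by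
    rw [← s1.tsum_add s2, ← hD.tsum_eq]
    refine tsum_congr fun 𝔞 => ?_
    simp only [hf1, hf2]
    split_ifs
    · rw [add_zero]
    · rw [zero_add]
  have e3 : ‖∑' 𝔞, f2 𝔞‖ ≤ ∑' 𝔞 : Ideal (𝓞 K), NP 𝔞 * ((Ideal.absNorm 𝔞 : ℕ) : ℝ)⁻¹ :=
    tsum_of_norm_bounded summable_np.hasSum b2
  have e4 : PS ψ s = -(deriv (LA (ee ψ)) (s : ℂ)) - ∑' 𝔞, f2 𝔞 := by
    rw [e1, ← e2]; ring
  rw [e4]
  refine (norm_sub_le _ _).trans ?_
  rw [norm_neg]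
  exact add_le_add_right e3 _

/-- the logarithmic derivative is bounded -/
lemma D_bdd (ψ : Ideal (𝓞 K) →*₀ ℂ) (hψ : ∀ 𝔞, ‖ψ 𝔞‖ ≤ 1) {F : ℂ → ℂ} (hF : AnalyticAt ℂ F 1)
    (hFL : ∀ s : ℂ, 1 < s.re → F s = LI ψ s) (hF1 : F 1 ≠ 0) :
    ∃ C : ℝ, ∀ s : ℝ, 1 < s → ‖deriv (LA (ee ψ)) (s : ℂ)‖ ≤ C := by
  have hcont : ContinuousAt (fun z => ‖deriv F z / F z‖) 1 :=
    (hF.deriv.continuousAt.div hF.continuousAt hF1).norm
  have h1 : ∀ᶠ z in 𝓝 (1 : ℂ), ‖deriv F z / F z‖ < ‖deriv F 1 / F 1‖ + 1 :=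
    hcont.eventually_lt continuousAt_const (by simp)
  obtain ⟨δ, hδ, hball⟩ := Metric.eventually_nhds_iff.1 h1
  have hop : IsOpen {s : ℂ | 1 < s.re} := isOpen_lt continuous_const continuous_re
  refine ⟨max (‖deriv F 1 / F 1‖ + 1) (∑' 𝔞 : Ideal (𝓞 K), ‖tm ψ (1 + δ / 2) 𝔞‖), fun s hs => ?_⟩
  by_cases hsδ : s < 1 + δ
  · refine le_trans ?_ (le_max_left _ _)
    have hre : 1 < ((s : ℂ)).re := by simpa using hs
    have h2 : F =ᶠ[𝓝 (s : ℂ)] LI ψ := by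
      filter_upwards [hop.mem_nhds hre] with w hw
      exact hFL w hw
    have h3 : LI ψ (s : ℂ) ≠ 0 := by
      rw [LI_eq_exp ψ hψ hre]
      exact Complex.exp_ne_zero _
    have h4 : deriv F (s : ℂ) / F (s : ℂ) = deriv (LA (ee ψ)) (s : ℂ) := by
      rw [h2.deriv_eq, hFL _ hre, deriv_LI ψ hψ hre, mul_div_assoc, div_self h3, mul_one]
    rw [← h4]
    refine (hball ?_).le
    rw [Complex.dist_eq, show (s : ℂ) - 1 = ((s - 1 : ℝ) : ℂ) by push_cast; ring,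
      Complex.norm_real, Real.norm_of_nonneg (by linarith)]
    linarith
  · refine le_trans ?_ (le_max_right _ _)
    have h5 := D_sum ψ hψ hs
    have h6 := (D_sum ψ hψ (s := 1 + δ / 2) (by linarith)).summable.norm
    have h7 : ‖∑' 𝔞, tm ψ s 𝔞‖ ≤ ∑' 𝔞 : Ideal (𝓞 K), ‖tm ψ (1 + δ / 2) 𝔞‖ :=
      tsum_of_norm_bounded h6.hasSum fun 𝔞 => tm_anti ψ (by linarith) 𝔞
    rw [h5.tsum_eq, norm_neg] at h7
    exact h7

/-- the nontrivial characters modulo `𝔪 ≠ 1` -/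
lemma nonvan {𝔪 : Ideal (𝓞 K)} {η : Ideal (𝓞 K) →*₀ ℂ} (h : IsModChar 𝔪 (fun _ => 0) η)
    (hu : ∀ 𝔞, η 𝔞 = 0 ∨ ‖η 𝔞‖ = 1) (hn : ∃ 𝔞, IsCoprime 𝔞 𝔪 ∧ η 𝔞 ≠ 1) :
    ∃ F : ℂ → ℂ, AnalyticAt ℂ F 1 ∧ (∀ s : ℂ, 1 < s.re → F s = LI η s) ∧ F 1 ≠ 0 := by
  obtain ⟨F, hF, hFL⟩ := LI_entire h hn
  refine ⟨F, hF.analyticAt 1, hFL, ?_⟩
  have hsg : ∀ x : K, sg (fun _ : InfinitePlace K => 0) x = 1 := by
    intro x
    unfold sg
    simp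
  have hab : IsModChar 𝔪 (fun _ => 0) (ab η) := by
    refine ⟨h.ne_bot, h.ne_top, h.sig_le, h.cpx, fun 𝔞 => ?_, fun x hx0 hx => ?_⟩
    · rw [← h.supp 𝔞]
      constructor
      · intro h1 h2
        exact h1 (ab_zero h2)
      · intro h1
        rcases hu 𝔞 with h2 | h2
        · exact absurd h2 h1
        · rw [ab_one h2]; exact one_ne_zero
    · rw [hsg]
      refine ab_one ?_
      rw [h.sig x hx0 hx, hsg, norm_one]
  have hsq : IsModChar 𝔪 (fun _ => 0) (sq η) := by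
    refine ⟨h.ne_bot, h.ne_top, h.sig_le, h.cpx, fun 𝔞 => ?_, fun x hx0 hx => ?_⟩
    · rw [← h.supp 𝔞]
      have e : sq η 𝔞 = η 𝔞 * η 𝔞 := rfl
      rw [e, mul_self_ne_zero]
    · have e : sq η (Ideal.span {x}) = η (Ideal.span {x}) * η (Ideal.span {x}) := rfl
      rw [e, h.sig x hx0 hx, hsg, one_mul]
  obtain ⟨G1, hG1, hG1s, hG10⟩ := LI_pole hab
  obtain ⟨G2, hG2, hG2s, -⟩ := LI_pole h
  have hb : NVBase η := ⟨hu, ⟨G1, hG1, hG1s, hG10 fun _ => rfl⟩, ⟨G2, hG2, hG2s⟩⟩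
  refine nv_one t_dirK hb ?_ (hF.analyticAt 1) (Eventually.of_forall hFL)
  by_cases hsn : ∃ 𝔞, IsCoprime 𝔞 𝔪 ∧ sq η 𝔞 ≠ 1
  · obtain ⟨F2, hF2, hFL2⟩ := LI_entire hsq hsn
    exact Or.inr ⟨F2, hF2.analyticAt 1, Eventually.of_forall hFL2⟩
  · left
    intro 𝔞
    by_cases h1 : IsCoprime 𝔞 𝔪
    · have h2 : sq η 𝔞 = 1 := by
        by_contra h3
        exact hsn ⟨𝔞, h1, h3⟩
      rw [h2, ab_one]
      rcases hu 𝔞 with h3 | h3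
      · exact absurd h3 ((h.supp 𝔞).mpr h1)
      · exact h3
    · have h2 : η 𝔞 = 0 := by
        by_contra h3
        exact h1 ((h.supp 𝔞).mp h3)
      rw [ab_zero h2, sq_zero' h2]

/-- the prime sum is bounded if `𝔪 ≠ 1` -/
lemma bdd_mod {𝔪 : Ideal (𝓞 K)} {η : Ideal (𝓞 K) →*₀ ℂ} (h : IsModChar 𝔪 (fun _ => 0) η)
    (hu : ∀ 𝔞, η 𝔞 = 0 ∨ ‖η 𝔞‖ = 1) (hn : ∃ 𝔞, IsCoprime 𝔞 𝔪 ∧ η 𝔞 ≠ 1) :
    ∃ C : ℝ, ∀ s : ℝ, 1 < s → ‖PS η s‖ ≤ C := by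
  have hle : ∀ 𝔞, ‖η 𝔞‖ ≤ 1 := by
    intro 𝔞
    rcases hu 𝔞 with h1 | h1
    · rw [h1, norm_zero]; exact zero_le_one
    · exact h1.le
  obtain ⟨F, hF, hFL, hF1⟩ := nonvan h hu hn
  obtain ⟨C, hC⟩ := D_bdd η hle hF hFL hF1
  exact ⟨C + ∑' 𝔞 : Ideal (𝓞 K), NP 𝔞 * ((Ideal.absNorm 𝔞 : ℕ) : ℝ)⁻¹, fun s hs =>
    (PS_near η hle hs).trans (add_le_add_left (hC s hs) _)⟩

end Lnt87

open Lnt87 in
open Pool.Agent.Y773 (LI VM rmv rmv_of_dvd rmv_of_not_dvd coprime_prime_iff) in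
open Pool.Agent.Y773.G (IsModChar sg LI_entire exists_prime_not_dvd) in
theorem s_lnt : S_lnt := by
  classical
  intro K _ _ _ 𝔪 h𝔪 η hu hsupp hray hn
  obtain ⟨𝔞, h𝔞0, h𝔞c, h𝔞1⟩ := hn
  obtain ⟨𝔭, h𝔭, h𝔭𝔞⟩ := exists_prime_not_dvd h𝔞0
  have h𝔭0 : 𝔭 ≠ ⊥ := h𝔭.ne_zero
  have h𝔭top : 𝔭 ≠ ⊤ := (Ideal.isPrime_of_prime h𝔭).ne_top
  have hle : ∀ 𝔞, ‖η 𝔞‖ ≤ 1 := by
    intro 𝔞
    rcases hu 𝔞 with h1 | h1
    · rw [h1, norm_zero]; exact zero_le_one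
    · exact h1.le
  set η' := rmv 𝔭 h𝔭 η with hη'
  have hu' : ∀ 𝔞, η' 𝔞 = 0 ∨ ‖η' 𝔞‖ = 1 := by
    intro 𝔟
    by_cases h1 : 𝔭 ∣ 𝔟
    · exact Or.inl (rmv_of_dvd h𝔭 η h1)
    · rw [hη', rmv_of_not_dvd h𝔭 η h1]
      exact hu 𝔟
  have hne' : 𝔪 * 𝔭 ≠ ⊥ := mul_ne_zero h𝔪 h𝔭0
  have htop' : 𝔪 * 𝔭 ≠ ⊤ := by
    intro h
    have h1 : 𝔪 * 𝔭 ≤ 𝔭 := Ideal.mul_le_right
    rw [h] at h1
    exact h𝔭top (top_le_iff.mp h1)
  have hmod : IsModChar (𝔪 * 𝔭) (fun _ => 0) η' := by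
    refine ⟨hne', htop', fun _ => Nat.zero_le _, fun _ _ => rfl, fun 𝔟 => ?_, fun x hx0 hx => ?_⟩
    · by_cases h0 : 𝔟 = ⊥
      · subst h0
        constructor
        · intro h2
          exact absurd (map_zero η') h2
        · intro h2
          exfalso
          rw [Ideal.isCoprime_iff_sup_eq, bot_sup_eq] at h2
          exact htop' h2
      · rw [IsCoprime.mul_right_iff, coprime_prime_iff h𝔭]
        constructor
        · intro h1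
          have h2 : ¬ 𝔭 ∣ 𝔟 := by
            intro h3
            exact h1 (rmv_of_dvd h𝔭 η h3)
          rw [hη', rmv_of_not_dvd h𝔭 η h2] at h1
          exact ⟨(hsupp 𝔟 h0).mp h1, h2⟩
        · rintro ⟨h1, h2⟩
          rw [hη', rmv_of_not_dvd h𝔭 η h2]
          exact (hsupp 𝔟 h0).mpr h1
    · have h1 : ¬ 𝔭 ∣ Ideal.span {x} := by
        intro h2
        rw [Ideal.dvd_span_singleton] at h2
        have h3 : x - 1 ∈ 𝔭 := (Ideal.mul_le_right : 𝔪 * 𝔭 ≤ 𝔭) hx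
        have h4 : (1 : 𝓞 K) ∈ 𝔭 := by
          have : (1 : 𝓞 K) = x - (x - 1) := by ring
          rw [this]
          exact 𝔭.sub_mem h2 h3
        exact h𝔭top ((Ideal.eq_top_iff_one _).mpr h4)
      have h5 : sg (fun _ : InfinitePlace K => 0) (x : K) = 1 := by
        unfold sg
        simp
      rw [hη', rmv_of_not_dvd h𝔭 η h1, h5]
      exact hray x hx0 (Ideal.mul_le_left (I := 𝔪) (J := 𝔭) hx)
  have hn' : ∃ 𝔟, IsCoprime 𝔟 (𝔪 * 𝔭) ∧ η' 𝔟 ≠ 1 := by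
    refine ⟨𝔞, ?_, ?_⟩
    · rw [IsCoprime.mul_right_iff, coprime_prime_iff h𝔭]
      exact ⟨h𝔞c, h𝔭𝔞⟩
    · rw [hη', rmv_of_not_dvd h𝔭 η h𝔭𝔞]
      exact h𝔞1
  obtain ⟨C, hC⟩ := bdd_mod hmod hu' hn'
  -- the two prime sums differ by one term
  let w : HS K := ⟨𝔭, Ideal.isPrime_of_prime h𝔭, h𝔭0⟩
  refine ⟨C + Real.log (Ideal.absNorm 𝔭), fun s hs _ => ?_⟩
  have hle' : ∀ 𝔞, ‖η' 𝔞‖ ≤ 1 := by
    intro 𝔞
    rcases hu' 𝔞 with h1 | h1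
    · rw [h1, norm_zero]; exact zero_le_one
    · exact h1.le
  have hinj : Function.Injective (fun v : HS K => v.asIdeal) := fun v w h =>
    HeightOneSpectrum.ext h
  have hs1 : Summable fun v : HS K => η' v.asIdeal *
      (Real.log (Ideal.absNorm v.asIdeal) : ℂ) * ((Ideal.absNorm v.asIdeal : ℝ) ^ (-s) : ℝ) := by
    refine ((D_sum η' hle' hs).summable.comp_injective hinj).congr fun v => ?_
    exact tm_prime η' s v
  have hdiff : ∀ v : HS K, η v.asIdeal * (Real.log (Ideal.absNorm v.asIdeal) : ℂ) *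
      ((Ideal.absNorm v.asIdeal : ℝ) ^ (-s) : ℝ) =
      η' v.asIdeal * (Real.log (Ideal.absNorm v.asIdeal) : ℂ) *
        ((Ideal.absNorm v.asIdeal : ℝ) ^ (-s) : ℝ) +
      (if v = w then η 𝔭 * (Real.log (Ideal.absNorm 𝔭) : ℂ) *
        ((Ideal.absNorm 𝔭 : ℝ) ^ (-s) : ℝ) else 0) := by
    intro v
    by_cases hv : v = w
    · rw [if_pos hv, hv]
      have h1 : η' w.asIdeal = 0 := rmv_of_dvd h𝔭 η (dvd_refl 𝔭)
      rw [h1]
      simp only [zero_mul, zero_add]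
      rfl
    · rw [if_neg hv, add_zero]
      have h1 : ¬ 𝔭 ∣ v.asIdeal := by
        intro h2
        apply hv
        have h3 : v.asIdeal ≤ 𝔭 := Ideal.dvd_iff_le.mp h2
        have hmax : v.asIdeal.IsMaximal := v.isMaximal
        exact HeightOneSpectrum.ext (hmax.eq_of_le h𝔭top h3)
      rw [hη', rmv_of_not_dvd h𝔭 η h1]
  rw [tsum_congr hdiff, hs1.tsum_add (summable_of_hasFiniteSupport
    ((Set.finite_singleton w).subset fun v hv => by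
      by_contra h1
      exact hv (if_neg h1))), tsum_ite_eq]
  refine (norm_add_le _ _).trans (add_le_add (hC s hs) ?_)
  have hN : 1 ≤ Ideal.absNorm 𝔭 :=
    Nat.one_le_iff_ne_zero.2 fun h => h𝔭0 (Ideal.absNorm_eq_zero_iff.mp h)
  have hlog : 0 ≤ Real.log (Ideal.absNorm 𝔭) := Real.log_natCast_nonneg _
  rw [norm_mul, norm_mul, Complex.norm_real, Complex.norm_real, Real.norm_of_nonneg hlog,
    Real.norm_of_nonneg (by positivity)]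
  have h1 : ((Ideal.absNorm 𝔭 : ℕ) : ℝ) ^ (-s) ≤ 1 :=
    Real.rpow_le_one_of_one_le_of_nonpos (by exact_mod_cast hN) (by linarith)
  calc ‖η 𝔭‖ * Real.log (Ideal.absNorm 𝔭) * ((Ideal.absNorm 𝔭 : ℕ) : ℝ) ^ (-s)
      ≤ 1 * Real.log (Ideal.absNorm 𝔭) * 1 := by
        refine mul_le_mul (mul_le_mul_of_nonneg_right (hle 𝔭) hlog) h1 (by positivity) ?_
        rw [one_mul]; exact hlog
    _ = Real.log (Ideal.absNorm 𝔭) := by ring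

end Pool.Agent.NH7.GU
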