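import Pool.Agent.NH7.GU.LocC

/-!
# The group of local classes (GU-D3)
-/

set_option autoImplicit false
set_option linter.unusedSectionVars false

namespace Pool.Agent.NH7.GU.LocP

open NumberField IsDedekindDomain Pool.Agent.W401.Cheb Pool.Agent.NH7.Sch

variable {K : Type} [Field K] [NumberField K] {p : ℕ} [hp : Fact p.Prime] {ζ : K}
  (hζ : IsPrimitiveRoot ζ p)

theorem ppow_mem (S : Finset (HS K)) (s : Kˣ) : s ^ p ∈ H0 hζ S := fun _ _ g _ => kp_ppow hζ s g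

theorem od_dvd_H0 {S : Finset (HS K)} {κ : Kˣ} (h : κ ∈ H0 hζ S) {v : HS K} (hv : v ∈ S) :
    (p : ℤ) ∣ od v κ :=
  od_dvd_of_inr hζ (Qv_max v) (Qv_comap v) fun g hg => h v hv g (Inr_le (Qv v) hg)

/-- an integral element of `H0` is a `p`-th power modulo `nn` -/
theorem approx_nn {S : Finset (HS K)} (hS : ∀ v : HS K, (p : 𝓞 K) ∈ v.asIdeal → v ∈ S) (x : 𝓞 K)
    (hx : x ≠ 0) (h : ui x hx ∈ H0 hζ S) : ∃ γ : 𝓞 K, γ ^ p - x ∈ nn p S := by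
  classical
  obtain ⟨N, hN⟩ := deep S (nn p S) (nn_ne S) (nn_supp hS)
  have h1 : ∀ v : HS K, v ∈ S → ∃ γ : 𝓞 K, γ ^ p - x ∈ v.asIdeal ^ N := fun v hv =>
    approx hζ (Qv_max v) (Qv_comap v) (coe_ui x hx).symm (h v hv) N
  obtain ⟨γ, hγ⟩ := crt S N (fun v => if hv : v ∈ S then (h1 v hv).choose else 0)
  refine ⟨γ, hN _ fun v hv => ?_⟩
  have h2 := hγ v hv
  rw [dif_pos hv] at h2
  have h3 := (h1 v hv).choose_spec
  obtain ⟨c, hc⟩ := sub_dvd_pow_sub_pow γ (h1 v hv).choose p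
  have h4 := Ideal.add_mem _ (Ideal.mul_mem_right c _ h2) h3
  rw [← hc] at h4
  rwa [sub_add_sub_cancel] at h4

/-- two integers prime to `S` whose quotient is in `H0` have the same class modulo `p`-th powers -/
theorem same_class {S : Finset (HS K)} (hS : ∀ v : HS K, (p : 𝓞 K) ∈ v.asIdeal → v ∈ S)
    (x y : 𝓞 K) (hx : x ≠ 0) (hy : y ≠ 0) (u w : (𝓞 K ⧸ nn p S)ˣ)
    (hu : (u : 𝓞 K ⧸ nn p S) = Ideal.Quotient.mk _ x)
    (hw : (w : 𝓞 K ⧸ nn p S) = Ideal.Quotient.mk _ y)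
    (h : (ui x hx)⁻¹ * ui y hy ∈ H0 hζ S) :
    (u⁻¹ * w) ∈ (powMonoidHom p : (𝓞 K ⧸ nn p S)ˣ →* (𝓞 K ⧸ nn p S)ˣ).range := by
  have hp1 := Nat.sub_add_cancel hp.out.one_le
  have h1 : ui (y * x ^ (p - 1)) (mul_ne_zero hy (pow_ne_zero _ hx)) ∈ H0 hζ S := by
    have h2 : ui (y * x ^ (p - 1)) (mul_ne_zero hy (pow_ne_zero _ hx)) =
        ((ui x hx)⁻¹ * ui y hy) * (ui x hx) ^ p := by
      rw [← ui_mul _ _ hy (pow_ne_zero _ hx), ← ui_pow]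
      conv_rhs => rw [← hp1, pow_succ]
      rw [mul_comm (ui x hx)⁻¹, mul_assoc, mul_comm (ui x hx ^ (p - 1)), inv_mul_cancel_left]
    rw [h2]
    exact (H0 hζ S).mul_mem h (ppow_mem hζ S _)
  obtain ⟨γ, hγ⟩ := approx_nn hζ hS _ _ h1
  have h2 : (Ideal.Quotient.mk (nn p S) γ) ^ p = ((w * u ^ (p - 1) : (𝓞 K ⧸ nn p S)ˣ) :
      𝓞 K ⧸ nn p S) := by
    rw [Units.val_mul, Units.val_pow_eq_pow_val, hu, hw, ← map_pow, ← map_pow, ← map_mul,
      Ideal.Quotient.eq]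
    exact hγ
  have h3 : IsUnit (Ideal.Quotient.mk (nn p S) γ) := by
    apply (isUnit_pow_iff hp.out.ne_zero).1
    rw [h2]
    exact Units.isUnit _
  obtain ⟨g, hg⟩ := h3
  have h4 : g ^ p = w * u ^ (p - 1) := by
    apply Units.ext
    rw [Units.val_pow_eq_pow_val, hg, h2]
  refine ⟨g * u⁻¹, ?_⟩
  have e0 : u⁻¹ ^ p = (u ^ (p - 1))⁻¹ * u⁻¹ := by
    rw [← inv_pow, ← pow_succ, hp1]
  rw [powMonoidHom_apply, mul_pow, h4, e0]
  have e : w * u ^ (p - 1) * ((u ^ (p - 1))⁻¹ * u⁻¹) = w * (u ^ (p - 1) * (u ^ (p - 1))⁻¹) * u⁻¹ := by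
    ac_rfl
  rw [e, mul_inv_cancel, mul_one, mul_comm]

/-- the lower bound -/
theorem lower {S : Finset (HS K)} (hS : ∀ v : HS K, (p : 𝓞 K) ∈ v.asIdeal → v ∈ S)
    (hne : S.Nonempty) (hfin : Finite (Kˣ ⧸ H0 hζ S)) :
    p ^ (2 * S.card + Module.finrank ℚ K) ≤ Nat.card (Kˣ ⧸ H0 hζ S) := by
  classical
  have hfinR : Finite (𝓞 K ⧸ nn p S) := Ideal.finiteQuotientOfFreeOfNeBot _ (nn_ne S)
  obtain ⟨P, hP⟩ := unifs S
  obtain ⟨v0, hv0⟩ := hne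
  set Rg := (powMonoidHom p : (𝓞 K ⧸ nn p S)ˣ →* (𝓞 K ⧸ nn p S)ˣ).range with hRg
  have hx : ∀ c : (𝓞 K ⧸ nn p S)ˣ ⧸ Rg, ∃ (x : 𝓞 K) (hx : x ≠ 0), (∀ v ∈ S, x ∉ v.asIdeal) ∧
      ∃ u : (𝓞 K ⧸ nn p S)ˣ, (u : 𝓞 K ⧸ nn p S) = Ideal.Quotient.mk _ x ∧
        QuotientGroup.mk u = c := by
    intro c
    obtain ⟨u, rfl⟩ := QuotientGroup.mk_surjective c
    obtain ⟨x, hx⟩ := Ideal.Quotient.mk_surjective (I := nn p S) (u : 𝓞 K ⧸ nn p S)
    have h1 : ∀ v ∈ S, x ∉ v.asIdeal := by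
      intro v hv hm
      obtain ⟨y, hy⟩ := Ideal.Quotient.mk_surjective (I := nn p S) ((u⁻¹ : (𝓞 K ⧸ nn p S)ˣ) :
        𝓞 K ⧸ nn p S)
      have h2 : Ideal.Quotient.mk (nn p S) (x * y) = Ideal.Quotient.mk (nn p S) 1 := by
        rw [map_mul, hx, hy, map_one]
        exact u.mul_inv
      rw [Ideal.Quotient.eq] at h2
      have h3 : nn p S ≤ v.asIdeal := (nn_le S).trans (Ideal.mul_le_right.trans
        (Ideal.prod_le_inf.trans (Finset.inf_le (f := fun v : HS K => v.asIdeal) hv)))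
      have h4 := v.asIdeal.sub_mem (Ideal.mul_mem_right y _ hm) (h3 h2)
      rw [sub_sub_cancel] at h4
      exact v.isPrime.ne_top ((Ideal.eq_top_iff_one _).2 h4)
    have hx0 : x ≠ 0 := by
      rintro rfl
      exact h1 v0 hv0 (Ideal.zero_mem _)
    exact ⟨x, hx0, h1, u, hx.symm, rfl⟩
  choose X hX0 hX1 U hU1 hU2 using hx
  let g : (S → ZMod p) → Kˣ := fun a =>
    ∏ v ∈ S, P v ^ (if hv : v ∈ S then ((a ⟨v, hv⟩).val : ℤ) else 0)
  have hg : ∀ a v (hv : v ∈ S), od v (g a) = -((a ⟨v, hv⟩).val : ℤ) := by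
    intro a v hv
    have h1 := od_unifs hP (fun v => if hv : v ∈ S then ((a ⟨v, hv⟩).val : ℤ) else 0) hv
    rw [dif_pos hv] at h1
    exact h1
  let ψ : (S → ZMod p) × ((𝓞 K ⧸ nn p S)ˣ ⧸ Rg) → Kˣ ⧸ H0 hζ S := fun ac =>
    QuotientGroup.mk (g ac.1 * ui (X ac.2) (hX0 ac.2))
  have hψ : Function.Injective ψ := by
    rintro ⟨a, c⟩ ⟨a', c'⟩ h
    have h1 : (g a * ui (X c) (hX0 c))⁻¹ * (g a' * ui (X c') (hX0 c')) ∈ H0 hζ S :=
      QuotientGroup.eq.1 h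
    have haa : a = a' := by
      funext v
      have h2 := od_dvd_H0 hζ h1 v.2
      rw [od_mul, od_inv, od_mul, od_mul, hg a v.1 v.2, hg a' v.1 v.2, od_ui_zero v.1 _ _
        (hX1 c v.1 v.2), od_ui_zero v.1 _ _ (hX1 c' v.1 v.2), add_zero, add_zero, neg_neg,
        ← sub_eq_add_neg] at h2
      have h3 := (ZMod.intCast_zmod_eq_zero_iff_dvd _ p).2 h2
      push_cast at h3
      rw [ZMod.natCast_zmod_val, ZMod.natCast_zmod_val] at h3
      exact sub_eq_zero.1 h3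
    subst haa
    have h2 : (g a * ui (X c) (hX0 c))⁻¹ * (g a * ui (X c') (hX0 c')) =
        (ui (X c) (hX0 c))⁻¹ * ui (X c') (hX0 c') := by
      rw [mul_inv, mul_comm (g a)⁻¹, mul_assoc, inv_mul_cancel_left]
    rw [h2] at h1
    have h3 := same_class hζ hS (X c) (X c') (hX0 c) (hX0 c') (U c) (U c') (hU1 c) (hU1 c') h1
    have h4 : (QuotientGroup.mk (U c) : (𝓞 K ⧸ nn p S)ˣ ⧸ Rg) = QuotientGroup.mk (U c') :=
      QuotientGroup.eq.2 h3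
    rw [hU2, hU2] at h4
    rw [h4]
  have h1 := Nat.card_le_card_of_injective ψ hψ
  rw [Nat.card_prod, Nat.card_fun, Nat.card_zmod, Nat.card_eq_fintype_card, Fintype.card_coe] at h1
  have h2 := card_units_mod (p := p) (𝓞 K ⧸ nn p S)
  have h3 := card_tors hζ S hS
  calc p ^ (2 * S.card + Module.finrank ℚ K)
      = p ^ S.card * p ^ (Module.finrank ℚ K + S.card) := by rw [← pow_add]; congr 1; omega
    _ ≤ p ^ S.card * Nat.card ((𝓞 K ⧸ nn p S)ˣ ⧸ Rg) := Nat.mul_le_mul_left _ (h3.trans h2)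
    _ ≤ _ := h1

/-- the normal form of the elements of `K*` modulo `p`-th powers -/
theorem normal_form {S : Finset (HS K)} (hne : S.Nonempty) {P : HS K → Kˣ}
    (hP : ∀ v ∈ S, od v (P v) = -1 ∧ ∀ w ∈ S, w ≠ v → od w (P v) = 0) (κ : Kˣ) :
    ∃ (a : HS K → ZMod p) (x : 𝓞 K) (hx : x ≠ 0) (s : Kˣ), (∀ v ∈ S, x ∉ v.asIdeal) ∧
      κ = (∏ v ∈ S, P v ^ ((a v).val : ℤ)) * ui x hx * s ^ p := by
  have hp1 := Nat.sub_add_cancel hp.out.one_le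
  obtain ⟨x, y, hx, hy, hxS, hyS, he⟩ := den S hne (κ * ∏ v ∈ S, P v ^ (od v κ)) (by
    intro v hv
    rw [od_mul, od_unifs hP _ hv, add_neg_cancel])
  refine ⟨fun v => ((-od v κ : ℤ) : ZMod p), x * y ^ (p - 1), mul_ne_zero hx (pow_ne_zero _ hy),
    (∏ v ∈ S, P v ^ ((-od v κ) / (p : ℤ))) * (ui y hy)⁻¹, ?_, ?_⟩
  · intro v hv hm
    rcases v.isPrime.mem_or_mem hm with h1 | h1
    · exact hxS v hv h1
    · exact hyS v hv (v.isPrime.mem_of_pow_mem _ h1)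
  · have h1 : ∀ v : HS K, P v ^ ((((-od v κ : ℤ) : ZMod p)).val : ℤ) *
        (P v ^ ((-od v κ) / (p : ℤ))) ^ p = (P v ^ (od v κ))⁻¹ := by
      intro v
      rw [ZMod.val_intCast, ← zpow_natCast, ← zpow_mul, ← zpow_add, ← zpow_neg, mul_comm,
        Int.emod_add_mul_ediv]
    have h2 : (∏ v ∈ S, P v ^ ((((-od v κ : ℤ) : ZMod p)).val : ℤ)) *
        (∏ v ∈ S, P v ^ ((-od v κ) / (p : ℤ))) ^ p = (∏ v ∈ S, P v ^ (od v κ))⁻¹ := by
      rw [← Finset.prod_pow, ← Finset.prod_mul_distrib, ← Finset.prod_inv_distrib]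
      exact Finset.prod_congr rfl fun v _ => h1 v
    have h3 : ui (x * y ^ (p - 1)) (mul_ne_zero hx (pow_ne_zero _ hy)) =
        κ * (∏ v ∈ S, P v ^ (od v κ)) * ui y hy ^ p := by
      rw [← ui_mul _ _ hx (pow_ne_zero _ hy), ← ui_pow y hy (p - 1), ← he, mul_assoc, ← pow_succ', hp1]
    rw [h3, mul_pow, inv_pow]
    have e : ∀ A B C D : Kˣ, A * (κ * C * D) * (B * D⁻¹) = κ * C * (A * B) * (D * D⁻¹) := by
      intro A B C D
      ac_rfl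
    rw [e, h2, mul_inv_cancel, mul_one, mul_inv_cancel_right]

/-- finiteness -/
theorem fin (hmod : S_mod) {S : Finset (HS K)}
    (hS : ∀ v : HS K, (p : 𝓞 K) ∈ v.asIdeal → v ∈ S) (hne : S.Nonempty) :
    Finite (Kˣ ⧸ H0 hζ S) := by
  classical
  obtain ⟨𝔪, hm0, hmS, hm1⟩ := hmod K p ζ hζ S hS
  have hfinR : Finite (𝓞 K ⧸ 𝔪) := Ideal.finiteQuotientOfFreeOfNeBot _ hm0
  obtain ⟨P, hP⟩ := unifs S
  -- two integers prime to `S` which are congruent have the same class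
  have key : ∀ (x y : 𝓞 K) (hx : x ≠ 0) (hy : y ≠ 0), (∀ v ∈ S, y ∉ v.asIdeal) → x - y ∈ 𝔪 →
      (ui x hx)⁻¹ * ui y hy ∈ H0 hζ S := by
    intro x y hx hy hyS hxy
    have h1 : Ideal.span {y} ⊔ 𝔪 = ⊤ := by
      by_contra hcon
      obtain ⟨M, hM, hle⟩ := Ideal.exists_le_maximal _ hcon
      have hM0 : M ≠ ⊥ := by
        rintro rfl
        exact hm0 (le_bot_iff.1 (le_sup_right.trans hle))
      have hv := hmS ⟨M, hM.isPrime, hM0⟩ (le_sup_right.trans hle)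
      exact hyS _ hv ((le_sup_left.trans hle) (Ideal.mem_span_singleton_self y))
    have h2 : (1 : 𝓞 K) ∈ Ideal.span {y} ⊔ 𝔪 := by rw [h1]; exact Submodule.mem_top
    obtain ⟨a, ha, b, hb, hab⟩ := Submodule.mem_sup.1 h2
    obtain ⟨c, rfl⟩ := Ideal.mem_span_singleton.1 ha
    by_cases hc : c = 0
    · -- then the modulus is trivial
      have h3 : (1 : 𝓞 K) ∈ 𝔪 := by
        rw [← hab, hc, mul_zero, zero_add]
        exact hb
      have h4 : ∀ z : 𝓞 K, z ∈ 𝔪 := fun z => by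
        rw [(Ideal.eq_top_iff_one _).2 h3]
        exact Submodule.mem_top
      exact (H0 hζ S).mul_mem ((H0 hζ S).inv_mem (hm1 x hx (h4 _))) (hm1 y hy (h4 _))
    · have h3 : y * c - 1 ∈ 𝔪 := by
        have : y * c - 1 = -b := by rw [← hab]; ring
        rw [this]
        exact neg_mem hb
      have h4 : x * c - 1 ∈ 𝔪 := by
        have h5 := 𝔪.add_mem (Ideal.mul_mem_right c _ hxy) h3
        rwa [show (x - y) * c + (y * c - 1) = x * c - 1 by ring] at h5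
      have h5 := (H0 hζ S).mul_mem ((H0 hζ S).inv_mem (hm1 (x * c) (mul_ne_zero hx hc) h4))
        (hm1 (y * c) (mul_ne_zero hy hc) h3)
      rw [← ui_mul x c hx hc, ← ui_mul y c hy hc, mul_inv, mul_comm (ui x hx)⁻¹,
        mul_comm (ui y hy), mul_assoc, mul_comm (ui x hx)⁻¹, mul_assoc, inv_mul_cancel_left,
        mul_comm (ui y hy)] at h5
      exact h5
  let R : 𝓞 K ⧸ 𝔪 → Kˣ := fun c =>
    if h : ∃ (x : 𝓞 K) (_ : x ≠ 0), (∀ v ∈ S, x ∉ v.asIdeal) ∧ Ideal.Quotient.mk 𝔪 x = c then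
      ui h.choose h.choose_spec.choose else 1
  let ψ : (S → ZMod p) × (𝓞 K ⧸ 𝔪) → Kˣ ⧸ H0 hζ S := fun ac =>
    QuotientGroup.mk ((∏ v ∈ S, P v ^ (if hv : v ∈ S then ((ac.1 ⟨v, hv⟩).val : ℤ) else 0)) *
      R ac.2)
  refine Finite.of_surjective ψ ?_
  intro q
  obtain ⟨κ, rfl⟩ := QuotientGroup.mk_surjective q
  obtain ⟨a, x, hx, s, hxS, he⟩ := normal_form (p := p) hne hP κ
  refine ⟨(fun v => a v.1, Ideal.Quotient.mk 𝔪 x), ?_⟩
  have hex : ∃ (y : 𝓞 K) (_ : y ≠ 0), (∀ v ∈ S, y ∉ v.asIdeal) ∧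
      Ideal.Quotient.mk 𝔪 y = Ideal.Quotient.mk 𝔪 x := ⟨x, hx, hxS, rfl⟩
  have hR : R (Ideal.Quotient.mk 𝔪 x) = ui hex.choose hex.choose_spec.choose := dif_pos hex
  change (QuotientGroup.mk ((∏ v ∈ S, P v ^ (if hv : v ∈ S then ((a v).val : ℤ) else 0)) *
      R (Ideal.Quotient.mk 𝔪 x)) : Kˣ ⧸ H0 hζ S) = QuotientGroup.mk κ
  have hprod : (∏ v ∈ S, P v ^ (if hv : v ∈ S then ((a v).val : ℤ) else 0)) =
      ∏ v ∈ S, P v ^ ((a v).val : ℤ) := Finset.prod_congr rfl fun v hv => by rw [dif_pos hv]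
  rw [hprod, hR]
  apply QuotientGroup.eq.2
  have hy := hex.choose_spec.choose_spec
  have h1 := key hex.choose x hex.choose_spec.choose hx hxS (Ideal.Quotient.eq.1 hy.2)
  have h2 := (H0 hζ S).mul_mem h1 (ppow_mem hζ S s)
  have e : ((∏ v ∈ S, P v ^ ((a v).val : ℤ)) * ui hex.choose hex.choose_spec.choose)⁻¹ * κ =
      (ui hex.choose hex.choose_spec.choose)⁻¹ * ui x hx * s ^ p := by
    conv_lhs => rw [he]
    rw [mul_inv]
    have e1 : ∀ A B C D : Kˣ, A⁻¹ * B⁻¹ * (A * C * D) = A⁻¹ * A * (B⁻¹ * C * D) := by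
      intro A B C D
      ac_rfl
    rw [e1, inv_mul_cancel, one_mul]
  rw [e]
  exact h2

/-- there is a prime above `p` -/
theorem exists_above (K : Type) [Field K] [NumberField K] (p : ℕ) [hp : Fact p.Prime] :
    ∃ v : HS K, (p : 𝓞 K) ∈ v.asIdeal := by
  have h1 : Ideal.span {(p : 𝓞 K)} ≠ ⊤ := by
    intro h
    have h2 := Ideal.absNorm_span_natCast (S := 𝓞 K) p
    rw [h, Ideal.absNorm_top, RingOfIntegers.rank] at h2
    have h3 := Nat.one_lt_pow (Module.finrank_pos (R := ℚ) (M := K)).ne' hp.out.one_lt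
    omega
  obtain ⟨M, hM, hle⟩ := Ideal.exists_le_maximal _ h1
  have hM0 : M ≠ ⊥ := by
    rintro rfl
    exact span_ne (K := K) (p := p) (le_bot_iff.1 hle)
  exact ⟨⟨M, hM.isPrime, hM0⟩, hle (Ideal.mem_span_singleton_self _)⟩

end Pool.Agent.NH7.GU.LocP

namespace Pool.Agent.NH7.GU

open NumberField IsDedekindDomain Pool.Agent.W401.Cheb Pool.Agent.NH7.Sch

theorem s_loc (hmod : S_mod) : S_loc := by
  intro K _ _ p _ ζ hζ S hS
  obtain ⟨v, hv⟩ := LocP.exists_above K p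
  have hfin := LocP.fin hζ hmod hS ⟨v, hS v hv⟩
  exact ⟨hfin, LocP.lower hζ hS ⟨v, hS v hv⟩ hfin⟩

end Pool.Agent.NH7.GU
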