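import Pool.Agent.NH7.GU.Stms

/-!
# Going up for Schneider's conjecture: the induction (D11)
-/

set_option autoImplicit false
set_option linter.unusedSectionVars false

namespace Pool.Agent.NH7.GU

open NumberField IsDedekindDomain Pool.Agent.W401.Cheb Pool.Agent.NH7.Sch Filter Topology

section loop

variable {K : Type} [Field K] [NumberField K] {p : ℕ} [hp : Fact p.Prime]

theorem Sel_congr {S : Finset (HS K)} {lam lam' : HS K → GK K → ZMod p}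
    (h : ∀ v ∈ S, ∀ g ∈ Dec (Qv v), lam v g = lam' v g) : Sel p S lam = Sel p S lam' := by
  ext x
  rw [mem_Sel, mem_Sel]
  refine and_congr_right fun _ => and_congr_left fun _ => ?_
  constructor
  · intro h1 v hv
    obtain ⟨a, ha⟩ := h1 v hv
    exact ⟨a, fun g hg => by rw [ha g hg, h v hv g hg]⟩
  · intro h1 v hv
    obtain ⟨a, ha⟩ := h1 v hv
    exact ⟨a, fun g hg => by rw [ha g hg, h v hv g hg]⟩

open Classical in
/-- the local conditions of a state of the induction -/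
noncomputable def lamf (S₀ : Finset (HS K)) (lam : HS K → GK K → ZMod p) (χ : GK K → ZMod p)
    (v : HS K) : GK K → ZMod p := if v ∈ S₀ then lam v else χ

theorem lamf_mem {S₀ : Finset (HS K)} {lam : HS K → GK K → ZMod p} {χ : GK K → ZMod p} {v : HS K}
    (h : v ∈ S₀) : lamf S₀ lam χ v = lam v := if_pos h

theorem lamf_not {S₀ : Finset (HS K)} {lam : HS K → GK K → ZMod p} {χ : GK K → ZMod p} {v : HS K}
    (h : v ∉ S₀) : lamf S₀ lam χ v = χ := if_neg h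

/-- a state of the induction -/
structure LState (S₀ : Finset (HS K)) (lam : HS K → GK K → ZMod p) (χ₀ : GK K → ZMod p)
    (S : Finset (HS K)) (χ : GK K → ZMod p) : Prop where
  sub : S₀ ⊆ S
  ne : S₀ ≠ S
  mem : χ ∈ Sel p S (lamf S₀ lam χ)
  eq : ∀ v ∈ S₀, ∀ g ∈ Dec (Qv v), χ g = χ₀ g
  ram : ∀ v ∈ S, v ∉ S₀ → ∃ g ∈ Inr (Qv v), χ g ≠ 0

theorem kp_hm {ζ : K} (hζ : IsPrimitiveRoot ζ p) (κ : Kˣ) : Hm p (kp hζ κ) :=
  ⟨kp_cont hζ κ, kp_mul_right hζ κ⟩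

theorem kp_unr {ζ : K} (hζ : IsPrimitiveRoot ζ p) {κ : Kˣ} {v : HS K} (hv : (p : 𝓞 K) ∉ v.asIdeal)
    (h : (p : ℤ) ∣ od v κ) : Unr v (kp hζ κ) := fun _ hg =>
  kp_inr_zero hζ (Qv_max v) (Qv_comap v) (not_mem_Q (Qv_comap v) hv) h hg

theorem loop_start (h3 : S_aux) [IsTotallyComplex K] {ζ : K} (hζ : IsPrimitiveRoot ζ p)
    {S₀ : Finset (HS K)} (hp0 : ∀ v : HS K, (p : 𝓞 K) ∈ v.asIdeal → v ∈ S₀)
    {lam : HS K → GK K → ZMod p} {χ₀ : GK K → ZMod p} (hχ : χ₀ ∈ Sel p S₀ lam) :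
    ∃ (S : Finset (HS K)) (χ : GK K → ZMod p), LState S₀ lam χ₀ S χ := by
  classical
  obtain ⟨v₁, v₂, κ, hv1, hv2, h12, hκ, hod⟩ := h3 K p ζ hζ S₀ hp0
  rw [mem_Sel] at hχ
  obtain ⟨hm, hS, hun⟩ := hχ
  have hS' : ∀ v, v ∈ insert v₁ (insert v₂ S₀) ↔ v = v₁ ∨ v = v₂ ∨ v ∈ S₀ := by
    intro v
    rw [Finset.mem_insert, Finset.mem_insert]
  refine ⟨insert v₁ (insert v₂ S₀), χ₀ + kp hζ κ, ?_, ?_, ?_, ?_, ?_⟩
  · intro v hv
    exact (hS' v).2 (Or.inr (Or.inr hv))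
  · intro h
    apply hv1
    rw [h]
    exact (hS' v₁).2 (Or.inl rfl)
  · rw [mem_Sel]
    refine ⟨hm.add (kp_hm hζ κ), fun v hv => ?_, fun v hv g hg => ?_⟩
    · by_cases hv0 : v ∈ S₀
      · obtain ⟨a, ha⟩ := hS v hv0
        refine ⟨a, fun g hg => ?_⟩
        rw [lamf_mem hv0, Pi.add_apply, ha g hg, hκ v hv0 g hg, add_zero]
      · exact ⟨1, fun g _ => by rw [lamf_not hv0, one_mul]⟩
    · rw [hS'] at hv
      push Not at hv
      obtain ⟨h1, h2, h0⟩ := hv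
      have h4 : (p : ℤ) ∣ od v κ := by
        have := hod v h0
        rwa [Finsupp.add_apply, Finsupp.single_eq_of_ne h1,
          Finsupp.single_eq_of_ne h2, add_zero, zero_add] at this
      rw [Pi.add_apply, hun v h0 g hg, kp_unr hζ (fun h => h0 (hp0 v h)) h4 g hg, add_zero]
  · intro v hv g hg
    rw [Pi.add_apply, hκ v hv g hg, add_zero]
  · intro v hv hv0
    by_contra hcon
    push Not at hcon
    have h5 : ∀ g ∈ Inr (Qv v), kp hζ κ g = 0 := by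
      intro g hg
      have := hcon g hg
      rwa [Pi.add_apply, hun v hv0 g hg, zero_add] at this
    have h6 := od_dvd_of_inr hζ (Qv_max v) (Qv_comap v) h5
    have h7 := (Int.dvd_add_left h6).1 (hod v hv0)
    have h8 : (Finsupp.single v₁ 1 + Finsupp.single v₂ 1 : HS K →₀ ℤ) v = 1 := by
      rcases (hS' v).1 hv with h | h | h
      · rw [h, Finsupp.add_apply, Finsupp.single_eq_same, Finsupp.single_eq_of_ne h12, add_zero]
      · rw [h, Finsupp.add_apply, Finsupp.single_eq_same, Finsupp.single_eq_of_ne h12.symm, zero_add]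
      · exact absurd h hv0
    rw [h8] at h7
    have h9 := Int.le_of_dvd one_pos h7
    have := hp.out.two_le
    omega

theorem loop_step (h1 : S_pick) (h2 : S_drop) (h4 : S_sfin) [IsTotallyComplex K] {ζ : K}
    (hζ : IsPrimitiveRoot ζ p) {S₀ : Finset (HS K)}
    (hp0 : ∀ v : HS K, (p : 𝓞 K) ∈ v.asIdeal → v ∈ S₀)
    (hcl : ∀ n : HS K →₀ ℤ, ∃ κ : Kˣ, ∀ v ∉ S₀, n v = od v κ)
    {lam : HS K → GK K → ZMod p} {χ₀ : GK K → ZMod p} {S : Finset (HS K)} {χ : GK K → ZMod p}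
    (hs : LState S₀ lam χ₀ S χ) (hc : p ^ 2 ≤ Nat.card (Sel p S (lamf S₀ lam χ))) :
    ∃ (S' : Finset (HS K)) (χ' : GK K → ZMod p), LState S₀ lam χ₀ S' χ' ∧
      Nat.card (Sel p S' (lamf S₀ lam χ')) < Nat.card (Sel p S (lamf S₀ lam χ)) := by
  classical
  have hpS : ∀ v : HS K, (p : 𝓞 K) ∈ v.asIdeal → v ∈ S := fun v hv => hs.sub (hp0 v hv)
  obtain ⟨v₁, v₂, v₃, κ, a1, a2, a3, a12, a13, a23, hκ, hod, hind, hind2⟩ :=
    h1 K p ζ hζ S hpS (fun n => by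
      obtain ⟨κ, hκ⟩ := hcl n
      exact ⟨κ, fun v hv => hκ v fun h => hv (hs.sub h)⟩) (lamf S₀ lam χ) hc
  have hS' : ∀ v, v ∈ insert v₁ (insert v₂ (insert v₃ S)) ↔ v ∈ S ∨ v = v₁ ∨ v = v₂ ∨ v = v₃ := by
    intro v
    rw [Finset.mem_insert, Finset.mem_insert, Finset.mem_insert]
    tauto
  have hfin := h4 K p ζ hζ S (lamf S₀ lam χ)
  obtain ⟨b1, b2, b3⟩ := h2 K p ζ hζ S hpS (lamf S₀ lam χ) hfin v₁ v₂ v₃ κ a1 a2 a3 a12 a13 a23 hκ hod
    hind hind2 χ hs.mem (insert v₁ (insert v₂ (insert v₃ S))) (lamf S₀ lam (χ + kp hζ κ)) hS'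
    (fun v hv g hg => by
      by_cases hv0 : v ∈ S₀
      · rw [lamf_mem hv0, lamf_mem hv0]
      · rw [lamf_not hv0, lamf_not hv0, Pi.add_apply, hκ v hv g hg, add_zero])
    (fun v _ hv g _ => by
      rw [lamf_not (fun h => hv (hs.sub h)), Pi.add_apply])
  refine ⟨insert v₁ (insert v₂ (insert v₃ S)), χ + kp hζ κ, ⟨?_, ?_, b2, ?_, ?_⟩, ?_⟩
  · intro v hv
    exact (hS' v).2 (Or.inl (hs.sub hv))
  · intro h
    apply hs.ne
    refine Finset.Subset.antisymm hs.sub fun v hv => ?_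
    rw [h]
    exact (hS' v).2 (Or.inl hv)
  · intro v hv g hg
    rw [Pi.add_apply, hκ v (hs.sub hv) g hg, add_zero, hs.eq v hv g hg]
  · intro v hv hv0
    by_cases hvS : v ∈ S
    · obtain ⟨g, hg, hne⟩ := hs.ram v hvS hv0
      refine ⟨g, hg, ?_⟩
      rw [Pi.add_apply, hκ v hvS g (Inr_le _ hg), add_zero]
      exact hne
    · obtain ⟨g, hg, hne⟩ := b3 v hv hvS
      exact ⟨g, hg, hne⟩
  · have hfin' := h4 K p ζ hζ (insert v₁ (insert v₂ (insert v₃ S))) (lamf S₀ lam (χ + kp hζ κ))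
    have h5 : 0 < Nat.card (Sel p (insert v₁ (insert v₂ (insert v₃ S))) (lamf S₀ lam (χ + kp hζ κ))) :=
      Nat.card_pos
    have h6 := hp.out.two_le
    nlinarith

theorem loop_end (h1 : S_pick) (h2 : S_drop) (h3 : S_aux) (h4 : S_sfin) [IsTotallyComplex K] {ζ : K}
    (hζ : IsPrimitiveRoot ζ p) {S₀ : Finset (HS K)}
    (hp0 : ∀ v : HS K, (p : 𝓞 K) ∈ v.asIdeal → v ∈ S₀)
    (hcl : ∀ n : HS K →₀ ℤ, ∃ κ : Kˣ, ∀ v ∉ S₀, n v = od v κ)
    {lam : HS K → GK K → ZMod p} {χ₀ : GK K → ZMod p} (hχ : χ₀ ∈ Sel p S₀ lam) :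
    ∃ (S : Finset (HS K)) (χ : GK K → ZMod p), LState S₀ lam χ₀ S χ ∧
      Nat.card (Sel p S (lamf S₀ lam χ)) < p ^ 2 := by
  have key : ∀ (N : ℕ) (S : Finset (HS K)) (χ : GK K → ZMod p), LState S₀ lam χ₀ S χ →
      Nat.card (Sel p S (lamf S₀ lam χ)) = N →
      ∃ (S : Finset (HS K)) (χ : GK K → ZMod p), LState S₀ lam χ₀ S χ ∧
        Nat.card (Sel p S (lamf S₀ lam χ)) < p ^ 2 := by
    intro N
    induction N using Nat.strong_induction_on with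
    | _ N ih =>
      intro S χ hs hN
      rcases lt_or_ge (Nat.card (Sel p S (lamf S₀ lam χ))) (p ^ 2) with h | h
      · exact ⟨S, χ, hs, h⟩
      · obtain ⟨S', χ', hs', hlt⟩ := loop_step h1 h2 h4 hζ hp0 hcl hs h
        exact ih _ (by rw [← hN]; exact hlt) S' χ' hs' rfl
  obtain ⟨S, χ, hs⟩ := loop_start h3 hζ hp0 hχ
  exact key _ S χ hs rfl

end loop

theorem s_loop (h1 : S_pick) (h2 : S_drop) (h3 : S_aux) (h4 : S_sfin) : S_loop := by
  intro K _ _ _ p hp ζ hζ S₀ hp0 hcl lam χ₀ hχ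
  obtain ⟨S, χ, hs, hc⟩ := loop_end h1 h2 h3 h4 hζ hp0 hcl hχ
  have hmem := mem_Sel.1 hs.mem
  refine ⟨S, χ, hs.sub, hs.ne, hmem.1, hs.eq, hs.ram, hmem.2.2, ?_⟩
  intro lam' hl1 hl2 x hx
  have hcong : Sel p S lam' = Sel p S (lamf S₀ lam χ) := by
    apply Sel_congr
    intro v hv g hg
    by_cases hv0 : v ∈ S₀
    · rw [lamf_mem hv0, hl1 v hv0 g hg]
    · rw [lamf_not hv0, hl2 v hv hv0 g hg]
  rw [hcong] at hx
  have hfin := h4 K p ζ hζ S (lamf S₀ lam χ)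
  -- `χ` is not zero
  have hχ0 : χ ≠ 0 := by
    intro h0
    apply hs.ne
    refine Finset.Subset.antisymm hs.sub fun v hv => ?_
    by_contra hv0
    obtain ⟨g, -, hne⟩ := hs.ram v hv hv0
    exact hne (by rw [h0]; rfl)
  have hmf : Module.Finite (ZMod p) (Sel p S (lamf S₀ lam χ)) := inferInstance
  have hrank : Module.finrank (ZMod p) (Sel p S (lamf S₀ lam χ)) ≤ 1 := by
    have h5 := Module.natCard_eq_pow_finrank (K := ZMod p) (V := Sel p S (lamf S₀ lam χ))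
    rw [Nat.card_zmod] at h5
    rw [h5] at hc
    have := (Nat.pow_lt_pow_iff_right hp.out.one_lt).1 hc
    omega
  obtain ⟨w, hw⟩ := finrank_le_one_iff.1 hrank
  obtain ⟨c, hc'⟩ := hw ⟨χ, hs.mem⟩
  obtain ⟨e, he⟩ := hw ⟨x, hx⟩
  have hc0 : c ≠ 0 := by
    rintro rfl
    apply hχ0
    rw [zero_smul] at hc'
    exact (congrArg Subtype.val hc').symm
  refine ⟨e * c⁻¹, fun g => ?_⟩
  have e1 : c * (w : GK K → ZMod p) g = χ g := congrFun (congrArg Subtype.val hc') g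
  have e2 : e * (w : GK K → ZMod p) g = x g := congrFun (congrArg Subtype.val he) g
  rw [← e1, ← e2]
  field_simp

end Pool.Agent.NH7.GU
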