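import Pool.Agent.NH7.GU.Stms
import Pool.Agent.Y772.NZ.Zeta
import Pool.Agent.Y772.DK.Main

/-!
# C4: the prime sum without a character
-/

set_option autoImplicit false

namespace Pool.Agent.NH7.GU

namespace Ltr

open NumberField IsDedekindDomain Filter Topology Complex Ideal
open Pool.Agent.Y773 Pool.Agent.Y772.DK Pool.Agent.Y772.NZ

variable (K : Type) [Field K] [NumberField K]

/-- the sum over the ideals -/
noncomputable def D (s : ℝ) : ℝ := ∑' 𝔞 : Ideal (𝓞 K), VM 𝔞 * ((absNorm 𝔞 : ℕ) : ℝ) ^ (-s)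

lemma hasSum_aux {s : ℝ} (hs : 1 < s) :
    HasSum (fun 𝔞 : Ideal (𝓞 K) => VM 𝔞 * ((absNorm 𝔞 : ℕ) : ℝ) ^ (-s))
      (-(deriv (LI (one K)) (s : ℂ) / LI (one K) (s : ℂ))).re := by
  have hs' : 1 < (s : ℂ).re := by simpa using hs
  have h1 := D_hasSum (one K) (one_norm K) hs'
  have h2 := deriv_LI (one K) (one_norm K) hs'
  have h3 : LI (one K) (s : ℂ) ≠ 0 := by
    rw [LI_eq_exp (one K) (one_norm K) hs']
    exact Complex.exp_ne_zero _
  have h4 : deriv (LI (one K)) (s : ℂ) / LI (one K) (s : ℂ) =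
      deriv (LA (ee (one K))) (s : ℂ) := by
    rw [h2, mul_div_assoc, div_self h3, mul_one]
  rw [h4]
  have h5 := ((Complex.hasSum_iff _ _).1 h1).1
  refine h5.congr_fun fun 𝔞 => ?_
  by_cases h : 𝔞 = 0
  · rw [h]
    have e : VM (0 : Ideal (𝓞 K)) = 0 := VM_of_not (fun hh => hh.ne_zero rfl)
    rw [e]
    simp
  · rw [one_ne K h, mul_one]
    have e2 : ((absNorm 𝔞 : ℕ) : ℂ) ^ (-(s : ℂ)) = ((((absNorm 𝔞 : ℕ) : ℝ) ^ (-s) : ℝ) : ℂ) := by
      rw [Complex.ofReal_cpow (Nat.cast_nonneg _)]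
      push_cast
      rfl
    rw [e2, ← Complex.ofReal_mul, Complex.ofReal_re]

lemma D_summable {s : ℝ} (hs : 1 < s) :
    Summable (fun 𝔞 : Ideal (𝓞 K) => VM 𝔞 * ((absNorm 𝔞 : ℕ) : ℝ) ^ (-s)) :=
  (hasSum_aux K hs).summable

lemma D_eq' {s : ℝ} (hs : 1 < s) :
    D K s = (-(deriv (LI (one K)) (s : ℂ) / LI (one K) (s : ℂ))).re := (hasSum_aux K hs).tsum_eq

lemma D_near : ∃ δ : ℝ, 0 < δ ∧ ∃ C : ℝ, ∀ s : ℝ, 1 < s → s < 1 + δ →
    |D K s - 1 / (s - 1)| ≤ C := by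
  obtain ⟨g, hg, hg1, hgz⟩ := near_one K
  have hgc : ContinuousAt (fun z => deriv g z / g z) 1 :=
    hg.deriv.continuousAt.div hg.continuousAt hg1
  have hgb : ∀ᶠ z in 𝓝 (1 : ℂ), ‖deriv g z / g z‖ < ‖deriv g 1 / g 1‖ + 1 :=
    hgc.norm.eventually_lt_const (lt_add_one _)
  have hg0 : ∀ᶠ z in 𝓝 (1 : ℂ), g z ≠ 0 := hg.continuousAt.eventually_ne hg1
  have hga : ∀ᶠ z in 𝓝 (1 : ℂ), AnalyticAt ℂ g z := hg.eventually_analyticAt
  have hgz' := hgz.eventually_nhds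
  have hall := hgb.and (hg0.and (hga.and hgz'))
  obtain ⟨δ, hδ, hball⟩ := Metric.eventually_nhds_iff.1 hall
  refine ⟨δ, hδ, ‖deriv g 1 / g 1‖ + 1, fun s hs1 hs2 => ?_⟩
  have hd : dist (s : ℂ) 1 < δ := by
    rw [Complex.dist_eq, show (s : ℂ) - 1 = ((s - 1 : ℝ) : ℂ) by push_cast; ring,
      Complex.norm_real, Real.norm_eq_abs, abs_of_pos (by linarith)]
    linarith
  obtain ⟨h1, h2, h3, h4⟩ := hball hd
  have hzre : 1 < (s : ℂ).re := by simpa using hs1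
  have hz10 : (s : ℂ) - 1 ≠ 0 := by
    rw [show (s : ℂ) - 1 = ((s - 1 : ℝ) : ℂ) by push_cast; ring]
    exact_mod_cast (by linarith : s - 1 ≠ 0)
  have hopen : ∀ᶠ w in 𝓝 (s : ℂ), 1 < w.re :=
    (isOpen_lt continuous_const continuous_re).mem_nhds hzre
  have heq : LI (one K) =ᶠ[𝓝 (s : ℂ)] fun w => g w / (w - 1) := by
    filter_upwards [h4, hopen] with w hw hw1
    exact hw hw1
  have hder : deriv (LI (one K)) (s : ℂ) =
      (deriv g (s : ℂ) * ((s : ℂ) - 1) - g (s : ℂ) * 1) / ((s : ℂ) - 1) ^ 2 := by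
    rw [heq.deriv_eq]
    have e1 : HasDerivAt (fun w : ℂ => w - 1) 1 (s : ℂ) := (hasDerivAt_id _).sub_const 1
    exact (h3.differentiableAt.hasDerivAt.div e1 hz10).deriv
  have hquot : deriv (LI (one K)) (s : ℂ) / LI (one K) (s : ℂ) =
      deriv g (s : ℂ) / g (s : ℂ) - 1 / ((s : ℂ) - 1) := by
    rw [hder, heq.eq_of_nhds]
    field_simp
  rw [D_eq' K hs1, hquot]
  have h7 : (1 / ((s : ℂ) - 1)).re = 1 / (s - 1) := by
    rw [show (s : ℂ) - 1 = ((s - 1 : ℝ) : ℂ) by push_cast; ring, ← ofReal_one, ← ofReal_div,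
      ofReal_re]
  rw [neg_re, sub_re, h7]
  have h8 : |(deriv g (s : ℂ) / g (s : ℂ)).re| ≤ ‖deriv g 1 / g 1‖ + 1 :=
    (abs_re_le_norm (deriv g (s : ℂ) / g (s : ℂ))).trans h1.le
  rw [show -((deriv g (s : ℂ) / g (s : ℂ)).re - 1 / (s - 1)) - 1 / (s - 1) =
    -(deriv g (s : ℂ) / g (s : ℂ)).re by ring, abs_neg]
  exact h8

lemma term_nonneg (s : ℝ) (𝔞 : Ideal (𝓞 K)) : 0 ≤ VM 𝔞 * ((absNorm 𝔞 : ℕ) : ℝ) ^ (-s) :=
  mul_nonneg (VM_nonneg _) (Real.rpow_nonneg (Nat.cast_nonneg _) _)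

lemma D_nonneg (s : ℝ) : 0 ≤ D K s := tsum_nonneg fun 𝔞 => term_nonneg K s 𝔞

lemma D_anti {s t : ℝ} (hs : 1 < s) (hst : s ≤ t) : D K t ≤ D K s := by
  unfold D
  refine (D_summable K (lt_of_lt_of_le hs hst)).tsum_le_tsum (fun 𝔞 => ?_) (D_summable K hs)
  by_cases h : 𝔞 = 0
  · rw [h]
    have e : VM (0 : Ideal (𝓞 K)) = 0 := VM_of_not (fun hh => hh.ne_zero rfl)
    rw [e, zero_mul, zero_mul]
  · exact mul_le_mul_of_nonneg_left (nr_anti hst h) (VM_nonneg _)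

lemma D_bound : ∃ C : ℝ, ∀ s : ℝ, 1 < s → s < 2 → |D K s - 1 / (s - 1)| ≤ C := by
  obtain ⟨δ, hδ, C, hC⟩ := D_near K
  refine ⟨max C (D K (1 + δ) + 1 / δ), fun s hs1 hs2 => ?_⟩
  rcases lt_or_ge s (1 + δ) with h | h
  · exact (hC s hs1 h).trans (le_max_left _ _)
  · refine le_trans ?_ (le_max_right _ _)
    have h1 := D_nonneg K s
    have h2 := D_anti K (by linarith : (1 : ℝ) < 1 + δ) h
    have h3 : 0 < 1 / (s - 1) := by
      apply one_div_pos.2; linarith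
    have h4 : 1 / (s - 1) ≤ 1 / δ := one_div_le_one_div_of_le hδ (by linarith)
    have h5 := D_nonneg K (1 + δ)
    have h6 : 0 < 1 / δ := one_div_pos.2 hδ
    rw [abs_le]
    constructor <;> linarith

/-- the prime powers -/
def ph (x : HeightOneSpectrum (𝓞 K) × ℕ) : Ideal (𝓞 K) := x.1.asIdeal ^ (x.2 + 1)

lemma prime_as (v : HeightOneSpectrum (𝓞 K)) : Prime v.asIdeal := v.prime

lemma ph_inj : Function.Injective (ph K) := by
  rintro ⟨v, k⟩ ⟨w, l⟩ h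
  have h' : v.asIdeal ^ (k + 1) = w.asIdeal ^ (l + 1) := h
  have hv := prime_as K v
  have hw := prime_as K w
  have h1 : v.asIdeal ∣ w.asIdeal := by
    refine hv.dvd_of_dvd_pow (n := l + 1) ?_
    rw [← h']
    exact dvd_pow_self _ (Nat.succ_ne_zero k)
  have h2 : v.asIdeal = w.asIdeal := associated_iff_eq.1 (hv.associated_of_dvd hw h1)
  have h3 : v = w := HeightOneSpectrum.ext h2
  subst h3
  have h4 : k + 1 = l + 1 := by
    have a1 : k + 1 ≤ l + 1 := (pow_dvd_pow_iff hv.ne_zero hv.not_isUnit).1 (by rw [h'])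
    have a2 : l + 1 ≤ k + 1 := (pow_dvd_pow_iff hv.ne_zero hv.not_isUnit).1 (by rw [h'])
    omega
  have h5 : k = l := by omega
  rw [h5]

lemma ph_supp (s : ℝ) (𝔞 : Ideal (𝓞 K)) (h : 𝔞 ∉ Set.range (ph K)) :
    VM 𝔞 * ((absNorm 𝔞 : ℕ) : ℝ) ^ (-s) = 0 := by
  have h1 : ¬ IsPrimePow 𝔞 := by
    rintro ⟨P, k, hP, hk, rfl⟩
    apply h
    refine ⟨(⟨P, isPrime_of_prime hP, hP.ne_zero⟩, k - 1), ?_⟩
    change P ^ (k - 1 + 1) = P ^ k
    rw [Nat.sub_add_cancel hk]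
  rw [VM_of_not h1, zero_mul]

/-- the norm -/
noncomputable def N (v : HeightOneSpectrum (𝓞 K)) : ℝ := ((absNorm v.asIdeal : ℕ) : ℝ)

lemma two_le (v : HeightOneSpectrum (𝓞 K)) : 2 ≤ N K v := by
  have h1 : 0 < absNorm v.asIdeal := absNorm_pos' (prime_as K v).ne_zero
  have h2 : absNorm v.asIdeal ≠ 1 := by
    rw [Ne, absNorm_eq_one_iff]
    exact v.isPrime.ne_top
  have h3 : 2 ≤ absNorm v.asIdeal := by omega
  unfold N
  exact_mod_cast h3

lemma comp_eq (s : ℝ) (v : HeightOneSpectrum (𝓞 K)) (k : ℕ) :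
    VM (ph K (v, k)) * ((absNorm (ph K (v, k)) : ℕ) : ℝ) ^ (-s) =
      Real.log (N K v) * ((N K v) ^ (-s)) ^ (k + 1) := by
  have h0 : (0 : ℝ) ≤ N K v := by linarith [two_le K v]
  have h1 : VM (ph K (v, k)) = Real.log (N K v) := VM_pow (prime_as K v) (Nat.succ_ne_zero k)
  have h2 : ((absNorm (ph K (v, k)) : ℕ) : ℝ) = (N K v) ^ (k + 1) := by
    change ((absNorm (v.asIdeal ^ (k + 1)) : ℕ) : ℝ) = _
    rw [map_pow, Nat.cast_pow]
    rfl
  rw [h1, h2, ← Real.rpow_natCast ((N K v) ^ (-s)), ← Real.rpow_mul h0, mul_comm (-s),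
    Real.rpow_mul h0, Real.rpow_natCast]

/-- the sum over the primes -/
noncomputable def P (s : ℝ) : ℝ :=
  ∑' v : HeightOneSpectrum (𝓞 K), Real.log (N K v) * (N K v) ^ (-s)

lemma P_summable {s : ℝ} (hs : 1 < s) :
    Summable fun v : HeightOneSpectrum (𝓞 K) => Real.log (N K v) * (N K v) ^ (-s) := by
  have h1 : Function.Injective fun v : HeightOneSpectrum (𝓞 K) => v.asIdeal :=
    fun v w h => HeightOneSpectrum.ext h
  have h2 := (D_summable K hs).comp_injective h1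
  refine h2.congr fun v => ?_
  have h3 : VM v.asIdeal = Real.log (N K v) := by
    have := VM_pow (prime_as K v) one_ne_zero
    rwa [pow_one] at this
  simp only [Function.comp_apply]
  rw [h3]
  rfl

lemma q_summable : Summable fun v : HeightOneSpectrum (𝓞 K) => (N K v) ^ (-(3 / 2 : ℝ)) := by
  have h1 : Function.Injective fun v : HeightOneSpectrum (𝓞 K) => v.asIdeal :=
    fun v w h => HeightOneSpectrum.ext h
  exact (nr_summable K (σ := 3 / 2) (by norm_num)).comp_injective h1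

lemma D_prod {s : ℝ} (hs : 1 < s) : D K s =
    ∑' v : HeightOneSpectrum (𝓞 K), Real.log (N K v) *
      ((N K v) ^ (-s) / (1 - (N K v) ^ (-s))) ∧
    Summable (fun v : HeightOneSpectrum (𝓞 K) => Real.log (N K v) *
      ((N K v) ^ (-s) / (1 - (N K v) ^ (-s)))) := by
  have h1 : Summable ((fun 𝔞 : Ideal (𝓞 K) => VM 𝔞 * ((absNorm 𝔞 : ℕ) : ℝ) ^ (-s)) ∘ ph K) :=
    (D_summable K hs).comp_injective (ph_inj K)
  have h2 : D K s = ∑' x : HeightOneSpectrum (𝓞 K) × ℕ,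
      ((fun 𝔞 : Ideal (𝓞 K) => VM 𝔞 * ((absNorm 𝔞 : ℕ) : ℝ) ^ (-s)) ∘ ph K) x := by
    unfold D
    refine ((ph_inj K).tsum_eq ?_).symm
    intro 𝔞 h𝔞
    by_contra hc
    exact h𝔞 (ph_supp K s 𝔞 hc)
  have h3 : ∀ v : HeightOneSpectrum (𝓞 K), HasSum (fun k : ℕ =>
      ((fun 𝔞 : Ideal (𝓞 K) => VM 𝔞 * ((absNorm 𝔞 : ℕ) : ℝ) ^ (-s)) ∘ ph K) (v, k))
      (Real.log (N K v) * ((N K v) ^ (-s) / (1 - (N K v) ^ (-s)))) := by
    intro v
    have h4 : (fun k : ℕ =>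
      ((fun 𝔞 : Ideal (𝓞 K) => VM 𝔞 * ((absNorm 𝔞 : ℕ) : ℝ) ^ (-s)) ∘ ph K) (v, k)) =
      fun k : ℕ => Real.log (N K v) * ((N K v) ^ (-s) * ((N K v) ^ (-s)) ^ k) := by
      funext k
      simp only [Function.comp_apply]
      rw [comp_eq, pow_succ']
    rw [h4]
    have h5 : 0 ≤ (N K v) ^ (-s) := Real.rpow_nonneg (by linarith [two_le K v]) _
    have h6 : (N K v) ^ (-s) < 1 :=
      Real.rpow_lt_one_of_one_lt_of_neg (by linarith [two_le K v]) (by linarith)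
    have h7 := (hasSum_geometric_of_lt_one h5 h6).mul_left ((N K v) ^ (-s))
    rw [← div_eq_mul_inv] at h7
    exact h7.mul_left _
  have h8 := (h1.hasSum.prod_fiberwise h3)
  rw [← h2] at h8
  exact ⟨h8.tsum_eq.symm, h8.summable⟩

lemma log_le (v : HeightOneSpectrum (𝓞 K)) : Real.log (N K v) ≤ 2 * (N K v) ^ (1 / 2 : ℝ) := by
  have h0 : (0 : ℝ) ≤ N K v := by linarith [two_le K v]
  have h1 := Real.log_le_rpow_div h0 (ε := 1 / 2) (by norm_num)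
  linarith

lemma log_nonneg' (v : HeightOneSpectrum (𝓞 K)) : 0 ≤ Real.log (N K v) :=
  Real.log_nonneg (by linarith [two_le K v])

lemma diff_le {s : ℝ} (hs : 1 < s) (v : HeightOneSpectrum (𝓞 K)) :
    Real.log (N K v) * (N K v) ^ (-s) ≤
      Real.log (N K v) * ((N K v) ^ (-s) / (1 - (N K v) ^ (-s))) ∧
    Real.log (N K v) * ((N K v) ^ (-s) / (1 - (N K v) ^ (-s))) ≤
      Real.log (N K v) * (N K v) ^ (-s) + 4 * (N K v) ^ (-(3 / 2 : ℝ)) := by
  have h2 := two_le K v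
  have h0 : (0 : ℝ) < N K v := by linarith
  have hl := log_nonneg' K v
  set x : ℝ := (N K v) ^ (-s) with hx
  have hx0 : 0 ≤ x := Real.rpow_nonneg h0.le _
  have hx1 : x ≤ (N K v) ^ (-1 : ℝ) :=
    Real.rpow_le_rpow_of_exponent_le (by linarith) (by linarith)
  have hx2 : (N K v) ^ (-1 : ℝ) ≤ 1 / 2 := by
    rw [Real.rpow_neg_one]
    rw [one_div]
    exact inv_anti₀ (by norm_num) h2
  have hx3 : x ≤ 1 / 2 := hx1.trans hx2
  have h1x : 0 < 1 - x := by linarith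
  have hA : x ≤ x / (1 - x) := by
    rw [le_div_iff₀ h1x]
    nlinarith
  have hB : x / (1 - x) ≤ x + 2 * x ^ 2 := by
    rw [div_le_iff₀ h1x]
    nlinarith [mul_nonneg (sq_nonneg x) (by linarith : (0 : ℝ) ≤ 1 - 2 * x)]
  refine ⟨mul_le_mul_of_nonneg_left hA hl, ?_⟩
  have hC : Real.log (N K v) * (x / (1 - x)) ≤ Real.log (N K v) * (x + 2 * x ^ 2) :=
    mul_le_mul_of_nonneg_left hB hl
  refine hC.trans ?_
  rw [mul_add]
  have hD : Real.log (N K v) * (2 * x ^ 2) ≤ 4 * (N K v) ^ (-(3 / 2 : ℝ)) := by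
    have e1 : x ^ 2 ≤ ((N K v) ^ (-1 : ℝ)) ^ 2 := by
      apply pow_le_pow_left₀ hx0 hx1
    have e2 : (((N K v) ^ (-1 : ℝ)) ^ 2 : ℝ) = (N K v) ^ (-2 : ℝ) := by
      rw [← Real.rpow_natCast, ← Real.rpow_mul h0.le]
      norm_num
    calc Real.log (N K v) * (2 * x ^ 2) ≤ (2 * (N K v) ^ (1 / 2 : ℝ)) * (2 * (N K v) ^ (-2 : ℝ)) := by
          apply mul_le_mul (log_le K v) _ (by positivity) (by positivity)
          rw [← e2]
          linarith
      _ = 4 * ((N K v) ^ (1 / 2 : ℝ) * (N K v) ^ (-2 : ℝ)) := by ring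
      _ = 4 * (N K v) ^ (-(3 / 2 : ℝ)) := by
          rw [← Real.rpow_add h0]
          norm_num
  linarith

end Ltr

open NumberField IsDedekindDomain Ltr in
/-- C4 -/
theorem s_ltr : S_ltr := by
  intro K _ _
  refine ⟨fun s hs => P_summable K hs, ?_⟩
  obtain ⟨C, hC⟩ := D_bound K
  set q : ℝ := ∑' v : HeightOneSpectrum (𝓞 K), (N K v) ^ (-(3 / 2 : ℝ)) with hq
  have hq0 : 0 ≤ q := tsum_nonneg fun v => Real.rpow_nonneg (by linarith [two_le K v]) _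
  refine ⟨C + 4 * q, fun s hs1 hs2 => ?_⟩
  change |P K s - 1 / (s - 1)| ≤ _
  obtain ⟨h1, h2⟩ := D_prod K hs1
  have h3 : P K s ≤ D K s := by
    rw [h1]
    exact (P_summable K hs1).tsum_le_tsum (fun v => (diff_le K hs1 v).1) h2
  have h4 : D K s ≤ P K s + 4 * q := by
    rw [h1, hq, ← tsum_mul_left]
    unfold P
    rw [← (P_summable K hs1).tsum_add ((q_summable K).mul_left 4)]
    exact h2.tsum_le_tsum (fun v => (diff_le K hs1 v).2)
      ((P_summable K hs1).add ((q_summable K).mul_left 4))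
  have h5 := abs_le.1 (hC s hs1 hs2)
  rw [abs_le]
  constructor <;> linarith [h5.1, h5.2]

end Pool.Agent.NH7.GU
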