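import Pool.Agent.NH7.GU.Stms

/-!
# Going up for Schneider's conjecture: a modulus for `H0` (B6)
-/

set_option autoImplicit false
set_option linter.unusedSectionVars false

namespace Pool.Agent.NH7.GU

open NumberField IsDedekindDomain Pool.Agent.W401.Cheb Pool.Agent.NH7.Sch Filter Topology

theorem s_mod (h1 : S_h0t) (h2 : S_h0w) : S_mod := by
  intro K _ _ p hp ζ hζ S hpS
  have hp0 : (p : 𝓞 K) ≠ 0 := by exact_mod_cast hp.out.ne_zero
  refine ⟨Ideal.span {(p : 𝓞 K) ^ 3} * ∏ v ∈ S, v.asIdeal, ?_, ?_, ?_⟩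
  · refine mul_ne_zero ?_ (Finset.prod_ne_zero_iff.2 fun v _ => v.ne_bot)
    rw [Ne, Ideal.zero_eq_bot, Ideal.span_singleton_eq_bot]
    exact pow_ne_zero 3 hp0
  · intro v hv
    rcases v.isPrime.mul_le.1 hv with h | h
    · apply hpS
      rw [Ideal.span_singleton_le_iff_mem] at h
      exact v.isPrime.mem_of_pow_mem 3 h
    · obtain ⟨w, hw, hle⟩ := (Ideal.IsPrime.prod_le v.isPrime).1 h
      have h3 := w.isMaximal.eq_of_le v.isPrime.ne_top hle
      rw [← HeightOneSpectrum.ext h3]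
      exact hw
  · intro x hx hm
    rw [mem_H0]
    intro v hv g hg
    by_cases hpv : (p : 𝓞 K) ∈ v.asIdeal
    · refine h2 K p ζ hζ v hpv x hx ?_ g hg
      exact Ideal.mem_span_singleton.1 (Ideal.mul_le_left hm)
    · refine h1 K p ζ hζ v hpv x hx ?_ g hg
      have h3 : ∏ w ∈ S, w.asIdeal ≤ v.asIdeal :=
        Ideal.dvd_iff_le.1 (Finset.dvd_prod_of_mem _ hv)
      exact h3 (Ideal.mul_le_right hm)

end Pool.Agent.NH7.GU
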