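import Pool.Agent.NH7.GU.TameP

/-!
# Going up for Schneider's conjecture: the decomposition groups above `p` where `χ` is not trivial
-/

set_option autoImplicit false
set_option linter.unusedSectionVars false

namespace Pool.Agent.NH7.GU

open NumberField IsDedekindDomain Pool.Agent.W401.Cheb Pool.Agent.NH7.Sch Filter Topology

theorem s_nspl (hbb : S_bb) : S_nspl := by
  intro p hp O _ _ C G _ _ _ d c r F hF k ⟨s, hs, h0⟩
  obtain ⟨b, hb1, hb2, hb3⟩ := hbb p O C G d c r
  obtain ⟨u, hu⟩ := C.unit (b s) (by rw [hb2]; exact h0)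
  have hFC : IsC C d c r F := hF.mul
  have hbC : IsC C d c r b := hb3.mul
  set t : O := F s * (u⁻¹ : Oˣ) with ht
  have hC := hFC.sub hbC t
  have hFs : F s - b s * t = 0 := by
    rw [ht, ← hu]
    have : (u : O) * (F s * (u⁻¹ : Oˣ)) = F s * (u * (u⁻¹ : Oˣ)) := by ring
    rw [this, Units.mul_inv, mul_one, sub_self]
  obtain ⟨n, tF, hn⟩ := hF.above k
  have hker : ∀ h ∈ d.D k, c.χ h = 0 → F h - b h * t = 0 := by
    intro h hh hχ
    have key : ∀ g ∈ d.D k, c.χ g = 0 → (C.z - 1) ^ (n + 1) * (F g - b g * t) =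
        (algebraMap ℤ_[p] O (d.psi r g) - 1) * ((C.z - 1) * tF - (C.z - 1) ^ n * t) := by
      intro g hg hg0
      have e1 := hn g hg hg0
      have e2 := hb1 g
      rw [hg0, ZMod.val_zero, pow_zero, one_mul] at e2
      calc (C.z - 1) ^ (n + 1) * (F g - b g * t)
          = (C.z - 1) * ((C.z - 1) ^ n * F g) - (C.z - 1) ^ n * ((C.z - 1) * b g) * t := by ring
        _ = _ := by rw [e1, e2]; ring
    have hx : s * h * s⁻¹ ∈ d.D k :=
      (d.D k).mul_mem ((d.D k).mul_mem hs hh) ((d.D k).inv_mem hs)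
    have k1 := key h hh hχ
    have k2 := key (s * h * s⁻¹) hx (by rw [chr_conj']; exact hχ)
    rw [psi_conj', ← k1] at k2
    have k3 : F (s * h * s⁻¹) - b (s * h * s⁻¹) * t = F h - b h * t := by
      apply sub_eq_zero.1
      apply inj_pow C (n + 1)
      rw [mul_sub, k2, sub_self]
    have e1 := hC s h
    have e2 := hC (s * h * s⁻¹) s
    rw [inv_mul_cancel_right] at e2
    simp only at e1 e2
    rw [hFs, zero_add] at e1
    rw [hFs, mul_zero, add_zero, k3, e1] at e2
    have e4 : (C.z - 1) * b s = tw C d c r s - 1 := hb1 s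
    apply inj_unit C (b := b s) (by rw [hb2]; exact h0)
    rw [e4, sub_mul, one_mul, e2, sub_self]
  refine ⟨C.ev t, fun g hg => ?_⟩
  rw [sub_eq_zero.1 (hC.zero_on (d.D k) hs h0 hFs hker g hg), map_mul, hb2, mul_comm]

end Pool.Agent.NH7.GU
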