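import Pool.Agent.NH7.GU.Stms

/-!
# The choice of three primes
-/

set_option autoImplicit false
set_option linter.unusedSectionVars false

namespace Pool.Agent.NH7.GU

open NumberField IsDedekindDomain Pool.Agent.W401.Cheb Pool.Agent.NH7.Sch Filter Topology

namespace Pick68

/-- independence in a group of exponent `p` -/
theorem indep {C : Type} [AddCommGroup C] (p : ℕ) [hp : Fact p.Prime]
    (hC : ∀ c : C, (p : ℤ) • c = 0) (u w : C) (hu : u ≠ 0) (hw : ∀ a : ℤ, w ≠ a • u)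
    (a b : ℤ) (h : a • u + b • w = 0) : (p : ℤ) ∣ a ∧ (p : ℤ) ∣ b := by
  have key : ∀ (n : ℤ), ¬ (p : ℤ) ∣ n → ∃ m : ℤ, ∀ c : C, m • (n • c) = c := by
    intro n hn
    have hcop : IsCoprime (p : ℤ) n :=
      (Int.prime_iff_natAbs_prime.2 (by simpa using hp.out)).coprime_iff_not_dvd.2 hn
    obtain ⟨x, y, hxy⟩ := hcop
    refine ⟨y, fun c => ?_⟩
    have h1 : (x * (p : ℤ) + y * n) • c = c := by rw [hxy, one_smul]
    rw [add_smul, mul_smul, hC, smul_zero, zero_add, mul_smul] at h1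
    exact h1
  have hb : (p : ℤ) ∣ b := by
    by_contra hb
    obtain ⟨m, hm⟩ := key b hb
    apply hw (-(m * a))
    have h2 : b • w = -(a • u) := by
      rw [eq_neg_iff_add_eq_zero, add_comm]
      exact h
    rw [← hm w, h2, smul_neg, neg_smul, mul_smul]
  have hbw : b • w = 0 := by
    obtain ⟨k, rfl⟩ := hb
    rw [mul_comm, mul_smul, hC, smul_zero]
  refine ⟨?_, hb⟩
  by_contra ha
  obtain ⟨m, hm⟩ := key a ha
  rw [hbw, add_zero] at h
  apply hu
  rw [← hm u, h, smul_zero]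

/-- the number of multiples of an element in a group of exponent `p` -/
theorem mult_card {C : Type} [AddCommGroup C] (p : ℕ) [hp : Fact p.Prime]
    (hC : ∀ c : C, (p : ℤ) • c = 0) (u : C) : {c : C | ∃ a : ℤ, c = a • u}.ncard ≤ p := by
  have h1 : {c : C | ∃ a : ℤ, c = a • u} ⊆ (fun i : ℕ => (i : ℤ) • u) '' (Finset.range p) := by
    rintro c ⟨a, rfl⟩
    have hp0 : (0 : ℤ) < p := by exact_mod_cast hp.out.pos
    have h2 := Int.emod_nonneg a hp0.ne'
    have h3 := Int.emod_lt_of_pos a hp0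
    refine ⟨(a % p).toNat, ?_, ?_⟩
    · simp only [Finset.coe_range, Set.mem_Iio]
      omega
    · show ((a % p).toNat : ℤ) • u = a • u
      rw [Int.toNat_of_nonneg h2]
      conv_rhs => rw [← Int.emod_add_mul_ediv a p]
      rw [add_smul, mul_comm, mul_smul, hC, smul_zero, add_zero]
  refine (Set.ncard_le_ncard h1 ((Finset.finite_toSet _).image _)).trans ?_
  refine (Set.ncard_image_le (Finset.finite_toSet _)).trans ?_
  rw [Set.ncard_coe_finset, Finset.card_range]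

variable {K : Type} [Field K] [NumberField K] {p : ℕ} [hp : Fact p.Prime]

theorem od_one68 (v : HS K) : od v (1 : Kˣ) = 0 := by
  have := od_mul v (1 : Kˣ) 1
  rw [one_mul] at this
  omega

/-- the class groups have exponent `p` -/
theorem exp_p (S : Finset (HS K)) (H : Subgroup Kˣ) (c : Cq p S H) : (p : ℤ) • c = 0 := by
  obtain ⟨n, rfl⟩ := QuotientAddGroup.mk_surjective c
  rw [← QuotientAddGroup.mk_zsmul, QuotientAddGroup.eq_zero_iff]
  refine ⟨1, H.one_mem, fun v _ => ?_⟩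
  rw [od_one68, add_zero, Finsupp.smul_apply, smul_eq_mul]
  exact dvd_mul_right _ _

/-- the value at an element, as a linear form on a space of homomorphisms -/
def evF (A : Submodule (ZMod p) (GK K → ZMod p)) (g : GK K) : Module.Dual (ZMod p) A where
  toFun x := (x : GK K → ZMod p) g
  map_add' _ _ := rfl
  map_smul' _ _ := rfl

theorem H0_le_HL {ζ : K} (hζ : IsPrimitiveRoot ζ p) (S : Finset (HS K))
    (lam : HS K → GK K → ZMod p) : H0 hζ S ≤ HL hζ S lam := by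
  intro κ hκ v hv
  exact ⟨0, fun g hg => by rw [hκ v hv g hg, zero_mul]⟩

theorem deg_ge (K : Type) [Field K] [NumberField K] [IsTotallyComplex K] :
    1 ≤ Module.finrank ℚ K / 2 := by
  have h1 : InfinitePlace.nrComplexPlaces K ≠ 0 := by
    intro h
    have h2 : InfinitePlace.nrRealPlaces K = 0 :=
      nrRealPlaces_eq_zero_iff.2 inferInstance
    have h3 := InfinitePlace.card_add_two_mul_card_eq_rank K
    rw [h, h2] at h3
    have h4 : 0 < Module.finrank ℚ K := Module.finrank_pos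
    omega
  have h2 := InfinitePlace.card_add_two_mul_card_eq_rank K
  omega

end Pick68

open Pick68

theorem s_pick (h0 : S_mod) (h1 : S_cfin) (h2 : S_an) (h3 : S_ct) (h4 : S_ch) (h5 : S_sfin) :
    S_pick := by
  intro K _ _ _ p hp ζ hζ S hS hn lam hcard
  obtain ⟨𝔪, hm0, hmS, hm1⟩ := h0 K p ζ hζ S hS
  have hmL : ∀ (x : 𝓞 K) (hx : x ≠ 0), x - 1 ∈ 𝔪 → ui x hx ∈ HL hζ S lam :=
    fun x hx h => H0_le_HL hζ S lam (hm1 x hx h)
  have f0 : Finite (Cq p S (H0 hζ S)) := h1 K p S _ 𝔪 hm0 hmS hm1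
  have fL : Finite (Cq p S (HL hζ S lam)) := h1 K p S _ 𝔪 hm0 hmS hmL
  have fA : Finite (Sel p S lam) := h5 K p ζ hζ S lam
  have hct := h3 K p ζ hζ S hS hn lam
  set a : ℕ := Nat.card (Sel p S lam) with ha
  set c : ℕ := Nat.card (Cq p S (HL hζ S lam)) with hc
  have hp2 : 2 ≤ p := hp.out.two_le
  have hpd : p ≤ p ^ (Module.finrank ℚ K / 2) := by
    calc p = p ^ 1 := (pow_one p).symm
      _ ≤ _ := Nat.pow_le_pow_right hp.out.pos (deg_ge K)
  have hc3 : p ^ 3 ≤ c := by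
    calc p ^ 3 = p ^ 2 * p := by ring
      _ ≤ a * p ^ (Module.finrank ℚ K / 2) := Nat.mul_le_mul hcard hpd
      _ ≤ c := hct
  have hpR : (2 : ℝ) ≤ p := by exact_mod_cast hp2
  have hp0 : (0 : ℝ) < p := by linarith
  have haR : (p : ℝ) ^ 2 ≤ a := by exact_mod_cast hcard
  have hcR : (p : ℝ) ^ 3 ≤ c := by exact_mod_cast hc3
  have ha0 : (0 : ℝ) < a := lt_of_lt_of_le (by positivity) haR
  have hc0 : (0 : ℝ) < c := lt_of_lt_of_le (by positivity) hcR
  have hUnr : ∀ x ∈ Sel p S lam, ∀ v ∉ S, Unr v x := fun x hx => (mem_Sel.1 hx).2.2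
  have hHm : ∀ x ∈ Sel p S lam, Hm p x := fun x hx => (mem_Sel.1 hx).1
  -- the first prime
  have hlim1 := h4 K p S (Sel p S lam) fA hHm hUnr ⊥
  have hlt1 : (Nat.card (⊥ : Submodule (ZMod p) (Module.Dual (ZMod p) (Sel p S lam))) : ℝ) /
      (Nat.card (Sel p S lam) : ℝ) + (({0} : Set (Cq p S (HL hζ S lam))).ncard : ℝ) /
      (Nat.card (Cq p S (HL hζ S lam)) : ℝ) < 1 := by
    rw [← ha, ← hc, Set.ncard_singleton, Nat.card_unique, Nat.cast_one]
    have e1 : (1 : ℝ) / a ≤ 1 / p ^ 2 := one_div_le_one_div_of_le (by positivity) haR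
    have e2 : (1 : ℝ) / c ≤ 1 / p ^ 3 := one_div_le_one_div_of_le (by positivity) hcR
    have e3 : (1 : ℝ) / p ^ 2 ≤ 1 / 2 ^ 2 :=
      one_div_le_one_div_of_le (by positivity) (pow_le_pow_left₀ (by norm_num) hpR 2)
    have e4 : (1 : ℝ) / p ^ 3 ≤ 1 / 2 ^ 3 :=
      one_div_le_one_div_of_le (by positivity) (pow_le_pow_left₀ (by norm_num) hpR 3)
    norm_num at e3 e4
    norm_num at e1 e2 ⊢
    linarith
  obtain ⟨v₁, hv₁S, hv₁P, hv₁T⟩ :=
    (h2 K p S _ 𝔪 hm0 hmS hmL _ _ hlim1 {0} hlt1).nonempty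
  have hcl1 : cl p S (HL hζ S lam) v₁ ≠ 0 := fun h => hv₁T h
  have hF1 : evF (Sel p S lam) (fr v₁) ≠ 0 := by
    intro h
    apply hv₁P
    refine ⟨0, Submodule.zero_mem _, fun x => ?_⟩
    have := congrArg (fun f : Module.Dual (ZMod p) (Sel p S lam) => f x) h
    exact this
  -- the second prime
  set B : Submodule (ZMod p) (Module.Dual (ZMod p) (Sel p S lam)) :=
    Submodule.span (ZMod p) {evF (Sel p S lam) (fr v₁)} with hB
  have hBmem : ∀ f, f ∈ B ↔ ∃ t : ZMod p, t • evF (Sel p S lam) (fr v₁) = f := fun f => by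
    rw [hB, Submodule.mem_span_singleton]
  have hBcard : Nat.card B ≤ p := by
    have hs : Function.Surjective (fun t : ZMod p => (⟨t • evF (Sel p S lam) (fr v₁),
        (hBmem _).2 ⟨t, rfl⟩⟩ : B)) := by
      rintro ⟨f, hf⟩
      obtain ⟨t, ht⟩ := (hBmem f).1 hf
      exact ⟨t, Subtype.ext ht⟩
    have := Nat.card_le_card_of_surjective _ hs
    rwa [Nat.card_zmod] at this
  have hlim2 := h4 K p S (Sel p S lam) fA hHm hUnr B
  have hexp : ∀ c : Cq p S (HL hζ S lam), (p : ℤ) • c = 0 := exp_p S _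
  set T : Set (Cq p S (HL hζ S lam)) :=
    {x | ∃ n : ℤ, x = n • cl p S (HL hζ S lam) v₁} with hT
  have hTcard : T.ncard ≤ p := mult_card p hexp _
  have hlt2 : (Nat.card B : ℝ) / (Nat.card (Sel p S lam) : ℝ) + (T.ncard : ℝ) /
      (Nat.card (Cq p S (HL hζ S lam)) : ℝ) < 1 := by
    rw [← ha, ← hc]
    have e1 : (Nat.card B : ℝ) / a ≤ 1 / 2 := by
      rw [div_le_div_iff₀ ha0 (by norm_num)]
      have : (Nat.card B : ℝ) ≤ p := by exact_mod_cast hBcard
      nlinarith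
    have e2 : (T.ncard : ℝ) / c ≤ 1 / 4 := by
      rw [div_le_div_iff₀ hc0 (by norm_num)]
      have h6 : (T.ncard : ℝ) ≤ p := by exact_mod_cast hTcard
      have h7 : (2 : ℝ) ^ 2 ≤ (p : ℝ) ^ 2 := pow_le_pow_left₀ (by norm_num) hpR 2
      nlinarith
    linarith
  obtain ⟨v₂, hv₂S, hv₂P, hv₂T⟩ :=
    (h2 K p S _ 𝔪 hm0 hmS hmL _ _ hlim2 T hlt2).nonempty
  have hcl2 : ∀ n : ℤ, cl p S (HL hζ S lam) v₂ ≠ n • cl p S (HL hζ S lam) v₁ :=
    fun n h => hv₂T ⟨n, h⟩
  have hF2 : ∀ t : ZMod p, ∃ x : Sel p S lam, (x : GK K → ZMod p) (fr v₂) ≠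
      t * (x : GK K → ZMod p) (fr v₁) := by
    intro t
    by_contra hcon
    push Not at hcon
    apply hv₂P
    exact ⟨t • evF (Sel p S lam) (fr v₁), (hBmem _).2 ⟨t, rfl⟩, fun x => hcon x⟩
  have h12 : v₁ ≠ v₂ := by
    rintro rfl
    exact hcl2 1 (one_smul _ _).symm
  -- the third prime
  have hlim3 := dens_finite (K := K) (P := fun v => v = v₁ ∨ v = v₂)
    (((Set.finite_singleton v₁).union (Set.finite_singleton v₂)).subset (by
      rintro v (h | h)
      · exact Or.inl h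
      · exact Or.inr h))
  set T' : Set (Cq p S (H0 hζ S)) :=
    {-(cl p S (H0 hζ S) v₁ + cl p S (H0 hζ S) v₂)}ᶜ with hT'
  have hlt3 : (0 : ℝ) + (T'.ncard : ℝ) / (Nat.card (Cq p S (H0 hζ S)) : ℝ) < 1 := by
    rw [zero_add]
    have hpos : 0 < Nat.card (Cq p S (H0 hζ S)) := Nat.card_pos
    rw [div_lt_one (by exact_mod_cast hpos)]
    have h8 := Set.ncard_add_ncard_compl
      ({-(cl p S (H0 hζ S) v₁ + cl p S (H0 hζ S) v₂)} : Set (Cq p S (H0 hζ S)))
    rw [Set.ncard_singleton] at h8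
    have : T'.ncard < Nat.card (Cq p S (H0 hζ S)) := by
      rw [hT']
      omega
    exact_mod_cast this
  obtain ⟨v₃, hv₃S, hv₃P, hv₃T⟩ :=
    (h2 K p S _ 𝔪 hm0 hmS hm1 _ _ hlim3 T' hlt3).nonempty
  have hcl3 : cl p S (H0 hζ S) v₃ = -(cl p S (H0 hζ S) v₁ + cl p S (H0 hζ S) v₂) := by
    by_contra h
    exact hv₃T h
  have hrel : (Finsupp.single v₁ 1 + Finsupp.single v₂ 1 + Finsupp.single v₃ 1 :
      HS K →₀ ℤ) ∈ Rel p S (H0 hζ S) := by
    rw [← QuotientAddGroup.eq_zero_iff]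
    show cl p S (H0 hζ S) v₁ + cl p S (H0 hζ S) v₂ + cl p S (H0 hζ S) v₃ = 0
    rw [hcl3, add_neg_cancel]
  obtain ⟨κ, hκ, hκv⟩ := hrel
  refine ⟨v₁, v₂, v₃, κ, hv₁S, hv₂S, hv₃S, h12, fun h => hv₃P (Or.inl h.symm),
    fun h => hv₃P (Or.inr h.symm), hκ, hκv, ?_, ?_⟩
  · intro a b h
    exact indep p hexp _ _ hcl1 hcl2 a b h
  · intro a b h
    have hb : b = 0 := by
      by_contra hb
      obtain ⟨x, hx⟩ := hF2 (-(b⁻¹ * a))
      apply hx
      have h9 := h x x.2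
      have h10 : (x : GK K → ZMod p) (fr v₂) =
          b⁻¹ * (b * (x : GK K → ZMod p) (fr v₂)) := by
        rw [← mul_assoc, inv_mul_cancel₀ hb, one_mul]
      rw [h10, ← neg_eq_of_add_eq_zero_right h9]
      ring
    refine ⟨?_, hb⟩
    by_contra hane
    apply hF1
    ext x
    have h9 := h x x.2
    rw [hb, zero_mul, add_zero] at h9
    exact (mul_eq_zero.1 h9).resolve_left hane

end Pool.Agent.NH7.GU
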