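import Pool.Agent.NH7.GU.Stms

/-!
# Going up for Schneider's conjecture: D4, Selmer groups are finite
-/

set_option autoImplicit false
set_option linter.unusedSectionVars false

namespace Pool.Agent.NH7.GU

open NumberField IsDedekindDomain Pool.Agent.W401.Cheb Pool.Agent.NH7.Sch Filter Topology

theorem s_sfin (h1 : S_sun) (h2 : S_cls) : S_sfin := by
  intro K _ _ _ p _ ζ hζ S lam
  classical
  obtain ⟨S', hSS, hcl⟩ := h2 K S
  obtain ⟨B, -, hB⟩ := h1 K p ζ hζ S' hcl
  have hpow : ∀ (s : Kˣ) (g : GK K) (n : ℕ), kp hζ (s ^ n) g = n * kp hζ s g := by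
    intro s g n
    induction n with
    | zero => rw [pow_zero, kp_one_left, Nat.cast_zero, zero_mul]
    | succ n ih => rw [pow_succ, kp_mul_left, ih]; push_cast; ring
  have hsub : ((Sel p S lam : Submodule (ZMod p) (GK K → ZMod p)) : Set (GK K → ZMod p)) ⊆
      (fun b : Kˣ => (kp hζ b : GK K → ZMod p)) '' (B : Set Kˣ) := by
    intro x hx
    obtain ⟨hx1, -, hx3⟩ := mem_Sel.1 hx
    obtain ⟨κ, hκ⟩ := kp_surj hζ hx1.c hx1.m
    have h3 : ∀ v ∉ S', (p : ℤ) ∣ od v κ := by
      intro v hv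
      refine od_dvd_of_inr hζ (Qv_max v) (Qv_comap v) fun σ hσ => ?_
      rw [hκ]
      exact hx3 v (fun h => hv (hSS h)) σ hσ
    obtain ⟨b, hb, s, hs⟩ := hB κ h3
    refine ⟨b, hb, ?_⟩
    funext g
    rw [← hκ g, hs, kp_mul_left, hpow, ZMod.natCast_self, zero_mul, add_zero]
  exact ((B.finite_toSet.image _).subset hsub).to_subtype

end Pool.Agent.NH7.GU
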