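import Pool.Agent.NH7.GU.Stms

/-! GU-D2: the elements whose divisor outside `S` is divisible by `p`. -/

set_option autoImplicit false
set_option linter.unusedSectionVars false

namespace Pool.Agent.NH7.GU

open NumberField IsDedekindDomain Pool.Agent.W401.Cheb Pool.Agent.NH7.Sch Filter Topology

namespace SunP

/-- representatives modulo `p` of the image of a homomorphism to a free module -/
theorem gen {p : ℕ} [hp : Fact p.Prime] {ι : Type} [Fintype ι] {U : Type} [CommGroup U]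
    (f : U → ι → ℤ) (hf : ∀ a b, f (a * b) = f a + f b) :
    ∃ B : Finset U, B.card ≤ p ^ (Fintype.card ι) ∧
      ∀ u, ∃ b ∈ B, ∃ w : U, f u = f (b * w ^ p) := by
  classical
  have hf1 : f 1 = 0 := by
    have h := hf 1 1
    rw [mul_one] at h
    exact left_eq_add.1 h
  let F : Additive U →+ (ι → ℤ) :=
    { toFun := fun a => f a.toMul
      map_zero' := hf1
      map_add' := fun a b => hf _ _ }
  have hF : ∀ u : U, f u = F (Additive.ofMul u) := fun _ => rfl
  let N : Submodule ℤ (ι → ℤ) := LinearMap.range F.toIntLinearMap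
  let b := Module.finBasis ℤ N
  have hk : Module.finrank ℤ N ≤ Fintype.card ι := by
    have h := Submodule.finrank_le N
    rwa [Module.finrank_fintype_fun_eq_card] at h
  have hex : ∀ j, ∃ u : U, f u = (b j : ι → ℤ) := fun j => by
    obtain ⟨a, ha⟩ := (b j).2
    exact ⟨a.toMul, ha⟩
  choose g hg using hex
  have hprod : ∀ n : Fin (Module.finrank ℤ N) → ℤ,
      f (∏ j, g j ^ n j) = ∑ j, n j • (b j : ι → ℤ) := by
    intro n
    rw [hF, ofMul_prod, map_sum]
    refine Finset.sum_congr rfl fun j _ => ?_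
    rw [ofMul_zpow, map_zsmul, ← hF, hg]
  refine ⟨Finset.univ.image (fun c : Fin (Module.finrank ℤ N) → Fin p =>
    ∏ j, g j ^ ((c j : ℕ) : ℤ)), ?_, ?_⟩
  · refine Finset.card_image_le.trans ?_
    rw [Finset.card_univ, Fintype.card_fun, Fintype.card_fin, Fintype.card_fin]
    exact Nat.pow_le_pow_right hp.out.pos hk
  · intro u
    have hu : f u ∈ N := ⟨Additive.ofMul u, rfl⟩
    obtain ⟨a, ha⟩ : ∃ a : Fin (Module.finrank ℤ N) → ℤ, f u = ∑ j, a j • (b j : ι → ℤ) := by
      refine ⟨fun j => b.repr ⟨f u, hu⟩ j, ?_⟩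
      have h := congrArg (fun z : N => (z : ι → ℤ)) (b.sum_repr ⟨f u, hu⟩)
      beta_reduce at h ⊢
      rw [Submodule.coe_sum] at h
      exact h.symm
    have hp0 : (0 : ℤ) < p := by exact_mod_cast hp.out.pos
    have hlt : ∀ j, (a j % p).toNat < p := by
      intro j
      have h1 := Int.emod_nonneg (a j) hp0.ne'
      have h2 := Int.emod_lt_of_pos (a j) hp0
      omega
    refine ⟨_, Finset.mem_image_of_mem _ (Finset.mem_univ (fun j => (⟨(a j % p).toNat, hlt j⟩ : Fin p))),
      ∏ j, g j ^ (a j / p), ?_⟩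
    have h3 : (∏ j, g j ^ (a j / p)) ^ p = ∏ j, g j ^ (a j / p * p) := by
      rw [← Finset.prod_pow]
      refine Finset.prod_congr rfl fun j _ => ?_
      rw [zpow_mul, zpow_natCast]
    rw [hf, h3, hprod, hprod, ha, ← Finset.sum_add_distrib]
    refine Finset.sum_congr rfl fun j _ => ?_
    rw [← add_smul]
    congr 1
    have h1 := Int.emod_nonneg (a j) hp0.ne'
    have h2 := Int.emod_add_mul_ediv (a j) p
    have h4 : (((a j % (p:ℤ)).toNat : ℕ) : ℤ) = a j % p := Int.toNat_of_nonneg h1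
    show a j = (((a j % (p:ℤ)).toNat : ℕ) : ℤ) + a j / p * p
    rw [h4]
    linarith

variable {K : Type} [Field K] [NumberField K]

theorem fin_supp (κ : Kˣ) : {v : HS K | od v κ ≠ 0}.Finite := by
  obtain ⟨x, y, hy, hxy⟩ := IsFractionRing.div_surjective (A := 𝓞 K) (κ : K)
  have hy0 : y ≠ 0 := nonZeroDivisors.ne_zero hy
  have hx0 : x ≠ 0 := by
    rintro rfl
    rw [map_zero, zero_div] at hxy
    exact κ.ne_zero hxy.symm
  have hκ : κ = ui x hx0 * (ui y hy0)⁻¹ := by
    apply Units.ext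
    rw [← hxy, Units.val_mul, Units.val_inv_eq_inv_val, div_eq_mul_inv]
    rfl
  have hfin : ∀ (z : 𝓞 K) (_ : z ≠ 0), {v : HS K | z ∈ v.asIdeal}.Finite := by
    intro z hz
    have h := Ideal.finite_factors (R := 𝓞 K) (I := Ideal.span {z}) (by
      rw [Ideal.zero_eq_bot, Ne, Ideal.span_singleton_eq_bot]
      exact hz)
    refine h.subset fun v hv => ?_
    rw [Set.mem_ofPred_eq, Ideal.dvd_span_singleton]
    exact hv
  refine ((hfin x hx0).union (hfin y hy0)).subset fun v hv => ?_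
  by_contra hc
  rw [Set.mem_union, not_or] at hc
  apply hv
  rw [hκ, od_mul, od_inv, od_ui_zero v x hx0 hc.1, od_ui_zero v y hy0 hc.2]
  simp

/-- the `S`-units -/
def US (S : Finset (HS K)) : Subgroup Kˣ where
  carrier := {κ | ∀ v ∉ S, od v κ = 0}
  mul_mem' := fun {a b} ha hb v hv => by rw [od_mul, ha v hv, hb v hv, add_zero]
  one_mem' := fun v _ => by
    have h := od_mul v (1 : Kˣ) 1
    rw [mul_one] at h
    omega
  inv_mem' := fun {a} ha v hv => by rw [od_inv, ha v hv, neg_zero]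

end SunP

open SunP

theorem s_sun (h : S_unt) : S_sun := by
  classical
  intro K _ _ _ p hp ζ hζ S hS
  obtain ⟨B0, hB0, hu0⟩ := h K p ζ hζ
  obtain ⟨B1, hB1, hu1⟩ := gen (p := p) (ι := S) (U := US S)
    (fun u v => od v.1 (u : Kˣ)) (fun a b => by
      funext v
      exact od_mul _ _ _)
  refine ⟨Finset.image₂ (fun (a : US S) (b : Kˣ) => (a : Kˣ) * b) B1 B0, ?_, fun κ hκ => ?_⟩
  · refine Finset.card_image₂_le _ _ _ |>.trans ?_
    rw [pow_add]
    refine Nat.mul_le_mul ?_ hB0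
    refine hB1.trans ?_
    rw [Fintype.card_coe]
  · -- the divisor divided by `p`
    have hfin := fin_supp κ
    let n : HS K →₀ ℤ := Finsupp.onFinset hfin.toFinset
      (fun v => if v ∈ S then 0 else od v κ / p) (fun v hv => by
        rw [Set.Finite.mem_toFinset]
        intro h0
        apply hv
        rw [h0]
        simp)
    obtain ⟨κ1, hκ1⟩ := hS n
    have hn : ∀ v ∉ S, od v κ = p * od v κ1 := by
      intro v hv
      have h1 := hκ1 v hv
      have h2 : n v = od v κ / p := by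
        show (if v ∈ S then 0 else od v κ / p) = _
        rw [if_neg hv]
      rw [← h1, h2]
      exact (Int.mul_ediv_cancel' (hκ v hv)).symm
    have hu : κ * (κ1 ^ p)⁻¹ ∈ US S := by
      intro v hv
      rw [od_mul, od_inv, od_pow, hn v hv]
      ring
    obtain ⟨b, hb, w, hw⟩ := hu1 ⟨_, hu⟩
    have hz : ∀ v : HS K, od v (κ * (κ1 ^ p)⁻¹ * ((b : Kˣ) * (w : Kˣ) ^ p)⁻¹) = 0 := by
      intro v
      by_cases hv : v ∈ S
      · have h1 := congrFun hw ⟨v, hv⟩
        simp only at h1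
        rw [od_mul, h1, od_inv]
        have h2 : (((b * w ^ p : US S)) : Kˣ) = (b : Kˣ) * (w : Kˣ) ^ p := rfl
        rw [h2]
        ring
      · have h1 : κ * (κ1 ^ p)⁻¹ * ((b : Kˣ) * (w : Kˣ) ^ p)⁻¹ ∈ US S :=
          (US S).mul_mem hu ((US S).inv_mem ((US S).mul_mem b.2 ((US S).pow_mem w.2 p)))
        exact h1 v hv
    obtain ⟨b0, hb0, s, hs⟩ := hu0 _ hz
    refine ⟨(b : Kˣ) * b0, Finset.mem_image₂_of_mem hb hb0, κ1 * w * s, ?_⟩
    have h1 : κ = κ * (κ1 ^ p)⁻¹ * ((b : Kˣ) * (w : Kˣ) ^ p)⁻¹ * (((b : Kˣ) * (w : Kˣ) ^ p) * κ1 ^ p) := by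
      rw [mul_assoc (κ * (κ1 ^ p)⁻¹), inv_mul_cancel_left, inv_mul_cancel_right]
    rw [h1, hs, mul_pow, mul_pow]
    simp only [mul_comm, mul_left_comm, mul_assoc]

end Pool.Agent.NH7.GU
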