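import Pool.Agent.NH7.GU.Stms

/-!
# Going up for Schneider's conjecture: the conditions at the primes where `χ` is not trivial

Proof of `S_tame` (from `S_bb`), and common lemmas for `S_nspl`.
-/

set_option autoImplicit false
set_option linter.unusedSectionVars false

namespace Pool.Agent.NH7.GU

open NumberField IsDedekindDomain Pool.Agent.W401.Cheb Pool.Agent.NH7.Sch Filter Topology

section common

variable {p : ℕ} [hp : Fact p.Prime] {G : Type} [Group G] [TopologicalSpace G]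
variable {O : Type} [CommRing O] [Algebra ℤ_[p] O]

theorem psi_mul' (d : Dat p G) (r : ℤ) (g h : G) : d.psi r (g * h) = d.psi r g * d.psi r h := by
  unfold Dat.psi
  rw [map_mul, mul_zpow, Units.val_mul]

theorem chr_one' (c : Chr p G) : c.χ 1 = 0 := c.mem_ker.1 c.ker.one_mem

theorem chr_inv' (c : Chr p G) (g : G) : c.χ g⁻¹ = - c.χ g := by
  have h := c.m g⁻¹ g
  rw [inv_mul_cancel, chr_one'] at h
  exact eq_neg_of_add_eq_zero_left h.symm

theorem chr_pow' (c : Chr p G) (g : G) (n : ℕ) : c.χ (g ^ n) = n * c.χ g := by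
  induction n with
  | zero => rw [pow_zero, chr_one', Nat.cast_zero, zero_mul]
  | succ n ih => rw [pow_succ, c.m, ih]; push_cast; ring

theorem chr_conj' (c : Chr p G) (g h : G) : c.χ (g * h * g⁻¹) = c.χ h := by
  rw [c.m, c.m, chr_inv']
  ring

theorem psi_conj' (d : Dat p G) (r : ℤ) (g h : G) : d.psi r (g * h * g⁻¹) = d.psi r h := by
  unfold Dat.psi
  rw [map_mul, map_mul, map_inv]
  congr 2
  rw [mul_comm (d.ε g), mul_assoc, mul_inv_cancel, mul_one]

theorem psi_one_of (d : Dat p G) (r : ℤ) {g : G} (h : d.ε g = 1) : d.psi r g = 1 := by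
  unfold Dat.psi
  rw [h, one_zpow, Units.val_one]

/-- the twisting character -/
noncomputable def tw (C : Cyc p O) (d : Dat p G) (c : Chr p G) (r : ℤ) (g : G) : O :=
  C.z ^ (c.χ g).val * algebraMap ℤ_[p] O (d.psi r g)

/-- the cocycle law -/
def IsC (C : Cyc p O) (d : Dat p G) (c : Chr p G) (r : ℤ) (F : G → O) : Prop :=
  ∀ g h, F (g * h) = F g + tw C d c r g * F h

theorem IsC.sub {C : Cyc p O} {d : Dat p G} {c : Chr p G} {r : ℤ} {F b : G → O}
    (hF : IsC C d c r F) (hb : IsC C d c r b) (t : O) : IsC C d c r (fun g => F g - b g * t) := by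
  intro g h
  simp only
  rw [hF, hb]
  ring

theorem IsC.one {C : Cyc p O} {d : Dat p G} {c : Chr p G} {r : ℤ} {F : G → O}
    (hF : IsC C d c r F) : F 1 = 0 := by
  have h := hF 1 1
  have h1 : tw C d c r (1 : G) = 1 := by
    unfold tw
    rw [chr_one', ZMod.val_zero, pow_zero, one_mul, psi_one_of d r (map_one _), map_one]
  rw [mul_one, h1, one_mul] at h
  exact left_eq_add.1 h

theorem IsC.pow {C : Cyc p O} {d : Dat p G} {c : Chr p G} {r : ℤ} {F : G → O}
    (hF : IsC C d c r F) {s : G} (hs : F s = 0) (n : ℕ) : F (s ^ n) = 0 := by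
  induction n with
  | zero => rw [pow_zero, hF.one]
  | succ n ih => rw [pow_succ, hF, ih, hs, mul_zero, add_zero]

/-- every element is a product of an element of the kernel and a power of `s` -/
theorem split_off (c : Chr p G) (D : Subgroup G) {s : G} (hs : s ∈ D) (h0 : c.χ s ≠ 0) {g : G}
    (hg : g ∈ D) : ∃ (h : G) (n : ℕ), h ∈ D ∧ c.χ h = 0 ∧ g = h * s ^ n := by
  refine ⟨g * (s ^ (c.χ g / c.χ s).val)⁻¹, (c.χ g / c.χ s).val,
    D.mul_mem hg (D.inv_mem (D.pow_mem hs _)), ?_, ?_⟩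
  · rw [c.m, chr_inv', chr_pow', ZMod.natCast_val, ZMod.cast_id', id, div_mul_cancel₀ _ h0]
    ring
  · rw [inv_mul_cancel_right]

theorem IsC.zero_on {C : Cyc p O} {d : Dat p G} {c : Chr p G} {r : ℤ} {F : G → O}
    (hF : IsC C d c r F) (D : Subgroup G) {s : G} (hs : s ∈ D) (h0 : c.χ s ≠ 0) (hFs : F s = 0)
    (hker : ∀ h ∈ D, c.χ h = 0 → F h = 0) : ∀ g ∈ D, F g = 0 := by
  intro g hg
  obtain ⟨h, n, h1, h2, h3⟩ := split_off c D hs h0 hg
  rw [h3, hF, hF.pow hFs, hker h h1 h2, mul_zero, add_zero]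

theorem inj_unit (C : Cyc p O) {b x : O} (hb : C.ev b ≠ 0) (h : (C.z - 1) * b * x = 0) : x = 0 := by
  rw [mul_assoc] at h
  have h1 := C.inj _ h
  obtain ⟨u, hu⟩ := C.unit b hb
  rw [← hu] at h1
  exact (Units.mul_right_eq_zero u).1 h1

theorem inj_pow (C : Cyc p O) (n : ℕ) {x : O} (h : (C.z - 1) ^ n * x = 0) : x = 0 := by
  induction n with
  | zero => rwa [pow_zero, one_mul] at h
  | succ n ih =>
    apply ih
    apply C.inj
    rw [← h]
    ring

end common

theorem s_tame (hbb : S_bb) : S_tame := by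
  intro p hp O _ _ C G _ _ _ d c r F hF i ⟨τ, hτ, h0⟩
  obtain ⟨b, hb1, hb2, hb3⟩ := hbb p O C G d c r
  obtain ⟨u, hu⟩ := C.unit (b τ) (by rw [hb2]; exact h0)
  have hFC : IsC C d c r F := hF.mul
  have hbC : IsC C d c r b := hb3.mul
  set t : O := F τ * (u⁻¹ : Oˣ) with ht
  have hC := hFC.sub hbC t
  have hFτ : F τ - b τ * t = 0 := by
    rw [ht, ← hu]
    have : (u : O) * (F τ * (u⁻¹ : Oˣ)) = F τ * (u * (u⁻¹ : Oˣ)) := by ring
    rw [this, Units.mul_inv, mul_one, sub_self]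
  have hI : ∀ g ∈ d.I i, F g - b g * t = 0 := by
    refine hC.zero_on (d.I i) hτ h0 hFτ ?_
    intro h h1 h2
    rw [hF.away i h h1 h2, hb3.away i h h1 h2, zero_mul, sub_zero]
  have hz : ∀ g ∈ d.DI i, F g - b g * t = 0 := by
    intro g hg
    have hx := d.I_nor i g hg τ hτ
    have e1 := hC g τ
    have e2 := hC (g * τ * g⁻¹) g
    rw [inv_mul_cancel_right] at e2
    simp only at e1 e2
    rw [hFτ, mul_zero, add_zero] at e1
    rw [hI _ hx, zero_add, e1] at e2
    have e3 : tw C d c r (g * τ * g⁻¹) = tw C d c r τ := by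
      unfold tw
      rw [chr_conj', psi_conj']
    rw [e3] at e2
    have e4 : (C.z - 1) * b τ = tw C d c r τ - 1 := hb1 τ
    apply inj_unit C (b := b τ) (by rw [hb2]; exact h0)
    rw [e4, sub_mul, one_mul, ← e2, sub_self]
  refine ⟨C.ev t, fun g hg => ?_⟩
  rw [sub_eq_zero.1 (hz g hg), map_mul, hb2, mul_comm]

end Pool.Agent.NH7.GU
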