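import Pool.Agent.NH7.GU.Stms

/-!
# Units modulo `p`-th powers
-/

set_option autoImplicit false
set_option linter.unusedSectionVars false

namespace Pool.Agent.NH7.GU

open NumberField IsDedekindDomain Pool.Agent.W401.Cheb Pool.Agent.NH7.Sch Filter Topology

namespace UntP

variable {K : Type} [Field K] [NumberField K]

/-- the units of the ring of integers in the multiplicative group -/
noncomputable def U (K : Type) [Field K] [NumberField K] : (𝓞 K)ˣ →* Kˣ :=
  Units.map (algebraMap (𝓞 K) K : (𝓞 K) →* K)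

theorem int_of (κ : Kˣ) (h : ∀ v : HS K, od v κ = 0) : ∃ a : 𝓞 K, algebraMap (𝓞 K) K a = κ := by
  have h1 := HeightOneSpectrum.mem_integers_of_valuation_le_one (R := 𝓞 K) K (κ : K) (fun v => by
    rw [val_od, h v]
    exact le_of_eq WithZero.exp_zero)
  exact h1

theorem exists_unit (κ : Kˣ) (h : ∀ v : HS K, od v κ = 0) : ∃ u : (𝓞 K)ˣ, U K u = κ := by
  obtain ⟨a, ha⟩ := int_of κ h
  obtain ⟨b, hb⟩ := int_of κ⁻¹ (fun v => by rw [od_inv, h v, neg_zero])
  have hab : a * b = 1 := by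
    apply FaithfulSMul.algebraMap_injective (𝓞 K) K
    rw [map_mul, ha, hb, map_one]
    exact Units.mul_inv κ
  refine ⟨⟨a, b, hab, by rw [mul_comm, hab]⟩, ?_⟩
  apply Units.ext
  exact ha

/-- reduction of the exponents -/
theorem zpow_red {G : Type} [CommGroup G] (x : G) (a : ℤ) {p : ℕ} (hp : 0 < p) :
    x ^ a = x ^ ((a % p).toNat) * (x ^ (a / p)) ^ p := by
  have h1 : ((a % p).toNat : ℤ) = a % p :=
    Int.toNat_of_nonneg (Int.emod_nonneg a (by exact_mod_cast hp.ne'))
  rw [← zpow_natCast x, h1, ← zpow_natCast (x ^ (a / p)), ← zpow_mul, ← zpow_add]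
  congr 1
  rw [mul_comm]
  exact (Int.emod_add_mul_ediv a p).symm

theorem lt_p (a : ℤ) {p : ℕ} (hp : 0 < p) : (a % p).toNat < p := by
  have h1 := Int.emod_lt_of_pos a (by exact_mod_cast hp : (0 : ℤ) < p)
  have h2 := Int.emod_nonneg a (by exact_mod_cast hp.ne' : (p : ℤ) ≠ 0)
  omega

end UntP

open UntP in
/-- D1. -/
theorem s_unt : S_unt := by
  intro K _ _ _ p hp ζ hζ
  classical
  have hp0 : 0 < p := hp.out.pos
  obtain ⟨g, hg⟩ := IsCyclic.exists_generator (α := NumberField.Units.torsion K)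
  let f : Fin p × (Fin (NumberField.Units.rank K) → Fin p) → Kˣ := fun q =>
    U K ((g : (𝓞 K)ˣ) ^ (q.1 : ℕ) * ∏ i, NumberField.Units.fundSystem K i ^ (q.2 i : ℕ))
  refine ⟨Finset.univ.image f, ?_, ?_⟩
  · refine Finset.card_image_le.trans (le_of_eq ?_)
    rw [Finset.card_univ, Fintype.card_prod, Fintype.card_fun, Fintype.card_fin, Fintype.card_fin,
      ← pow_succ']
    congr 1
    have h1 := IsTotallyComplex.finrank (K := K)
    have h2 := InfinitePlace.card_eq_nrRealPlaces_add_nrComplexPlaces (K := K)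
    have h3 : InfinitePlace.nrRealPlaces K = 0 := nrRealPlaces_eq_zero_iff.2 inferInstance
    have h4 : 0 < Module.finrank ℚ K := Module.finrank_pos
    unfold NumberField.Units.rank
    rw [h2, h3, h1]
    rw [h1] at h4
    omega
  · intro κ hκ
    obtain ⟨u, rfl⟩ := exists_unit κ hκ
    obtain ⟨⟨t, e⟩, h, -⟩ := NumberField.Units.exist_unique_eq_mul_prod K u
    obtain ⟨a, ha⟩ := Subgroup.mem_zpowers_iff.1 (hg t)
    refine ⟨_, Finset.mem_image.2 ⟨(⟨(a % p).toNat, lt_p a hp0⟩,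
      fun i => ⟨(e i % p).toNat, lt_p (e i) hp0⟩), Finset.mem_univ _, rfl⟩,
      U K ((g : (𝓞 K)ˣ) ^ (a / p) * ∏ i, NumberField.Units.fundSystem K i ^ (e i / p)), ?_⟩
    simp only [f]
    rw [← map_pow, ← map_mul]
    congr 1
    rw [h, ← ha, mul_pow, ← Finset.prod_pow, mul_mul_mul_comm, ← Finset.prod_mul_distrib]
    congr 1
    · rw [Subgroup.coe_zpow]
      exact zpow_red _ a hp0
    · exact Finset.prod_congr rfl fun i _ => zpow_red _ (e i) hp0

end Pool.Agent.NH7.GU
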