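import Pool.Agent.NH7.GU.Stms

/-!
# Going up: vanishing for `L` from vanishing for `K`
-/

set_option autoImplicit false
set_option linter.unusedSectionVars false

namespace Pool.Agent.NH7.GU

open Pool.Agent.NH7.Sch Filter Topology

namespace Van

variable {p : ℕ} [hp : Fact p.Prime]

theorem toZMod_p : PadicInt.toZMod (p := p) (p : ℤ_[p]) = 0 := by
  rw [map_natCast, CharP.cast_eq_zero]

theorem p_ne : (p : ℤ_[p]) ≠ 0 := Nat.cast_ne_zero.2 hp.out.ne_zero

/-- binomial expansion to second order -/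
theorem pow_two' (y : ℤ_[p]) (m : ℕ) : ∃ w : ℤ_[p], (1 + y) ^ m = 1 + m * y + y ^ 2 * w := by
  induction m with
  | zero => exact ⟨0, by simp⟩
  | succ m ih =>
    obtain ⟨w, hw⟩ := ih
    refine ⟨m + (1 + y) * w, ?_⟩
    rw [pow_succ, hw]
    push_cast
    ring

/-- binomial expansion to third order -/
theorem pow_three' (y : ℤ_[p]) (m : ℕ) :
    ∃ w : ℤ_[p], (1 + y) ^ m = 1 + m * y + (m.choose 2 : ℕ) * y ^ 2 + y ^ 3 * w := by
  induction m with
  | zero => exact ⟨0, by simp⟩
  | succ m ih =>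
    obtain ⟨w, hw⟩ := ih
    refine ⟨(m.choose 2 : ℕ) + (1 + y) * w, ?_⟩
    rw [pow_succ, hw, show (2 : ℕ) = 1 + 1 from rfl, Nat.choose_succ_succ, Nat.choose_one_right]
    push_cast
    ring

/-- units congruent to `1` are not torsion -/
theorem tf (m : ℕ) : ∀ y : ℤ_[p], y ≠ 0 → (p : ℤ_[p]) ∣ y → (p = 2 → (4 : ℤ_[p]) ∣ y) → m ≠ 0 →
    (1 + y) ^ m ≠ 1 := by
  induction m using Nat.strong_induction_on with
  | _ m ih =>
  intro y hy h1 h2 hm
  by_cases hd : p ∣ m
  · obtain ⟨m1, rfl⟩ := hd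
    have hm1 : m1 ≠ 0 := by
      rintro rfl
      exact hm (mul_zero p)
    have hlt : m1 < p * m1 := by
      have := hp.out.two_le
      have h0 : 0 < m1 := Nat.pos_of_ne_zero hm1
      nlinarith
    obtain ⟨y1, h3, h4, h5⟩ : ∃ y1 : ℤ_[p], (1 + y) ^ p = 1 + y * y1 ∧ y1 ≠ 0 ∧ True := by
      by_cases hp2 : p = 2
      · obtain ⟨y4, hy4⟩ := h2 hp2
        refine ⟨2 * (1 + 2 * y4), ?_, ?_, trivial⟩
        · rw [show (1 + y) ^ p = (1 + y) ^ 2 from congrArg (fun n : ℕ => (1 + y) ^ n) hp2, hy4]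
          ring
        · have h22 : (2 : ℤ_[p]) ≠ 0 := two_ne_zero
          refine mul_ne_zero h22 fun h0 => ?_
          have h6 := congrArg (PadicInt.toZMod (p := p)) h0
          rw [map_add, map_one, map_mul, map_zero] at h6
          have h7 : PadicInt.toZMod (p := p) (2 : ℤ_[p]) = 0 := by
            have h8 : (2 : ℤ_[p]) = (p : ℤ_[p]) := by
              have h9 := congrArg (fun n : ℕ => (n : ℤ_[p])) hp2
              simpa using h9.symm
            rw [h8]
            exact toZMod_p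
          rw [h7, zero_mul, add_zero] at h6
          exact one_ne_zero h6
      · obtain ⟨y', hy'⟩ := h1
        obtain ⟨w, hw⟩ := pow_three' y p
        obtain ⟨c, hc⟩ : p ∣ p.choose 2 := hp.out.dvd_choose_self (by norm_num)
          (lt_of_le_of_ne hp.out.two_le (Ne.symm hp2))
        refine ⟨p * (1 + c * y + p * y' ^ 2 * w), ?_, ?_, trivial⟩
        · rw [hw, hc, hy']
          push_cast
          ring
        · refine mul_ne_zero p_ne fun h0 => ?_
          have h6 := congrArg (PadicInt.toZMod (p := p)) h0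
          rw [hy'] at h6
          simp only [map_add, map_one, map_mul, map_zero, toZMod_p, zero_mul, mul_zero, add_zero]
            at h6
          exact one_ne_zero h6
    rw [pow_mul, h3]
    exact ih m1 hlt (y * y1) (mul_ne_zero hy h4) (h1.mul_right y1) (fun h => (h2 h).mul_right y1)
      hm1
  · obtain ⟨w, hw⟩ := pow_two' y m
    rw [hw]
    intro h
    have h3 : y * (m + y * w) = 0 := by linear_combination h
    rcases mul_eq_zero.1 h3 with h4 | h4
    · exact hy h4
    · obtain ⟨y', hy'⟩ := h1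
      have h6 := congrArg (PadicInt.toZMod (p := p)) h4
      rw [hy'] at h6
      simp only [map_add, map_mul, map_natCast, CharP.cast_eq_zero, zero_mul, add_zero,
        map_zero] at h6
      rw [ZMod.natCast_eq_zero_iff] at h6
      exact hd h6

section dat

variable {G : Type} [Group G] [TopologicalSpace G]

theorem psi_zero (d : Dat p G) (g : G) : d.psi 0 g = 1 := by
  unfold Dat.psi
  rw [zpow_zero, Units.val_one]

/-- the cyclotomic character is not trivial on the kernel in the decomposition group -/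
theorem exists_ne (d : Dat p G) (c : Chr p G) (k : d.κ) {r : ℤ} (hr : r ≠ 0) :
    ∃ g ∈ d.D k, g ∈ c.ker ∧ d.psi r g ≠ 1 := by
  obtain ⟨g0, hg0, hu⟩ := d.hu k
  refine ⟨g0 ^ p, (d.D k).pow_mem hg0 p, ?_, ?_⟩
  · have h1 : ∀ n : ℕ, c.χ (g0 ^ n) = n * c.χ g0 := by
      intro n
      induction n with
      | zero =>
        rw [pow_zero, Nat.cast_zero, zero_mul]
        exact c.mem_ker.1 c.ker.one_mem
      | succ n ih => rw [pow_succ, c.m, ih]; push_cast; ring
    rw [c.mem_ker, h1, CharP.cast_eq_zero, zero_mul]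
  · intro h
    have h1 : (d.ε g0) ^ ((p : ℤ) * r) = 1 := by
      rw [zpow_mul, zpow_natCast, ← map_pow]
      exact Units.ext h
    have hpr : (p : ℤ) * r ≠ 0 := mul_ne_zero (Nat.cast_ne_zero.2 hp.out.ne_zero) hr
    have h2 : (d.ε g0) ^ ((p : ℤ) * r).natAbs = 1 := pow_natAbs_eq_one.2 h1
    have h3 := congrArg (fun u : ℤ_[p]ˣ => (u : ℤ_[p])) h2
    simp only [Units.val_pow_eq_pow_val, Units.val_one] at h3
    rw [d.hl k g0 hg0] at h3
    have hn := d.n1 k
    refine tf _ _ (mul_ne_zero (pow_ne_zero _ p_ne) hu.ne_zero)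
      ((dvd_pow_self _ (by omega)).mul_right _) (fun h4 => ?_) (Int.natAbs_ne_zero.2 hpr) h3
    have hn2 := d.n2 h4 k
    have h5 : (4 : ℤ_[p]) = (p : ℤ_[p]) ^ 2 := by
      have h9 := congrArg (fun n : ℕ => (n : ℤ_[p])) h4
      simp only [Nat.cast_ofNat] at h9
      rw [h9]
      norm_num
    rw [h5]
    exact (pow_dvd_pow _ hn2).mul_right _

end dat

end Van

/-- **A11.** -/
theorem s_van (hcmp : S_cmp) : S_van := by
  intro p hp G _ _ _ d c hsel r hF f hf
  obtain ⟨F, hF1, z, hz⟩ := hcmp p G d c hsel r f hf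
  obtain ⟨z', hz'⟩ := hF F hF1
  have h1 : ∀ g ∈ c.ker, (p : ℤ_[p]) * f g = (d.psi r g - 1) * (z' + z) := by
    intro g hg
    rw [hz g hg, hz' g]
    ring
  by_cases hr : r = 0
  · subst hr
    refine ⟨0, fun g hg => ?_⟩
    have h2 := h1 g hg
    rw [Van.psi_zero, sub_self, zero_mul] at h2
    rw [mul_zero]
    exact (mul_eq_zero.1 h2).resolve_left Van.p_ne
  · obtain ⟨k⟩ := d.ne
    obtain ⟨z1, hz1⟩ := hf.above k
    obtain ⟨g0, hg0, hg1, hg2⟩ := Van.exists_ne d c k hr
    have h2 : (p : ℤ_[p]) * z1 = z' + z := by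
      have h3 := h1 g0 hg1
      rw [hz1 g0 hg0 hg1] at h3
      refine mul_left_cancel₀ (sub_ne_zero.2 hg2) ?_
      rw [← h3]
      ring
    refine ⟨z1, fun g hg => mul_left_cancel₀ Van.p_ne ?_⟩
    rw [h1 g hg, ← h2]
    ring

end Pool.Agent.NH7.GU
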