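import Pool.Agent.NH7.GU.Fin
import Pool.Agent.NH7.GU.AblP
import Pool.Agent.NH7.GU.AnP
import Pool.Agent.NH7.GU.AuxP
import Pool.Agent.NH7.GU.BbP
import Pool.Agent.NH7.GU.CfinP
import Pool.Agent.NH7.GU.ChP
import Pool.Agent.NH7.GU.ChrP
import Pool.Agent.NH7.GU.ClsP
import Pool.Agent.NH7.GU.CmpP
import Pool.Agent.NH7.GU.CnjP
import Pool.Agent.NH7.GU.CorOP
import Pool.Agent.NH7.GU.CorP
import Pool.Agent.NH7.GU.CorZP
import Pool.Agent.NH7.GU.CritP
import Pool.Agent.NH7.GU.CtP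
import Pool.Agent.NH7.GU.CycP
import Pool.Agent.NH7.GU.CylP
import Pool.Agent.NH7.GU.DropP
import Pool.Agent.NH7.GU.FrdP
import Pool.Agent.NH7.GU.FrvP
import Pool.Agent.NH7.GU.H0tP
import Pool.Agent.NH7.GU.H0wP
import Pool.Agent.NH7.GU.LntP
import Pool.Agent.NH7.GU.LocP
import Pool.Agent.NH7.GU.LoopP
import Pool.Agent.NH7.GU.LtrP
import Pool.Agent.NH7.GU.ModP
import Pool.Agent.NH7.GU.NsplP
import Pool.Agent.NH7.GU.PickP
import Pool.Agent.NH7.GU.SfinP
import Pool.Agent.NH7.GU.SplP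
import Pool.Agent.NH7.GU.SunP
import Pool.Agent.NH7.GU.TameP
import Pool.Agent.NH7.GU.UntP
import Pool.Agent.NH7.GU.VanP

/-!
# Going up for Schneider's conjecture: all parts
-/

set_option autoImplicit false

namespace Pool.Agent.NH7.GU

theorem t_corZ : S_corZ := s_corZ s_cor

theorem t_crit : S_crit := s_crit s_bb (s_tame s_bb) (s_nspl s_bb) s_spl

theorem t_cmp : S_cmp := s_cmp s_cyc t_crit (s_corO s_cor) t_corZ

theorem t_van : S_van := s_van t_cmp

theorem t_mod : S_mod := s_mod s_h0t s_h0w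

theorem t_sun : S_sun := s_sun s_unt

theorem t_sfin : S_sfin := s_sfin t_sun s_cls

theorem t_frv : S_frv := s_frv s_frd s_cnj

theorem t_ch : S_ch := s_ch t_frv

theorem t_an : S_an := s_an s_cfin s_chr s_lnt s_ltr s_abl

theorem t_ct : S_ct := s_ct t_mod s_cfin t_sun (s_loc t_mod) t_sfin

theorem t_pick : S_pick := s_pick t_mod s_cfin t_an t_ct t_ch t_sfin

theorem t_loop : S_loop := s_loop t_pick (s_drop t_frv) (s_aux t_mod s_cfin t_an) t_sfin

end Pool.Agent.NH7.GU
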