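import Pool.Agent.NH7.GU.Asm

/-!
# Going up for Schneider's conjecture: the theorem in terms of characters
-/

set_option autoImplicit false
set_option linter.unusedSectionVars false

namespace Pool.Agent.NH7.GU

open NumberField IsDedekindDomain Pool.Agent.W401.Cheb Pool.Agent.NH7.Sch Filter Topology

variable {K : Type} [Field K] [NumberField K] {p : ℕ} [hp : Fact p.Prime] {ζ : K}

/-- continuous cocycles on the subgroup `N` with the local conditions of `Ш¹` -/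
structure ShaK (p : ℕ) [Fact p.Prime] (r : ℤ) (N : Subgroup (GK K)) (c : N → ℤ_[p]) : Prop where
  cont : Continuous c
  mul : ∀ σ τ, c (σ * τ) = c σ + ((psi K p r σ : ℤ_[p]ˣ) : ℤ_[p]) * c τ
  away : ∀ Q : Ideal (OO K), Q.IsMaximal → (p : OO K) ∉ Q → ∀ σ : N, (σ : GK K) ∈ Inr Q → c σ = 0
  above : ∀ Q : Ideal (OO K), Q.IsMaximal → (p : OO K) ∈ Q → ∃ z : ℤ_[p],
    ∀ σ : N, (σ : GK K) ∈ Dec Q → c σ = (((psi K p r σ : ℤ_[p]ˣ) : ℤ_[p]) - 1) * z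

open Classical in
/-- extension by zero -/
noncomputable def ext0 {N : Subgroup (GK K)} (c : N → ℤ_[p]) (g : GK K) : ℤ_[p] :=
  if h : g ∈ N then c ⟨g, h⟩ else 0

theorem ext0_of {N : Subgroup (GK K)} (c : N → ℤ_[p]) {g : GK K} (h : g ∈ N) :
    ext0 c g = c ⟨g, h⟩ := by
  rw [ext0, dif_pos h]

theorem sha_of_shaK (hζ : IsPrimitiveRoot ζ p) (h4 : p = 2 → ∃ i : K, i ^ 2 = -1) (hcyl : S_cyl)
    {r : ℤ} {N : Subgroup (GK K)} {c : N → ℤ_[p]} (h : ShaK p r N c) :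
    Sha (datK hζ h4 hcyl) r N (ext0 c) := by
  refine ⟨⟨?_, fun g hg k hk => ?_⟩, fun i g hg hgN => ?_, fun k => ?_⟩
  · have : (fun x : N => ext0 c x) = c := funext fun x => ext0_of c x.2
    rw [this]
    exact h.cont
  · rw [ext0_of c hg, ext0_of c hk, ext0_of c (N.mul_mem hg hk)]
    exact h.mul ⟨g, hg⟩ ⟨k, hk⟩
  · rw [ext0_of c hgN]
    exact h.away i.1 i.2.1 i.2.2 ⟨g, hgN⟩ hg
  · obtain ⟨z, hz⟩ := h.above k.1 k.2.1 k.2.2
    refine ⟨z, fun g hg hgN => ?_⟩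
    rw [ext0_of c hgN]
    exact hz ⟨g, hgN⟩ hg

theorem shaK_of_sha (hζ : IsPrimitiveRoot ζ p) (h4 : p = 2 → ∃ i : K, i ^ 2 = -1) (hcyl : S_cyl)
    {r : ℤ} {N : Subgroup (GK K)} {c : GK K → ℤ_[p]} (h : Sha (datK hζ h4 hcyl) r N c) :
    ShaK p r N fun x => c x := by
  refine ⟨h.coc.cont, fun σ τ => h.coc.mul _ σ.2 _ τ.2, fun Q hQ hpQ σ hσ => ?_,
    fun Q hQ hpQ => ?_⟩
  · exact h.away ⟨Q, hQ, hpQ⟩ _ hσ σ.2
  · obtain ⟨z, hz⟩ := h.above ⟨Q, hQ, hpQ⟩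
    exact ⟨z, fun σ hσ => hz _ hσ σ.2⟩

/-- the field with the `p`-th roots of unity and `i` is totally complex -/
theorem tot_complex (hζ : IsPrimitiveRoot ζ p) (h4 : p = 2 → ∃ i : K, i ^ 2 = -1) :
    IsTotallyComplex K := by
  rcases hp.out.eq_two_or_odd' with h | h
  · obtain ⟨i, hi⟩ := h4 h
    have h5 : i ^ 2 ^ 1 ≠ 1 := by
      rw [pow_one, hi]
      norm_num
    have h6 : i ^ 2 ^ (1 + 1) = 1 := by
      have : i ^ 2 ^ (1 + 1) = (i ^ 2) ^ 2 := by ring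
      rw [this, hi]
      norm_num
    have hi4 : IsPrimitiveRoot i 4 := by
      have h7 := orderOf_eq_prime_pow h5 h6
      have h8 := IsPrimitiveRoot.orderOf i
      rwa [h7] at h8
    exact nrRealPlaces_eq_zero_iff.1
      (NumberField.InfinitePlace.IsPrimitiveRoot.nrRealPlaces_eq_zero_of_two_lt (by norm_num) hi4)
  · have h5 : 2 < p := by
      have := hp.out.two_le
      rcases h with ⟨k, hk⟩
      omega
    exact nrRealPlaces_eq_zero_iff.1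
      (NumberField.InfinitePlace.IsPrimitiveRoot.nrRealPlaces_eq_zero_of_two_lt h5 hζ)

/-- **The theorem in terms of characters** -/
theorem main_sha (hζ : IsPrimitiveRoot ζ p)
    (h4 : p = 2 → ∃ i : K, i ^ 2 = -1) (hcyl : S_cyl) (hcnj : S_cnj) (hfrv : S_frv)
    (hcls : S_cls) (hloop : S_loop) (hcmp : S_cmp) (hvan : S_van) {B : Set (HS K)}
    (hB : B.Finite) {χ₀ : GK K → ZMod p} (h0 : Hm p χ₀) :
    ∃ χ : GK K → ZMod p, ∃ _ : Continuous χ, ∃ hm : ∀ g h, χ (g * h) = χ g + χ h,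
      (∃ σ, χ σ = 1) ∧
      (∀ v ∈ B, ∀ Q : Ideal (OO K), Q.IsMaximal →
        Q.comap (algebraMap (𝓞 K) (OO K)) = v.asIdeal → ∀ g ∈ Dec Q, χ g = χ₀ g) ∧
      (∃ v ∉ B, (p : 𝓞 K) ∉ v.asIdeal ∧ ∃ g ∈ Inr (Qv v), χ g ≠ 0) ∧
      ∀ r : ℤ, (∀ c : kerX hm → ℤ_[p], ShaK p r (kerX hm) c →
          ∃ c' : (⊤ : Subgroup (GK K)) → ℤ_[p], ShaK p r ⊤ c' ∧ ∃ z : ℤ_[p],
            ∀ (σ : kerX hm) (τ : (⊤ : Subgroup (GK K))), (τ : GK K) = σ →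
              (p : ℤ_[p]) * c σ = c' τ + (((psi K p r σ : ℤ_[p]ˣ) : ℤ_[p]) - 1) * z) ∧
        ((∀ c : (⊤ : Subgroup (GK K)) → ℤ_[p], ShaK p r ⊤ c → ∃ z : ℤ_[p],
            ∀ σ, c σ = (((psi K p r σ : ℤ_[p]ˣ) : ℤ_[p]) - 1) * z) →
          ∀ c : kerX hm → ℤ_[p], ShaK p r (kerX hm) c → ∃ z : ℤ_[p],
            ∀ σ, c σ = (((psi K p r σ : ℤ_[p]ˣ) : ℤ_[p]) - 1) * z) := by
  classical
  have := tot_complex hζ h4
  obtain ⟨χ, hχ, hres, ⟨v, hvB, hvp, g, hg, hg0⟩, hsel⟩ :=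
    main_char hζ h4 hcyl hfrv hcls hloop hB.toFinset h0
  obtain ⟨σ, hσ⟩ := exists_X_one hχ.m hg0
  refine ⟨χ, hχ.c, hχ.m, ⟨σ, hσ⟩, fun v hv Q hQ hQv g hg => ?_,
    ⟨v, fun h => hvB (hB.mem_toFinset.2 h), hvp, g, hg, hg0⟩, fun r => ?_⟩
  · obtain ⟨τ, hτ⟩ := hcnj K v Q (Qv v) hQ (Qv_max v) hQv (Qv_comap v)
    have h1 : τ * g * τ⁻¹ ∈ Dec (Qv v) := by
      rw [hτ]
      exact (Dec_mv τ g).1 hg
    have h2 := hres v (hB.mem_toFinset.2 hv) _ h1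
    rwa [hm_conj hχ, hm_conj h0] at h2
  · let c : Chr p (GK K) := ⟨χ, hχ.c, hχ.m, σ, hσ⟩
    have hs := hsel c rfl
    have hker : ∀ g, g ∈ c.ker ↔ g ∈ kerX hχ.m := fun g => Iff.rfl
    have hkk : c.ker = kerX hχ.m := Subgroup.ext hker
    constructor
    · intro f hf
      have h1 := sha_of_shaK hζ h4 hcyl hf
      obtain ⟨F, hF, z, hz⟩ := hcmp p (GK K) (datK hζ h4 hcyl) c hs r (ext0 f) (by rw [hkk]; exact h1)
      refine ⟨fun x => F x, shaK_of_sha hζ h4 hcyl hF, z, fun σ τ hστ => ?_⟩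
      have h2 := hz σ ((hker _).2 σ.2)
      rw [ext0_of f σ.2] at h2
      beta_reduce
      rw [hστ]
      exact h2
    · intro hK f hf
      have h1 := sha_of_shaK hζ h4 hcyl hf
      obtain ⟨z, hz⟩ := hvan p (GK K) (datK hζ h4 hcyl) c hs r (fun F hF => by
        obtain ⟨z, hz⟩ := hK _ (shaK_of_sha hζ h4 hcyl hF)
        exact ⟨z, fun g => hz ⟨g, Subgroup.mem_top g⟩⟩) (ext0 f) (by rw [hkk]; exact h1)
      refine ⟨z, fun σ => ?_⟩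
      have h2 := hz σ ((hker _).2 σ.2)
      rw [ext0_of f σ.2] at h2
      exact h2

end Pool.Agent.NH7.GU
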