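import Pool.Agent.NH7.GU.Stms

/-!
# Going up for Schneider's conjecture: the characters with trivial residual Selmer group
-/

set_option autoImplicit false
set_option linter.unusedSectionVars false

namespace Pool.Agent.NH7.GU

open NumberField IsDedekindDomain Pool.Agent.W401.Cheb Pool.Agent.NH7.Sch Filter Topology

variable {K : Type} [Field K] [NumberField K] {p : ℕ} [hp : Fact p.Prime] {ζ : K}

/-- the maximal ideals which contain `p` -/
abbrev Above (K : Type) [Field K] (p : ℕ) : Type :=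
  {Q : Ideal (OO K) // Q.IsMaximal ∧ (p : OO K) ∈ Q}

theorem exists_under {R : Ideal (OO K)} (hR : R.IsMaximal) : ∃ v : HS K,
    R.comap (algebraMap (𝓞 K) (OO K)) = v.asIdeal := by
  have hRm : (R.comap (algebraMap (𝓞 K) (OO K))).IsMaximal :=
    Ideal.isMaximal_comap_of_isIntegral_of_isMaximal R
  exact ⟨⟨R.comap (algebraMap (𝓞 K) (OO K)), hRm.isPrime,
    Ideal.IsMaximal.ne_bot_of_isIntegral_int _⟩, rfl⟩

theorem mem_under {v : HS K} {R : Ideal (OO K)}
    (h : R.comap (algebraMap (𝓞 K) (OO K)) = v.asIdeal) {n : ℕ} :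
    (n : 𝓞 K) ∈ v.asIdeal ↔ (n : OO K) ∈ R := by
  rw [← h, Ideal.mem_comap, map_natCast]

theorem ne_top_p : ∃ v : HS K, (p : 𝓞 K) ∈ v.asIdeal := by
  have h1 : ¬ IsUnit (p : 𝓞 K) := by
    intro h
    have h2 := (Ideal.span_singleton_eq_top (x := (p : 𝓞 K))).2 h
    have h3 : Ideal.absNorm (Ideal.span {(p : 𝓞 K)}) = 1 := by rw [h2]; simp
    rw [Ideal.absNorm_span_singleton] at h3
    have h4 : Algebra.norm ℤ (p : 𝓞 K) = (p : ℤ) ^ Module.finrank ℤ (𝓞 K) := by
      have := Algebra.norm_algebraMap (S := 𝓞 K) (p : ℤ)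
      simpa using this
    rw [h4, Int.natAbs_pow, Int.natAbs_natCast] at h3
    have h5 : Module.finrank ℤ (𝓞 K) ≠ 0 := by
      rw [RingOfIntegers.rank]
      exact Module.finrank_pos.ne'
    exact hp.out.one_lt.ne' ((Nat.pow_eq_one.1 h3).resolve_right h5)
  obtain ⟨M, hM, hpM⟩ := exists_max_ideal_of_mem_nonunits h1
  refine ⟨⟨M, hM.isPrime, ?_⟩, hpM⟩
  rintro rfl
  have : (p : 𝓞 K) = 0 := by simpa using hpM
  exact hp.out.ne_zero (by exact_mod_cast this)

/-- the Galois-theoretic data of `K` -/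
noncomputable def datK (hζ : IsPrimitiveRoot ζ p) (h4 : p = 2 → ∃ i : K, i ^ 2 = -1)
    (h : S_cyl) : Dat p (GK K) where
  ε := Pool.Agent.Y802.chi K p
  εc := Pool.Agent.Y802.continuous_chi K p
  ε1 := fun g => by
    have h1 := chi_one (p := p) (n := 1) (ζ := ζ) (by rwa [pow_one]) g
    rwa [pow_one] at h1
  ε2 := fun hp2 g => by
    obtain ⟨i, hi⟩ := h4 hp2
    have hi4 : IsPrimitiveRoot i (p ^ 2) := by
      have h5 : i ^ 2 ^ 1 ≠ 1 := by
        rw [pow_one, hi]
        norm_num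
      have h6 : i ^ 2 ^ (1 + 1) = 1 := by
        have : i ^ 2 ^ (1 + 1) = (i ^ 2) ^ 2 := by ring
        rw [this, hi]
        norm_num
      have h7 := orderOf_eq_prime_pow h5 h6
      rw [hp2, ← show 1 + 1 = 2 from rfl, ← h7]
      exact IsPrimitiveRoot.orderOf i
    have h1 := chi_one (p := p) hi4 g
    have h8 : (4 : ℤ_[p]) = (p : ℤ_[p]) ^ 2 := by
      have : (p : ℤ_[p]) = 2 := by exact_mod_cast hp2
      rw [this]
      norm_num
    rw [h8]
    exact h1
  ι := Away K p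
  I := fun Q => Inr Q.1
  DI := fun Q => Dec Q.1
  I_le := fun Q => Inr_le Q.1
  I_nor := fun Q g hg x hx => Inr_norm hg hx
  εI := fun Q x hx => chi_inr Q.2.1 Q.2.2 hx
  I_conj := fun Q g => ⟨⟨mv g Q.1, mv_max g Q.2.1, fun h1 => Q.2.2 (natCast_mem_mv.1 h1)⟩,
    fun x => Inr_mv g x⟩
  κ := Above K p
  ne := by
    obtain ⟨v, hv⟩ := ne_top_p (K := K) (p := p)
    exact ⟨⟨Qv v, Qv_max v, (mem_under (Qv_comap v)).1 hv⟩⟩
  D := fun Q => Dec Q.1
  D_conj := fun Q g => ⟨⟨mv g Q.1, mv_max g Q.2.1, natCast_mem_mv.2 Q.2.2⟩, fun x => Dec_mv g x⟩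
  n := fun Q => Classical.choose (h K p ζ hζ h4 Q.1 Q.2.1 Q.2.2)
  l := fun Q => Classical.choose (Classical.choose_spec (h K p ζ hζ h4 Q.1 Q.2.1 Q.2.2))
  n1 := fun Q => (Classical.choose_spec (Classical.choose_spec
    (h K p ζ hζ h4 Q.1 Q.2.1 Q.2.2))).1
  n2 := fun h2 Q => (Classical.choose_spec (Classical.choose_spec
    (h K p ζ hζ h4 Q.1 Q.2.1 Q.2.2))).2.1 h2
  hl := fun Q => (Classical.choose_spec (Classical.choose_spec
    (h K p ζ hζ h4 Q.1 Q.2.1 Q.2.2))).2.2.1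
  hu := fun Q => (Classical.choose_spec (Classical.choose_spec
    (h K p ζ hζ h4 Q.1 Q.2.1 Q.2.2))).2.2.2

theorem hm_one {x : GK K → ZMod p} (hx : Hm p x) : x 1 = 0 := by
  have h := hx.m 1 1
  rw [mul_one] at h
  exact left_eq_add.1 h

theorem hm_inv {x : GK K → ZMod p} (hx : Hm p x) (g : GK K) : x g⁻¹ = - x g := by
  have h := hx.m g⁻¹ g
  rw [inv_mul_cancel, hm_one hx] at h
  exact eq_neg_of_add_eq_zero_left h.symm

theorem hm_conj {x : GK K → ZMod p} (hx : Hm p x) (g y : GK K) : x (g * y * g⁻¹) = x y := by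
  rw [hx.m, hx.m, hm_inv hx]
  ring

/-- a homomorphism is unramified at almost all primes -/
theorem fin_ram (hζ : IsPrimitiveRoot ζ p) {x : GK K → ZMod p} (hx : Hm p x) :
    ∃ T : Finset (HS K), ∀ v ∉ T, Unr v x := by
  classical
  obtain ⟨κ, hκ⟩ := kp_surj hζ hx.c hx.m
  obtain ⟨y, hy, s, hs⟩ := exists_int (p := p) κ
  have h1 : {v : HS K | y ∈ v.asIdeal}.Finite := by
    have h2 := Ideal.finite_factors (I := Ideal.span {y}) (by
      rwa [Ne, Ideal.zero_eq_bot, Ideal.span_singleton_eq_bot])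
    refine h2.subset fun v hv => ?_
    rw [Set.mem_ofPred_eq, Ideal.dvd_span_singleton]
    exact hv
  have h2 : {v : HS K | (p : 𝓞 K) ∈ v.asIdeal}.Finite := Pool.Agent.Y802.finite_above
  refine ⟨h1.toFinset ∪ h2.toFinset, fun v hv g hg => ?_⟩
  rw [Finset.mem_union, not_or, Set.Finite.mem_toFinset, Set.Finite.mem_toFinset] at hv
  rw [← hκ]
  refine kp_inr_zero hζ (Qv_max v) (Qv_comap v) (fun h => hv.2 ((mem_under (Qv_comap v)).2 h))
    ?_ hg
  have h3 : od v κ + p * od v s = 0 := by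
    rw [← od_pow, ← od_mul, hs]
    exact od_ui_zero v y hy hv.1
  exact ⟨- od v s, by linarith⟩

open Classical in
/-- the local conditions at the primes of `S₀` -/
noncomputable def lam0 (d : HS K → GK K → ℤ_[p]) (χ : GK K → ZMod p) (v : HS K) :
    GK K → ZMod p :=
  if ∃ g ∈ Dec (Qv v), χ g ≠ 0 then χ
  else if (p : 𝓞 K) ∈ v.asIdeal then fun g => PadicInt.toZMod (d v g)
  else if h : ∃ y : GK K → ZMod p, Hm p y ∧ Unr v y ∧ y (fr v) ≠ 0 then Classical.choose h
  else 0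

open Classical in
/-- the function `l` of the data at the chosen prime above `v` -/
noncomputable def lv (hζ : IsPrimitiveRoot ζ p) (h4 : p = 2 → ∃ i : K, i ^ 2 = -1)
    (h : S_cyl) (v : HS K) : GK K → ℤ_[p] :=
  if hv : (Qv v).IsMaximal ∧ (p : OO K) ∈ Qv v then (datK hζ h4 h).l ⟨Qv v, hv⟩ else 0

/-- **The characters with trivial residual Selmer group** -/
theorem main_char [IsTotallyComplex K] (hζ : IsPrimitiveRoot ζ p)
    (h4 : p = 2 → ∃ i : K, i ^ 2 = -1) (hcyl : S_cyl) (hfrv : S_frv) (hcls : S_cls)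
    (hloop : S_loop) (B : Finset (HS K)) {χ₀ : GK K → ZMod p} (h0 : Hm p χ₀) :
    ∃ χ : GK K → ZMod p, Hm p χ ∧ (∀ v ∈ B, ∀ g ∈ Dec (Qv v), χ g = χ₀ g) ∧
      (∃ v ∉ B, (p : 𝓞 K) ∉ v.asIdeal ∧ ∃ g ∈ Inr (Qv v), χ g ≠ 0) ∧
      ∀ c : Chr p (GK K), c.χ = χ → SelTriv (datK hζ h4 hcyl) c := by
  classical
  obtain ⟨T, hT⟩ := fin_ram hζ h0
  have h2 : {v : HS K | (p : 𝓞 K) ∈ v.asIdeal}.Finite := Pool.Agent.Y802.finite_above
  obtain ⟨S₀, hS, hS0⟩ := hcls K (B ∪ T ∪ h2.toFinset)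
  have hB : ∀ v ∈ B, v ∈ S₀ := fun v hv => hS (Finset.mem_union_left _ (Finset.mem_union_left _ hv))
  have hTS : ∀ v ∉ S₀, Unr v χ₀ := fun v hv => hT v fun h =>
    hv (hS (Finset.mem_union_left _ (Finset.mem_union_right _ h)))
  have hpS : ∀ v : HS K, (p : 𝓞 K) ∈ v.asIdeal → v ∈ S₀ := fun v hv =>
    hS (Finset.mem_union_right _ (h2.mem_toFinset.2 hv))
  set lam : HS K → GK K → ZMod p := lam0 (lv hζ h4 hcyl) χ₀ with hlam
  have hχ₀ : χ₀ ∈ Sel p S₀ lam := by
    refine ⟨h0, fun v _ => ?_, hTS⟩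
    by_cases h : ∃ g ∈ Dec (Qv v), χ₀ g ≠ 0
    · refine ⟨1, fun g _ => ?_⟩
      rw [hlam, lam0, if_pos h, one_mul]
    · push Not at h
      exact ⟨0, fun g hg => by rw [h g hg, zero_mul]⟩
  obtain ⟨S, χ, hSS, hne, hχ, hres, hram, hunr, hsel⟩ := hloop K p ζ hζ S₀ hpS hS0 lam χ₀ hχ₀
  refine ⟨χ, hχ, fun v hv => hres v (hB v hv), ?_, ?_⟩
  · obtain ⟨v, hv, hv0⟩ := Finset.exists_of_ssubset (hSS.ssubset_of_ne hne)
    exact ⟨v, fun h => hv0 (hB v h), fun h => hv0 (hpS v h), hram v hv hv0⟩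
  rintro c rfl x hx1 hx2 ha hb hc hd
  have hx : Hm p x := ⟨hx1, hx2⟩
  have hQp : ∀ v : HS K, (p : 𝓞 K) ∉ v.asIdeal → (p : OO K) ∉ Qv v := fun v hv h =>
    hv ((mem_under (Qv_comap v)).2 h)
  refine hsel (fun v => if v ∈ S₀ then lam v else c.χ) (fun v hv g _ => by rw [if_pos hv])
    (fun v _ hv g _ => by rw [if_neg hv]) x ⟨hx, fun v hv => ?_, fun v hv => ?_⟩
  · beta_reduce
    by_cases hv0 : v ∈ S₀
    · rw [if_pos hv0]
      by_cases hp0 : (p : 𝓞 K) ∈ v.asIdeal
      · have hpQ : (p : OO K) ∈ Qv v := (mem_under (Qv_comap v)).1 hp0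
        by_cases h : ∃ g ∈ Dec (Qv v), χ₀ g ≠ 0
        · have h' : ∃ g ∈ Dec (Qv v), c.χ g ≠ 0 := by
            obtain ⟨g, hg, hg0⟩ := h
            exact ⟨g, hg, by rwa [hres v hv0 g hg]⟩
          obtain ⟨a, ha⟩ := hc ⟨Qv v, Qv_max v, hpQ⟩ h'
          refine ⟨a, fun g hg => ?_⟩
          rw [hlam, lam0, if_pos h, ← hres v hv0 g hg]
          exact ha g hg
        · have h' : ∀ g ∈ Dec (Qv v), c.χ g = 0 := by
            intro g hg
            rw [hres v hv0 g hg]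
            by_contra h3
            exact h ⟨g, hg, h3⟩
          obtain ⟨a, ha⟩ := hd ⟨Qv v, Qv_max v, hpQ⟩ h'
          refine ⟨a, fun g hg => ?_⟩
          rw [hlam, lam0, if_neg h, if_pos hp0, lv, dif_pos ⟨Qv_max v, hpQ⟩]
          exact ha g hg
      · have hpQ := hQp v hp0
        by_cases hI : ∀ g ∈ Inr (Qv v), c.χ g = 0
        · have hxI : Unr v x := ha ⟨Qv v, Qv_max v, hpQ⟩ hI
          obtain ⟨-, h5, -⟩ := hfrv K p x hx v hxI
          by_cases h : ∃ g ∈ Dec (Qv v), χ₀ g ≠ 0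
          · have hχI : Unr v χ₀ := fun g hg => by
              rw [← hres v hv0 g (Inr_le _ hg)]
              exact hI g hg
            have hf0 : χ₀ (fr v) ≠ 0 := by
              intro h6
              obtain ⟨g, hg, hg0⟩ := h
              exact hg0 ((hfrv K p χ₀ h0 v hχI).2.1 h6 g hg)
            refine ⟨x (fr v) / χ₀ (fr v), fun g hg => ?_⟩
            rw [hlam, lam0, if_pos h]
            have h7 : Hm p (x + (-(x (fr v) / χ₀ (fr v))) • χ₀) := hx.add (h0.smul _)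
            have h8 : Unr v (x + (-(x (fr v) / χ₀ (fr v))) • χ₀) := fun g hg => by
              rw [Pi.add_apply, Pi.smul_apply, hxI g hg, hχI g hg, smul_zero, add_zero]
            have h9 := (hfrv K p _ h7 v h8).2.1 (by
              rw [Pi.add_apply, Pi.smul_apply, smul_eq_mul]
              field_simp
              ring) g hg
            rw [Pi.add_apply, Pi.smul_apply, smul_eq_mul] at h9
            linear_combination h9
          · by_cases h6 : ∃ y : GK K → ZMod p, Hm p y ∧ Unr v y ∧ y (fr v) ≠ 0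
            · obtain ⟨h7, h8, h9⟩ := Classical.choose_spec h6
              set y := Classical.choose h6 with hy
              refine ⟨x (fr v) / y (fr v), fun g hg => ?_⟩
              rw [hlam, lam0, if_neg h, if_neg hp0, dif_pos h6, ← hy]
              have k7 : Hm p (x + (-(x (fr v) / y (fr v))) • y) := hx.add (h7.smul _)
              have k8 : Unr v (x + (-(x (fr v) / y (fr v))) • y) := fun g hg => by
                rw [Pi.add_apply, Pi.smul_apply, hxI g hg, h8 g hg, smul_zero, add_zero]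
              have k9 := (hfrv K p _ k7 v k8).2.1 (by
                rw [Pi.add_apply, Pi.smul_apply, smul_eq_mul]
                field_simp
                ring) g hg
              rw [Pi.add_apply, Pi.smul_apply, smul_eq_mul] at k9
              linear_combination k9
            · refine ⟨0, fun g hg => ?_⟩
              rw [zero_mul]
              refine h5 ?_ g hg
              by_contra h7
              exact h6 ⟨x, hx, hxI, h7⟩
        · push Not at hI
          obtain ⟨g, hg, hg0⟩ := hI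
          have h : ∃ g ∈ Dec (Qv v), χ₀ g ≠ 0 :=
            ⟨g, Inr_le _ hg, by rwa [← hres v hv0 g (Inr_le _ hg)]⟩
          obtain ⟨a, ha'⟩ := hb ⟨Qv v, Qv_max v, hpQ⟩ ⟨g, hg, hg0⟩
          refine ⟨a, fun g hg => ?_⟩
          rw [hlam, lam0, if_pos h, ← hres v hv0 g hg]
          exact ha' g hg
    · rw [if_neg hv0]
      exact hb ⟨Qv v, Qv_max v, hQp v fun h => hv0 (hpS v h)⟩ (hram v hv hv0)
  · have hv0 : v ∉ S₀ := fun h => hv (hSS h)
    exact ha ⟨Qv v, Qv_max v, hQp v fun h => hv0 (hpS v h)⟩ (hunr v hv)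

end Pool.Agent.NH7.GU
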