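import Pool.Agent.NH7.Sch.Fin

/-!
# Going up for Schneider's conjecture: definitions

Let `K` be a number field with a primitive `p`-th root of unity `ζ` (and a square root of `-1` if
`p = 2`). For a continuous homomorphism `χ : G_K → ℤ/p` the group `Ш¹` of `ℤ_p(r)` over the field
`L` cut out by `χ` is compared with that over `K`, for all integers `r` at once, by means of a
residual Selmer group in `Hom(G_K, ℤ/p)`.
-/

set_option autoImplicit false
set_option linter.unusedSectionVars false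

namespace Pool.Agent.NH7.GU

open NumberField IsDedekindDomain Pool.Agent.W401.Cheb Pool.Agent.NH7.Sch Filter Topology

/-! ### The abstract part -/

section abs

/-- the properties of the ring `ℤ_p[ζ_p]` that are used; `z` is `ζ_p`, `ev` is the reduction modulo
`z - 1` -/
structure Cyc (p : ℕ) [Fact p.Prime] (O : Type) [CommRing O] [Algebra ℤ_[p] O] where
  z : O
  ev : O →+* ZMod p
  z_pow : z ^ p = 1
  ev_z : ev z = 1
  ker : ∀ x, ev x = 0 → (z - 1) ∣ x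
  inj : ∀ x, (z - 1) * x = 0 → x = 0
  sep : ∀ x, (∀ n : ℕ, (z - 1) ^ n ∣ x) → x = 0
  ev_int : ∀ a : ℤ_[p], ev (algebraMap ℤ_[p] O a) = PadicInt.toZMod a
  unit : ∀ x, ev x ≠ 0 → IsUnit x
  sq : ∀ a : ℤ_[p], (p : ℤ_[p]) ∣ a → (p = 2 → (4 : ℤ_[p]) ∣ a) →
    (z - 1) ^ 2 ∣ algebraMap ℤ_[p] O a
  span : ∀ x, ∃ a : ZMod p → ℤ_[p], x = ∑ i, algebraMap ℤ_[p] O (a i) * z ^ i.val
  rel : ∀ a : ZMod p → ℤ_[p], ∑ i, algebraMap ℤ_[p] O (a i) * z ^ i.val = 0 → ∀ i j, a i = a j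

/-- a group with a character `ε` to the `p`-adic units (congruent to `1`), with tame inertia groups
`I i` in decomposition groups `DI i`, and with decomposition groups `D k` above `p` -/
structure Dat (p : ℕ) [Fact p.Prime] (G : Type) [Group G] [TopologicalSpace G] where
  ε : G →* ℤ_[p]ˣ
  εc : Continuous ε
  ε1 : ∀ g, (p : ℤ_[p]) ∣ (ε g : ℤ_[p]) - 1
  ε2 : p = 2 → ∀ g, (4 : ℤ_[p]) ∣ (ε g : ℤ_[p]) - 1
  ι : Type
  I : ι → Subgroup G
  DI : ι → Subgroup G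
  I_le : ∀ i, I i ≤ DI i
  I_nor : ∀ i, ∀ g ∈ DI i, ∀ x ∈ I i, g * x * g⁻¹ ∈ I i
  εI : ∀ i, ∀ x ∈ I i, ε x = 1
  I_conj : ∀ (i : ι) (g : G), ∃ j, ∀ x, x ∈ I i ↔ g * x * g⁻¹ ∈ I j
  κ : Type
  ne : Nonempty κ
  D : κ → Subgroup G
  D_conj : ∀ (k : κ) (g : G), ∃ j, ∀ x, x ∈ D k ↔ g * x * g⁻¹ ∈ D j
  n : κ → ℕ
  l : κ → G → ℤ_[p]
  n1 : ∀ k, 1 ≤ n k
  n2 : p = 2 → ∀ k, 2 ≤ n k
  hl : ∀ k, ∀ g ∈ D k, (ε g : ℤ_[p]) = 1 + (p : ℤ_[p]) ^ n k * l k g
  hu : ∀ k, ∃ g ∈ D k, IsUnit (l k g)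

/-- a continuous surjective homomorphism to `ℤ/p` -/
structure Chr (p : ℕ) [Fact p.Prime] (G : Type) [Group G] [TopologicalSpace G] where
  χ : G → ZMod p
  c : Continuous χ
  m : ∀ g h, χ (g * h) = χ g + χ h
  σ : G
  hσ : χ σ = 1

variable {p : ℕ} [hp : Fact p.Prime] {G : Type} [Group G] [TopologicalSpace G]

/-- the `r`-th power of `ε` -/
noncomputable def Dat.psi (d : Dat p G) (r : ℤ) (g : G) : ℤ_[p] := (((d.ε g) ^ r : ℤ_[p]ˣ) : ℤ_[p])

/-- the kernel -/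
def Chr.ker (c : Chr p G) : Subgroup G where
  carrier := {g | c.χ g = 0}
  mul_mem' := fun {a b} ha hb => by
    rw [Set.mem_ofPred_eq] at ha hb ⊢
    rw [c.m, ha, hb, add_zero]
  one_mem' := by
    have h := c.m 1 1
    rw [mul_one] at h
    exact left_eq_add.1 h
  inv_mem' := fun {a} ha => by
    have h1 : c.χ 1 = 0 := by
      have h := c.m 1 1
      rw [mul_one] at h
      exact left_eq_add.1 h
    have h := c.m a⁻¹ a
    have ha' : c.χ a = 0 := ha
    rw [inv_mul_cancel, h1, ha', add_zero] at h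
    exact h.symm

theorem Chr.mem_ker (c : Chr p G) {g : G} : g ∈ c.ker ↔ c.χ g = 0 := Iff.rfl

/-- continuous cocycles on the subgroup `N` with values in `ℤ_p(r)` -/
structure Coc (d : Dat p G) (r : ℤ) (N : Subgroup G) (c : G → ℤ_[p]) : Prop where
  cont : Continuous fun x : N => c x
  mul : ∀ g ∈ N, ∀ h ∈ N, c (g * h) = c g + d.psi r g * c h

/-- the cocycles on `N` of the elements of `Ш¹` -/
structure Sha (d : Dat p G) (r : ℤ) (N : Subgroup G) (c : G → ℤ_[p]) : Prop where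
  coc : Coc d r N c
  away : ∀ i, ∀ g ∈ d.I i, g ∈ N → c g = 0
  above : ∀ k, ∃ z : ℤ_[p], ∀ g ∈ d.D k, g ∈ N → c g = (d.psi r g - 1) * z

/-- the residual Selmer group of `χ` is generated by `χ` -/
def SelTriv (d : Dat p G) (c : Chr p G) : Prop :=
  ∀ x : G → ZMod p, Continuous x → (∀ g h, x (g * h) = x g + x h) →
    (∀ i, (∀ g ∈ d.I i, c.χ g = 0) → ∀ g ∈ d.I i, x g = 0) →
    (∀ i, (∃ g ∈ d.I i, c.χ g ≠ 0) → ∃ a : ZMod p, ∀ g ∈ d.DI i, x g = a * c.χ g) →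
    (∀ k, (∃ g ∈ d.D k, c.χ g ≠ 0) → ∃ a : ZMod p, ∀ g ∈ d.D k, x g = a * c.χ g) →
    (∀ k, (∀ g ∈ d.D k, c.χ g = 0) → ∃ a : ZMod p, ∀ g ∈ d.D k,
      x g = a * PadicInt.toZMod (d.l k g)) →
    ∃ a : ZMod p, ∀ g, x g = a * c.χ g

variable {O : Type} [CommRing O] [Algebra ℤ_[p] O]

/-- the `O`-valued cocycles for `χ ψ^r` with the local conditions of `Ш¹`, up to torsion -/
structure IsO (C : Cyc p O) (d : Dat p G) (c : Chr p G) (r : ℤ) (F : G → O) : Prop where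
  cont : ∀ (n : ℕ) (g : G), ∀ᶠ h in 𝓝 g, (C.z - 1) ^ n ∣ F h - F g
  mul : ∀ g h, F (g * h) = F g + C.z ^ (c.χ g).val * algebraMap ℤ_[p] O (d.psi r g) * F h
  away : ∀ i, ∀ g ∈ d.I i, c.χ g = 0 → F g = 0
  above : ∀ k, ∃ (n : ℕ) (t : O), ∀ g ∈ d.D k, c.χ g = 0 →
    (C.z - 1) ^ n * F g = (algebraMap ℤ_[p] O (d.psi r g) - 1) * t

end abs

/-! ### The arithmetic part -/

section arith

/-- the finite primes -/
abbrev HS (K : Type) [Field K] [NumberField K] : Type := HeightOneSpectrum (𝓞 K)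

variable {K : Type} [Field K] [NumberField K] {p : ℕ} [hp : Fact p.Prime]

/-- a prime of the algebraic closure above `v` -/
noncomputable def Qv (v : HS K) : Ideal (OO K) := Classical.choose (exists_Q v)

theorem Qv_max (v : HS K) : (Qv v).IsMaximal := (Classical.choose_spec (exists_Q v)).1

theorem Qv_comap (v : HS K) : (Qv v).comap (algebraMap (𝓞 K) (OO K)) = v.asIdeal :=
  (Classical.choose_spec (exists_Q v)).2

theorem frob_ex (v : HS K) : ∃ σ : GK K, IsFrob v σ := (Pool.Agent.W401.Frob.main K).1 v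

/-- a Frobenius element at `v` -/
noncomputable def fr (v : HS K) : GK K := Classical.choose (frob_ex v)

theorem fr_spec (v : HS K) : IsFrob v (fr v) := Classical.choose_spec (frob_ex v)

/-- the continuous homomorphisms to `ℤ/p` -/
structure Hm (p : ℕ) (x : GK K → ZMod p) : Prop where
  c : Continuous x
  m : ∀ g h, x (g * h) = x g + x h

/-- `x` is unramified at `v` -/
def Unr {p : ℕ} (v : HS K) (x : GK K → ZMod p) : Prop := ∀ g ∈ Inr (Qv v), x g = 0

theorem Hm.zero : Hm p (0 : GK K → ZMod p) := ⟨continuous_const, fun _ _ => (add_zero _).symm⟩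

theorem Hm.add {x y : GK K → ZMod p} (hx : Hm p x) (hy : Hm p y) : Hm p (x + y) :=
  ⟨hx.c.add hy.c, fun g h => by
    simp only [Pi.add_apply]
    rw [hx.m, hy.m]
    ring⟩

theorem Hm.smul {x : GK K → ZMod p} (a : ZMod p) (hx : Hm p x) : Hm p (a • x) :=
  ⟨continuous_const.mul hx.c, fun g h => by
    simp only [Pi.smul_apply, smul_eq_mul]
    rw [hx.m]
    ring⟩

/-- the Selmer group: at `v ∈ S` the restriction to the decomposition group is a multiple of that of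
`lam v`, outside `S` the homomorphisms are unramified -/
def Sel (p : ℕ) [Fact p.Prime] (S : Finset (HS K)) (lam : HS K → GK K → ZMod p) :
    Submodule (ZMod p) (GK K → ZMod p) where
  carrier := {x | Hm p x ∧ (∀ v ∈ S, ∃ a : ZMod p, ∀ g ∈ Dec (Qv v), x g = a * lam v g) ∧
    ∀ v ∉ S, Unr v x}
  add_mem' := by
    rintro x y ⟨h1, h2, h3⟩ ⟨k1, k2, k3⟩
    refine ⟨h1.add k1, fun v hv => ?_, fun v hv g hg => ?_⟩
    · obtain ⟨a, ha⟩ := h2 v hv
      obtain ⟨b, hb⟩ := k2 v hv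
      exact ⟨a + b, fun g hg => by rw [Pi.add_apply, ha g hg, hb g hg]; ring⟩
    · rw [Pi.add_apply, h3 v hv g hg, k3 v hv g hg, add_zero]
  zero_mem' := ⟨Hm.zero, fun v _ => ⟨0, fun g _ => by rw [zero_mul]; rfl⟩, fun v _ g _ => rfl⟩
  smul_mem' := by
    rintro c x ⟨h1, h2, h3⟩
    refine ⟨h1.smul c, fun v hv => ?_, fun v hv g hg => ?_⟩
    · obtain ⟨a, ha⟩ := h2 v hv
      exact ⟨c * a, fun g hg => by rw [Pi.smul_apply, smul_eq_mul, ha g hg]; ring⟩
    · rw [Pi.smul_apply, smul_eq_mul, h3 v hv g hg, mul_zero]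

theorem mem_Sel {S : Finset (HS K)} {lam : HS K → GK K → ZMod p} {x : GK K → ZMod p} :
    x ∈ Sel p S lam ↔ Hm p x ∧ (∀ v ∈ S, ∃ a : ZMod p, ∀ g ∈ Dec (Qv v), x g = a * lam v g) ∧
      ∀ v ∉ S, Unr v x := Iff.rfl

section kum

variable {ζ : K} (hζ : IsPrimitiveRoot ζ p)

/-- the elements of `K` whose Kummer character is trivial on the decomposition groups of the primes
in `S` -/
def H0 (S : Finset (HS K)) : Subgroup Kˣ where
  carrier := {κ | ∀ v ∈ S, ∀ g ∈ Dec (Qv v), kp hζ κ g = 0}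
  mul_mem' := fun {a b} ha hb v hv g hg => by
    rw [kp_mul_left, ha v hv g hg, hb v hv g hg, add_zero]
  one_mem' := fun v _ g _ => kp_one_left hζ g
  inv_mem' := fun {a} ha v hv g hg => by
    rw [kp_inv_left, ha v hv g hg, neg_zero]

theorem mem_H0 {S : Finset (HS K)} {κ : Kˣ} :
    κ ∈ H0 hζ S ↔ ∀ v ∈ S, ∀ g ∈ Dec (Qv v), kp hζ κ g = 0 := Iff.rfl

/-- the elements of `K` whose Kummer character satisfies the conditions of the Selmer group at the
primes in `S` -/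
def HL (S : Finset (HS K)) (lam : HS K → GK K → ZMod p) : Subgroup Kˣ where
  carrier := {κ | ∀ v ∈ S, ∃ a : ZMod p, ∀ g ∈ Dec (Qv v), kp hζ κ g = a * lam v g}
  mul_mem' := fun {x y} hx hy v hv => by
    obtain ⟨a, ha⟩ := hx v hv
    obtain ⟨b, hb⟩ := hy v hv
    exact ⟨a + b, fun g hg => by rw [kp_mul_left, ha g hg, hb g hg]; ring⟩
  one_mem' := fun v _ => ⟨0, fun g _ => by rw [kp_one_left, zero_mul]⟩
  inv_mem' := fun {x} hx v hv => by
    obtain ⟨a, ha⟩ := hx v hv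
    exact ⟨-a, fun g hg => by rw [kp_inv_left, ha g hg]; ring⟩

theorem mem_HL {S : Finset (HS K)} {lam : HS K → GK K → ZMod p} {κ : Kˣ} : κ ∈ HL hζ S lam ↔
    ∀ v ∈ S, ∃ a : ZMod p, ∀ g ∈ Dec (Qv v), kp hζ κ g = a * lam v g := Iff.rfl

end kum

/-- the divisors which modulo `p` and outside `S` are divisors of elements of `H` -/
def Rel (p : ℕ) (S : Finset (HS K)) (H : Subgroup Kˣ) : AddSubgroup (HS K →₀ ℤ) where
  carrier := {n | ∃ κ ∈ H, ∀ v ∉ S, (p : ℤ) ∣ n v + od v κ}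
  add_mem' := by
    rintro a b ⟨x, hx, h1⟩ ⟨y, hy, h2⟩
    refine ⟨x * y, H.mul_mem hx hy, fun v hv => ?_⟩
    rw [od_mul, Finsupp.add_apply]
    have h := dvd_add (h1 v hv) (h2 v hv)
    rwa [show a v + b v + (od v x + od v y) = a v + od v x + (b v + od v y) by ring]
  zero_mem' := ⟨1, H.one_mem, fun v _ => by
    have h : od v (1 : Kˣ) = 0 := by
      have := od_mul v (1 : Kˣ) 1
      rw [one_mul] at this
      omega
    rw [h]; simp⟩
  neg_mem' := by
    rintro a ⟨x, hx, h1⟩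
    refine ⟨x⁻¹, H.inv_mem hx, fun v hv => ?_⟩
    rw [od_inv, Finsupp.neg_apply, ← neg_add, dvd_neg]
    exact h1 v hv

theorem mem_Rel {S : Finset (HS K)} {H : Subgroup Kˣ} {n : HS K →₀ ℤ} :
    n ∈ Rel p S H ↔ ∃ κ ∈ H, ∀ v ∉ S, (p : ℤ) ∣ n v + od v κ := Iff.rfl

/-- the class group of `H` modulo `p` -/
abbrev Cq (p : ℕ) (S : Finset (HS K)) (H : Subgroup Kˣ) : Type := (HS K →₀ ℤ) ⧸ Rel p S H

/-- the class of a prime -/
noncomputable def cl (p : ℕ) (S : Finset (HS K)) (H : Subgroup Kˣ) (v : HS K) : Cq p S H :=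
  QuotientAddGroup.mk (Finsupp.single v 1)

end arith

end Pool.Agent.NH7.GU
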