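import Pool.Agent.NH7.GU.Stms

/-!
# The group of local classes (GU-D3), first part: approximation
-/

set_option autoImplicit false
set_option linter.unusedSectionVars false

namespace Pool.Agent.NH7.GU.LocP

open NumberField IsDedekindDomain Pool.Agent.W401.Cheb Pool.Agent.NH7.Sch

variable {K : Type} [Field K] [NumberField K]

/-- simultaneous approximation -/
theorem crt (S : Finset (HS K)) (N : ℕ) (f : HS K → 𝓞 K) :
    ∃ y : 𝓞 K, ∀ v ∈ S, y - f v ∈ v.asIdeal ^ N := by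
  obtain ⟨y, hy⟩ := IsDedekindDomain.exists_forall_sub_mem_ideal (s := S)
    (fun v : HS K => v.asIdeal) (fun _ => N) (fun v _ => v.prime)
    (fun v _ w _ h e => h (HeightOneSpectrum.ext e)) (fun v => f v.1)
  exact ⟨y, fun v hv => hy v hv⟩

/-- an integral uniformizer at `v` which is a unit at the other primes of `S` -/
theorem unif (S : Finset (HS K)) (v : HS K) (hv : v ∈ S) :
    ∃ P : Kˣ, od v P = -1 ∧ ∀ w ∈ S, w ≠ v → od w P = 0 := by
  classical
  obtain ⟨π, hπ1, hπ2⟩ := Ideal.exists_mem_pow_notMem_pow_succ v.asIdeal v.ne_bot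
    v.isPrime.ne_top 1
  rw [pow_one] at hπ1
  obtain ⟨y, hy⟩ := crt S 2 (fun w => if w = v then π else 1)
  have h1 := hy v hv
  rw [if_pos rfl] at h1
  have h2 : y ∈ v.asIdeal := by
    have h3 := v.asIdeal.add_mem (Ideal.pow_le_self two_ne_zero h1) hπ1
    rwa [sub_add_cancel] at h3
  have h3 : y ∉ v.asIdeal ^ 2 := by
    intro h
    apply hπ2
    have h4 := Ideal.sub_mem _ h h1
    rwa [sub_sub_cancel] at h4
  have hy0 : y ≠ 0 := by
    rintro rfl
    exact h3 (Ideal.zero_mem _)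
  refine ⟨ui y hy0, ?_, fun w hw hwv => ?_⟩
  · have h4 := (od_ui_mem v y hy0 1).2 (by rwa [pow_one])
    have h5 := (od_ui_mem v y hy0 2).not.2 h3
    push_cast at h4 h5
    omega
  · apply od_ui_zero
    intro hm
    have h4 := hy w hw
    rw [if_neg hwv] at h4
    have h5 := w.asIdeal.sub_mem hm (Ideal.pow_le_self two_ne_zero h4)
    rw [sub_sub_cancel] at h5
    exact w.isPrime.ne_top ((Ideal.eq_top_iff_one _).2 h5)

/-- the uniformizers -/
theorem unifs (S : Finset (HS K)) : ∃ P : HS K → Kˣ, ∀ v ∈ S, od v (P v) = -1 ∧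
    ∀ w ∈ S, w ≠ v → od w (P v) = 0 := by
  classical
  refine ⟨fun v => if h : v ∈ S then (unif S v h).choose else 1, fun v hv => ?_⟩
  have := (unif S v hv).choose_spec
  simp only [hv, dif_pos]
  exact this

/-- the order of a product of powers of the uniformizers -/
theorem od_unifs {S : Finset (HS K)} {P : HS K → Kˣ} (hP : ∀ v ∈ S, od v (P v) = -1 ∧
    ∀ w ∈ S, w ≠ v → od w (P v) = 0) (n : HS K → ℤ) {w : HS K} (hw : w ∈ S) :
    od w (∏ v ∈ S, P v ^ n v) = - n w := by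
  rw [od_prod, Finset.sum_eq_single_of_mem w hw]
  · rw [od_zpow, (hP w hw).1]
    ring
  · intro v hv hne
    rw [od_zpow, (hP v hv).2 w hw (Ne.symm hne), mul_zero]

/-- a number which is a unit at the primes of `S` is a quotient of integers prime to `S` -/
theorem den (S : Finset (HS K)) (hS : S.Nonempty) (κ : Kˣ) (h : ∀ v ∈ S, od v κ = 0) :
    ∃ (a b : 𝓞 K) (ha : a ≠ 0) (hb : b ≠ 0), (∀ v ∈ S, a ∉ v.asIdeal) ∧ (∀ v ∈ S, b ∉ v.asIdeal) ∧
      κ * ui b hb = ui a ha := by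
  let J : Ideal (𝓞 K) :=
    { carrier := {d | ∃ a : 𝓞 K, (κ : K) * algebraMap (𝓞 K) K d = algebraMap (𝓞 K) K a}
      add_mem' := by
        rintro x y ⟨a, ha⟩ ⟨b, hb⟩
        exact ⟨a + b, by rw [map_add, map_add, mul_add, ha, hb]⟩
      zero_mem' := ⟨0, by rw [map_zero, mul_zero]⟩
      smul_mem' := by
        rintro c x ⟨a, ha⟩
        exact ⟨c * a, by rw [smul_eq_mul, map_mul, map_mul, ← ha]; ring⟩ }
  have hJ : ∀ v ∈ S, ¬ J ≤ v.asIdeal := by
    intro v hv hle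
    obtain ⟨a, d, had⟩ := v.exists_primeCompl_mul_eq_of_integer (κ : K)
      (by rw [val_od, h v hv, WithZero.exp_zero])
    exact d.2 (hle ⟨a, had⟩)
  obtain ⟨b, hbJ, hbS⟩ : ∃ b ∈ J, ∀ v ∈ S, b ∉ v.asIdeal := by
    by_contra hcon
    push Not at hcon
    obtain ⟨v0, hv0⟩ := hS
    have h1 := (Ideal.subset_union_prime (s := S) (f := fun v : HS K => v.asIdeal) v0 v0
      (fun v _ _ _ => v.isPrime) (I := J)).1 (by
        intro b hb
        obtain ⟨v, hv, hbv⟩ := hcon b hb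
        simp only [Set.mem_iUnion]
        exact ⟨v, hv, hbv⟩)
    obtain ⟨v, hv, hle⟩ := h1
    exact hJ v hv hle
  obtain ⟨a, ha⟩ := hbJ
  obtain ⟨v0, hv0⟩ := hS
  have hb0 : b ≠ 0 := by
    rintro rfl
    exact hbS v0 hv0 (Ideal.zero_mem _)
  have ha0 : a ≠ 0 := by
    rintro rfl
    rw [map_zero] at ha
    rcases mul_eq_zero.1 ha with h1 | h1
    · exact κ.ne_zero h1
    · exact hb0 ((map_eq_zero_iff _ (FaithfulSMul.algebraMap_injective (𝓞 K) K)).1 h1)
  have he : κ * ui b hb0 = ui a ha0 := by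
    apply Units.ext
    rw [Units.val_mul, coe_ui, coe_ui, ha]
  refine ⟨a, b, ha0, hb0, fun v hv hm => ?_, hbS, he⟩
  have h1 := (od_ui_mem v a ha0 1).2 (by rwa [pow_one])
  rw [← he, od_mul, h v hv, od_ui_zero v b hb0 (hbS v hv)] at h1
  omega

/-- an ideal whose prime divisors are in `S` contains the elements which are small at `S` -/
theorem deep (S : Finset (HS K)) (𝔪 : Ideal (𝓞 K)) (h0 : 𝔪 ≠ ⊥)
    (h : ∀ v : HS K, 𝔪 ≤ v.asIdeal → v ∈ S) :
    ∃ N : ℕ, ∀ x : 𝓞 K, (∀ v ∈ S, x ∈ v.asIdeal ^ N) → x ∈ 𝔪 := by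
  obtain ⟨N, hN⟩ := Ideal.exists_radical_pow_le_of_fg 𝔪 (IsNoetherian.noetherian _)
  refine ⟨N, fun x hx => hN ?_⟩
  have h1 : ∏ v ∈ S, v.asIdeal ≤ 𝔪.radical := by
    rw [Ideal.radical_eq_sInf]
    refine le_sInf ?_
    rintro J ⟨hJ1, hJ2⟩
    have hJ0 : J ≠ ⊥ := by
      rintro rfl
      exact h0 (le_bot_iff.1 hJ1)
    have hv := h ⟨J, hJ2, hJ0⟩ hJ1
    exact Ideal.prod_le_inf.trans (Finset.inf_le (f := fun v : HS K => v.asIdeal) hv)
  refine Ideal.pow_right_mono h1 N ?_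
  rw [← Finset.prod_pow, ← IsDedekindDomain.inf_pow_eq_prod_of_prime (s := S)
    (fun v : HS K => v.asIdeal) (fun _ => N) (fun v _ => v.prime)
    (fun v _ w _ h e => h (HeightOneSpectrum.ext e))]
  simp only [Submodule.mem_finsetInf]
  exact hx

end Pool.Agent.NH7.GU.LocP
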