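import Pool.Agent.NH7.GU.LocA

/-!
# The group of local classes (GU-D3), second part: the elements of order `p`
-/

set_option autoImplicit false
set_option linter.unusedSectionVars false

namespace Pool.Agent.NH7.GU.LocP

open NumberField IsDedekindDomain Pool.Agent.W401.Cheb Pool.Agent.NH7.Sch

variable {K : Type} [Field K] [NumberField K] {p : ℕ} [hp : Fact p.Prime] {ζ : K}
  (hζ : IsPrimitiveRoot ζ p)

/-- the modulus `p ∏ v` -/
noncomputable def mm (p : ℕ) (S : Finset (HS K)) : Ideal (𝓞 K) :=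
  Ideal.span {(p : 𝓞 K)} * ∏ v ∈ S, v.asIdeal

/-- the modulus `p² ∏ v` -/
noncomputable def nn (p : ℕ) (S : Finset (HS K)) : Ideal (𝓞 K) :=
  Ideal.span {(p : 𝓞 K)} * mm p S

theorem p_ne : (p : 𝓞 K) ≠ 0 := Nat.cast_ne_zero.2 hp.out.ne_zero

theorem span_ne : Ideal.span {(p : 𝓞 K)} ≠ ⊥ := by
  rw [Ne, Ideal.span_singleton_eq_bot]
  exact p_ne

theorem mm_ne (S : Finset (HS K)) : mm p S ≠ ⊥ :=
  mul_ne_zero span_ne (Finset.prod_ne_zero_iff.2 fun v _ => v.ne_bot)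

theorem nn_ne (S : Finset (HS K)) : nn p S ≠ ⊥ := mul_ne_zero span_ne (mm_ne S)

theorem nn_le (S : Finset (HS K)) : nn p S ≤ mm p S := Ideal.mul_le_right

theorem nn_supp {S : Finset (HS K)} (hS : ∀ v : HS K, (p : 𝓞 K) ∈ v.asIdeal → v ∈ S) (v : HS K)
    (h : nn p S ≤ v.asIdeal) : v ∈ S := by
  unfold nn mm at h
  rcases v.isPrime.mul_le.1 h with h1 | h1
  · exact hS v (h1 (Ideal.mem_span_singleton_self _))
  · rcases v.isPrime.mul_le.1 h1 with h2 | h2
    · exact hS v (h2 (Ideal.mem_span_singleton_self _))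
    · obtain ⟨w, hw, hwv⟩ := (v.isPrime.prod_le).1 h2
      have h3 : w.asIdeal = v.asIdeal := w.isMaximal.eq_of_le v.isPrime.ne_top hwv
      rw [← HeightOneSpectrum.ext h3]
      exact hw

theorem pw_add' {R : Type} [CommRing R] {z : R} (hz : z ^ p = 1) (i j : ZMod p) :
    z ^ (i + j).val = z ^ i.val * z ^ j.val := by
  rw [ZMod.val_add, ← pow_add]
  exact (pow_eq_pow_mod _ hz).symm

include hζ in
/-- differences of roots of unity divide `p` -/
theorem sub_dvd {i j : ZMod p} (h : i ≠ j) :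
    hζ.toInteger ^ i.val - hζ.toInteger ^ j.val ∣ (p : 𝓞 K) := by
  have hz := hζ.toInteger_isPrimitiveRoot
  set z := hζ.toInteger
  have hk : i - j ≠ 0 := sub_ne_zero.2 h
  have h1 : z ^ i.val = z ^ (i - j).val * z ^ j.val := by
    rw [← pw_add' hz.pow_eq_one, sub_add_cancel]
  have h2 : IsUnit (z ^ j.val) := (hz.isUnit hp.out.ne_zero).pow _
  have h3 : IsPrimitiveRoot (z ^ (i - j).val) ((p - 1) + 1) := by
    rw [Nat.sub_add_cancel hp.out.one_le]
    apply hz.pow_of_coprime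
    apply Nat.Coprime.symm
    rw [hp.out.coprime_iff_not_dvd]
    intro hd
    have h4 := Nat.eq_zero_of_dvd_of_lt hd (ZMod.val_lt _)
    exact hk ((ZMod.val_eq_zero _).1 h4)
  have h4 := h3.prod_one_sub_pow_eq_order
  have h5 : 1 - z ^ (i - j).val ∣ (p : 𝓞 K) := by
    have e : (p : 𝓞 K) = ((p - 1 : ℕ) : 𝓞 K) + 1 := by
      rw [← Nat.cast_succ, Nat.succ_eq_add_one, Nat.sub_add_cancel hp.out.one_le]
    rw [e, ← h4]
    have h6 : (0 : ℕ) ∈ Finset.range (p - 1) :=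
      Finset.mem_range.2 (by have := hp.out.two_le; omega)
    have h7 := Finset.dvd_prod_of_mem (fun k => 1 - (z ^ (i - j).val) ^ (k + 1)) h6
    rw [zero_add, pow_one] at h7
    exact h7
  have h6 : z ^ i.val - z ^ j.val = -(z ^ j.val) * (1 - z ^ (i - j).val) := by
    rw [h1]
    ring
  rw [h6]
  exact (IsUnit.mul_left_dvd h2.neg).2 h5

/-- the exact power of `v` dividing `p` -/
theorem exp_p (v : HS K) : ∃ k : ℕ, (p : 𝓞 K) ∈ v.asIdeal ^ k ∧ (p : 𝓞 K) ∉ v.asIdeal ^ (k + 1) := by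
  have h1 := od_ui_le v (p : 𝓞 K) p_ne
  refine ⟨(-od v (ui (p : 𝓞 K) p_ne)).toNat, ?_, ?_⟩
  · rw [← od_ui_mem v _ p_ne]
    omega
  · rw [← od_ui_mem v _ p_ne]
    push_cast
    omega

theorem pow_one_add {S : Finset (HS K)} {μ : 𝓞 K} (hμ : μ ∈ mm p S) :
    (1 + μ) ^ p - 1 ∈ nn p S := by
  obtain ⟨r, hr⟩ := exists_add_pow_prime_eq hp.out (1 : 𝓞 K) μ
  have h1 : μ ∈ Ideal.span {(p : 𝓞 K)} := Ideal.mul_le_left hμ
  have e : (1 + μ) ^ p - 1 = μ ^ (p - 1) * μ + p * (μ * r) := by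
    rw [hr, one_pow, ← pow_succ, Nat.sub_add_cancel hp.out.one_le]
    ring
  rw [e]
  apply Ideal.add_mem
  · apply Ideal.mul_mem_mul _ hμ
    exact Ideal.pow_mem_of_mem _ h1 _ (by have := hp.out.two_le; omega)
  · exact Ideal.mul_mem_mul (Ideal.mem_span_singleton_self _) (Ideal.mul_mem_right _ _ hμ)

theorem card_ker_aux {A B : Type} [CommRing A] [CommRing B] (f : A →+* B)
    (hsurj : Function.Surjective f) : Nat.card (RingHom.ker f) * Nat.card B = Nat.card A := by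
  have h2 := AddSubgroup.card_mul_index (f.toAddMonoidHom.ker)
  rw [AddSubgroup.index_ker] at h2
  have h3 : f.toAddMonoidHom.range = ⊤ := AddMonoidHom.range_eq_top.2 hsurj
  rw [h3] at h2
  rw [← h2]
  congr 1
  exact (Nat.card_congr AddSubgroup.topEquiv.toEquiv).symm

/-- the number of the elements congruent to zero -/
theorem card_ker (S : Finset (HS K)) (f : 𝓞 K ⧸ nn p S →+* 𝓞 K ⧸ mm p S)
    (hf : Function.Surjective f) : Nat.card (RingHom.ker f) = p ^ Module.finrank ℚ K := by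
  have h1 := card_ker_aux f hf
  have h2 : ∀ I : Ideal (𝓞 K), Nat.card (𝓞 K ⧸ I) = Ideal.absNorm I := fun I => rfl
  have h3 : Ideal.absNorm (nn p S) = p ^ Module.finrank ℚ K * Ideal.absNorm (mm p S) := by
    have h4 : nn p S = Ideal.span {(p : 𝓞 K)} * mm p S := rfl
    rw [h4, map_mul, Ideal.absNorm_span_natCast, RingOfIntegers.rank]
  rw [h2, h2, h3] at h1
  exact Nat.eq_of_mul_eq_mul_right
    (Nat.pos_of_ne_zero (fun h => mm_ne S (Ideal.absNorm_eq_zero_iff.1 h))) h1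

end Pool.Agent.NH7.GU.LocP
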