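import Pool.Agent.NH7.GU.LocB

/-!
# The group of local classes (GU-D3), third part: counting
-/

set_option autoImplicit false
set_option linter.unusedSectionVars false

namespace Pool.Agent.NH7.GU.LocP

open NumberField IsDedekindDomain Pool.Agent.W401.Cheb Pool.Agent.NH7.Sch

variable {K : Type} [Field K] [NumberField K] {p : ℕ} [hp : Fact p.Prime] {ζ : K}
  (hζ : IsPrimitiveRoot ζ p)

/-- the exponent `N` is large enough for `S` -/
theorem deep' (S : Finset (HS K)) (hS : ∀ v : HS K, (p : 𝓞 K) ∈ v.asIdeal → v ∈ S) :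
    ∃ N : ℕ, (∀ x : 𝓞 K, (∀ v ∈ S, x ∈ v.asIdeal ^ N) → x ∈ nn p S) ∧
      ∀ v ∈ S, ∃ k : ℕ, k + 1 ≤ N ∧ (p : 𝓞 K) ∈ v.asIdeal ^ k ∧ (p : 𝓞 K) ∉ v.asIdeal ^ (k + 1) := by
  obtain ⟨N, hN⟩ := deep S (nn p S) (nn_ne S) (nn_supp hS)
  choose k hk1 hk2 using fun v : HS K => exp_p (p := p) v
  refine ⟨N + S.sup (fun v => k v + 1), fun x hx => hN x fun v hv => ?_, fun v hv => ⟨k v, ?_,
    hk1 v, hk2 v⟩⟩
  · exact Ideal.pow_le_pow_right (Nat.le_add_right _ _) (hx v hv)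
  · exact le_trans (Finset.le_sup (f := fun v => k v + 1) hv) (Nat.le_add_left _ _)

theorem mm_le_pow {S : Finset (HS K)} {v : HS K} (hv : v ∈ S) {k : ℕ}
    (hk : (p : 𝓞 K) ∈ v.asIdeal ^ k) : mm p S ≤ v.asIdeal ^ (k + 1) := by
  rw [pow_succ]
  apply Ideal.mul_mono
  · rw [Ideal.span_singleton_le_iff_mem]
    exact hk
  · exact Ideal.prod_le_inf.trans (Finset.inf_le (f := fun v : HS K => v.asIdeal) hv)

include hζ in
/-- there are many elements of order `p` -/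
theorem card_tors (S : Finset (HS K)) (hS : ∀ v : HS K, (p : 𝓞 K) ∈ v.asIdeal → v ∈ S) :
    p ^ (Module.finrank ℚ K + S.card) ≤ Nat.card {x : 𝓞 K ⧸ nn p S // x ^ p = 1} := by
  classical
  have hfin : Finite (𝓞 K ⧸ nn p S) := Ideal.finiteQuotientOfFreeOfNeBot _ (nn_ne S)
  obtain ⟨N, hN1, hN2⟩ := deep' (p := p) S hS
  have hz := hζ.toInteger_isPrimitiveRoot
  have hsd : ∀ {i j : ZMod p}, i ≠ j →
    hζ.toInteger ^ i.val - hζ.toInteger ^ j.val ∣ (p : 𝓞 K) := fun h => sub_dvd hζ h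
  set z := hζ.toInteger with hzdef
  clear_value z
  have hE : ∀ a : S → ZMod p, ∃ y : 𝓞 K, ∀ v (hv : v ∈ S), y - z ^ (a ⟨v, hv⟩).val ∈ v.asIdeal ^ N := by
    intro a
    obtain ⟨y, hy⟩ := crt S N (fun v => if hv : v ∈ S then z ^ (a ⟨v, hv⟩).val else 0)
    refine ⟨y, fun v hv => ?_⟩
    have h1 := hy v hv
    rwa [dif_pos hv] at h1
  choose E hE using hE
  set f := Ideal.Quotient.factor (nn_le (p := p) S) with hf
  have hsurj : Function.Surjective f := Ideal.Quotient.factor_surjective _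
  have hEp : ∀ a, (Ideal.Quotient.mk (nn p S) (E a)) ^ p = 1 := by
    intro a
    rw [← map_pow, ← map_one (Ideal.Quotient.mk (nn p S)), Ideal.Quotient.eq]
    apply hN1
    intro v hv
    have h1 : E a ^ p - 1 = E a ^ p - (z ^ (a ⟨v, hv⟩).val) ^ p := by
      rw [← pow_mul, mul_comm, pow_mul, hz.pow_eq_one, one_pow]
    rw [h1]
    obtain ⟨c, hc⟩ := sub_dvd_pow_sub_pow (E a) (z ^ (a ⟨v, hv⟩).val) p
    rw [hc]
    exact Ideal.mul_mem_right _ _ (hE a v hv)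
  have hker : ∀ r : 𝓞 K ⧸ nn p S, f r = 0 → ∃ μ ∈ mm p S, r = Ideal.Quotient.mk (nn p S) μ := by
    intro r hr
    obtain ⟨μ, rfl⟩ := Ideal.Quotient.mk_surjective r
    rw [hf, Ideal.Quotient.factor_mk, Ideal.Quotient.eq_zero_iff_mem] at hr
    exact ⟨μ, hr, rfl⟩
  have hkp : ∀ r : 𝓞 K ⧸ nn p S, f r = 0 → (1 + r) ^ p = 1 := by
    intro r hr
    obtain ⟨μ, hμ, rfl⟩ := hker r hr
    rw [← map_one (Ideal.Quotient.mk (nn p S)), ← map_add, ← map_pow, Ideal.Quotient.eq]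
    exact pow_one_add hμ
  let ψ : (RingHom.ker f) × (S → ZMod p) → {x : 𝓞 K ⧸ nn p S // x ^ p = 1} := fun ra =>
    ⟨(1 + (ra.1 : 𝓞 K ⧸ nn p S)) * Ideal.Quotient.mk (nn p S) (E ra.2), by
      rw [mul_pow, hkp _ (RingHom.mem_ker.1 ra.1.2), hEp, one_mul]⟩
  have hψ : Function.Injective ψ := by
    rintro ⟨r, a⟩ ⟨r', a'⟩ h
    have h1 : (1 + (r : 𝓞 K ⧸ nn p S)) * Ideal.Quotient.mk (nn p S) (E a) =
      (1 + (r' : 𝓞 K ⧸ nn p S)) * Ideal.Quotient.mk (nn p S) (E a') := congrArg Subtype.val h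
    have h2 := congrArg f h1
    rw [map_mul, map_mul, map_add, map_add, RingHom.mem_ker.1 r.2, RingHom.mem_ker.1 r'.2, map_one,
      add_zero, one_mul, one_mul, hf, Ideal.Quotient.factor_mk, Ideal.Quotient.factor_mk,
      Ideal.Quotient.eq] at h2
    have haa : a = a' := by
      funext v
      by_contra hne
      obtain ⟨k, hkN, hk1, hk2⟩ := hN2 v.1 v.2
      apply hk2
      have h3 : E a - E a' ∈ v.1.asIdeal ^ (k + 1) := mm_le_pow v.2 hk1 h2
      have h4 : E a - z ^ (a v).val ∈ v.1.asIdeal ^ (k + 1) :=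
        Ideal.pow_le_pow_right hkN (hE a v.1 v.2)
      have h5 : E a' - z ^ (a' v).val ∈ v.1.asIdeal ^ (k + 1) :=
        Ideal.pow_le_pow_right hkN (hE a' v.1 v.2)
      have h6 : z ^ (a v).val - z ^ (a' v).val ∈ v.1.asIdeal ^ (k + 1) := by
        have h7 := Ideal.add_mem _ (Ideal.sub_mem _ h3 h4) h5
        rwa [show E a - E a' - (E a - z ^ (a v).val) + (E a' - z ^ (a' v).val) =
          z ^ (a v).val - z ^ (a' v).val by ring] at h7
      exact Ideal.mem_of_dvd _ (hsd hne) h6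
    subst haa
    have hu : IsUnit (Ideal.Quotient.mk (nn p S) (E a)) :=
      IsUnit.of_pow_eq_one (hEp a) hp.out.ne_zero
    have h3 := hu.mul_right_cancel h1
    have h4 : (r : 𝓞 K ⧸ nn p S) = r' := add_left_cancel h3
    rw [Prod.mk.injEq]
    exact ⟨Subtype.ext h4, rfl⟩
  have h1 := Nat.card_le_card_of_injective ψ hψ
  rw [Nat.card_prod, card_ker S f hsurj, Nat.card_fun, Nat.card_zmod, Nat.card_eq_fintype_card,
    Fintype.card_coe] at h1
  rw [pow_add]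
  exact h1

/-- the units modulo the `p`-th powers -/
theorem card_units_mod (A : Type) [CommRing A] [Finite A] :
    Nat.card {x : A // x ^ p = 1} ≤ Nat.card (Aˣ ⧸ (powMonoidHom p : Aˣ →* Aˣ).range) := by
  have h1 : (powMonoidHom p : Aˣ →* Aˣ).range.index = Nat.card (powMonoidHom p : Aˣ →* Aˣ).ker :=
    Subgroup.index_range
  change _ ≤ (powMonoidHom p : Aˣ →* Aˣ).range.index
  rw [h1]
  refine Nat.card_le_card_of_injective (fun x : {x : A // x ^ p = 1} =>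
    (⟨Units.ofPowEqOne x.1 p x.2 hp.out.ne_zero, ?_⟩ : (powMonoidHom p : Aˣ →* Aˣ).ker)) ?_
  · rw [MonoidHom.mem_ker]
    exact Units.ext x.2
  · intro x y h
    have h2 := congrArg (fun u : (powMonoidHom p : Aˣ →* Aˣ).ker => ((u : Aˣ) : A)) h
    exact Subtype.ext h2

end Pool.Agent.NH7.GU.LocP
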