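import Pool.Agent.NH7.GU.Defs

/-!
# Going up for Schneider's conjecture: the statements of the parts

Every `def S_... : Prop` is proved in a file of its own, as a theorem `s_... : S_...`.
-/

set_option autoImplicit false
set_option linter.unusedSectionVars false

namespace Pool.Agent.NH7.GU

open NumberField IsDedekindDomain Pool.Agent.W401.Cheb Pool.Agent.NH7.Sch Filter Topology

/-! ### A. The abstract criterion -/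

/-- A1. The ring `ℤ_p[ζ_p]` exists. -/
def S_cyc : Prop := ∀ (p : ℕ) [Fact p.Prime], ∃ (O : Type) (_ : CommRing O) (_ : Algebra ℤ_[p] O),
  Nonempty (Cyc p O)

/-- A2. The function `(ζ^χ ψ - 1) / (ζ - 1)` and its reduction. -/
def S_bb : Prop := ∀ (p : ℕ) [Fact p.Prime] (O : Type) [CommRing O] [Algebra ℤ_[p] O] (C : Cyc p O)
  (G : Type) [Group G] [TopologicalSpace G] [IsTopologicalGroup G] (d : Dat p G) (c : Chr p G)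
  (r : ℤ), ∃ b : G → O,
    (∀ g, (C.z - 1) * b g = C.z ^ (c.χ g).val * algebraMap ℤ_[p] O (d.psi r g) - 1) ∧
    (∀ g, C.ev (b g) = c.χ g) ∧ IsO C d c r b

/-- A3. The condition at the ramified tame inertia groups. -/
def S_tame : Prop := ∀ (p : ℕ) [Fact p.Prime] (O : Type) [CommRing O] [Algebra ℤ_[p] O]
  (C : Cyc p O) (G : Type) [Group G] [TopologicalSpace G] [IsTopologicalGroup G] (d : Dat p G)
  (c : Chr p G) (r : ℤ) (F : G → O), IsO C d c r F → ∀ i, (∃ g ∈ d.I i, c.χ g ≠ 0) →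
    ∃ a : ZMod p, ∀ g ∈ d.DI i, C.ev (F g) = a * c.χ g

/-- A4. The condition at the decomposition groups above `p` on which `χ` is not trivial. -/
def S_nspl : Prop := ∀ (p : ℕ) [Fact p.Prime] (O : Type) [CommRing O] [Algebra ℤ_[p] O]
  (C : Cyc p O) (G : Type) [Group G] [TopologicalSpace G] [IsTopologicalGroup G] (d : Dat p G)
  (c : Chr p G) (r : ℤ) (F : G → O), IsO C d c r F → ∀ k, (∃ g ∈ d.D k, c.χ g ≠ 0) →
    ∃ a : ZMod p, ∀ g ∈ d.D k, C.ev (F g) = a * c.χ g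

/-- A5. The condition at the decomposition groups above `p` on which `χ` is trivial. -/
def S_spl : Prop := ∀ (p : ℕ) [Fact p.Prime] (O : Type) [CommRing O] [Algebra ℤ_[p] O]
  (C : Cyc p O) (G : Type) [Group G] [TopologicalSpace G] [IsTopologicalGroup G] (d : Dat p G)
  (c : Chr p G) (r : ℤ) (F : G → O), IsO C d c r F → ∀ k, (∀ g ∈ d.D k, c.χ g = 0) →
    ∃ a : ZMod p, ∀ g ∈ d.D k, C.ev (F g) = a * PadicInt.toZMod (d.l k g)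

/-- A6. The criterion: if the residual Selmer group is generated by `χ`, then the `O`-valued cocycles
with the local conditions are coboundaries up to torsion. -/
def S_crit : Prop := ∀ (p : ℕ) [Fact p.Prime] (O : Type) [CommRing O] [Algebra ℤ_[p] O]
  (C : Cyc p O) (G : Type) [Group G] [TopologicalSpace G] [IsTopologicalGroup G] (d : Dat p G)
  (c : Chr p G), SelTriv d c → ∀ (r : ℤ) (F : G → O), IsO C d c r F →
    ∃ t : O, ∀ g, (C.z - 1) * F g =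
      (C.z ^ (c.χ g).val * algebraMap ℤ_[p] O (d.psi r g) - 1) * t

/-- A7. Corestriction with values in a `ℤ_p`-algebra, twisted by a `p`-th root of unity `w`. -/
def S_cor : Prop := ∀ (p : ℕ) [Fact p.Prime] (O : Type) [CommRing O] [Algebra ℤ_[p] O]
  (w : O) (_ : w ^ p = 1)
  (G : Type) [Group G] [TopologicalSpace G] [IsTopologicalGroup G] (d : Dat p G) (c : Chr p G)
  (r : ℤ) (f : G → ℤ_[p]), Coc d r c.ker f → ∃ F : G → O,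
    (∀ g h, F (g * h) = F g + w ^ (c.χ g).val * algebraMap ℤ_[p] O (d.psi r g) * F h) ∧
    (∀ g ∈ c.ker, F g = ∑ i : ZMod p, w ^ i.val *
      algebraMap ℤ_[p] O (d.psi r (c.σ ^ i.val) * f ((c.σ ^ i.val)⁻¹ * g * c.σ ^ i.val))) ∧
    (∀ (n : ℕ) (g : G), ∀ᶠ h in 𝓝 g, algebraMap ℤ_[p] O ((p : ℤ_[p]) ^ n) ∣ F h - F g)

/-- A8. The twisted corestriction of an element of `Ш¹` satisfies the local conditions. -/
def S_corO : Prop := ∀ (p : ℕ) [Fact p.Prime] (O : Type) [CommRing O] [Algebra ℤ_[p] O]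
  (C : Cyc p O) (G : Type) [Group G] [TopologicalSpace G] [IsTopologicalGroup G] (d : Dat p G)
  (c : Chr p G) (r : ℤ) (f : G → ℤ_[p]), Sha d r c.ker f → ∃ F : G → O, IsO C d c r F ∧
    ∀ g ∈ c.ker, F g = ∑ i : ZMod p, C.z ^ i.val *
      algebraMap ℤ_[p] O (d.psi r (c.σ ^ i.val) * f ((c.σ ^ i.val)⁻¹ * g * c.σ ^ i.val))

/-- A9. The corestriction of an element of `Ш¹` is in `Ш¹`. -/
def S_corZ : Prop := ∀ (p : ℕ) [Fact p.Prime]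
  (G : Type) [Group G] [TopologicalSpace G] [IsTopologicalGroup G] (d : Dat p G)
  (c : Chr p G) (r : ℤ) (f : G → ℤ_[p]), Sha d r c.ker f → ∃ F : G → ℤ_[p], Sha d r ⊤ F ∧
    ∀ g ∈ c.ker, F g = ∑ i : ZMod p,
      d.psi r (c.σ ^ i.val) * f ((c.σ ^ i.val)⁻¹ * g * c.σ ^ i.val)

/-- A10. The comparison. -/
def S_cmp : Prop := ∀ (p : ℕ) [Fact p.Prime]
  (G : Type) [Group G] [TopologicalSpace G] [IsTopologicalGroup G] (d : Dat p G)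
  (c : Chr p G), SelTriv d c → ∀ (r : ℤ) (f : G → ℤ_[p]), Sha d r c.ker f →
    ∃ F : G → ℤ_[p], Sha d r ⊤ F ∧ ∃ z : ℤ_[p], ∀ g ∈ c.ker,
      (p : ℤ_[p]) * f g = F g + (d.psi r g - 1) * z

/-- A11. The consequence for the vanishing. -/
def S_van : Prop := ∀ (p : ℕ) [Fact p.Prime]
  (G : Type) [Group G] [TopologicalSpace G] [IsTopologicalGroup G] (d : Dat p G)
  (c : Chr p G), SelTriv d c → ∀ r : ℤ,
    (∀ F : G → ℤ_[p], Sha d r ⊤ F → ∃ z : ℤ_[p], ∀ g, F g = (d.psi r g - 1) * z) →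
    ∀ f : G → ℤ_[p], Sha d r c.ker f → ∃ z : ℤ_[p], ∀ g ∈ c.ker, f g = (d.psi r g - 1) * z

/-! ### B. Local facts -/

/-- B1. An unramified homomorphism which vanishes at a Frobenius element vanishes on the
decomposition group. -/
def S_frd : Prop := ∀ (K : Type) [Field K] [NumberField K] (p : ℕ) [Fact p.Prime]
  (x : GK K → ZMod p), Hm p x → ∀ (v : HS K) (Q : Ideal (OO K)), Q.IsMaximal →
  Q.comap (algebraMap (𝓞 K) (OO K)) = v.asIdeal → (∀ g ∈ Inr Q, x g = 0) → ∀ φ : GK K,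
  (∀ y : OO K, φ • y - y ^ Ideal.absNorm v.asIdeal ∈ Q) → x φ = 0 → ∀ g ∈ Dec Q, x g = 0

/-- B2. The primes of the algebraic closure above `v` are conjugate. -/
def S_cnj : Prop := ∀ (K : Type) [Field K] [NumberField K] (v : HS K) (Q Q' : Ideal (OO K)),
  Q.IsMaximal → Q'.IsMaximal → Q.comap (algebraMap (𝓞 K) (OO K)) = v.asIdeal →
  Q'.comap (algebraMap (𝓞 K) (OO K)) = v.asIdeal → ∃ g : GK K, Q' = mv g Q

/-- B3. The value at a Frobenius element is well defined; an unramified homomorphism which vanishes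
at `fr v` vanishes on the decomposition group of `Qv v`. -/
def S_frv : Prop := ∀ (K : Type) [Field K] [NumberField K] (p : ℕ) [Fact p.Prime]
  (x : GK K → ZMod p), Hm p x → ∀ v : HS K, Unr v x →
    (∀ φ, IsFrob v φ → x φ = x (fr v)) ∧ (x (fr v) = 0 → ∀ g ∈ Dec (Qv v), x g = 0) ∧
    (∃ g ∈ Dec (Qv v), ∀ y : GK K → ZMod p, Hm p y → Unr v y → y g = y (fr v))

/-- B4. The elements congruent to `1` modulo a suitable ideal are local `p`-th powers: tame case. -/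
def S_h0t : Prop := ∀ (K : Type) [Field K] [NumberField K] (p : ℕ) [Fact p.Prime] (ζ : K)
  (hζ : IsPrimitiveRoot ζ p) (v : HS K), (p : 𝓞 K) ∉ v.asIdeal → ∀ (x : 𝓞 K) (hx : x ≠ 0),
    x - 1 ∈ v.asIdeal → ∀ g ∈ Dec (Qv v), kp hζ (ui x hx) g = 0

/-- B5. The elements congruent to `1` modulo a suitable ideal are local `p`-th powers: wild case. -/
def S_h0w : Prop := ∀ (K : Type) [Field K] [NumberField K] (p : ℕ) [Fact p.Prime] (ζ : K)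
  (hζ : IsPrimitiveRoot ζ p) (v : HS K), (p : 𝓞 K) ∈ v.asIdeal → ∀ (x : 𝓞 K) (hx : x ≠ 0),
    ((p : 𝓞 K) ^ 3 ∣ x - 1) → ∀ g ∈ Dec (Qv v), kp hζ (ui x hx) g = 0

/-- B6. A modulus for `H0`. -/
def S_mod : Prop := ∀ (K : Type) [Field K] [NumberField K] (p : ℕ) [Fact p.Prime] (ζ : K)
  (hζ : IsPrimitiveRoot ζ p) (S : Finset (HS K)), (∀ v : HS K, (p : 𝓞 K) ∈ v.asIdeal → v ∈ S) →
    ∃ 𝔪 : Ideal (𝓞 K), 𝔪 ≠ ⊥ ∧ (∀ v : HS K, 𝔪 ≤ v.asIdeal → v ∈ S) ∧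
      ∀ (x : 𝓞 K) (hx : x ≠ 0), x - 1 ∈ 𝔪 → ui x hx ∈ H0 hζ S

/-- B7. The cyclotomic character on the decomposition groups above `p`. -/
def S_cyl : Prop := ∀ (K : Type) [Field K] [NumberField K] (p : ℕ) [Fact p.Prime] (ζ : K)
  (_ : IsPrimitiveRoot ζ p) (_ : p = 2 → ∃ i : K, i ^ 2 = -1) (Q : Ideal (OO K)), Q.IsMaximal →
  (p : OO K) ∈ Q → ∃ (n : ℕ) (l : GK K → ℤ_[p]), 1 ≤ n ∧ (p = 2 → 2 ≤ n) ∧
    (∀ g ∈ Dec Q, ((Pool.Agent.Y802.chi K p g : ℤ_[p]ˣ) : ℤ_[p]) = 1 + (p : ℤ_[p]) ^ n * l g) ∧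
    ∃ g ∈ Dec Q, IsUnit (l g)

/-! ### C. Primes in classes -/

/-- C1. The class groups are finite. -/
def S_cfin : Prop := ∀ (K : Type) [Field K] [NumberField K] (p : ℕ) [Fact p.Prime]
  (S : Finset (HS K)) (H : Subgroup Kˣ) (𝔪 : Ideal (𝓞 K)), 𝔪 ≠ ⊥ →
  (∀ v : HS K, 𝔪 ≤ v.asIdeal → v ∈ S) →
  (∀ (x : 𝓞 K) (hx : x ≠ 0), x - 1 ∈ 𝔪 → ui x hx ∈ H) → Finite (Cq p S H)

/-- C2. The multiplicative function on ideals given by a character of the class group. -/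
def S_chr : Prop := ∀ (K : Type) [Field K] [NumberField K] (p : ℕ) [Fact p.Prime]
  (S : Finset (HS K)) (H : Subgroup Kˣ) (𝔪 : Ideal (𝓞 K)), 𝔪 ≠ ⊥ →
  (∀ v : HS K, 𝔪 ≤ v.asIdeal ↔ v ∈ S) →
  (∀ (x : 𝓞 K) (hx : x ≠ 0), x - 1 ∈ 𝔪 → ui x hx ∈ H) → ∀ ρ : AddChar (Cq p S H) ℂ,
    ∃ η : Ideal (𝓞 K) →*₀ ℂ, (∀ 𝔞, η 𝔞 = 0 ∨ ‖η 𝔞‖ = 1) ∧
      (∀ 𝔞 : Ideal (𝓞 K), 𝔞 ≠ ⊥ → (η 𝔞 ≠ 0 ↔ IsCoprime 𝔞 𝔪)) ∧
      (∀ x : 𝓞 K, x ≠ 0 → x - 1 ∈ 𝔪 → η (Ideal.span {x}) = 1) ∧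
      ∀ v ∉ S, η v.asIdeal = ρ (cl p S H v)

/-- C3. The prime sum of a nontrivial character is bounded near `s = 1`. -/
def S_lnt : Prop := ∀ (K : Type) [Field K] [NumberField K] [IsTotallyComplex K]
  (𝔪 : Ideal (𝓞 K)) (_ : 𝔪 ≠ ⊥) (η : Ideal (𝓞 K) →*₀ ℂ), (∀ 𝔞, η 𝔞 = 0 ∨ ‖η 𝔞‖ = 1) →
  (∀ 𝔞 : Ideal (𝓞 K), 𝔞 ≠ ⊥ → (η 𝔞 ≠ 0 ↔ IsCoprime 𝔞 𝔪)) →
  (∀ x : 𝓞 K, x ≠ 0 → x - 1 ∈ 𝔪 → η (Ideal.span {x}) = 1) →
  (∃ 𝔞 : Ideal (𝓞 K), 𝔞 ≠ ⊥ ∧ IsCoprime 𝔞 𝔪 ∧ η 𝔞 ≠ 1) →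
    ∃ C : ℝ, ∀ s : ℝ, 1 < s → s < 2 →
      ‖∑' v : HS K, η v.asIdeal * (Real.log (Ideal.absNorm v.asIdeal) : ℂ) *
        ((Ideal.absNorm v.asIdeal : ℝ) ^ (-s) : ℝ)‖ ≤ C

/-- C4. The prime sum without a character; summability. -/
def S_ltr : Prop := ∀ (K : Type) [Field K] [NumberField K],
  (∀ s : ℝ, 1 < s → Summable fun v : HS K => Real.log (Ideal.absNorm v.asIdeal) *
    (Ideal.absNorm v.asIdeal : ℝ) ^ (-s)) ∧
  ∃ C : ℝ, ∀ s : ℝ, 1 < s → s < 2 →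
      |∑' v : HS K, Real.log (Ideal.absNorm v.asIdeal) * (Ideal.absNorm v.asIdeal : ℝ) ^ (-s) -
        1 / (s - 1)| ≤ C

/-- C5. Natural densities bound the prime sums. -/
def S_abl : Prop := ∀ (K : Type) [Field K] [NumberField K] (P : HS K → Prop) (δ : ℝ),
  Tendsto (dens P) atTop (𝓝 δ) → ∀ ε : ℝ, 0 < ε → ∃ C : ℝ, ∀ s : ℝ, 1 < s → s < 2 →
    ∑' v : {v : HS K // P v}, Real.log (Ideal.absNorm (v : HS K).asIdeal) *
      (Ideal.absNorm (v : HS K).asIdeal : ℝ) ^ (-s) ≤ (δ + ε) / (s - 1) + C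

/-- C6. Primes in classes. -/
def S_an : Prop := ∀ (K : Type) [Field K] [NumberField K] [IsTotallyComplex K] (p : ℕ)
  [Fact p.Prime] (S : Finset (HS K)) (H : Subgroup Kˣ) (𝔪 : Ideal (𝓞 K)), 𝔪 ≠ ⊥ →
  (∀ v : HS K, 𝔪 ≤ v.asIdeal → v ∈ S) →
  (∀ (x : 𝓞 K) (hx : x ≠ 0), x - 1 ∈ 𝔪 → ui x hx ∈ H) → ∀ (P : HS K → Prop) (δ : ℝ),
  Tendsto (dens P) atTop (𝓝 δ) → ∀ T : Set (Cq p S H),
  δ + (T.ncard : ℝ) / (Nat.card (Cq p S H) : ℝ) < 1 →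
    {v : HS K | v ∉ S ∧ ¬ P v ∧ cl p S H v ∉ T}.Infinite

/-! ### D. Counting and the choice of primes -/

/-- D1. Units modulo `p`-th powers. -/
def S_unt : Prop := ∀ (K : Type) [Field K] [NumberField K] [IsTotallyComplex K] (p : ℕ)
  [Fact p.Prime] (ζ : K) (_ : IsPrimitiveRoot ζ p), ∃ B : Finset Kˣ,
    B.card ≤ p ^ (Module.finrank ℚ K / 2) ∧
    ∀ κ : Kˣ, (∀ v : HS K, od v κ = 0) → ∃ b ∈ B, ∃ s : Kˣ, κ = b * s ^ p

/-- D2. The elements whose divisor outside `S` is divisible by `p`, if the `S`-class group is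
trivial. -/
def S_sun : Prop := ∀ (K : Type) [Field K] [NumberField K] [IsTotallyComplex K] (p : ℕ)
  [Fact p.Prime] (ζ : K) (_ : IsPrimitiveRoot ζ p) (S : Finset (HS K)),
  (∀ n : HS K →₀ ℤ, ∃ κ : Kˣ, ∀ v ∉ S, n v = od v κ) → ∃ B : Finset Kˣ,
    B.card ≤ p ^ (S.card + Module.finrank ℚ K / 2) ∧
    ∀ κ : Kˣ, (∀ v ∉ S, (p : ℤ) ∣ od v κ) → ∃ b ∈ B, ∃ s : Kˣ, κ = b * s ^ p

/-- D3. The group of local classes is large. -/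
def S_loc : Prop := ∀ (K : Type) [Field K] [NumberField K] (p : ℕ) [Fact p.Prime] (ζ : K)
  (hζ : IsPrimitiveRoot ζ p) (S : Finset (HS K)), (∀ v : HS K, (p : 𝓞 K) ∈ v.asIdeal → v ∈ S) →
    Finite (Kˣ ⧸ H0 hζ S) ∧ p ^ (2 * S.card + Module.finrank ℚ K) ≤ Nat.card (Kˣ ⧸ H0 hζ S)

/-- D4. Selmer groups are finite. -/
def S_sfin : Prop := ∀ (K : Type) [Field K] [NumberField K] [IsTotallyComplex K] (p : ℕ)
  [Fact p.Prime] (ζ : K)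
  (_ : IsPrimitiveRoot ζ p) (S : Finset (HS K)) (lam : HS K → GK K → ZMod p),
    Finite (Sel p S lam)

/-- D5. The class group of the Selmer conditions is large. -/
def S_ct : Prop := ∀ (K : Type) [Field K] [NumberField K] [IsTotallyComplex K] (p : ℕ)
  [Fact p.Prime] (ζ : K) (hζ : IsPrimitiveRoot ζ p) (S : Finset (HS K)),
  (∀ v : HS K, (p : 𝓞 K) ∈ v.asIdeal → v ∈ S) →
  (∀ n : HS K →₀ ℤ, ∃ κ : Kˣ, ∀ v ∉ S, n v = od v κ) → ∀ lam : HS K → GK K → ZMod p,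
    Nat.card (Sel p S lam) * p ^ (Module.finrank ℚ K / 2) ≤ Nat.card (Cq p S (HL hζ S lam))

/-- D6. Chebotarev's theorem for a finite space of homomorphisms. -/
def S_ch : Prop := ∀ (K : Type) [Field K] [NumberField K] (p : ℕ) [Fact p.Prime]
  (S : Finset (HS K)) (A : Submodule (ZMod p) (GK K → ZMod p)), Finite A →
  (∀ x ∈ A, Hm p x) → (∀ x ∈ A, ∀ v ∉ S, Unr v x) →
  ∀ B : Submodule (ZMod p) (Module.Dual (ZMod p) A),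
    Tendsto (dens fun v : HS K => ∃ f ∈ B, ∀ x : A, (x : GK K → ZMod p) (fr v) = f x) atTop
      (𝓝 ((Nat.card B : ℝ) / (Nat.card A : ℝ)))

/-- D7. The choice of three primes. -/
def S_pick : Prop := ∀ (K : Type) [Field K] [NumberField K] [IsTotallyComplex K] (p : ℕ)
  [Fact p.Prime] (ζ : K) (hζ : IsPrimitiveRoot ζ p) (S : Finset (HS K)),
  (∀ v : HS K, (p : 𝓞 K) ∈ v.asIdeal → v ∈ S) →
  (∀ n : HS K →₀ ℤ, ∃ κ : Kˣ, ∀ v ∉ S, n v = od v κ) → ∀ lam : HS K → GK K → ZMod p,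
  p ^ 2 ≤ Nat.card (Sel p S lam) →
    ∃ (v₁ v₂ v₃ : HS K) (κ : Kˣ), v₁ ∉ S ∧ v₂ ∉ S ∧ v₃ ∉ S ∧ v₁ ≠ v₂ ∧ v₁ ≠ v₃ ∧ v₂ ≠ v₃ ∧
      κ ∈ H0 hζ S ∧
      (∀ v ∉ S, (p : ℤ) ∣ (Finsupp.single v₁ 1 + Finsupp.single v₂ 1 + Finsupp.single v₃ 1 :
        HS K →₀ ℤ) v + od v κ) ∧
      (∀ a b : ℤ, a • cl p S (HL hζ S lam) v₁ + b • cl p S (HL hζ S lam) v₂ = 0 →
        (p : ℤ) ∣ a ∧ (p : ℤ) ∣ b) ∧
      (∀ a b : ZMod p, (∀ x ∈ Sel p S lam, a * x (fr v₁) + b * x (fr v₂) = 0) → a = 0 ∧ b = 0)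

/-- D8. The Selmer group drops. -/
def S_drop : Prop := ∀ (K : Type) [Field K] [NumberField K] (p : ℕ)
  [Fact p.Prime] (ζ : K) (hζ : IsPrimitiveRoot ζ p) (S : Finset (HS K)),
  (∀ v : HS K, (p : 𝓞 K) ∈ v.asIdeal → v ∈ S) → ∀ lam : HS K → GK K → ZMod p,
  Finite (Sel p S lam) →
  ∀ (v₁ v₂ v₃ : HS K) (κ : Kˣ), v₁ ∉ S → v₂ ∉ S → v₃ ∉ S → v₁ ≠ v₂ → v₁ ≠ v₃ → v₂ ≠ v₃ →
      κ ∈ H0 hζ S →
      (∀ v ∉ S, (p : ℤ) ∣ (Finsupp.single v₁ 1 + Finsupp.single v₂ 1 + Finsupp.single v₃ 1 :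
        HS K →₀ ℤ) v + od v κ) →
      (∀ a b : ℤ, a • cl p S (HL hζ S lam) v₁ + b • cl p S (HL hζ S lam) v₂ = 0 →
        (p : ℤ) ∣ a ∧ (p : ℤ) ∣ b) →
      (∀ a b : ZMod p, (∀ x ∈ Sel p S lam, a * x (fr v₁) + b * x (fr v₂) = 0) → a = 0 ∧ b = 0) →
  ∀ χ ∈ Sel p S lam, ∀ (S' : Finset (HS K)) (lam' : HS K → GK K → ZMod p),
    (∀ v, v ∈ S' ↔ v ∈ S ∨ v = v₁ ∨ v = v₂ ∨ v = v₃) →
    (∀ v ∈ S, ∀ g ∈ Dec (Qv v), lam' v g = lam v g) →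
    (∀ v ∈ S', v ∉ S → ∀ g ∈ Dec (Qv v), lam' v g = χ g + kp hζ κ g) →
    Nat.card (Sel p S' lam') * p ≤ Nat.card (Sel p S lam) ∧
    (χ + kp hζ κ) ∈ Sel p S' lam' ∧
    ∀ v ∈ S', v ∉ S → ∃ g ∈ Inr (Qv v), χ g + kp hζ κ g ≠ 0

/-- D9. A first auxiliary character, ramified at new primes and trivial at the given ones. -/
def S_aux : Prop := ∀ (K : Type) [Field K] [NumberField K] [IsTotallyComplex K] (p : ℕ)
  [Fact p.Prime] (ζ : K) (hζ : IsPrimitiveRoot ζ p) (S : Finset (HS K)),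
  (∀ v : HS K, (p : 𝓞 K) ∈ v.asIdeal → v ∈ S) →
    ∃ (v₁ v₂ : HS K) (κ : Kˣ), v₁ ∉ S ∧ v₂ ∉ S ∧ v₁ ≠ v₂ ∧ κ ∈ H0 hζ S ∧
      ∀ v ∉ S, (p : ℤ) ∣ (Finsupp.single v₁ 1 + Finsupp.single v₂ 1 : HS K →₀ ℤ) v + od v κ

/-- D10. Every finite set of primes is contained in one with trivial class group. -/
def S_cls : Prop := ∀ (K : Type) [Field K] [NumberField K] (S : Finset (HS K)),
  ∃ S' : Finset (HS K), S ⊆ S' ∧ ∀ n : HS K →₀ ℤ, ∃ κ : Kˣ, ∀ v ∉ S', n v = od v κ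

/-- D11. The induction: there is a character with prescribed restrictions at the primes in `S₀`,
ramified at the other primes of `S`, whose Selmer group is generated by it. -/
def S_loop : Prop := ∀ (K : Type) [Field K] [NumberField K] [IsTotallyComplex K] (p : ℕ)
  [Fact p.Prime] (ζ : K) (_ : IsPrimitiveRoot ζ p) (S₀ : Finset (HS K)),
  (∀ v : HS K, (p : 𝓞 K) ∈ v.asIdeal → v ∈ S₀) →
  (∀ n : HS K →₀ ℤ, ∃ κ : Kˣ, ∀ v ∉ S₀, n v = od v κ) → ∀ lam : HS K → GK K → ZMod p,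
  ∀ χ₀ ∈ Sel p S₀ lam, ∃ (S : Finset (HS K)) (χ : GK K → ZMod p), S₀ ⊆ S ∧ S₀ ≠ S ∧ Hm p χ ∧
    (∀ v ∈ S₀, ∀ g ∈ Dec (Qv v), χ g = χ₀ g) ∧
    (∀ v ∈ S, v ∉ S₀ → ∃ g ∈ Inr (Qv v), χ g ≠ 0) ∧ (∀ v ∉ S, Unr v χ) ∧
    ∀ lam' : HS K → GK K → ZMod p, (∀ v ∈ S₀, ∀ g ∈ Dec (Qv v), lam' v g = lam v g) →
      (∀ v ∈ S, v ∉ S₀ → ∀ g ∈ Dec (Qv v), lam' v g = χ g) →
      ∀ x ∈ Sel p S lam', ∃ a : ZMod p, ∀ g, x g = a * χ g

end Pool.Agent.NH7.GU
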