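import Mathlib
import Pool.Agent.NH7.GU.Stms

/-!
# The condition at the decomposition groups above `p` on which `χ` is trivial
-/

set_option autoImplicit false
set_option linter.unusedSectionVars false

namespace Pool.Agent.NH7.GU

namespace SplP

variable {p : ℕ} [hp : Fact p.Prime]

theorem zmod_p : PadicInt.toZMod (p : ℤ_[p]) = 0 := by
  rw [map_natCast, ZMod.natCast_self]

theorem geo {n : ℕ} (hn : 1 ≤ n) (hn2 : p = 2 → 2 ≤ n) (l : ℤ_[p]) :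
    ∃ w : ℤ_[p], ∑ i ∈ Finset.range p, (1 + (p : ℤ_[p]) ^ n * l) ^ i = p * (1 + p * w) := by
  obtain ⟨k, rfl⟩ : ∃ k, n = k + 1 := ⟨n - 1, by omega⟩
  rcases hp.out.eq_two_or_odd' with h2 | hodd
  · obtain ⟨j, rfl⟩ : ∃ j, k = j + 1 := ⟨k - 1, by have := hn2 h2; omega⟩
    subst h2
    refine ⟨2 ^ j * l, ?_⟩
    rw [Finset.sum_range_succ, Finset.sum_range_one]
    push_cast
    ring
  · obtain ⟨w, hw⟩ := odd_sq_dvd_geom_sum₂_sub (1 : ℤ_[p]) ((p : ℤ_[p]) ^ k * l) hodd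
    refine ⟨w, ?_⟩
    simp only [one_pow, mul_one] at hw
    have h1 : (1 : ℤ_[p]) + (p : ℤ_[p]) ^ (k + 1) * l = 1 + p * ((p : ℤ_[p]) ^ k * l) := by ring
    rw [h1]
    linear_combination hw

theorem pow_p {n : ℕ} (hn : 1 ≤ n) (hn2 : p = 2 → 2 ≤ n) (l : ℤ_[p]) :
    ∃ l' : ℤ_[p], (1 + (p : ℤ_[p]) ^ n * l) ^ p = 1 + (p : ℤ_[p]) ^ (n + 1) * l' ∧
      PadicInt.toZMod l' = PadicInt.toZMod l := by
  obtain ⟨w, hw⟩ := geo hn hn2 l
  refine ⟨l * (1 + p * w), ?_, ?_⟩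
  · have h1 := geom_sum_mul (1 + (p : ℤ_[p]) ^ n * l) p
    rw [hw] at h1
    linear_combination -h1
  · rw [map_mul, map_add, map_mul, zmod_p, zero_mul, map_one, add_zero, mul_one]

theorem pow_pv {n : ℕ} (hn : 1 ≤ n) (hn2 : p = 2 → 2 ≤ n) (l : ℤ_[p]) (v : ℕ) :
    ∃ l' : ℤ_[p], (1 + (p : ℤ_[p]) ^ n * l) ^ (p ^ v) = 1 + (p : ℤ_[p]) ^ (n + v) * l' ∧
      PadicInt.toZMod l' = PadicInt.toZMod l := by
  induction v with
  | zero => exact ⟨l, by rw [pow_zero, pow_one, add_zero], rfl⟩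
  | succ v ih =>
    obtain ⟨l', h1, h2⟩ := ih
    obtain ⟨l'', h3, h4⟩ := pow_p (n := n + v) (by omega) (fun h => by have := hn2 h; omega) l'
    refine ⟨l'', ?_, h4.trans h2⟩
    rw [pow_succ, pow_mul, h1, h3, add_assoc]

theorem pow_m {n : ℕ} (hn : 1 ≤ n) (l : ℤ_[p]) (m : ℕ) :
    ∃ l' : ℤ_[p], (1 + (p : ℤ_[p]) ^ n * l) ^ m = 1 + (p : ℤ_[p]) ^ n * l' ∧
      PadicInt.toZMod l' = m * PadicInt.toZMod l := by
  refine ⟨l * ∑ i ∈ Finset.range m, (1 + (p : ℤ_[p]) ^ n * l) ^ i, ?_, ?_⟩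
  · have h1 := geom_sum_mul (1 + (p : ℤ_[p]) ^ n * l) m
    linear_combination -h1
  · have h1 : PadicInt.toZMod (1 + (p : ℤ_[p]) ^ n * l) = 1 := by
      rw [map_add, map_mul, map_pow, zmod_p, zero_pow (by omega), zero_mul, map_one, add_zero]
    rw [map_mul, map_sum]
    simp only [map_pow, h1, one_pow, Finset.sum_const, Finset.card_range, nsmul_eq_mul, mul_one]
    ring

theorem pow_nat {n : ℕ} (hn : 1 ≤ n) (hn2 : p = 2 → 2 ≤ n) (l : ℤ_[p]) (v m : ℕ) :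
    ∃ l' : ℤ_[p], (1 + (p : ℤ_[p]) ^ n * l) ^ (p ^ v * m) = 1 + (p : ℤ_[p]) ^ (n + v) * l' ∧
      PadicInt.toZMod l' = m * PadicInt.toZMod l := by
  obtain ⟨l', h1, h2⟩ := pow_pv hn hn2 l v
  obtain ⟨l'', h3, h4⟩ := pow_m (n := n + v) (by omega) l' m
  exact ⟨l'', by rw [pow_mul, h1, h3], by rw [h4, h2]⟩

theorem pow_int {n : ℕ} (hn : 1 ≤ n) (hn2 : p = 2 → 2 ≤ n) (r : ℤ) (hr : r ≠ 0) :
    ∃ (N : ℕ) (r0 : ZMod p), r0 ≠ 0 ∧ ∀ (u : ℤ_[p]ˣ) (l : ℤ_[p]),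
      (u : ℤ_[p]) = 1 + (p : ℤ_[p]) ^ n * l → ∃ l' : ℤ_[p],
        ((u ^ r : ℤ_[p]ˣ) : ℤ_[p]) = 1 + (p : ℤ_[p]) ^ N * l' ∧
          PadicInt.toZMod l' = r0 * PadicInt.toZMod l := by
  obtain ⟨v, m, hm, hvm⟩ := Nat.exists_eq_pow_mul_and_not_dvd (Int.natAbs_ne_zero.2 hr) p
    hp.out.ne_one
  have hm0 : (m : ZMod p) ≠ 0 := by
    rw [Ne, ZMod.natCast_eq_zero_iff]
    exact hm
  have hnat : ∀ (u : ℤ_[p]ˣ) (l : ℤ_[p]), (u : ℤ_[p]) = 1 + (p : ℤ_[p]) ^ n * l →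
      ∃ l' : ℤ_[p], ((u ^ r.natAbs : ℤ_[p]ˣ) : ℤ_[p]) = 1 + (p : ℤ_[p]) ^ (n + v) * l' ∧
        PadicInt.toZMod l' = m * PadicInt.toZMod l := by
    intro u l hu
    obtain ⟨l', h1, h2⟩ := pow_nat hn hn2 l v m
    exact ⟨l', by rw [Units.val_pow_eq_pow_val, hu, hvm, h1], h2⟩
  rcases Int.natAbs_eq r with h | h
  · refine ⟨n + v, m, hm0, fun u l hu => ?_⟩
    obtain ⟨l', h1, h2⟩ := hnat u l hu
    refine ⟨l', ?_, h2⟩
    rw [h, zpow_natCast]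
    exact h1
  · refine ⟨n + v, -m, neg_ne_zero.2 hm0, fun u l hu => ?_⟩
    obtain ⟨l', h1, h2⟩ := hnat u l hu
    have h3 : u ^ r = (u ^ r.natAbs)⁻¹ := by
      conv_lhs => rw [h]
      rw [zpow_neg, zpow_natCast]
    obtain ⟨w, hw⟩ : ∃ w : ℤ_[p]ˣ, w = u ^ r.natAbs := ⟨_, rfl⟩
    rw [← hw] at h1 h3
    have h4 : (w : ℤ_[p]) * ((w⁻¹ : ℤ_[p]ˣ) : ℤ_[p]) = 1 := Units.mul_inv w
    have h5 : PadicInt.toZMod ((w⁻¹ : ℤ_[p]ˣ) : ℤ_[p]) = 1 := by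
      have h6 := congrArg PadicInt.toZMod h4
      rw [h1, map_mul, map_add, map_mul, map_pow, zmod_p, zero_pow (by omega), zero_mul, map_one,
        add_zero, one_mul] at h6
      exact h6
    refine ⟨-(l' * ((w⁻¹ : ℤ_[p]ˣ) : ℤ_[p])), ?_, ?_⟩
    · rw [h3]
      rw [h1] at h4
      linear_combination h4
    · rw [map_neg, map_mul, h5, mul_one, h2, neg_mul]

end SplP

open SplP

theorem s_spl : S_spl := by
  intro p hp O _ _ C G _ _ _ d c r F hF k hk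
  obtain ⟨n, t, ht⟩ := hF.above k
  have hcan : ∀ (n : ℕ) (x : O), (C.z - 1) ^ n * x = 0 → x = 0 := by
    intro n
    induction n with
    | zero =>
      intro x hx
      rwa [pow_zero, one_mul] at hx
    | succ n ih =>
      intro x hx
      apply ih
      apply C.inj
      rw [← mul_assoc, ← pow_succ']
      exact hx
  by_cases hr : r = 0
  · refine ⟨0, fun g hg => ?_⟩
    have h1 := ht g hg (hk g hg)
    have h2 : d.psi r g = 1 := by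
      unfold Dat.psi
      rw [hr, zpow_zero, Units.val_one]
    rw [h2, map_one, sub_self, zero_mul] at h1
    rw [hcan n _ h1, map_zero, zero_mul]
  · obtain ⟨N, r0, hr0, hpow⟩ := pow_int (p := p) (d.n1 k) (fun h => d.n2 h k) r hr
    have h1 : ∀ g ∈ d.D k, ∃ l' : ℤ_[p], d.psi r g = 1 + (p : ℤ_[p]) ^ N * l' ∧
        PadicInt.toZMod l' = r0 * PadicInt.toZMod (d.l k g) :=
      fun g hg => hpow (d.ε g) (d.l k g) (d.hl k g hg)
    obtain ⟨g0, hg0, hu⟩ := d.hu k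
    obtain ⟨l0, h2, h3⟩ := h1 g0 hg0
    have h4 : PadicInt.toZMod l0 ≠ 0 := by
      rw [h3]
      exact mul_ne_zero hr0 (hu.map PadicInt.toZMod).ne_zero
    have h5 : IsUnit l0 := by
      by_contra hcon
      apply h4
      have h6 : l0 ∈ IsLocalRing.maximalIdeal ℤ_[p] := (IsLocalRing.mem_maximalIdeal _).2 hcon
      rw [← PadicInt.ker_toZMod] at h6
      exact h6
    obtain ⟨u0, hu0⟩ := h5
    refine ⟨PadicInt.toZMod ((u0⁻¹ : ℤ_[p]ˣ) : ℤ_[p]) * r0 * C.ev (F g0), fun g hg => ?_⟩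
    obtain ⟨l', h6, h7⟩ := h1 g hg
    have e1 := ht g0 hg0 (hk g0 hg0)
    have e2 := ht g hg (hk g hg)
    have e3 : l0 * ((u0⁻¹ : ℤ_[p]ˣ) : ℤ_[p]) = 1 := by
      rw [← hu0]
      exact Units.mul_inv u0
    have e4 : d.psi r g - 1 = (d.psi r g0 - 1) * (((u0⁻¹ : ℤ_[p]ˣ) : ℤ_[p]) * l') := by
      rw [h6, h2]
      linear_combination (-(p : ℤ_[p]) ^ N * l') * e3
    have e5 : (C.z - 1) ^ n * (F g - algebraMap ℤ_[p] O (((u0⁻¹ : ℤ_[p]ˣ) : ℤ_[p]) * l') * F g0) =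
        0 := by
      have e6 : algebraMap ℤ_[p] O (d.psi r g) - 1 = (algebraMap ℤ_[p] O (d.psi r g0) - 1) *
          algebraMap ℤ_[p] O (((u0⁻¹ : ℤ_[p]ˣ) : ℤ_[p]) * l') := by
        have e7 := congrArg (algebraMap ℤ_[p] O) e4
        rw [map_mul (algebraMap ℤ_[p] O) (d.psi r g0 - 1), map_sub, map_sub, map_one] at e7
        exact e7
      linear_combination e2 - algebraMap ℤ_[p] O (((u0⁻¹ : ℤ_[p]ˣ) : ℤ_[p]) * l') * e1 + t * e6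
    have e8 := hcan n _ e5
    rw [sub_eq_zero] at e8
    rw [e8, map_mul, C.ev_int, map_mul, h7]
    ring

end Pool.Agent.NH7.GU
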